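import Mathlib

set_option linter.style.haveILetI false

/-!
# Ext: derivations of a field in characteristic zero and transcendence bases
-/

namespace Pool.Agent.Work.MP_4329d7_ag.R

open MvPolynomial TensorProduct

open scoped IntermediateField.algebraAdjoinAdjoin in
/-- a field is formally étale over the polynomial ring in a transcendence basis -/
theorem ext_etale {K : Type} [Field K] [Algebra ℂ K] {ι : Type} {z : ι → K}
    (hz : IsTranscendenceBasis ℂ z) [alg : Algebra (MvPolynomial ι ℂ) K]
    (hal : ∀ p, algebraMap (MvPolynomial ι ℂ) K p = aeval z p) :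
    Algebra.FormallyEtale (MvPolynomial ι ℂ) K := by
  set S := MvPolynomial ι ℂ
  let A := Algebra.adjoin ℂ (Set.range z)
  let L := IntermediateField.adjoin ℂ (Set.range z)
  letI a1 : Algebra S A := (hz.1.aevalEquiv : S ≃ₐ[ℂ] A).toAlgHom.toRingHom.toAlgebra
  have h1 : Algebra.FormallyEtale S A := by
    let e : S ≃ₐ[S] A := { hz.1.aevalEquiv with commutes' := fun s => rfl }
    exact Algebra.FormallyEtale.of_equiv e
  have h2 : Algebra.FormallyEtale A L := .of_isLocalization (nonZeroDivisors _)
  have halg : Algebra.IsAlgebraic L K := hz.isAlgebraic_field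
  have h3 : Algebra.FormallyEtale L K := Algebra.FormallyEtale.of_isSeparable _ K
  letI a2 : Algebra S L := ((algebraMap A L).comp (algebraMap S A)).toAlgebra
  haveI : IsScalarTower S A L := IsScalarTower.of_algebraMap_eq' rfl
  have h4 : Algebra.FormallyEtale S L := .comp S A L
  haveI : IsScalarTower S L K := by
    refine IsScalarTower.of_algebraMap_eq fun p => ?_
    rw [hal p]
    change aeval z p = ((hz.1.aevalEquiv p : A) : K)
    rw [AlgebraicIndependent.aevalEquiv_apply_coe]
  exact .comp S L K

/-- (E1) two derivations of a field with values in a vector space that agree on a transcendence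
basis are equal (characteristic zero). -/
theorem derivation_ext {K M : Type} [Field K] [Algebra ℂ K] [AddCommGroup M] [Module K M]
    [Module ℂ M] [IsScalarTower ℂ K M] {ι : Type} {z : ι → K} (hz : IsTranscendenceBasis ℂ z)
    {D₁ D₂ : Derivation ℂ K M} (h : ∀ i, D₁ (z i) = D₂ (z i)) : D₁ = D₂ := by
  let L := IntermediateField.adjoin ℂ (Set.range z)
  have halg : Algebra.IsAlgebraic L K := hz.isAlgebraic_field
  have h3 : Algebra.FormallyEtale L K := Algebra.FormallyEtale.of_isSeparable _ K
  have hL : ∀ x ∈ L, D₁ x = D₂ x := by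
    intro x hx
    induction hx using IntermediateField.adjoin_induction with
    | mem x hx =>
      obtain ⟨i, rfl⟩ := hx
      exact h i
    | algebraMap c => rw [Derivation.map_algebraMap, Derivation.map_algebraMap]
    | add x y _ _ hx hy => rw [map_add, map_add, hx, hy]
    | inv x _ hx => rw [Derivation.leibniz_inv, Derivation.leibniz_inv, hx]
    | mul x y _ _ hx hy => rw [Derivation.leibniz, Derivation.leibniz, hx, hy]
  have hs : ∀ (l : L) (m : M), l • m = (l : K) • m := fun l m => rfl
  let D : Derivation L K M := Derivation.mk'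
    { toFun := fun x => D₁ x - D₂ x
      map_add' := fun x y => by rw [map_add, map_add]; abel
      map_smul' := fun l x => by
        have h5 : l • x = (l : K) * x := rfl
        rw [h5, Derivation.leibniz, Derivation.leibniz, hL l l.2, RingHom.id_apply, hs]
        rw [smul_sub]
        abel }
    (fun x y => by
      simp only [LinearMap.coe_mk, AddHom.coe_mk, Derivation.leibniz]
      rw [smul_sub, smul_sub]
      abel)
  have hD : D = 0 := by
    have h6 : Subsingleton (Ω[K⁄L]) := inferInstance
    have h7 := D.liftKaehlerDifferential_comp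
    rw [← h7]
    ext x
    change D.liftKaehlerDifferential (KaehlerDifferential.D L K x) = 0
    rw [Subsingleton.elim (KaehlerDifferential.D L K x) 0, map_zero]
  ext x
  have h8 : D x = 0 := by rw [hD]; rfl
  have h9 : D x = D₁ x - D₂ x := rfl
  rw [h9] at h8
  exact sub_eq_zero.1 h8

/-- (E2) existence of a derivation with prescribed values on a transcendence basis. -/
theorem exists_derivation {K M : Type} [Field K] [Algebra ℂ K] [AddCommGroup M] [Module K M]
    [Module ℂ M] [IsScalarTower ℂ K M] {ι : Type} {z : ι → K} (hz : IsTranscendenceBasis ℂ z)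
    (g : ι → M) : ∃ D : Derivation ℂ K M, ∀ i, D (z i) = g i := by
  classical
  letI alg : Algebra (MvPolynomial ι ℂ) K :=
    (aeval z : MvPolynomial ι ℂ →ₐ[ℂ] K).toRingHom.toAlgebra
  have hal : ∀ p, algebraMap (MvPolynomial ι ℂ) K p = aeval z p := fun p => rfl
  haveI t1 : IsScalarTower ℂ (MvPolynomial ι ℂ) K := by
    refine IsScalarTower.of_algebraMap_eq fun c => ?_
    rw [hal, MvPolynomial.algebraMap_eq, aeval_C]
  haveI het : Algebra.FormallyEtale (MvPolynomial ι ℂ) K := ext_etale hz hal
  letI modS : Module (MvPolynomial ι ℂ) M := Module.compHom M (algebraMap (MvPolynomial ι ℂ) K)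
  have hsm : ∀ (p : MvPolynomial ι ℂ) (m : M), p • m = (algebraMap (MvPolynomial ι ℂ) K p) • m :=
    fun p m => rfl
  haveI t2 : IsScalarTower (MvPolynomial ι ℂ) K M := ⟨fun s k m => by
    rw [hsm, Algebra.smul_def, mul_smul]⟩
  haveI t3 : IsScalarTower ℂ (MvPolynomial ι ℂ) M := ⟨fun c s m => by
    rw [hsm, hsm, Algebra.smul_def, map_mul, mul_smul, ← IsScalarTower.algebraMap_apply,
      algebraMap_smul]⟩
  let d : Derivation ℂ (MvPolynomial ι ℂ) M := MvPolynomial.mkDerivation ℂ g
  let l2 : K ⊗[MvPolynomial ι ℂ] (Ω[MvPolynomial ι ℂ⁄ℂ]) →ₗ[K] M :=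
    LinearMap.liftBaseChange K d.liftKaehlerDifferential
  let e := KaehlerDifferential.tensorKaehlerEquivOfFormallyEtale ℂ (MvPolynomial ι ℂ) K
  refine ⟨(l2.comp e.symm.toLinearMap).compDer (KaehlerDifferential.D ℂ K), fun i => ?_⟩
  have h1 : z i = algebraMap (MvPolynomial ι ℂ) K (X i) := by rw [hal, aeval_X]
  change l2 (e.symm.toLinearMap (KaehlerDifferential.D ℂ K (z i))) = g i
  rw [h1]
  have h2 : e.symm.toLinearMap (KaehlerDifferential.D ℂ K (algebraMap (MvPolynomial ι ℂ) K (X i))) =
      (1 : K) ⊗ₜ[MvPolynomial ι ℂ] KaehlerDifferential.D ℂ (MvPolynomial ι ℂ) (X i) :=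
    KaehlerDifferential.tensorKaehlerEquivOfFormallyEtale_symm_D_algebraMap ℂ
      (MvPolynomial ι ℂ) K (X i)
  rw [h2]
  change (LinearMap.liftBaseChange K d.liftKaehlerDifferential) _ = _
  rw [LinearMap.liftBaseChange_tmul, one_smul, Derivation.liftKaehlerDifferential_comp_D]
  exact MvPolynomial.mkDerivation_X ℂ g i

theorem ext_sum_apply {F : Type} [Field F] [Algebra ℂ F] {ι : Type} (s : Finset ι)
    (D : ι → Derivation ℂ F F) (x : F) : (∑ i ∈ s, D i) x = ∑ i ∈ s, D i x := by
  classical
  induction s using Finset.induction_on with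
  | empty => simp
  | insert a s ha ih => rw [Finset.sum_insert ha, Finset.sum_insert ha, Derivation.add_apply, ih]

/-- (E3) Jacobian criterion. -/
theorem jacobian {F : Type} [Field F] [Algebra ℂ F] {ι : Type} [Fintype ι] [DecidableEq ι] {w : ι → F}
    (hw : IsTranscendenceBasis ℂ w) (D : ι → Derivation ℂ F F)
    (hD : ∀ i j, D i (w j) = if i = j then 1 else 0) {n : ℕ} {y : Fin n → F}
    (hy : AlgebraicIndependent ℂ y) {g : Fin n → F} (hg : ∀ i, ∑ b, g b * D i (y b) = 0) :
    g = 0 := by
  classical
  obtain ⟨s, hs, hsb⟩ := exists_isTranscendenceBasis_superset (R := ℂ)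
    ((AlgebraicIndependent.coe_range hy : AlgebraicIndepOn ℂ id (Set.range y)))
  funext b
  let yi : Fin n → s := fun c => ⟨y c, hs ⟨c, rfl⟩⟩
  obtain ⟨E, hE⟩ := exists_derivation (M := F) hsb (fun x : s => if x = yi b then 1 else 0)
  have h1 : ∀ c, E (y c) = if c = b then 1 else 0 := by
    intro c
    have h2 := hE (yi c)
    rw [h2]
    have h3 : yi c = yi b ↔ c = b := by
      constructor
      · intro h
        exact hy.injective (congrArg Subtype.val h)
      · rintro rfl
        rfl
    by_cases h4 : c = b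
    · rw [if_pos h4, if_pos (h3.2 h4)]
    · rw [if_neg h4, if_neg fun h => h4 (h3.1 h)]
  have h5 : E = ∑ i, E (w i) • D i := by
    refine derivation_ext hw fun j => ?_
    rw [ext_sum_apply]
    simp only [Derivation.coe_smul, Pi.smul_apply, hD, smul_eq_mul, mul_ite, mul_one, mul_zero]
    rw [Finset.sum_ite_eq' Finset.univ j, if_pos (Finset.mem_univ j)]
  have h6 : ∀ c, E (y c) = ∑ i, E (w i) * D i (y c) := by
    intro c
    conv_lhs => rw [h5]
    rw [ext_sum_apply]
    simp only [Derivation.coe_smul, Pi.smul_apply, smul_eq_mul]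
  calc g b = ∑ c, g c * E (y c) := by
        simp only [h1, mul_ite, mul_one, mul_zero]
        rw [Finset.sum_ite_eq' Finset.univ b, if_pos (Finset.mem_univ b)]
    _ = ∑ c, ∑ i, E (w i) * (g c * D i (y c)) := by
        refine Finset.sum_congr rfl fun c _ => ?_
        rw [h6, Finset.mul_sum]
        exact Finset.sum_congr rfl fun i _ => by ring
    _ = ∑ i, E (w i) * ∑ c, g c * D i (y c) := by
        rw [Finset.sum_comm]
        exact Finset.sum_congr rfl fun i _ => by rw [Finset.mul_sum]
    _ = 0 := by
        simp only [hg, mul_zero, Finset.sum_const_zero]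

end Pool.Agent.Work.MP_4329d7_ag.R
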