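import Mathlib

/-!
Tensor differentials and rational connectedness for function fields over `ℂ`.
-/

namespace Pool.Agent.Work.MP_4329d7_ag.FF

/-- Tensor forms of order `m` on a field `K` over `ℂ`: the `K`-multilinear forms in `m` variables
on the space of `ℂ`-linear derivations of `K`. -/
abbrev TensorForm (K : Type) [Field K] [Algebra ℂ K] (m : ℕ) : Type :=
  MultilinearMap K (fun _ : Fin m => Derivation ℂ K K) K

/-- `T` is regular at the discrete valuation `v` (with valuation ring `O`): it is an
`O`-linear combination of the forms `D ↦ ∏ j, D j (g j)` with all `g j` in `O`, that is `T` comes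
from the `m`-th tensor power of the module of Kähler differentials of `O`. -/
def IsRegularAt {K : Type} [Field K] [Algebra ℂ K] {m : ℕ}
    (v : Valuation K (WithZero (Multiplicative ℤ))) (T : TensorForm K m) : Prop :=
  ∃ (r : ℕ) (c : Fin r → K) (g : Fin r → Fin m → K),
    (∀ i, v (c i) ≤ 1) ∧ (∀ i j, v (g i j) ≤ 1) ∧
    ∀ D : Fin m → Derivation ℂ K K, T D = ∑ i, c i * ∏ j, D j (g i j)

/-- `T` is a regular tensor differential: it is regular at every discrete valuation of `K`
which is trivial on `ℂ`. -/
def IsRegular {K : Type} [Field K] [Algebra ℂ K] {m : ℕ} (T : TensorForm K m) : Prop :=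
  ∀ v : Valuation K (WithZero (Multiplicative ℤ)),
    (∀ c : ℂ, v (algebraMap ℂ K c) ≤ 1) → IsRegularAt v T

/-- `ψ` is the embedding `f(t) ↦ f(t₂)` of `E(t)` in `E(t₁)(t₂)`; the embedding `f(t) ↦ f(t₁)` is
`RatFunc.C`. -/
def IsSecondVariable {E : Type} [Field E] (ψ : RatFunc E →+* RatFunc (RatFunc E)) : Prop :=
  ψ RatFunc.X = RatFunc.X ∧ ∀ e : E, ψ (RatFunc.C e) = RatFunc.C (RatFunc.C e)

/-- The map from `K ⊗ K` to `E(t₁)(t₂)` given by `φ` at `t₁` on the left and `φ` at `t₂` on the
right is injective, in the form: if the `a i` are linearly independent over `ℂ` and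
`∑ i, φ (a i)(t₁) * φ (b i)(t₂) = 0` then all `b i` are zero. -/
def IsDominantPair {K E : Type} [Field K] [Algebra ℂ K] [Field E] [Algebra ℂ E]
    (φ : K →ₐ[ℂ] RatFunc E) (ψ : RatFunc E →+* RatFunc (RatFunc E)) : Prop :=
  ∀ (r : ℕ) (a b : Fin r → K), LinearIndependent ℂ a →
    ∑ i, RatFunc.C (φ (a i)) * ψ (φ (b i)) = 0 → b = 0

/-- Rational connectedness of a function field `K` over `ℂ`: there are a finitely generated field
`E` over `ℂ` (the function field of a parameter variety `B`) and a homomorphism `φ` from `K` to the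
rational function field `E(t)` (a rational map from `B × ℙ¹` to `X`) such that the two-point
evaluation `B × ℙ¹ × ℙ¹ ⇢ X × X` of this family of rational curves is dominant. -/
def RationallyConnected (K : Type) [Field K] [Algebra ℂ K] : Prop :=
  ∃ (E : Type) (_ : Field E) (_ : Algebra ℂ E) (φ : K →ₐ[ℂ] RatFunc E)
    (ψ : RatFunc E →+* RatFunc (RatFunc E)),
    Algebra.EssFiniteType ℂ E ∧ IsSecondVariable ψ ∧ IsDominantPair φ ψ

end Pool.Agent.Work.MP_4329d7_ag.FF
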