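import Mathlib

/-!
The Gauss extension of a valuation to the rational function field, and specialisation.
-/

namespace Pool.Agent.Work.MP_4329d7_ag.R

open Polynomial WithZero

variable {K : Type} [Field K] (v : Valuation K ℤᵐ⁰)

/-- the Gauss norm -/
noncomputable def gs (p : K[X]) : ℤᵐ⁰ := p.support.sup fun i => v (p.coeff i)

variable {v}

lemma gs_le {p : K[X]} {c : ℤᵐ⁰} : gs v p ≤ c ↔ ∀ i, v (p.coeff i) ≤ c := by
  unfold gs
  rw [Finset.sup_le_iff]
  refine ⟨fun h i => ?_, fun h i _ => h i⟩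
  by_cases hi : i ∈ p.support
  · exact h i hi
  · rw [notMem_support_iff.1 hi, map_zero]; exact zero_le

lemma coeff_le (p : K[X]) (i : ℕ) : v (p.coeff i) ≤ gs v p := gs_le.1 le_rfl i

lemma exists_gs {p : K[X]} (hp : p ≠ 0) : ∃ i, v (p.coeff i) = gs v p := by
  unfold gs
  obtain ⟨i, _, hi⟩ := Finset.exists_mem_eq_sup p.support
    (support_nonempty.2 hp) (fun i => v (p.coeff i))
  exact ⟨i, hi.symm⟩

lemma gs_pos {p : K[X]} (hp : p ≠ 0) : 0 < gs v p := by
  refine lt_of_lt_of_le ?_ (coeff_le p p.natDegree)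
  rw [zero_lt_iff, Valuation.ne_zero_iff]
  exact leadingCoeff_ne_zero.2 hp

lemma gs_mul (p q : K[X]) : gs v (p * q) = gs v p * gs v q := by
  classical
  by_cases hp : p = 0
  · subst hp; simp [gs]
  by_cases hq : q = 0
  · subst hq; simp [gs]
  have hp0 := gs_pos (v := v) hp
  have hq0 := gs_pos (v := v) hq
  apply le_antisymm
  · rw [gs_le]
    intro k
    rw [coeff_mul]
    refine Valuation.map_sum_le v fun x _ => ?_
    rw [map_mul]
    exact mul_le_mul' (coeff_le p _) (coeff_le q _)
  · have ep := exists_gs (v := v) hp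
    have eq := exists_gs (v := v) hq
    set i0 := Nat.find ep with hi0
    set j0 := Nat.find eq with hj0
    have hi := Nat.find_spec ep
    have hj := Nat.find_spec eq
    have hi' : ∀ i < i0, v (p.coeff i) < gs v p := fun i h =>
      lt_of_le_of_ne (coeff_le p i) (Nat.find_min ep h)
    have hj' : ∀ j < j0, v (q.coeff j) < gs v q := fun j h =>
      lt_of_le_of_ne (coeff_le q j) (Nat.find_min eq h)
    refine le_trans (le_of_eq ?_) (coeff_le (p * q) (i0 + j0))
    rw [coeff_mul, ← Finset.add_sum_erase _ _ (Finset.HasAntidiagonal.mem_antidiagonal.2 rfl :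
      (i0, j0) ∈ Finset.HasAntidiagonal.antidiagonal (i0 + j0))]
    have h1 : v (p.coeff i0 * q.coeff j0) = gs v p * gs v q := by rw [map_mul, hi, hj]
    rw [Valuation.map_add_eq_of_lt_left, h1]
    rw [h1]
    refine Valuation.map_sum_lt v (mul_pos hp0 hq0).ne' fun x hx => ?_
    obtain ⟨hne, hx⟩ := Finset.mem_erase.1 hx
    rw [Finset.HasAntidiagonal.mem_antidiagonal] at hx
    rw [map_mul]
    rcases lt_or_ge x.1 i0 with h | h
    · exact (mul_le_mul' le_rfl (coeff_le q _)).trans_lt (mul_lt_mul_of_pos_right (hi' _ h) hq0)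
    · have h2 : x.2 < j0 := by
        by_contra h3
        apply hne
        ext <;> simp <;> omega
      exact (mul_le_mul' (coeff_le p _) le_rfl).trans_lt (mul_lt_mul_of_pos_left (hj' _ h2) hp0)


lemma gs_add (p q : K[X]) : gs v (p + q) ≤ max (gs v p) (gs v q) := by
  rw [gs_le]
  intro i
  rw [coeff_add]
  exact (Valuation.map_add v _ _).trans (max_le_max (coeff_le p i) (coeff_le q i))

lemma gs_C (a : K) : gs v (C a) = v a := by
  apply le_antisymm
  · rw [gs_le]
    intro i
    rw [coeff_C]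
    split_ifs
    · exact le_rfl
    · rw [map_zero]; exact zero_le
  · have := coeff_le (v := v) (C a) 0
    rwa [coeff_C_zero] at this

variable (v) in
/-- the Gauss valuation on polynomials -/
noncomputable def gsVal : Valuation K[X] ℤᵐ⁰ where
  toFun := gs v
  map_zero' := by simp [gs]
  map_one' := by rw [← C_1, gs_C, map_one]
  map_mul' := gs_mul
  map_add_le_max' := gs_add

lemma gsVal_supp : nonZeroDivisors K[X] ≤ (gsVal v).supp.primeCompl := by
  intro p hp
  have hp0 := nonZeroDivisors.ne_zero hp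
  change p ∉ (gsVal v).supp
  rw [Valuation.mem_supp_iff]
  exact (gs_pos hp0).ne'

variable (v) in
/-- the Gauss valuation on rational functions -/
noncomputable def gaussVal : Valuation (RatFunc K) ℤᵐ⁰ :=
  (gsVal v).extendToLocalization gsVal_supp (RatFunc K)

lemma gaussVal_alg (p : K[X]) : gaussVal v (algebraMap K[X] (RatFunc K) p) = gs v p :=
  Valuation.extendToLocalization_apply_map_apply _ _ _ _

/-- integral rational functions: normal form -/
lemma exists_normal {f : RatFunc K} (hf : gaussVal v f ≤ 1) : ∃ p q : K[X],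
    gs v p ≤ 1 ∧ gs v q = 1 ∧ f * algebraMap K[X] (RatFunc K) q = algebraMap K[X] (RatFunc K) p := by
  obtain ⟨a, b, hb, rfl⟩ := IsFractionRing.div_surjective (A := K[X]) f
  have hb0 : b ≠ 0 := nonZeroDivisors.ne_zero hb
  have hB0 : algebraMap K[X] (RatFunc K) b ≠ 0 :=
    (map_ne_zero_iff _ (IsFractionRing.injective K[X] (RatFunc K))).2 hb0
  obtain ⟨i, hi⟩ := exists_gs (v := v) hb0
  have hc0 : b.coeff i ≠ 0 := by
    intro h
    rw [h, map_zero] at hi
    exact (gs_pos (v := v) hb0).ne hi
  have h1 : v (b.coeff i)⁻¹ * gs v b = 1 := by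
    rw [← hi, ← map_mul, inv_mul_cancel₀ hc0, map_one]
  have h2 : gs v (C (b.coeff i)⁻¹ * b) = 1 := by rw [gs_mul, gs_C, h1]
  refine ⟨C (b.coeff i)⁻¹ * a, C (b.coeff i)⁻¹ * b, ?_, h2, ?_⟩
  · have h3 : gaussVal v (algebraMap K[X] (RatFunc K) a) ≤
        gaussVal v (algebraMap K[X] (RatFunc K) b) := by
      have h4 := mul_le_mul_left hf (gaussVal v (algebraMap K[X] (RatFunc K) b))
      rwa [← map_mul, div_mul_cancel₀ _ hB0, one_mul] at h4
    rw [gaussVal_alg, gaussVal_alg] at h3
    rw [gs_mul, gs_C, ← h1]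
    exact mul_le_mul' le_rfl h3
  · rw [map_mul, map_mul]
    field_simp

/-- polynomials with small values at infinitely many constants are small. -/
lemma small_of_infinite [Algebra ℂ K] (hv : ∀ c : ℂ, v (algebraMap ℂ K c) ≤ 1) {c : ℤᵐ⁰}
    (d : ℕ) : ∀ q : K[X], q.natDegree ≤ d →
    {a : ℂ | v (q.eval (algebraMap ℂ K a)) < c}.Infinite → ∀ i, v (q.coeff i) < c := by
  have hv1 : ∀ a : ℂ, a ≠ 0 → v (algebraMap ℂ K a) = 1 := by
    intro a ha
    apply le_antisymm (hv a)
    have h1 : v (algebraMap ℂ K a) * v (algebraMap ℂ K a⁻¹) = 1 := by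
      rw [← map_mul, ← map_mul, mul_inv_cancel₀ ha, map_one, map_one]
    calc (1 : ℤᵐ⁰) = v (algebraMap ℂ K a) * v (algebraMap ℂ K a⁻¹) := h1.symm
      _ ≤ v (algebraMap ℂ K a) * 1 := mul_le_mul' le_rfl (hv _)
      _ = _ := mul_one _
  induction d with
  | zero =>
    intro q hq hinf i
    obtain ⟨a, ha⟩ := hinf.nonempty
    rw [eq_C_of_natDegree_le_zero hq] at ha ⊢
    rw [Set.mem_ofPred_eq, eval_C] at ha
    rw [coeff_C]
    split_ifs
    · exact ha
    · rw [map_zero]
      exact lt_of_le_of_lt zero_le ha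
  | succ d ih =>
    intro q hq hinf
    obtain ⟨a, ha⟩ := hinf.nonempty
    set α := algebraMap ℂ K a with hα
    have h1 : (X - C α) * (q /ₘ (X - C α)) + C (q.eval α) = q := by
      have := modByMonic_add_div q (X - C α)
      rw [modByMonic_X_sub_C_eq_C_eval] at this
      rw [add_comm]; exact this
    set q1 := q /ₘ (X - C α) with hq1
    have hd1 : q1.natDegree ≤ d := by
      rw [hq1, natDegree_divByMonic _ (monic_X_sub_C α), natDegree_X_sub_C]
      omega
    have hinf1 : {b : ℂ | v (q1.eval (algebraMap ℂ K b)) < c}.Infinite := by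
      refine (hinf.sdiff (Set.finite_singleton a)).mono ?_
      rintro b ⟨hb, hba⟩
      rw [Set.mem_singleton_iff] at hba
      rw [Set.mem_ofPred_eq] at hb ⊢
      have h2 : q.eval (algebraMap ℂ K b) - q.eval α =
          algebraMap ℂ K (b - a) * q1.eval (algebraMap ℂ K b) := by
        conv_lhs => rw [← h1]
        simp only [eval_add, eval_mul, eval_sub, eval_X, eval_C, sub_self, zero_mul, zero_add,
          map_sub]
        ring
      have h3 : v (q1.eval (algebraMap ℂ K b)) = v (q.eval (algebraMap ℂ K b) - q.eval α) := by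
        rw [h2, map_mul, hv1 _ (sub_ne_zero.2 hba), one_mul]
      rw [h3]
      exact lt_of_le_of_lt (Valuation.map_sub v _ _) (max_lt hb ha)
    have h4 := ih q1 hd1 hinf1
    intro i
    rw [← h1, coeff_add, sub_mul, coeff_sub, coeff_C_mul]
    have hc0 : (0 : ℤᵐ⁰) < c := lt_of_le_of_lt zero_le ha
    refine lt_of_le_of_lt (Valuation.map_add v _ _) (max_lt ?_ ?_)
    · refine lt_of_le_of_lt (Valuation.map_sub v _ _) (max_lt ?_ ?_)
      · cases i with
        | zero => simpa using hc0
        | succ i => rw [coeff_X_mul]; exact h4 i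
      · rw [map_mul]
        exact (mul_le_of_le_one_left' (hv a)).trans_lt (h4 i)
    · rw [coeff_C]
      split_ifs
      · exact ha
      · rw [map_zero]; exact hc0

end Pool.Agent.Work.MP_4329d7_ag.R
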