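import Pool.Agent.Work.MP_4329d7_ag.Ext

/-!
Derivations of the rational function field `E(t)`: the coefficientwise ones and `d/dt`.
-/

namespace Pool.Agent.Work.MP_4329d7_ag.R

open Polynomial

variable {E : Type} [Field E] [Algebra ℂ E]

/-- the variable together with a transcendence basis of `E` is a transcendence basis of `E(t)`. -/
theorem transcendenceBasis_ratFunc {J : Type} {e : J → E} (he : IsTranscendenceBasis ℂ e) :
    IsTranscendenceBasis ℂ
      (Sum.elim (fun _ : Unit => (RatFunc.X : RatFunc E)) (algebraMap E (RatFunc E) ∘ e)) := by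
  refine he.sumElim_comp ?_
  have h1 : IsTranscendenceBasis E (fun _ : Unit => (X : E[X])) := IsTranscendenceBasis.polynomial _ _
  have h3 : Algebra.IsAlgebraic E[X] (RatFunc E) :=
    IsLocalization.isAlgebraic _ (nonZeroDivisors E[X])
  have h4 : FaithfulSMul E[X] (RatFunc E) :=
    (faithfulSMul_iff_algebraMap_injective E[X] (RatFunc E)).2 (IsFractionRing.injective _ _)
  have h5 := h1.algebraMap_comp (A := RatFunc E)
  convert! h5 using 1

/-- action on polynomials of a derivation which is coefficientwise. -/
theorem coeffwise_poly {d : Derivation ℂ (RatFunc E) (RatFunc E)} {δ : Derivation ℂ E E}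
    (hX : d RatFunc.X = 0) (hC : ∀ c : E, d (RatFunc.C c) = RatFunc.C (δ c)) (p : E[X]) :
    ∃ q : E[X], d (algebraMap E[X] (RatFunc E) p) = algebraMap E[X] (RatFunc E) q ∧
      q.natDegree ≤ p.natDegree := by
  refine ⟨∑ k ∈ Finset.range (p.natDegree + 1), monomial k (δ (p.coeff k)), ?_, ?_⟩
  · conv_lhs => rw [p.as_sum_range_C_mul_X_pow]
    rw [map_sum, map_sum, map_sum]
    refine Finset.sum_congr rfl (fun k _ => ?_)
    rw [map_mul, map_pow, RatFunc.algebraMap_C, RatFunc.algebraMap_X, Derivation.leibniz,
      Derivation.leibniz_pow, hX, smul_zero, smul_zero, smul_zero, zero_add, hC, smul_eq_mul,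
      ← C_mul_X_pow_eq_monomial, map_mul, map_pow, RatFunc.algebraMap_C, RatFunc.algebraMap_X,
      mul_comm]
  · refine natDegree_sum_le_of_forall_le _ _ (fun k hk => ?_)
    exact (natDegree_monomial_le _).trans (Nat.lt_succ_iff.1 (Finset.mem_range.1 hk))

/-- action on polynomials of the derivation `d/dt`. -/
theorem ddt_poly {d : Derivation ℂ (RatFunc E) (RatFunc E)}
    (hX : d RatFunc.X = 1) (hC : ∀ c : E, d (RatFunc.C c) = 0) (p : E[X]) :
    d (algebraMap E[X] (RatFunc E) p) = algebraMap E[X] (RatFunc E) (derivative p) := by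
  induction p using Polynomial.induction_on' with
  | add p q hp hq => rw [map_add, map_add, hp, hq, map_add, map_add]
  | monomial k a =>
    rw [← C_mul_X_pow_eq_monomial, map_mul, map_pow, RatFunc.algebraMap_C, RatFunc.algebraMap_X,
      Derivation.leibniz, Derivation.leibniz_pow, hX, hC, smul_zero, add_zero,
      derivative_C_mul_X_pow, map_mul, map_pow, RatFunc.algebraMap_C, RatFunc.algebraMap_X]
    simp only [smul_eq_mul, nsmul_eq_mul, mul_one, map_mul, map_natCast]
    ring

lemma charZero_of_complex : CharZero E := charZero_of_injective_algebraMap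
  (algebraMap ℂ E).injective

/-- the constants of `d/dt` are the elements of `E`. -/
theorem ddt_eq_zero {d : Derivation ℂ (RatFunc E) (RatFunc E)}
    (hX : d RatFunc.X = 1) (hC : ∀ c : E, d (RatFunc.C c) = 0) {f : RatFunc E} (hf : d f = 0) :
    ∃ c : E, f = RatFunc.C c := by
  have := charZero_of_complex (E := E)
  set a := f.num with ha
  set b := f.denom with hb
  have hb0 : b ≠ 0 := f.denom_ne_zero
  set ι := algebraMap E[X] (RatFunc E) with hι
  have hinj : Function.Injective ι := IsFractionRing.injective E[X] (RatFunc E)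
  have hfab : f * ι b = ι a := by
    have hd : ι f.denom ≠ 0 := (map_ne_zero_iff _ hinj).2 f.denom_ne_zero
    have e := RatFunc.num_div_denom f
    rw [div_eq_iff hd] at e
    exact e.symm
  have h1 : f * ι (derivative b) = ι (derivative a) := by
    have h2 := congrArg d hfab
    rw [Derivation.leibniz, hf, smul_zero, add_zero, ddt_poly hX hC, ddt_poly hX hC,
      smul_eq_mul] at h2
    exact h2
  have h3 : a * derivative b = derivative a * b := by
    apply hinj
    rw [map_mul, map_mul, ← hfab, ← h1]
    ring
  have hcop : IsCoprime a b := f.isCoprime_num_denom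
  have h4 : b ∣ derivative b := by
    have : b ∣ a * derivative b := by rw [h3]; exact dvd_mul_left _ _
    exact hcop.symm.dvd_of_dvd_mul_left this
  have h5 : derivative b = 0 := by
    by_contra h
    have h6 := natDegree_le_of_dvd h4 h
    have h7 : b.natDegree ≠ 0 := by
      intro h8
      apply h
      rw [natDegree_eq_zero] at h8
      obtain ⟨c, hc⟩ := h8
      rw [← hc, derivative_C]
    have := natDegree_derivative_lt h7
    omega
  have h8 : derivative a = 0 := by
    rw [h5, mul_zero] at h3
    exact (mul_eq_zero.1 h3.symm).resolve_right hb0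
  have ha' := derivative_eq_zero.1 h8
  have hb' := derivative_eq_zero.1 h5
  rw [natDegree_eq_zero] at ha' hb'
  obtain ⟨α, hα⟩ := ha'
  obtain ⟨β, hβ⟩ := hb'
  refine ⟨α / β, ?_⟩
  have hβ0 : β ≠ 0 := by
    rintro rfl
    rw [map_zero] at hβ
    exact hb0 hβ.symm
  rw [← hα, ← hβ, hι, RatFunc.algebraMap_C, RatFunc.algebraMap_C] at hfab
  have : RatFunc.C β ≠ 0 := (map_ne_zero_iff _ RatFunc.C_injective).2 hβ0
  rw [map_div₀, eq_div_iff this]
  exact hfab

end Pool.Agent.Work.MP_4329d7_ag.R
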