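import Pool.Agent.Work.MP_4329d7_ag.RPsi

/-!
Global consequence on the rational function field `E(t)`.
-/

namespace Pool.Agent.Work.MP_4329d7_ag.R

open WithZero Polynomial

variable {E : Type} [Field E] [Algebra ℂ E] {n : ℕ}

/-- a derivation mapping polynomials to polynomials preserves the finite places. -/
lemma preserve_finite (P : IsDedekindDomain.HeightOneSpectrum E[X])
    (d : Derivation ℂ (RatFunc E) (RatFunc E))
    (hd : ∀ p : E[X], ∃ q : E[X], d (algebraMap E[X] (RatFunc E) p) =
      algebraMap E[X] (RatFunc E) q)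
    (f : RatFunc E) (hf : P.valuation (RatFunc E) f ≤ 1) :
    P.valuation (RatFunc E) (d f) ≤ 1 := by
  obtain ⟨a, b, hb⟩ := P.exists_primeCompl_mul_eq_of_integer (K := RatFunc E) f hf
  set B := algebraMap E[X] (RatFunc E) b with hB
  set A := algebraMap E[X] (RatFunc E) a with hA
  have hvB : P.valuation (RatFunc E) B = 1 := by
    rw [hB, P.valuation_eq_one_iff_notMem]
    exact b.2
  have hB0 : B ≠ 0 := by
    intro h; rw [h, map_zero] at hvB; exact zero_ne_one hvB
  have hfe : f = A / B := by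
    rw [eq_div_iff hB0]
    exact hb
  obtain ⟨qa, hqa⟩ := hd a
  obtain ⟨qb, hqb⟩ := hd b
  have h1 : d f * B = d A - f * d B := by
    have h2 : d (f * B) = d A := by rw [hfe, div_mul_cancel₀ _ hB0]
    rw [Derivation.leibniz, smul_eq_mul, smul_eq_mul] at h2
    linear_combination h2
  have h3 : P.valuation (RatFunc E) (d f * B) ≤ 1 := by
    rw [h1]
    refine (Valuation.map_sub _ _ _).trans (max_le ?_ ?_)
    · rw [hA, hqa]; exact P.valuation_le_one _
    · rw [map_mul, hB, hqb]
      exact mul_le_one' hf (P.valuation_le_one _)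
  rwa [map_mul, hvB, mul_one] at h3

/-- a derivation not raising the valuation of polynomials does not raise the valuation. -/
lemma preserve_log {v : Valuation (RatFunc E) ℤᵐ⁰} (d : Derivation ℂ (RatFunc E) (RatFunc E))
    (hd : ∀ p : E[X], v (d (algebraMap E[X] (RatFunc E) p)) ≤ v (algebraMap E[X] (RatFunc E) p))
    (f : RatFunc E) : v (d f) ≤ v f := by
  obtain ⟨a, b, hb, rfl⟩ := IsFractionRing.div_surjective (A := E[X]) f
  have hb0 : algebraMap E[X] (RatFunc E) b ≠ 0 := by
    have := nonZeroDivisors.ne_zero hb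
    exact (map_ne_zero_iff _ (IsFractionRing.injective E[X] (RatFunc E))).2 this
  set A := algebraMap E[X] (RatFunc E) a with hA
  set B := algebraMap E[X] (RatFunc E) b with hB
  have hvB : v B ≠ 0 := (Valuation.ne_zero_iff v).2 hb0
  have h1 : d (A / B) * B = d A - (A / B) * d B := by
    have h2 : d (A / B * B) = d A := by rw [div_mul_cancel₀ _ hb0]
    rw [Derivation.leibniz, smul_eq_mul, smul_eq_mul] at h2
    linear_combination h2
  have h3 : v (d (A / B) * B) ≤ v (A / B) * v B := by
    rw [h1]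
    refine (Valuation.map_sub _ _ _).trans (max_le ?_ ?_)
    · calc v (d A) ≤ v A := hd a
        _ = v (A / B) * v B := by rw [← map_mul, div_mul_cancel₀ _ hb0]
    · rw [map_mul]
      exact mul_le_mul_right (hd b) _
  rw [map_mul] at h3
  exact le_of_mul_le_mul_right h3 (zero_lt_iff.2 hvB)

/-- The determinant vanishes for a point of `E(t)` when one of the derivations is `d/dt` and the
others are coefficientwise. -/
theorem det_eq_zero [DecidableEq (RatFunc E)] (D : Fin n → Derivation ℂ (RatFunc E) (RatFunc E)) (a₀ : Fin n)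
    (hpoly : ∀ a, ∀ p : E[X], ∃ q : E[X], D a (algebraMap E[X] (RatFunc E) p) =
      algebraMap E[X] (RatFunc E) q)
    (hinf : ∀ a, a ≠ a₀ → ∀ p : E[X], RatFunc.inftyValuation E (D a (algebraMap E[X] (RatFunc E) p))
      ≤ RatFunc.inftyValuation E (algebraMap E[X] (RatFunc E) p))
    (hinf₀ : ∀ p : E[X], RatFunc.inftyValuation E (RatFunc.X * D a₀ (algebraMap E[X] (RatFunc E) p))
      ≤ RatFunc.inftyValuation E (algebraMap E[X] (RatFunc E) p))
    (N : Ix n → ℕ) (hN : 0 < ∑ i, N i) (L : Set (Ix n → ℤ))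
    (hdeg : ∀ ρ ∈ L, ∑ i, ρ i * N i = 0) (hcan : Canonical N L)
    (y : Ix n → RatFunc E) (hy0 : ∀ i, y i ≠ 0) (hys : ∑ i, y i = 0)
    (P : ℕ) (hP : 0 < P) (x : RatFunc E) (hx : x ^ (∑ i, N i) = ∏ i, y i ^ (P * N i))
    (hL : ∀ ρ ∈ L, ∃ w : RatFunc E, w ^ (∑ i, N i) = ∏ i, y i ^ (ρ i * N i)) (f₀ : Ix n) :
    (Mat D f₀ y).det = 0 := by
  classical
  set Ψ := x * (Mat D f₀ y).det ^ P / (∏ i, y i) ^ P with hΨ
  have hx0 : x ≠ 0 := by
    rintro rfl
    rw [zero_pow hN.ne'] at hx
    exact Finset.prod_ne_zero_iff.2 (fun i _ => pow_ne_zero _ (hy0 i)) hx.symm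
  have hprod0 : (∏ i, y i) ≠ 0 := Finset.prod_ne_zero_iff.2 (fun i _ => hy0 i)
  -- finite places
  have hfin : ∀ Q : IsDedekindDomain.HeightOneSpectrum E[X],
      Q.valuation (RatFunc E) Ψ ≤ 1 := by
    intro Q
    obtain ⟨ϖ, hϖ⟩ := Q.valuation_exists_uniformizer (RatFunc E)
    exact psi_local (Q.valuation (RatFunc E)) hϖ D
      (fun a f hf => preserve_finite Q (D a) (hpoly a) f hf) N hN L hdeg hcan y hy0 hys P x hx hL f₀
  obtain ⟨q, hq⟩ := IsDedekindDomain.HeightOneSpectrum.mem_integers_of_valuation_le_one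
    (RatFunc E) Ψ hfin
  -- infinity
  set D' : Fin n → Derivation ℂ (RatFunc E) (RatFunc E) := fun a =>
    if a = a₀ then (RatFunc.X : RatFunc E) • D a₀ else D a with hD'
  have hD'log : ∀ a f, RatFunc.inftyValuation E (D' a f) ≤ RatFunc.inftyValuation E f := by
    intro a f
    refine preserve_log (D' a) (fun p => ?_) f
    simp only [hD']
    split_ifs with h
    · rw [Derivation.smul_apply, smul_eq_mul]; exact hinf₀ p
    · exact hinf a h p
  have hinfv := psi_local (RatFunc.inftyValuation E) (ϖ := 1 / RatFunc.X)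
    (RatFunc.inftyValuation.X_inv E) D' (fun a f hf => (hD'log a f).trans hf)
    N hN L hdeg hcan y hy0 hys P x hx hL f₀
  have hdet : (Mat D' f₀ y).det = RatFunc.X * (Mat D f₀ y).det := by
    set s : Ix n → RatFunc E := fun r => if r = some (some a₀) then RatFunc.X else 1 with hs
    have h1 : Mat D' f₀ y = Matrix.of fun r i => s r * Mat D f₀ y r i := by
      ext r i
      rcases r with _ | _ | a
      · simp [hs, Mat_none]
      · simp [hs, Mat_some_none]
      · simp only [Matrix.of_apply, Mat_some_some, hs, hD']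
        by_cases h : a = a₀
        · subst h; simp
        · have h2 : (some (some a) : Ix n) ≠ some (some a₀) := by
            intro h3; apply h; simpa using h3
          rw [if_neg h, if_neg h2, one_mul]
    rw [h1, Matrix.det_mul_column]
    congr 1
    rw [hs, Finset.prod_ite_eq' Finset.univ (some (some a₀) : Ix n)]
    simp
  have hΨ' : x * (Mat D' f₀ y).det ^ P / (∏ i, y i) ^ P = RatFunc.X ^ P * Ψ := by
    rw [hdet, hΨ]; ring
  rw [hΨ', map_mul, map_pow, RatFunc.inftyValuation.X] at hinfv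
  have hΨ0 : Ψ = 0 := by
    by_contra hne
    have hq0 : q ≠ 0 := by
      rintro rfl
      rw [map_zero] at hq
      exact hne hq.symm
    have h1 : RatFunc.inftyValuation E Ψ = exp (q.natDegree : ℤ) := by
      rw [← hq, RatFunc.inftyValuation_apply, RatFunc.inftyValuation.polynomial E hq0]
    rw [h1, ← exp_nsmul, ← exp_add, ← exp_zero] at hinfv
    have := exp_le_exp.1 hinfv
    rw [nsmul_eq_mul] at this
    have h2 : (0 : ℤ) < P := by exact_mod_cast hP
    have h3 : (0 : ℤ) ≤ (q.natDegree : ℤ) := Int.natCast_nonneg _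
    push_cast at this
    linarith
  rw [hΨ, div_eq_zero_iff] at hΨ0
  rcases hΨ0 with h | h
  · rcases mul_eq_zero.1 h with h | h
    · exact absurd h hx0
    · exact pow_eq_zero_iff hP.ne' |>.1 h
  · exact absurd h (pow_ne_zero _ hprod0)

end Pool.Agent.Work.MP_4329d7_ag.R
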