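import Pool.Agent.Work.MP_4329d7_ag.GaussVal
import Pool.Agent.Work.MP_4329d7_ag.RGlobal
import Pool.Agent.Work.MP_4329d7_ag.RDer
import Pool.Agent.Work.MP_4329d7_ag.FDefs

/-!
Vanishing of regular tensor forms passes from `K` to `K(t)`.
-/

namespace Pool.Agent.Work.MP_4329d7_ag.FF

open R Polynomial WithZero

variable {K : Type} [Field K] [Algebra ℂ K]

/-- the rational function `f` takes the value `a` at the constant `c`. -/
def Sp (c : ℂ) (f : RatFunc K) (a : K) : Prop :=
  ∃ p q : K[X], q.eval (algebraMap ℂ K c) ≠ 0 ∧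
    f * algebraMap K[X] (RatFunc K) q = algebraMap K[X] (RatFunc K) p ∧
    p.eval (algebraMap ℂ K c) = a * q.eval (algebraMap ℂ K c)

omit [Algebra ℂ K] in
lemma algInj : Function.Injective (algebraMap K[X] (RatFunc K)) := IsFractionRing.injective _ _

lemma Sp.add {c : ℂ} {f g : RatFunc K} {a b : K} (hf : Sp c f a) (hg : Sp c g b) :
    Sp c (f + g) (a + b) := by
  obtain ⟨p, q, h1, h2, h3⟩ := hf
  obtain ⟨p', q', h1', h2', h3'⟩ := hg
  refine ⟨p * q' + p' * q, q * q', ?_, ?_, ?_⟩
  · rw [eval_mul]; exact mul_ne_zero h1 h1'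
  · rw [map_add, map_mul, map_mul, map_mul, ← h2, ← h2']; ring
  · simp only [eval_add, eval_mul, h3, h3']; ring

lemma Sp.mul {c : ℂ} {f g : RatFunc K} {a b : K} (hf : Sp c f a) (hg : Sp c g b) :
    Sp c (f * g) (a * b) := by
  obtain ⟨p, q, h1, h2, h3⟩ := hf
  obtain ⟨p', q', h1', h2', h3'⟩ := hg
  refine ⟨p * p', q * q', ?_, ?_, ?_⟩
  · rw [eval_mul]; exact mul_ne_zero h1 h1'
  · rw [map_mul, map_mul, ← h2, ← h2']; ring
  · simp only [eval_mul, h3, h3']; ring

lemma Sp.const (c : ℂ) (a : K) : Sp c (RatFunc.C a) a :=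
  ⟨C a, 1, by simp, by rw [map_one, mul_one, RatFunc.algebraMap_C], by simp⟩

lemma Sp.zero (c : ℂ) : Sp c (0 : RatFunc K) 0 := ⟨0, 1, by simp, by simp, by simp⟩

lemma Sp.one (c : ℂ) : Sp c (1 : RatFunc K) 1 := ⟨1, 1, by simp, by simp, by simp⟩

lemma Sp.sum {ι : Type*} (s : Finset ι) {c : ℂ} {f : ι → RatFunc K} {a : ι → K}
    (h : ∀ i ∈ s, Sp c (f i) (a i)) : Sp c (∑ i ∈ s, f i) (∑ i ∈ s, a i) := by
  classical
  induction s using Finset.induction_on with
  | empty => simpa using Sp.zero c
  | insert i s hi ih =>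
    rw [Finset.sum_insert hi, Finset.sum_insert hi]
    exact (h i (Finset.mem_insert_self i s)).add
      (ih fun j hj => h j (Finset.mem_insert_of_mem hj))

lemma Sp.prod {ι : Type*} (s : Finset ι) {c : ℂ} {f : ι → RatFunc K} {a : ι → K}
    (h : ∀ i ∈ s, Sp c (f i) (a i)) : Sp c (∏ i ∈ s, f i) (∏ i ∈ s, a i) := by
  classical
  induction s using Finset.induction_on with
  | empty => simpa using Sp.one c
  | insert i s hi ih =>
    rw [Finset.prod_insert hi, Finset.prod_insert hi]
    exact (h i (Finset.mem_insert_self i s)).mul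
      (ih fun j hj => h j (Finset.mem_insert_of_mem hj))

lemma Sp.unique {c : ℂ} {f : RatFunc K} {a b : K} (hf : Sp c f a) (hg : Sp c f b) : a = b := by
  obtain ⟨p, q, h1, h2, h3⟩ := hf
  obtain ⟨p', q', h1', h2', h3'⟩ := hg
  have h4 : p * q' = p' * q := by
    apply algInj
    rw [map_mul, map_mul, ← h2, ← h2']; ring
  have h5 := congrArg (eval (algebraMap ℂ K c)) h4
  rw [eval_mul, eval_mul, h3, h3'] at h5
  have h6 : (a - b) * (eval (algebraMap ℂ K c) q * eval (algebraMap ℂ K c) q') = 0 := by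
    linear_combination h5
  rcases mul_eq_zero.1 h6 with h | h
  · exact sub_eq_zero.1 h
  · exact absurd h (mul_ne_zero h1 h1')

/-- the polynomial with coefficients `D` of the coefficients -/
noncomputable def dpoly (D : Derivation ℂ K K) (p : K[X]) : K[X] :=
  ∑ k ∈ Finset.range (p.natDegree + 1), monomial k (D (p.coeff k))

lemma dpoly_eval (D : Derivation ℂ K K) (p : K[X]) (c : ℂ) :
    (dpoly D p).eval (algebraMap ℂ K c) = D (p.eval (algebraMap ℂ K c)) := by
  rw [dpoly, eval_finsetSum, eval_eq_sum_range, map_sum]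
  refine Finset.sum_congr rfl fun k _ => ?_
  rw [eval_monomial, Derivation.leibniz, Derivation.leibniz_pow, Derivation.map_algebraMap,
    smul_zero, smul_zero, smul_zero, zero_add, smul_eq_mul, mul_comm]

/-- a coefficientwise derivation -/
def IsCoeff (d : Derivation ℂ (RatFunc K) (RatFunc K)) (D : Derivation ℂ K K) : Prop :=
  d RatFunc.X = 0 ∧ ∀ c : K, d (RatFunc.C c) = RatFunc.C (D c)

lemma IsCoeff.poly {d : Derivation ℂ (RatFunc K) (RatFunc K)} {D : Derivation ℂ K K}
    (h : IsCoeff d D) (p : K[X]) : d (algebraMap K[X] (RatFunc K) p) =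
      algebraMap K[X] (RatFunc K) (dpoly D p) := by
  conv_lhs => rw [p.as_sum_range_C_mul_X_pow]
  rw [dpoly, map_sum, map_sum, map_sum]
  refine Finset.sum_congr rfl (fun k _ => ?_)
  rw [map_mul, map_pow, RatFunc.algebraMap_C, RatFunc.algebraMap_X, Derivation.leibniz,
    Derivation.leibniz_pow, h.1, smul_zero, smul_zero, smul_zero, zero_add, h.2, smul_eq_mul,
    ← C_mul_X_pow_eq_monomial, map_mul, map_pow, RatFunc.algebraMap_C, RatFunc.algebraMap_X,
    mul_comm]

lemma Sp.deriv {c : ℂ} {f : RatFunc K} {a : K} (hf : Sp c f a)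
    {d : Derivation ℂ (RatFunc K) (RatFunc K)} {D : Derivation ℂ K K}
    (h : IsCoeff d D) : Sp c (d f) (D a) := by
  obtain ⟨p, q, h1, h2, h3⟩ := hf
  refine ⟨dpoly D p * q - p * dpoly D q, q * q, ?_, ?_, ?_⟩
  · rw [eval_mul]; exact mul_ne_zero h1 h1
  · have h4 := congrArg d h2
    rw [Derivation.leibniz, h.poly, h.poly, smul_eq_mul, smul_eq_mul] at h4
    rw [map_sub, map_mul, map_mul, map_mul, ← h4, ← h2]
    ring
  · rw [eval_sub, eval_mul, eval_mul, eval_mul, dpoly_eval, dpoly_eval, h3, Derivation.leibniz,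
      smul_eq_mul, smul_eq_mul]
    ring

theorem exists_coeff (D : Derivation ℂ K K) :
    ∃ d : Derivation ℂ (RatFunc K) (RatFunc K), IsCoeff d D := by
  obtain ⟨s, hs⟩ := exists_isTranscendenceBasis ℂ K
  have h1 := transcendenceBasis_ratFunc hs
  obtain ⟨d, hd⟩ := exists_derivation h1 (Sum.elim (fun _ => 0) fun i => RatFunc.C (D i))
  refine ⟨d, hd (Sum.inl ()), ?_⟩
  have h2 : ∀ i : s, d (RatFunc.C (i : K)) = RatFunc.C (D i) := fun i => hd (Sum.inr i)
  let D₁ : Derivation ℂ K (RatFunc K) := d.compAlgebraMap K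
  let D₂ : Derivation ℂ K (RatFunc K) :=
    (Algebra.linearMap K (RatFunc K)).compDer D
  have h3 : D₁ = D₂ := derivation_ext hs fun i => h2 i
  intro c
  exact congrFun (congrArg DFunLike.coe h3) c

theorem exists_ddt : ∃ d : Derivation ℂ (RatFunc K) (RatFunc K),
    d RatFunc.X = 1 ∧ ∀ c : K, d (RatFunc.C c) = 0 := by
  obtain ⟨s, hs⟩ := exists_isTranscendenceBasis ℂ K
  have h1 := transcendenceBasis_ratFunc hs
  obtain ⟨d, hd⟩ := exists_derivation h1 (Sum.elim (fun _ => (1 : RatFunc K)) fun _ => 0)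
  refine ⟨d, hd (Sum.inl ()), ?_⟩
  have h2 : ∀ i : s, d (RatFunc.C (i : K)) = 0 := fun i => hd (Sum.inr i)
  let D₁ : Derivation ℂ K (RatFunc K) := d.compAlgebraMap K
  have h3 : D₁ = 0 := derivation_ext hs fun i => h2 i
  intro c
  exact congrFun (congrArg DFunLike.coe h3) c


lemma IsCoeff.unique {d d' : Derivation ℂ (RatFunc K) (RatFunc K)} {D : Derivation ℂ K K}
    (h : IsCoeff d D) (h' : IsCoeff d' D) : d = d' := by
  obtain ⟨s, hs⟩ := exists_isTranscendenceBasis ℂ K
  refine derivation_ext (transcendenceBasis_ratFunc hs) fun i => ?_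
  rcases i with i | i
  · exact h.1.trans h'.1.symm
  · exact (h.2 i).trans (h'.2 i).symm

/-- the coefficientwise lift -/
noncomputable def lft (D : Derivation ℂ K K) : Derivation ℂ (RatFunc K) (RatFunc K) :=
  (exists_coeff D).choose

lemma lft_spec (D : Derivation ℂ K K) : IsCoeff (lft D) D := (exists_coeff D).choose_spec

lemma lft_add (D D' : Derivation ℂ K K) : lft (D + D') = lft D + lft D' := by
  refine (lft_spec (D + D')).unique ⟨?_, fun c => ?_⟩
  · rw [Derivation.add_apply, (lft_spec D).1, (lft_spec D').1, add_zero]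
  · rw [Derivation.add_apply, (lft_spec D).2, (lft_spec D').2, Derivation.add_apply, map_add]

lemma lft_smul (c : K) (D : Derivation ℂ K K) : lft (c • D) = RatFunc.C c • lft D := by
  refine (lft_spec (c • D)).unique ⟨?_, fun e => ?_⟩
  · rw [Derivation.smul_apply, (lft_spec D).1, smul_zero]
  · rw [Derivation.smul_apply, (lft_spec D).2, Derivation.smul_apply, smul_eq_mul, smul_eq_mul,
      map_mul]

/-- values of regular forms on coefficientwise derivations and `d/dt` are constants. -/
theorem value_const {m : ℕ} {T : TensorForm (RatFunc K) m} (hT : IsRegular T)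
    (d : Fin m → Derivation ℂ (RatFunc K) (RatFunc K))
    (hd : ∀ j, (∃ D, IsCoeff (d j) D) ∨ (d j RatFunc.X = 1 ∧ ∀ c, d j (RatFunc.C c) = 0)) :
    ∃ τ : K, T d = RatFunc.C τ ∧ ((∃ j, d j RatFunc.X = 1) → τ = 0) := by
  classical
  -- finite places
  have hpoly : ∀ j, ∀ p : K[X], ∃ q : K[X], d j (algebraMap K[X] (RatFunc K) p) =
      algebraMap K[X] (RatFunc K) q ∧ q.natDegree ≤ p.natDegree := by
    intro j p
    rcases hd j with ⟨D, h1, h2⟩ | ⟨h1, h2⟩
    · exact coeffwise_poly h1 h2 p
    · exact ⟨derivative p, ddt_poly h1 h2 p, (natDegree_derivative_le p).trans (Nat.sub_le _ _)⟩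
  have hreg : ∀ (v : Valuation (RatFunc K) ℤᵐ⁰), (∀ c : ℂ, v (algebraMap ℂ (RatFunc K) c) ≤ 1) →
      ∀ d' : Fin m → Derivation ℂ (RatFunc K) (RatFunc K),
      (∀ j g, v g ≤ 1 → v (d' j g) ≤ 1) → v (T d') ≤ 1 := by
    intro v hv d' hd'
    obtain ⟨r, c, g, hc, hg, hTD⟩ := hT v hv
    rw [hTD]
    refine Valuation.map_sum_le v fun i _ => ?_
    rw [map_mul, map_prod]
    exact mul_le_one' (hc i) (Finset.prod_le_one' fun j _ => hd' j _ (hg i j))
  have halgC : ∀ c : ℂ, algebraMap ℂ (RatFunc K) c =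
      algebraMap K[X] (RatFunc K) (C (algebraMap ℂ K c)) := fun c => by
    rw [RatFunc.algebraMap_C, IsScalarTower.algebraMap_apply ℂ K (RatFunc K)]
    rfl
  obtain ⟨q, hq⟩ := IsDedekindDomain.HeightOneSpectrum.mem_integers_of_valuation_le_one
    (RatFunc K) (T d) (fun Q => hreg (Q.valuation (RatFunc K))
      (fun c => by rw [halgC]; exact Q.valuation_le_one _) d
      (fun j g hg => preserve_finite Q (d j) (fun p => by
        obtain ⟨q, hq, _⟩ := hpoly j p
        exact ⟨q, hq⟩) g hg))
  -- infinity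
  set s : Fin m → RatFunc K := fun j => if d j RatFunc.X = 1 then RatFunc.X else 1 with hs
  have hinf : ∀ (p q : K[X]), q.natDegree ≤ p.natDegree → p ≠ 0 →
      RatFunc.inftyValuation K (algebraMap K[X] (RatFunc K) q) ≤
        RatFunc.inftyValuation K (algebraMap K[X] (RatFunc K) p) := by
    intro p q hpq hp
    by_cases hq : q = 0
    · rw [hq, map_zero, map_zero]; exact zero_le
    rw [RatFunc.inftyValuation_apply, RatFunc.inftyValuation_apply,
      RatFunc.inftyValuation.polynomial K hq, RatFunc.inftyValuation.polynomial K hp]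
    exact exp_le_exp.2 (by exact_mod_cast hpq)
  have h3 : RatFunc.inftyValuation K (T fun j => s j • d j) ≤ 1 := by
    refine hreg (RatFunc.inftyValuation K) (fun c => ?_) _ (fun j g hg => ?_)
    · rw [halgC]
      by_cases hc : c = 0
      · simp [hc]
      rw [RatFunc.inftyValuation_apply, RatFunc.inftyValuation.polynomial K
        (by simpa using hc), natDegree_C]
      simp
    · refine (preserve_log (s j • d j) (fun p => ?_) g).trans hg
      rw [Derivation.smul_apply, smul_eq_mul]
      by_cases hp : p = 0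
      · simp [hp]
      rcases hd j with ⟨D, h1, h2⟩ | ⟨h1, h2⟩
      · have : s j = 1 := by rw [hs]; simp [h1]
        rw [this, one_mul]
        obtain ⟨q, hq, hqd⟩ := hpoly j p
        rw [hq]
        exact hinf p q hqd hp
      · have : s j = RatFunc.X := by rw [hs]; simp [h1]
        rw [this, ddt_poly h1 h2, ← RatFunc.algebraMap_X, ← map_mul]
        refine hinf p _ ?_ hp
        by_cases hp1 : p.natDegree = 0
        · obtain ⟨c, rfl⟩ := natDegree_eq_zero.1 hp1
          simp
        · refine natDegree_mul_le.trans ?_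
          have := natDegree_derivative_lt hp1
          have := natDegree_X_le (R := K)
          omega
  rw [MultilinearMap.map_smul_univ, smul_eq_mul, map_mul] at h3
  by_cases hq0 : q = 0
  · refine ⟨0, ?_, fun _ => rfl⟩
    rw [← hq, hq0, map_zero, map_zero]
  have h4 : RatFunc.inftyValuation K (T d) = exp (q.natDegree : ℤ) := by
    rw [← hq, RatFunc.inftyValuation_apply, RatFunc.inftyValuation.polynomial K hq0]
  have hsX : ∀ j, 1 ≤ RatFunc.inftyValuation K (s j) := by
    intro j
    rw [hs]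
    simp only
    split_ifs
    · rw [RatFunc.inftyValuation.X, ← exp_zero]
      exact exp_le_exp.2 (by norm_num)
    · rw [map_one]
  have hsprod : 1 ≤ RatFunc.inftyValuation K (∏ j, s j) := by
    rw [map_prod]
    exact Finset.one_le_prod' fun j _ => hsX j
  have hdeg : q.natDegree = 0 := by
    have h5 : exp (q.natDegree : ℤ) ≤ (1 : ℤᵐ⁰) := by
      rw [← h4]
      calc RatFunc.inftyValuation K (T d) = 1 * RatFunc.inftyValuation K (T d) := (one_mul _).symm
        _ ≤ RatFunc.inftyValuation K (∏ j, s j) * RatFunc.inftyValuation K (T d) :=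
          mul_le_mul' hsprod le_rfl
        _ ≤ 1 := h3
    rw [← exp_zero] at h5
    have := exp_le_exp.1 h5
    omega
  obtain ⟨τ, hτ⟩ := natDegree_eq_zero.1 hdeg
  refine ⟨τ, ?_, ?_⟩
  · rw [← hq, ← hτ, RatFunc.algebraMap_C]
  · rintro ⟨j, hj⟩
    exfalso
    have h6 : RatFunc.inftyValuation K (T d) = 1 := by rw [h4, hdeg]; simp
    rw [h6, mul_one] at h3
    have h7 : exp (1 : ℤ) ≤ RatFunc.inftyValuation K (∏ j, s j) := by
      rw [map_prod, ← Finset.mul_prod_erase _ _ (Finset.mem_univ j)]
      have h8 : RatFunc.inftyValuation K (s j) = exp 1 := by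
        rw [hs]; simp only [if_pos hj]; exact RatFunc.inftyValuation.X K
      rw [h8]
      exact le_mul_of_one_le_right' (Finset.one_le_prod' fun j _ => hsX j)
    have h9 := h7.trans h3
    rw [← exp_zero] at h9
    have := exp_le_exp.1 h9
    omega


/-- the restriction of a regular form to `K` -/
theorem exists_restrict {m : ℕ} {T : TensorForm (RatFunc K) m} (hT : IsRegular T) :
    ∃ TK : TensorForm K m, ∀ D, T (fun j => lft (D j)) = RatFunc.C (TK D) := by
  classical
  have h1 : ∀ D : Fin m → Derivation ℂ K K, ∃ τ : K, T (fun j => lft (D j)) = RatFunc.C τ := by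
    intro D
    obtain ⟨τ, hτ, _⟩ := value_const hT (fun j => lft (D j)) (fun j => Or.inl ⟨_, lft_spec _⟩)
    exact ⟨τ, hτ⟩
  choose f hf using h1
  have hinj : Function.Injective (RatFunc.C : K →+* RatFunc K) := RatFunc.C_injective
  have hup : ∀ (D : Fin m → Derivation ℂ K K) (i : Fin m) (x : Derivation ℂ K K),
      (fun j => lft (Function.update D i x j)) =
        Function.update (fun j => lft (D j)) i (lft x) := by
    intro D i x
    funext j
    by_cases h : j = i
    · subst h; simp
    · simp [h]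
  refine ⟨{ toFun := f, map_update_add' := ?_, map_update_smul' := ?_ }, hf⟩
  · intro dec D i x y
    have hdec : dec = instDecidableEqFin m := Subsingleton.elim _ _
    subst hdec
    apply hinj
    rw [map_add, ← hf, ← hf, ← hf, hup, hup, hup, lft_add, MultilinearMap.map_update_add]
  · intro dec D i c x
    have hdec : dec = instDecidableEqFin m := Subsingleton.elim _ _
    subst hdec
    apply hinj
    rw [smul_eq_mul, map_mul, ← hf, ← hf, hup, hup, lft_smul, MultilinearMap.map_update_smul,
      smul_eq_mul]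

/-- simultaneous specialisation of integral functions -/
theorem exists_special {v : Valuation K ℤᵐ⁰} (hv : ∀ c : ℂ, v (algebraMap ℂ K c) ≤ 1)
    {ι : Type} [Finite ι] (f : ι → RatFunc K) (hf : ∀ i, gaussVal v (f i) ≤ 1) :
    ∃ (c : ℂ) (a : ι → K), ∀ i, v (a i) ≤ 1 ∧ Sp c (f i) (a i) := by
  have h1 := fun i => exists_normal (hf i)
  choose p q hp hq hpq using h1
  have hfin : ∀ i, {a : ℂ | v ((q i).eval (algebraMap ℂ K a)) < 1}.Finite := by
    intro i
    by_contra hinf
    have h2 := small_of_infinite hv (q i).natDegree (q i) le_rfl hinf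
    have hq0 : q i ≠ 0 := by
      intro h0
      have := hq i
      rw [h0] at this
      simp [gs] at this
    obtain ⟨j, hj⟩ := exists_gs (v := v) hq0
    have h3 := h2 j
    rw [hj, hq i] at h3
    exact lt_irrefl _ h3
  have hfin2 : (⋃ i, {a : ℂ | v ((q i).eval (algebraMap ℂ K a)) < 1}).Finite :=
    Set.finite_iUnion hfin
  obtain ⟨c, hc⟩ := hfin2.infinite_compl.nonempty
  have hev : ∀ (r : K[X]), gs v r ≤ 1 → v (r.eval (algebraMap ℂ K c)) ≤ 1 := by
    intro r hr
    rw [eval_eq_sum_range]
    refine Valuation.map_sum_le v fun k _ => ?_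
    rw [map_mul, map_pow]
    exact mul_le_one' ((coeff_le r k).trans hr) (pow_le_one' (hv c) k)
  have hq1 : ∀ i, v ((q i).eval (algebraMap ℂ K c)) = 1 := by
    intro i
    apply le_antisymm (hev _ (hq i).le)
    by_contra h
    apply hc
    exact Set.mem_iUnion.2 ⟨i, not_le.1 h⟩
  have hq0 : ∀ i, (q i).eval (algebraMap ℂ K c) ≠ 0 := by
    intro i h0
    have := hq1 i
    rw [h0, map_zero] at this
    exact zero_ne_one this
  refine ⟨c, fun i => (p i).eval (algebraMap ℂ K c) / (q i).eval (algebraMap ℂ K c), fun i =>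
    ⟨?_, p i, q i, hq0 i, hpq i, ?_⟩⟩
  · rw [map_div₀, hq1, div_one]
    exact hev _ (hp i)
  · rw [div_mul_cancel₀ _ (hq0 i)]

theorem restrict_regular {m : ℕ} {T : TensorForm (RatFunc K) m} (hT : IsRegular T)
    {TK : TensorForm K m} (hTK : ∀ D, T (fun j => lft (D j)) = RatFunc.C (TK D)) :
    IsRegular TK := by
  intro v hv
  obtain ⟨r, c, g, hc, hg, hTD⟩ := hT (gaussVal v) (fun c => by
    have h1 : algebraMap ℂ (RatFunc K) c = algebraMap K[X] (RatFunc K) (C (algebraMap ℂ K c)) := by
      rw [RatFunc.algebraMap_C, IsScalarTower.algebraMap_apply ℂ K (RatFunc K)]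
      rfl
    rw [h1, gaussVal_alg, gs_C]
    exact hv c)
  obtain ⟨e, a, ha⟩ := exists_special hv (ι := Fin r ⊕ (Fin r × Fin m))
    (Sum.elim c fun x => g x.1 x.2) (by
      rintro (i | x)
      · exact hc i
      · exact hg x.1 x.2)
  refine ⟨r, fun i => a (Sum.inl i), fun i j => a (Sum.inr (i, j)), fun i => (ha _).1,
    fun i j => (ha _).1, fun D => ?_⟩
  have h1 : Sp e (T fun j => lft (D j)) (TK D) := by
    rw [hTK]; exact Sp.const e _
  have h2 : Sp e (T fun j => lft (D j)) (∑ i, a (Sum.inl i) * ∏ j, D j (a (Sum.inr (i, j)))) := by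
    rw [hTD]
    refine Sp.sum _ fun i _ => (ha (Sum.inl i)).2.mul (Sp.prod _ fun j _ => ?_)
    exact (ha (Sum.inr (i, j))).2.deriv (lft_spec (D j))
  exact h1.unique h2

/-- vanishing of regular tensor forms passes from `K` to `K(t)`. -/
theorem vanish_ratFunc' {n : ℕ} (htr : Algebra.trdeg ℂ K = n) {m : ℕ}
    (h : ∀ T : TensorForm K m, IsRegular T → T = 0) :
    ∀ T : TensorForm (RatFunc K) m, IsRegular T → T = 0 := by
  classical
  intro T hT
  obtain ⟨s, hs⟩ := exists_isTranscendenceBasis ℂ K
  have hfin : Finite s := by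
    rw [← Cardinal.lt_aleph0_iff_finite]
    have h1 := hs.cardinalMk_eq_trdeg
    rw [h1, htr]
    exact Cardinal.natCast_lt_aleph0
  have : Fintype s := Fintype.ofFinite s
  obtain ⟨TK, hTK⟩ := exists_restrict hT
  have hTK0 := h TK (restrict_regular hT hTK)
  have hdual : ∀ i : s, ∃ D : Derivation ℂ K K, ∀ j : s, D j = if i = j then 1 else 0 :=
    fun i => exists_derivation hs _
  choose δ hδ using hdual
  obtain ⟨dt, hdt1, hdt2⟩ := exists_ddt (K := K)
  have hb := transcendenceBasis_ratFunc hs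
  set dd : Option s → Derivation ℂ (RatFunc K) (RatFunc K) :=
    fun i => match i with | none => dt | some b => lft (δ b) with hdd
  set xx : Option s → RatFunc K := fun i => match i with
    | none => RatFunc.X | some b => RatFunc.C (b : K) with hxx
  have hexp : ∀ D : Derivation ℂ (RatFunc K) (RatFunc K), D = ∑ i, D (xx i) • dd i := by
    intro D
    refine derivation_ext hb fun i => ?_
    rw [R.ext_sum_apply, Fintype.sum_option]
    rcases i with i | i
    · simp only [Sum.elim_inl, Derivation.smul_apply, hdd, hxx, hdt1, smul_eq_mul, mul_one]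
      rw [Finset.sum_eq_zero, add_zero]
      intro b _
      rw [(lft_spec (δ b)).1, mul_zero]
    · simp only [Sum.elim_inr, Derivation.smul_apply, hdd, hxx, smul_eq_mul, Function.comp_apply]
      have h5 : dt (algebraMap K (RatFunc K) (i : K)) = 0 := hdt2 _
      rw [h5, mul_zero, zero_add, Finset.sum_eq_single i]
      · have h6 : (lft (δ i)) (algebraMap K (RatFunc K) (i : K)) = 1 := by
          have := (lft_spec (δ i)).2 (i : K)
          rw [hδ, if_pos rfl, map_one] at this
          exact this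
        rw [h6, mul_one]
        rfl
      · intro b _ hbi
        have h6 : (lft (δ b)) (algebraMap K (RatFunc K) (i : K)) = 0 := by
          have := (lft_spec (δ b)).2 (i : K)
          rw [hδ, if_neg hbi, map_zero] at this
          exact this
        rw [h6, mul_zero]
      · intro h; exact absurd (Finset.mem_univ _) h
  have hword : ∀ w : Fin m → Option s, T (fun j => dd (w j)) = 0 := by
    intro w
    by_cases hw : ∃ j, w j = none
    · obtain ⟨j, hj⟩ := hw
      obtain ⟨τ, h1, h2⟩ := value_const hT (fun j => dd (w j)) (fun j => by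
        rcases w j with _ | b
        · exact Or.inr ⟨hdt1, hdt2⟩
        · exact Or.inl ⟨_, lft_spec _⟩)
      rw [h1, h2 ⟨j, by simp only [hj]; exact hdt1⟩, map_zero]
    · push Not at hw
      have h1 : ∀ j, ∃ b, w j = some b := fun j => Option.ne_none_iff_exists'.1 (hw j)
      choose b hb using h1
      have h2 : (fun j => dd (w j)) = fun j => lft (δ (b j)) := by
        funext j
        rw [hb j]
      rw [h2, hTK (fun j => δ (b j)), hTK0]
      simp
  ext D
  have h7 : D = fun j => ∑ i, D j (xx i) • dd i := funext fun j => hexp (D j)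
  rw [h7]
  have h8 := T.map_sum (α := fun _ => Option s) (fun j i => D j (xx i) • dd i)
  rw [h8, MultilinearMap.zero_apply]
  refine Finset.sum_eq_zero fun w _ => ?_
  have h9 := T.map_smul_univ (fun j => D j (xx (w j))) (fun j => dd (w j))
  rw [h9, hword w, smul_zero]

end Pool.Agent.Work.MP_4329d7_ag.FF
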