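import Pool.Agent.Work.MP_4329d7_ag.RGlobal
import Pool.Agent.Work.MP_4329d7_ag.RDer

/-!
A field carrying the canonical Brieskorn-Pham data is not uniruled.
-/

namespace Pool.Agent.Work.MP_4329d7_ag.R

open WithZero Polynomial

/-- linear algebra: from a spanning family containing a nonzero vector one can select a square
invertible matrix with that vector as a row. -/
theorem exists_selection {F : Type} [Field F] {J : Type} [Fintype J] {n : ℕ} (V : J → Fin n → F)
    (hV : ∀ g : Fin n → F, (∀ j, ∑ b, g b * V j b = 0) → g = 0) (j₀ : J) (hj₀ : V j₀ ≠ 0) :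
    ∃ (s : Fin n → J) (a₀ : Fin n), s a₀ = j₀ ∧ (∀ a, a ≠ a₀ → s a ≠ j₀) ∧
      ∀ g : Fin n → F, (∀ a, ∑ b, g b * V (s a) b = 0) → g = 0 := by
  classical
  -- the span of the rows is everything
  have hspan : Submodule.span F (Set.range V) = ⊤ := by
    by_contra h
    obtain ⟨f, hf0, hf⟩ := Submodule.exists_le_ker_of_lt_top _ (lt_top_iff_ne_top.2 h)
    apply hf0
    have h1 : (fun b => f (Pi.single b 1)) = 0 := by
      refine hV _ (fun j => ?_)
      have h2 : f (V j) = 0 := hf (Submodule.subset_span ⟨j, rfl⟩)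
      rw [← h2]
      conv_rhs => rw [← Finset.univ_sum_single (V j)]
      rw [map_sum]
      refine Finset.sum_congr rfl (fun b _ => ?_)
      have : (Pi.single b (V j b) : Fin n → F) = V j b • Pi.single b (1 : F) := by
        rw [← Pi.single_smul', smul_eq_mul, mul_one]
      rw [this, map_smul, smul_eq_mul, mul_comm]
    refine LinearMap.pi_ext' (fun b => ?_)
    refine LinearMap.ext_ring ?_
    simpa using congrFun h1 b
  have hli : LinearIndepOn F id ({V j₀} : Set (Fin n → F)) := by
    rw [LinearIndepOn]
    exact LinearIndependent.of_subsingleton (v := fun x : ({V j₀} : Set (Fin n → F)) => id (x : Fin n → F))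
      ⟨V j₀, rfl⟩ hj₀
  obtain ⟨B, hB1, hB2, hB3, hB4⟩ := exists_linearIndepOn_id_extension hli
    (Set.singleton_subset_iff.2 ⟨j₀, rfl⟩ : ({V j₀} : Set (Fin n → F)) ⊆ Set.range V)
  have hBspan : ⊤ ≤ Submodule.span F (Set.range (fun x : B => (x : Fin n → F))) := by
    rw [Subtype.range_coe, ← hspan]
    exact Submodule.span_le.2 hB3
  let bas := Module.Basis.mk (v := fun x : B => (x : Fin n → F)) hB4 hBspan
  have : Finite B := Module.Finite.finite_basis bas
  let : Fintype B := Fintype.ofFinite B
  have hcard : Fintype.card B = n := by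
    have := Module.finrank_eq_card_basis bas
    rw [Module.finrank_fin_fun] at this
    exact this.symm
  let e : Fin n ≃ B := (Fintype.equivFinOfCardEq hcard).symm
  have hmem : ∀ a, ∃ j, V j = (e a : Fin n → F) := fun a => hB1 (e a).2
  choose s' hs' using hmem
  let w₀ : B := ⟨V j₀, hB2 rfl⟩
  let a₀ : Fin n := e.symm w₀
  have hea₀ : (e a₀ : Fin n → F) = V j₀ := by simp [a₀, w₀]
  refine ⟨fun a => if a = a₀ then j₀ else s' a, a₀, by simp, ?_, ?_⟩
  · intro a ha
    simp only [if_neg ha]
    intro h
    apply ha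
    have h1 : (e a : Fin n → F) = V j₀ := by rw [← hs' a, h]
    have h2 : e a = e a₀ := Subtype.ext (h1.trans hea₀.symm)
    exact e.injective h2
  · intro g hg
    have hg' : ∀ a, ∑ b, g b * (e a : Fin n → F) b = 0 := by
      intro a
      have h1 := hg a
      by_cases h : a = a₀
      · subst h
        simp only [if_true] at h1
        rw [hea₀]; exact h1
      · simp only [if_neg h] at h1
        rw [← hs' a]; exact h1
    -- the functional vanishes on a basis
    let f : (Fin n → F) →ₗ[F] F := ∑ b, g b • LinearMap.proj b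
    have hf : ∀ x : Fin n → F, f x = ∑ b, g b * x b := by
      intro x; simp [f, LinearMap.sum_apply]
    have hf0 : f = 0 := by
      refine bas.ext (fun x => ?_)
      rw [Module.Basis.mk_apply, hf, LinearMap.zero_apply]
      have := hg' (e.symm x)
      rwa [Equiv.apply_symm_apply] at this
    funext b
    have h1 := hf (Pi.single b 1)
    rw [hf0, LinearMap.zero_apply] at h1
    rw [Pi.zero_apply]
    rw [Finset.sum_eq_single b (fun c _ hc => by rw [Pi.single_eq_of_ne hc, mul_zero])
      (fun h => absurd (Finset.mem_univ b) h), Pi.single_eq_same, mul_one] at h1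
    exact h1.symm

/-- Main theorem of this file: non-uniruledness. -/
theorem not_uniruled {K : Type} [Field K] [Algebra ℂ K] {n : ℕ} (y : Ix n → K)
    (hy1 : y none = 1) (hys : ∑ i, y i = 0)
    (hind : AlgebraicIndependent ℂ (fun b : Fin n => y (some (some b))))
    (N : Ix n → ℕ) (hN : 0 < ∑ i, N i) (L : Set (Ix n → ℤ))
    (hdeg : ∀ ρ ∈ L, ∑ i, ρ i * N i = 0) (hcan : Canonical N L)
    (P : ℕ) (hP : 0 < P) (x : K) (hx : x ^ (∑ i, N i) = ∏ i, y i ^ (P * N i))
    (hL : ∀ ρ ∈ L, ∃ w : K, w ^ (∑ i, N i) = ∏ i, y i ^ (ρ i * N i))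
    {E : Type} [Field E] [Algebra ℂ E] [Algebra.EssFiniteType ℂ E] (φ : K →ₐ[ℂ] RatFunc E)
    (b : Fin n) : ∃ c : E, φ (y (some (some b))) = RatFunc.C c := by
  classical
  by_contra hcon
  -- nonvanishing of the coordinates
  have hyb : ∀ b : Fin n, y (some (some b)) ≠ 0 := fun b => hind.ne_zero b
  have hyinf : y (some none) ≠ 0 := by
    intro h
    rw [Fintype.sum_option, Fintype.sum_option, hy1, h, zero_add] at hys
    have h1 : MvPolynomial.aeval (fun b : Fin n => y (some (some b)))
        ((1 : MvPolynomial (Fin n) ℂ) + ∑ b, MvPolynomial.X b) = 0 := by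
      rw [map_add, map_one, map_sum]
      simp only [MvPolynomial.aeval_X]
      exact hys
    have h2 := (AlgebraicIndependent.eq_zero_of_aeval_eq_zero hind _ h1)
    have h3 := congrArg (MvPolynomial.eval (fun _ => (0 : ℂ))) h2
    simp at h3
  have hy0 : ∀ i, y i ≠ 0 := by
    intro i
    rcases i with _ | _ | b
    · rw [hy1]; exact one_ne_zero
    · exact hyinf
    · exact hyb b
  set Y : Ix n → RatFunc E := fun i => φ (y i) with hY
  have hY0 : ∀ i, Y i ≠ 0 := fun i => (map_ne_zero_iff φ φ.toRingHom.injective).2 (hy0 i)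
  have hYs : ∑ i, Y i = 0 := by rw [hY, ← map_sum, hys, map_zero]
  have hYind : AlgebraicIndependent ℂ (fun b : Fin n => Y (some (some b))) :=
    hind.map' φ.toRingHom.injective
  -- transcendence basis of E
  obtain ⟨s, hs⟩ := exists_finset_isTranscendenceBasis ℂ E
  set e : s → E := (↑) with he
  have hw := transcendenceBasis_ratFunc (E := E) hs
  set w : Unit ⊕ s → RatFunc E :=
    Sum.elim (fun _ : Unit => (RatFunc.X : RatFunc E)) (algebraMap E (RatFunc E) ∘ e) with hwdef
  have hDex : ∀ i : Unit ⊕ s, ∃ D : Derivation ℂ (RatFunc E) (RatFunc E), ∀ j, D (w j) =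
      if i = j then 1 else 0 := fun i => exists_derivation hw _
  choose D hD using hDex
  -- the derivation d/dt
  have hX1 : D (Sum.inl ()) RatFunc.X = 1 := by
    have := hD (Sum.inl ()) (Sum.inl ())
    simpa [hwdef] using this
  have hX0 : ∀ j : s, D (Sum.inr j) RatFunc.X = 0 := by
    intro j
    have := hD (Sum.inr j) (Sum.inl ())
    simpa [hwdef] using this
  have hCe : ∀ (i : Unit ⊕ s) (j : s), D i (RatFunc.C (e j)) = if i = Sum.inr j then 1 else 0 := by
    intro i j
    exact hD i (Sum.inr j)
  have hC0 : ∀ c : E, D (Sum.inl ()) (RatFunc.C c) = 0 := by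
    have h1 : (D (Sum.inl ())).compAlgebraMap E = 0 := by
      refine derivation_ext hs (fun j => ?_)
      have := hCe (Sum.inl ()) j
      simpa using this
    intro c
    exact congrArg (fun d : Derivation ℂ E (RatFunc E) => d c) h1
  have hδ : ∀ j : s, ∃ δ : Derivation ℂ E E, ∀ c : E, D (Sum.inr j) (RatFunc.C c) =
      RatFunc.C (δ c) := by
    intro j
    obtain ⟨δ, hδ⟩ := exists_derivation (M := E) hs (fun k => if j = k then (1 : E) else 0)
    refine ⟨δ, fun c => ?_⟩
    have h1 : (D (Sum.inr j)).compAlgebraMap E =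
        (Algebra.linearMap E (RatFunc E)).compDer δ := by
      refine derivation_ext hs (fun k => ?_)
      have h2 := hCe (Sum.inr j) k
      have h3 : ((Algebra.linearMap E (RatFunc E)).compDer δ) (k : E) =
          algebraMap E (RatFunc E) (δ (k : E)) := rfl
      rw [h3, hδ k]
      have h4 : ((D (Sum.inr j)).compAlgebraMap E) (k : E) = D (Sum.inr j) (RatFunc.C (e k)) := rfl
      rw [h4, h2]
      by_cases hjk : j = k
      · subst hjk; simp
      · have : (Sum.inr j : Unit ⊕ s) ≠ Sum.inr k := fun h => hjk (Sum.inr_injective h)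
        rw [if_neg this, if_neg hjk, map_zero]
    exact congrArg (fun d : Derivation ℂ E (RatFunc E) => d c) h1
  -- the Jacobian
  set V : Unit ⊕ s → Fin n → RatFunc E := fun i b => D i (Y (some (some b))) with hV
  have hVspan : ∀ g : Fin n → RatFunc E, (∀ j, ∑ b, g b * V j b = 0) → g = 0 :=
    fun g hg => jacobian hw D hD hYind hg
  have hV0 : V (Sum.inl ()) ≠ 0 := by
    intro h
    exact hcon (ddt_eq_zero hX1 hC0 (congrFun h b))
  obtain ⟨σ, a₀, hσ1, hσ2, hσ3⟩ := exists_selection V hVspan (Sum.inl ()) hV0
  -- apply the vanishing of the determinant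
  have hpoly : ∀ a, ∀ p : E[X], ∃ q : E[X], D (σ a) (algebraMap E[X] (RatFunc E) p) =
      algebraMap E[X] (RatFunc E) q := by
    intro a p
    rcases h : σ a with u | j
    · exact ⟨_, ddt_poly hX1 hC0 p⟩
    · obtain ⟨δ, hδj⟩ := hδ j
      obtain ⟨q, hq, _⟩ := coeffwise_poly (hX0 j) hδj p
      exact ⟨q, hq⟩
  have hval : ∀ p q : E[X], (p = 0 → q = 0) → q.natDegree ≤ p.natDegree →
      RatFunc.inftyValuation E (algebraMap E[X] (RatFunc E) q) ≤
        RatFunc.inftyValuation E (algebraMap E[X] (RatFunc E) p) := by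
    intro p q h0 hle
    by_cases hq : q = 0
    · rw [hq, map_zero, map_zero]; exact zero_le
    · have hp : p ≠ 0 := fun h => hq (h0 h)
      rw [RatFunc.inftyValuation_apply, RatFunc.inftyValuation_apply,
        RatFunc.inftyValuation.polynomial E hq, RatFunc.inftyValuation.polynomial E hp]
      exact exp_le_exp.2 (by exact_mod_cast hle)
  have hinf : ∀ a, a ≠ a₀ → ∀ p : E[X],
      RatFunc.inftyValuation E (D (σ a) (algebraMap E[X] (RatFunc E) p))
      ≤ RatFunc.inftyValuation E (algebraMap E[X] (RatFunc E) p) := by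
    intro a ha p
    rcases h : σ a with u | j
    · exact absurd h (hσ2 a ha)
    · obtain ⟨δ, hδj⟩ := hδ j
      by_cases hp : p = 0
      · rw [hp, map_zero, map_zero, map_zero]
      · obtain ⟨q, hq, hqd⟩ := coeffwise_poly (hX0 j) hδj p
        rw [hq]
        exact hval p q (fun h => absurd h hp) hqd
  have hinf₀ : ∀ p : E[X],
      RatFunc.inftyValuation E (RatFunc.X * D (σ a₀) (algebraMap E[X] (RatFunc E) p))
      ≤ RatFunc.inftyValuation E (algebraMap E[X] (RatFunc E) p) := by
    intro p
    rw [hσ1, ddt_poly hX1 hC0, ← RatFunc.algebraMap_X, ← map_mul]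
    refine hval p _ (fun h => by rw [h, derivative_zero, mul_zero]) ?_
    by_cases hp : derivative p = 0
    · rw [hp, mul_zero, natDegree_zero]; exact Nat.zero_le _
    · have h1 : p.natDegree ≠ 0 := by
        intro h8
        apply hp
        rw [natDegree_eq_zero] at h8
        obtain ⟨c, hc⟩ := h8
        rw [← hc, derivative_C]
      have h2 := natDegree_derivative_lt h1
      have h3 := natDegree_mul_le (p := (X : E[X])) (q := derivative p)
      rw [natDegree_X] at h3
      omega
  have hdet := det_eq_zero (fun a => D (σ a)) a₀ hpoly hinf hinf₀ N hN L hdeg hcan Y hY0 hYs P hP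
    (φ x) (by rw [← map_pow, hx, map_prod]; exact Finset.prod_congr rfl (fun i _ => map_pow _ _ _))
    (by
      intro ρ hρ
      obtain ⟨w, hw⟩ := hL ρ hρ
      refine ⟨φ w, ?_⟩
      rw [← map_pow, hw, map_prod]
      exact Finset.prod_congr rfl (fun i _ => map_zpow₀ _ _ _)) (some none)
  -- but the determinant is nonzero
  rw [← Matrix.exists_mulVec_eq_zero_iff] at hdet
  obtain ⟨c, hc0, hc⟩ := hdet
  apply hc0
  have hcinf : c (some none) = 0 := by
    have := congrFun hc none
    simp only [Matrix.mulVec, dotProduct, Mat_none, ite_mul, one_mul, zero_mul,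
      Finset.sum_ite_eq', Finset.mem_univ, if_true, Pi.zero_apply] at this
    exact this
  have hYnone : Y none = 1 := by rw [hY]; simp only; rw [hy1, map_one]
  have hcb : (fun b : Fin n => c (some (some b))) = 0 := by
    refine hσ3 _ (fun a => ?_)
    have := congrFun hc (some (some a))
    simp only [Matrix.mulVec, dotProduct, Mat_some_some, Pi.zero_apply] at this
    rw [Fintype.sum_option, Fintype.sum_option, hcinf, hYnone, Derivation.map_one_eq_zero,
      zero_mul, mul_zero, zero_add, zero_add] at this
    rw [← this]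
    exact Finset.sum_congr rfl (fun b _ => mul_comm _ _)
  have hcnone : c none = 0 := by
    have := congrFun hc (some none)
    simp only [Matrix.mulVec, dotProduct, Mat_some_none, Pi.zero_apply] at this
    rw [Fintype.sum_option, Fintype.sum_option, hcinf, hYnone, one_mul, mul_zero, zero_add,
      Finset.sum_eq_zero (fun b _ => by rw [show c (some (some b)) = 0 from congrFun hcb b,
        mul_zero]), add_zero] at this
    exact this
  funext i
  rcases i with _ | _ | b
  · exact hcnone
  · exact hcinf
  · exact congrFun hcb b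

end Pool.Agent.Work.MP_4329d7_ag.R
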