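import Mathlib

/-!
Irreducibility of the Fermat polynomial in at least three variables.
-/

open MvPolynomial

namespace Pool.Agent.Work.MP_4329d7_ag

/-- The Fermat polynomial `∑ X_i ^ d` in `r` variables. -/
noncomputable def fpoly (r d : ℕ) : MvPolynomial (Fin r) ℂ := ∑ i, X i ^ d

lemma finSuccEquiv_fpoly (r d : ℕ) :
    finSuccEquiv ℂ r (fpoly (r + 1) d) = Polynomial.X ^ d + Polynomial.C (fpoly r d) := by
  unfold fpoly
  rw [map_sum, Fin.sum_univ_succ]
  simp only [map_pow, finSuccEquiv_X_zero, finSuccEquiv_X_succ, map_sum]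

lemma eisenstein_aux {r d : ℕ} (hd : 0 < d) {b p : MvPolynomial (Fin r) ℂ} (hp : Prime p)
    (hb : p ∣ b) (hb2 : ¬ p ^ 2 ∣ b) :
    Irreducible (Polynomial.X ^ d + Polynomial.C b : Polynomial (MvPolynomial (Fin r) ℂ)) := by
  have hm : (Polynomial.X ^ d + Polynomial.C b : Polynomial (MvPolynomial (Fin r) ℂ)).Monic :=
    Polynomial.monic_X_pow_add_C b hd.ne'
  have hdeg : (Polynomial.X ^ d + Polynomial.C b : Polynomial (MvPolynomial (Fin r) ℂ)).degree = d :=
    Polynomial.degree_X_pow_add_C hd b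
  have hP : (Ideal.span {p}).IsPrime := (Ideal.span_singleton_prime hp.ne_zero).2 hp
  refine Polynomial.irreducible_of_eisenstein_criterion hP ?_ ?_ ?_ ?_ hm.isPrimitive
  · rw [hm.leadingCoeff]
    intro h1
    exact hP.ne_top ((Ideal.eq_top_iff_one _).2 h1)
  · intro n hn
    rw [hdeg] at hn
    have hn' : n < d := by exact_mod_cast hn
    rw [Polynomial.coeff_add, Polynomial.coeff_X_pow, if_neg hn'.ne, zero_add]
    rw [Polynomial.coeff_C]
    split_ifs with h0
    · exact Ideal.mem_span_singleton.2 hb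
    · exact Ideal.zero_mem _
  · rw [hdeg]; exact_mod_cast hd
  · rw [Polynomial.coeff_add, Polynomial.coeff_X_pow, if_neg hd.ne, zero_add,
      Polynomial.coeff_C_zero, Ideal.span_singleton_pow, Ideal.mem_span_singleton]
    exact hb2

lemma irreducible_fpoly_three {d : ℕ} (hd : 0 < d) : Irreducible (fpoly 3 d) := by
  rw [← MulEquiv.irreducible_iff (finSuccEquiv ℂ 2)]
  have e : (finSuccEquiv ℂ 2) (fpoly 3 d) = Polynomial.X ^ d + Polynomial.C (fpoly 2 d) :=
    finSuccEquiv_fpoly 2 d
  change Irreducible ((finSuccEquiv ℂ 2) (fpoly 3 d))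
  rw [e]
  obtain ⟨z, hz⟩ : ∃ z : ℂ, z ^ d = -1 := IsAlgClosed.exists_pow_nat_eq (-1) hd
  have hz0 : z ≠ 0 := by
    rintro rfl
    rw [zero_pow hd.ne'] at hz
    norm_num at hz
  set a : MvPolynomial (Fin 1) ℂ := C z * X 0 with ha
  have ha0 : a ≠ 0 := mul_ne_zero (by simpa using hz0) (X_ne_zero _)
  have hfp1 : fpoly 1 d = X 0 ^ d := by simp [fpoly]
  have had : a ^ d + fpoly 1 d = 0 := by
    rw [ha, mul_pow, ← map_pow, hz, hfp1]
    simp
  set q : Polynomial (MvPolynomial (Fin 1) ℂ) := Polynomial.X - Polynomial.C a with hq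
  have hqp : Prime q := Polynomial.prime_X_sub_C a
  set p : MvPolynomial (Fin 2) ℂ := (finSuccEquiv ℂ 1).symm q with hpdef
  have hpq : finSuccEquiv ℂ 1 p = q := (finSuccEquiv ℂ 1).apply_symm_apply q
  have hp : Prime p := by
    rw [← MulEquiv.prime_iff (finSuccEquiv ℂ 1)]
    change Prime ((finSuccEquiv ℂ 1) p)
    rw [hpq]; exact hqp
  refine eisenstein_aux hd hp ?_ ?_
  · have : q ∣ finSuccEquiv ℂ 1 (fpoly 2 d) := by
      rw [finSuccEquiv_fpoly, hq, Polynomial.dvd_iff_isRoot]
      simp [Polynomial.IsRoot, had]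
    rw [← hpq] at this
    exact (map_dvd_iff (finSuccEquiv ℂ 1)).1 this
  · intro h2
    have h3 : q ^ 2 ∣ finSuccEquiv ℂ 1 (fpoly 2 d) := by
      rw [← hpq, ← map_pow]
      exact map_dvd (finSuccEquiv ℂ 1) h2
    rw [finSuccEquiv_fpoly] at h3
    obtain ⟨u, hu⟩ := h3
    have h4 := congrArg (fun f => Polynomial.eval a (Polynomial.derivative f)) hu
    simp only [Polynomial.derivative_add, Polynomial.derivative_X_pow, Polynomial.derivative_C,
      add_zero, Polynomial.derivative_mul, Polynomial.eval_add, Polynomial.eval_mul,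
      Polynomial.eval_pow, Polynomial.eval_X, hq, Polynomial.eval_sub, Polynomial.eval_C,
      sub_self, Polynomial.derivative_pow, Polynomial.derivative_sub, Polynomial.derivative_X] at h4
    norm_num at h4
    rcases h4 with h4 | h4
    · exact hd.ne' h4
    · exact ha0 h4.1

lemma irreducible_fpoly {r d : ℕ} (hr : 3 ≤ r) (hd : 0 < d) : Irreducible (fpoly r d) := by
  induction r, hr using Nat.le_induction with
  | base => exact irreducible_fpoly_three hd
  | succ r hr ih =>
    rw [← MulEquiv.irreducible_iff (finSuccEquiv ℂ r)]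
    change Irreducible ((finSuccEquiv ℂ r) (fpoly (r + 1) d))
    rw [finSuccEquiv_fpoly]
    refine eisenstein_aux hd ih.prime dvd_rfl ?_
    intro h
    obtain ⟨u, hu⟩ := h
    have : (1 : MvPolynomial (Fin r) ℂ) = fpoly r d * u := by
      have h0 : fpoly r d ≠ 0 := ih.ne_zero
      apply mul_left_cancel₀ h0
      calc fpoly r d * 1 = fpoly r d := mul_one _
        _ = fpoly r d ^ 2 * u := hu
        _ = fpoly r d * (fpoly r d * u) := by ring
    exact ih.not_isUnit (IsUnit.of_mul_eq_one u this.symm)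

end Pool.Agent.Work.MP_4329d7_ag
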