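import Pool.Agent.Work.MP_4329d7_ag.Defs
import Pool.Agent.Work.MP_4329d7_ag.Fermat

/-!
General facts on tensor differentials, and the cone and the tangent spaces of the Fermat
hypersurface.
-/

open MvPolynomial

namespace Pool.Agent.Work.MP_4329d7_ag

section general

variable {σ : Type} [Fintype σ]

/-- On tangent vectors a tensor differential is given by a multilinear map. -/
lemma exists_multilinear {I : Ideal (MvPolynomial σ ℂ)} {m : ℕ}
    {T : (σ → ℂ) → (Fin m → σ → ℂ) → ℂ} (hT : IsTensorDifferential I m T)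
    {x : σ → ℂ} (hx : x ∈ Cone I) (hx0 : x ≠ 0) :
    ∃ Φ : MultilinearMap ℂ (fun _ : Fin m => σ → ℂ) ℂ,
      ∀ v : Fin m → σ → ℂ, (∀ j, v j ∈ Tangent I x) → T x v = Φ v := by
  obtain ⟨a, ha⟩ : ∃ a, x a ≠ 0 := by
    by_contra h
    push Not at h
    exact hx0 (funext h)
  obtain ⟨N, P, hP⟩ := hT.regular a
  refine ⟨(x a ^ N)⁻¹ • ∑ w : Fin m → σ, eval x (P w) •
    (MultilinearMap.mkPiAlgebra ℂ (Fin m) ℂ).compLinearMap
      (fun j => (LinearMap.proj (w j) : (σ → ℂ) →ₗ[ℂ] ℂ)), ?_⟩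
  intro v hv
  have h1 := hP x hx ha v hv
  rw [smul_apply, sum_apply]
  simp only [smul_apply, MultilinearMap.compLinearMap_apply,
    LinearMap.coe_proj, Function.eval, MultilinearMap.mkPiAlgebra_apply, smul_eq_mul]
  rw [← h1, ← mul_assoc, inv_mul_cancel₀ (pow_ne_zero N ha), one_mul]

lemma radial_shift {I : Ideal (MvPolynomial σ ℂ)} {m : ℕ}
    {T : (σ → ℂ) → (Fin m → σ → ℂ) → ℂ} (hT : IsTensorDifferential I m T)
    {x : σ → ℂ} (hx : x ∈ Cone I) (hx0 : x ≠ 0) (hxt : x ∈ Tangent I x)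
    (v : Fin m → σ → ℂ) (hv : ∀ j, v j ∈ Tangent I x) (c : Fin m → ℂ) :
    T x (fun j => v j + c j • x) = T x v := by
  classical
  obtain ⟨Φ, hΦ⟩ := exists_multilinear hT hx hx0
  rw [hΦ _ (fun j => (Tangent I x).add_mem (hv j) ((Tangent I x).smul_mem _ hxt)), hΦ _ hv]
  have h1 : (fun j => v j + c j • x) = v + (fun j => c j • x) := rfl
  rw [h1, MultilinearMap.map_add_univ]
  rw [Finset.sum_eq_single Finset.univ]
  · congr 1
    ext j : 1
    simp
  · intro s _ hs
    obtain ⟨j, hj⟩ : ∃ j, j ∉ s := by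
      by_contra h
      push Not at h
      exact hs (Finset.eq_univ_iff_forall.2 h)
    set u : Fin m → σ → ℂ := s.piecewise v (fun j => c j • x) with hu
    have huj : u j = c j • x := by rw [hu]; simp [Finset.piecewise, hj]
    have hut : ∀ l, (Function.update u j x) l ∈ Tangent I x := by
      intro l
      by_cases hl : l = j
      · subst hl; simpa using hxt
      · rw [Function.update_of_ne hl, hu]
        by_cases hls : l ∈ s
        · simpa [Finset.piecewise, hls] using hv l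
        · simpa [Finset.piecewise, hls] using (Tangent I x).smul_mem _ hxt
    have h2 : Φ u = c j * Φ (Function.update u j x) := by
      have := Φ.map_update_smul u j (c j) x
      rw [← huj, Function.update_eq_self] at this
      rw [this, smul_eq_mul]
    rw [h2, ← hΦ _ hut, hT.radial x hx hx0 _ hut ⟨j, by simp⟩, mul_zero]
  · intro h
    exact absurd (Finset.mem_univ _) h

end general

section fermat

variable (n : ℕ)

/-- the ideal of the Fermat hypersurface of degree `n + 2` in `ℙ^{n+1}`. -/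
noncomputable def FI : Ideal (MvPolynomial (Fin (n + 2)) ℂ) := Ideal.span {fpoly (n + 2) (n + 2)}

variable {n}

lemma eval_fpoly (x : Fin (n + 2) → ℂ) : eval x (fpoly (n + 2) (n + 2)) = ∑ i, x i ^ (n + 2) := by
  simp [fpoly]

lemma mem_cone_FI {x : Fin (n + 2) → ℂ} : x ∈ Cone (FI n) ↔ ∑ i, x i ^ (n + 2) = 0 := by
  constructor
  · intro h
    have := h _ (Ideal.subset_span rfl)
    rwa [eval_fpoly] at this
  · intro h p hp
    obtain ⟨q, rfl⟩ := Ideal.mem_span_singleton.1 hp
    rw [map_mul, eval_fpoly, h, zero_mul]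

lemma pderiv_fpoly (i : Fin (n + 2)) :
    pderiv i (fpoly (n + 2) (n + 2)) = C ((n : ℂ) + 2) * X i ^ (n + 1) := by
  classical
  unfold fpoly
  rw [map_sum, Finset.sum_eq_single i]
  · rw [Derivation.leibniz_pow, pderiv_X_self, smul_eq_mul, mul_one, nsmul_eq_mul]
    simp [map_ofNat]
  · intro j _ hj
    rw [Derivation.leibniz_pow, pderiv_X_of_ne hj, smul_zero, smul_zero]
  · intro h; exact absurd (Finset.mem_univ i) h

lemma mem_tangent_FI {x v : Fin (n + 2) → ℂ} (hx : x ∈ Cone (FI n)) :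
    v ∈ Tangent (FI n) x ↔ ∑ i, x i ^ (n + 1) * v i = 0 := by
  have hn : ((n : ℂ) + 2) ≠ 0 := by
    have : ((n + 2 : ℕ) : ℂ) ≠ 0 := Nat.cast_ne_zero.2 (by omega)
    push_cast at this; exact this
  constructor
  · intro h
    have h1 := h _ (Ideal.subset_span rfl)
    have h2 : ((n : ℂ) + 2) * ∑ i, x i ^ (n + 1) * v i = 0 := by
      rw [Finset.mul_sum, ← h1]
      refine Finset.sum_congr rfl (fun i _ => ?_)
      rw [pderiv_fpoly]
      simp
      ring
    exact (mul_eq_zero.1 h2).resolve_left hn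
  · intro h p hp
    obtain ⟨q, rfl⟩ := Ideal.mem_span_singleton.1 hp
    have hx' := mem_cone_FI.1 hx
    have : ∀ i, eval x (pderiv i (fpoly (n + 2) (n + 2) * q)) * v i =
        (((n : ℂ) + 2) * eval x q) * (x i ^ (n + 1) * v i) := by
      intro i
      rw [Derivation.leibniz, pderiv_fpoly]
      simp only [smul_eq_mul, map_add, map_mul, eval_fpoly, hx', zero_mul, zero_add, eval_C,
        map_pow, eval_X]
      ring
    simp only [this]
    rw [← Finset.mul_sum, h, mul_zero]

lemma mem_tangent_self {x : Fin (n + 2) → ℂ} (hx : x ∈ Cone (FI n)) : x ∈ Tangent (FI n) x := by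
  rw [mem_tangent_FI hx]
  have := mem_cone_FI.1 hx
  rw [← this]
  exact Finset.sum_congr rfl (fun i _ => by ring)

lemma prime_FI (hn : 1 ≤ n) : (FI n).IsPrime := by
  have h := (irreducible_fpoly (r := n + 2) (d := n + 2) (by omega) (by omega))
  exact (Ideal.span_singleton_prime h.ne_zero).2 h.prime

lemma smul_mem_cone {x : Fin (n + 2) → ℂ} (hx : x ∈ Cone (FI n)) (c : ℂ) :
    c • x ∈ Cone (FI n) := by
  rw [mem_cone_FI] at hx ⊢
  simp only [Pi.smul_apply, smul_eq_mul, mul_pow]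
  rw [← Finset.mul_sum, hx, mul_zero]

lemma tangent_smul {x v : Fin (n + 2) → ℂ} (hx : x ∈ Cone (FI n)) {c : ℂ}
    (hv : v ∈ Tangent (FI n) x) : v ∈ Tangent (FI n) (c • x) := by
  rw [mem_tangent_FI hx] at hv
  rw [mem_tangent_FI (smul_mem_cone hx c)]
  simp only [Pi.smul_apply, smul_eq_mul, mul_pow, mul_assoc]
  rw [← Finset.mul_sum, hv, mul_zero]

/-- scaling of the base point only. -/
lemma scale_point {m : ℕ} {T : (Fin (n + 2) → ℂ) → (Fin m → Fin (n + 2) → ℂ) → ℂ}
    (hT : IsTensorDifferential (FI n) m T)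
    {x : Fin (n + 2) → ℂ} (hx : x ∈ Cone (FI n)) (hx0 : x ≠ 0) {c : ℂ} (hc : c ≠ 0)
    (v : Fin m → Fin (n + 2) → ℂ) (hv : ∀ j, v j ∈ Tangent (FI n) x) :
    c ^ m * T (c • x) v = T x v := by
  have hcx : c • x ≠ 0 := smul_ne_zero hc hx0
  obtain ⟨Φ, hΦ⟩ := exists_multilinear hT (smul_mem_cone hx c) hcx
  have hv' : ∀ j, v j ∈ Tangent (FI n) (c • x) := fun j => tangent_smul hx (hv j)
  rw [← hT.scaling x hx hx0 v hv c hc]
  rw [hΦ _ hv', hΦ _ (fun j => (Tangent (FI n) (c • x)).smul_mem _ (hv' j))]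
  rw [MultilinearMap.map_smul_univ Φ (fun _ => c) v]
  simp

lemma aeval_eq_eval' {τ : Type} (x : τ → ℂ) (p : MvPolynomial τ ℂ) :
    (aeval x p : ℂ) = eval x p := by
  rw [← MvPolynomial.coe_aeval_eq_eval]; rfl

/-- A polynomial vanishing on the cone off a proper hypersurface vanishes on the cone. -/
lemma vanish_of_generic (hn : 1 ≤ n) (Q G : MvPolynomial (Fin (n + 2)) ℂ) (hG : G ∉ FI n)
    (h : ∀ x ∈ Cone (FI n), eval x G ≠ 0 → eval x Q = 0) :
    ∀ x ∈ Cone (FI n), eval x Q = 0 := by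
  have hp := prime_FI hn
  have h1 : Q * G ∈ FI n := by
    have h2 : Q * G ∈ vanishingIdeal ℂ (zeroLocus ℂ (FI n)) := by
      rw [mem_vanishingIdeal_iff]
      intro x hx
      rw [mem_zeroLocus_iff] at hx
      have hx' : x ∈ Cone (FI n) := by
        intro p hp'
        have := hx p hp'
        rwa [aeval_eq_eval'] at this
      rw [aeval_eq_eval', map_mul]
      by_cases hG0 : eval x G = 0
      · rw [hG0, mul_zero]
      · rw [h x hx' hG0, zero_mul]
    rw [vanishingIdeal_zeroLocus_eq_radical, hp.radical] at h2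
    exact h2
  rcases hp.mem_or_mem h1 with h3 | h3
  · intro x hx
    exact hx Q h3
  · exact absurd h3 hG

end fermat

end Pool.Agent.Work.MP_4329d7_ag
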