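import Mathlib

/-!
Regular functions of negative degree on the punctured cone over a plane Fermat curve vanish.
-/

open MvPolynomial

namespace Pool.Agent.Work.MP_4329d7_ag

/-- evaluation of a polynomial in three variables, written as a polynomial in the third one. -/
noncomputable def ev3 (s0 s1 s2 : ℂ) : Polynomial (MvPolynomial (Fin 2) ℂ) →+* ℂ :=
  Polynomial.eval₂RingHom (MvPolynomial.eval ![s0, s1]) s2

lemma ev3_C (s0 s1 s2 : ℂ) (p : MvPolynomial (Fin 2) ℂ) :
    ev3 s0 s1 s2 (Polynomial.C p) = eval ![s0, s1] p := by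
  simp [ev3]

lemma ev3_X (s0 s1 s2 : ℂ) : ev3 s0 s1 s2 Polynomial.X = s2 := by
  simp [ev3]

lemma continuous_ev3 (s0 s1 s2 : ℂ) (G : Polynomial (MvPolynomial (Fin 2) ℂ)) :
    Continuous (fun c : ℂ => ev3 (c * s0) (c * s1) (c * s2) G) := by
  unfold ev3
  simp only [Polynomial.coe_eval₂RingHom, Polynomial.eval₂_eq_sum_range]
  refine continuous_finsetSum _ (fun i _ => ?_)
  refine Continuous.mul ?_ ((continuous_id.mul continuous_const).pow i)
  have h1 : Continuous (fun c : ℂ => (![c * s0, c * s1] : Fin 2 → ℂ)) := by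
    refine continuous_pi (fun j => ?_)
    fin_cases j
    · exact continuous_id.mul continuous_const
    · exact continuous_id.mul continuous_const
  exact (MvPolynomial.continuous_eval _).comp h1

/-- a univariate polynomial of degree `< d` which vanishes at all `d`-th roots of a nonzero
number is zero. -/
lemma poly_eq_zero_of_roots {d : ℕ} (hd : 0 < d) {a : ℂ} (ha : a ≠ 0) (p : Polynomial ℂ)
    (hp : p.degree < d) (hz : ∀ s : ℂ, s ^ d = a → p.eval s = 0) : p = 0 := by
  classical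
  obtain ⟨s, hs⟩ : ∃ s : ℂ, s ^ d = a := IsAlgClosed.exists_pow_nat_eq a hd
  have hs0 : s ≠ 0 := by
    rintro rfl
    rw [zero_pow hd.ne'] at hs
    exact ha hs.symm
  have hprim := Complex.isPrimitiveRoot_exp d hd.ne'
  have hcard : (Polynomial.nthRootsFinset d (1 : ℂ)).card = d := hprim.card_nthRootsFinset
  set S : Finset ℂ := (Polynomial.nthRootsFinset d (1 : ℂ)).image (fun z => s * z) with hS
  have hScard : S.card = d := by
    rw [hS, Finset.card_image_of_injective _ (mul_right_injective₀ hs0), hcard]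
  by_contra hne
  have hroots : ∀ z ∈ S, p.eval z = 0 := by
    intro z hz'
    rw [hS, Finset.mem_image] at hz'
    obtain ⟨y, hy, rfl⟩ := hz'
    apply hz
    rw [mul_pow, hs]
    rw [Polynomial.mem_nthRootsFinset hd] at hy
    rw [hy, mul_one]
  have hsub : S.val ≤ p.roots := by
    rw [Finset.val_le_iff_val_subset]
    intro z hz'
    rw [Polynomial.mem_roots hne]
    exact hroots z hz'
  have h1 : S.card ≤ p.natDegree := by
    calc S.card = Multiset.card S.val := rfl
      _ ≤ Multiset.card p.roots := Multiset.card_le_card hsub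
      _ ≤ p.natDegree := Polynomial.card_roots' p
  have h2 : p.natDegree < d := (Polynomial.natDegree_lt_iff_degree_lt hne).2 hp
  omega

theorem curve_vanish (d : ℕ) (hd : 0 < d) (A : ℂ) (hA : A ≠ 0) (N k : ℕ) (hk : 0 < k)
    (h : ℂ → ℂ → ℂ → ℂ) (Q0 Q1 : Polynomial (MvPolynomial (Fin 2) ℂ))
    (h0 : ∀ s0 s1 s2 : ℂ, s0 ^ d + s1 ^ d + A * s2 ^ d = 0 → s0 ≠ 0 →
      s0 ^ N * h s0 s1 s2 = ev3 s0 s1 s2 Q0)
    (h1 : ∀ s0 s1 s2 : ℂ, s0 ^ d + s1 ^ d + A * s2 ^ d = 0 → s1 ≠ 0 →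
      s1 ^ N * h s0 s1 s2 = ev3 s0 s1 s2 Q1)
    (hom : ∀ c : ℂ, c ≠ 0 → ∀ s0 s1 s2 : ℂ, s0 ^ d + s1 ^ d + A * s2 ^ d = 0 → s0 ≠ 0 →
      c ^ k * h (c * s0) (c * s1) (c * s2) = h s0 s1 s2) :
    ∀ s0 s1 s2 : ℂ, s0 ^ d + s1 ^ d + A * s2 ^ d = 0 → s0 ≠ 0 → h s0 s1 s2 = 0 := by
  classical
  set R := MvPolynomial (Fin 2) ℂ with hR
  set b : R := C A⁻¹ * (X 0 ^ d + X 1 ^ d) with hb
  set g : Polynomial R := Polynomial.X ^ d + Polynomial.C b with hg
  have hgm : g.Monic := by
    rw [hg]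
    exact Polynomial.monic_X_pow_add_C b hd.ne'
  have hgdeg : g.degree = d := by
    rw [hg]
    exact Polynomial.degree_X_pow_add_C hd b
  have hgz : ∀ s0 s1 s2 : ℂ, s0 ^ d + s1 ^ d + A * s2 ^ d = 0 → ev3 s0 s1 s2 g = 0 := by
    intro s0 s1 s2 hs
    rw [hg, map_add, map_pow, ev3_X, ev3_C, hb]
    simp only [map_mul, map_add, map_pow, eval_C, eval_X, Matrix.cons_val_zero,
      Matrix.cons_val_one]
    field_simp
    linear_combination hs
  -- reduction modulo g
  have hred : ∀ Q : Polynomial R, ∀ s0 s1 s2 : ℂ, s0 ^ d + s1 ^ d + A * s2 ^ d = 0 →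
      ev3 s0 s1 s2 Q = ev3 s0 s1 s2 (Q %ₘ g) := by
    intro Q s0 s1 s2 hs
    conv_lhs => rw [← Polynomial.modByMonic_add_div Q g]
    rw [map_add, map_mul, hgz s0 s1 s2 hs, zero_mul, add_zero]
  set r0 := Q0 %ₘ g with hr0
  set r1 := Q1 %ₘ g with hr1
  have hr0d : r0.degree < d := by
    rw [← hgdeg]; exact Polynomial.degree_modByMonic_lt _ hgm
  have hr1d : r1.degree < d := by
    rw [← hgdeg]; exact Polynomial.degree_modByMonic_lt _ hgm
  set E : Polynomial R := Polynomial.C (X 1 ^ N) * r0 - Polynomial.C (X 0 ^ N) * r1 with hE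
  have hEd : E.degree < d := by
    refine lt_of_le_of_lt (Polynomial.degree_sub_le _ _) ?_
    refine max_lt ?_ ?_
    · rw [← Polynomial.smul_eq_C_mul]
      exact lt_of_le_of_lt (Polynomial.degree_smul_le _ _) hr0d
    · rw [← Polynomial.smul_eq_C_mul]
      exact lt_of_le_of_lt (Polynomial.degree_smul_le _ _) hr1d
  -- E vanishes
  have hEmap : ∀ s0 s1 : ℂ, s0 ≠ 0 → s1 ≠ 0 → s0 ^ d + s1 ^ d ≠ 0 →
      E.map (eval ![s0, s1]) = 0 := by
    intro s0 s1 hs0 hs1 hs01
    have hane : -(s0 ^ d + s1 ^ d) / A ≠ 0 := div_ne_zero (neg_ne_zero.2 hs01) hA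
    refine poly_eq_zero_of_roots hd hane _ (lt_of_le_of_lt (Polynomial.degree_map_le) hEd) ?_
    intro s hs
    have hG : s0 ^ d + s1 ^ d + A * s ^ d = 0 := by
      rw [hs]; field_simp; ring
    have e0 := h0 s0 s1 s hG hs0
    have e1 := h1 s0 s1 s hG hs1
    rw [hred _ _ _ _ hG] at e0 e1
    have : (E.map (eval ![s0, s1])).eval s = ev3 s0 s1 s E := by
      simp [ev3, Polynomial.eval_map]
    rw [this, hE, map_sub, map_mul, map_mul, ev3_C, ev3_C]
    simp only [map_pow, eval_X, Matrix.cons_val_zero, Matrix.cons_val_one]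
    rw [← hr0] at e0
    rw [← hr1] at e1
    rw [← e0, ← e1]
    ring
  have hE0 : E = 0 := by
    ext1 j
    rw [Polynomial.coeff_zero]
    have hfac : (E.coeff j) * (X 0 * X 1 * (X 0 ^ d + X 1 ^ d)) = 0 := by
      apply MvPolynomial.funext
      intro s
      rw [map_mul, map_mul, map_mul, map_add, map_pow, map_pow, eval_X, eval_X, map_zero]
      by_cases c0 : s 0 = 0
      · rw [c0]; ring
      by_cases c1 : s 1 = 0
      · rw [c1]; ring
      by_cases c2 : s 0 ^ d + s 1 ^ d = 0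
      · rw [c2]; ring
      have hmm := hEmap (s 0) (s 1) c0 c1 c2
      have hs : (![s 0, s 1] : Fin 2 → ℂ) = s := by
        ext i; fin_cases i <;> rfl
      rw [hs] at hmm
      have := congrArg (fun p => Polynomial.coeff p j) hmm
      simp only [Polynomial.coeff_map, Polynomial.coeff_zero] at this
      rw [this, zero_mul]
    rcases mul_eq_zero.1 hfac with hc | hc
    · exact hc
    · exfalso
      have := congrArg (eval (![1, 1] : Fin 2 → ℂ)) hc
      simp at this
  -- divisibility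
  have hdvd : ∀ j, (X 0 : R) ^ N ∣ r0.coeff j := by
    intro j
    have hco : (X 1 : R) ^ N * r0.coeff j = X 0 ^ N * r1.coeff j := by
      have := congrArg (fun p => Polynomial.coeff p j) hE0
      simp only [hE, Polynomial.coeff_sub, Polynomial.coeff_C_mul, Polynomial.coeff_zero] at this
      exact sub_eq_zero.1 this
    have hpr : Prime (X 0 : R) := MvPolynomial.X_prime
    refine hpr.pow_dvd_of_dvd_mul_left N ?_ (Dvd.intro _ hco.symm)
    intro hd'
    have h2 := hpr.dvd_of_dvd_pow hd'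
    obtain ⟨q, hq⟩ := h2
    have := congrArg (eval (![0, 1] : Fin 2 → ℂ)) hq
    simp at this
  obtain ⟨G0, hG0⟩ : Polynomial.C ((X 0 : R) ^ N) ∣ r0 := (Polynomial.C_dvd_iff_dvd_coeff _ _).2 hdvd
  have hhG : ∀ s0 s1 s2 : ℂ, s0 ^ d + s1 ^ d + A * s2 ^ d = 0 → s0 ≠ 0 →
      h s0 s1 s2 = ev3 s0 s1 s2 G0 := by
    intro s0 s1 s2 hs hs0
    have e0 := h0 s0 s1 s2 hs hs0
    rw [hred _ _ _ _ hs, ← hr0, hG0, map_mul, ev3_C, map_pow, eval_X] at e0
    simp only [Matrix.cons_val_zero] at e0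
    exact mul_left_cancel₀ (pow_ne_zero N hs0) e0
  intro s0 s1 s2 hs hs0
  have hscale : ∀ c : ℂ, c ≠ 0 → c ^ k * ev3 (c * s0) (c * s1) (c * s2) G0 = h s0 s1 s2 := by
    intro c hc
    rw [← hom c hc s0 s1 s2 hs hs0]
    rw [hhG (c * s0) (c * s1) (c * s2) ?_ (mul_ne_zero hc hs0)]
    rw [mul_pow, mul_pow, mul_pow]
    linear_combination (c ^ d) * hs
  have hcont : Continuous (fun c : ℂ => c ^ k * ev3 (c * s0) (c * s1) (c * s2) G0) :=
    (continuous_pow k).mul (continuous_ev3 s0 s1 s2 G0)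
  have hlim : Filter.Tendsto (fun c : ℂ => c ^ k * ev3 (c * s0) (c * s1) (c * s2) G0)
      (nhdsWithin 0 {0}ᶜ) (nhds 0) := by
    have := hcont.tendsto 0
    simp only [zero_pow hk.ne', zero_mul] at this
    exact this.mono_left nhdsWithin_le_nhds
  have hlim2 : Filter.Tendsto (fun c : ℂ => c ^ k * ev3 (c * s0) (c * s1) (c * s2) G0)
      (nhdsWithin 0 {0}ᶜ) (nhds (h s0 s1 s2)) := by
    refine Filter.Tendsto.congr' ?_ tendsto_const_nhds
    filter_upwards [self_mem_nhdsWithin] with c hc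
    exact (hscale c hc).symm
  exact tendsto_nhds_unique hlim2 hlim

end Pool.Agent.Work.MP_4329d7_ag
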