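import Mathlib

/-!
Existence of derivations of `ℂ` dual to algebraically independent numbers.
-/

open MvPolynomial TensorProduct

namespace Pool.Agent.Work.MP_4329d7_ag

open Cardinal in
lemma infinite_of_transcendenceBasis {s : Set ℂ}
    (hs : IsTranscendenceBasis ℚ ((↑) : s → ℂ)) : Infinite s := by
  by_contra hfin
  rw [not_infinite_iff_finite] at hfin
  have halg : Algebra.IsAlgebraic (Algebra.adjoin ℚ (Set.range ((↑) : s → ℂ))) ℂ :=
    hs.isAlgebraic
  have hc : Countable (Algebra.adjoin ℚ (Set.range ((↑) : s → ℂ))) := by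
    have e := hs.1.aevalEquiv
    have : Countable (MvPolynomial s ℚ) := by
      have := MvPolynomial.cardinalMk_le_max (σ := s) (R := ℚ)
      rw [← Cardinal.mk_le_aleph0_iff]
      refine this.trans ?_
      simp
    exact Countable.of_equiv _ e.toEquiv
  have h1 := Algebra.IsAlgebraic.cardinalMk_le_max
    (Algebra.adjoin ℚ (Set.range ((↑) : s → ℂ))) ℂ
  have h2 : #(Algebra.adjoin ℚ (Set.range ((↑) : s → ℂ))) ≤ ℵ₀ := Cardinal.mk_le_aleph0_iff.2 hc
  have h3 : #ℂ ≤ ℵ₀ := h1.trans (max_le h2 le_rfl)
  rw [Cardinal.mk_complex] at h3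
  exact absurd h3 (not_le.2 Cardinal.aleph0_lt_continuum)

theorem exists_derivations (n : ℕ) :
    ∃ (t : Fin n → ℂ) (δ : Fin n → Derivation ℚ ℂ ℂ),
      ∀ i j, δ i (t j) = if i = j then 1 else 0 := by
  classical
  obtain ⟨s, hs⟩ := exists_isTranscendenceBasis ℚ ℂ
  have hinf := infinite_of_transcendenceBasis hs
  obtain ⟨e⟩ : Nonempty (Fin n ↪ s) := by
    obtain ⟨f⟩ : Nonempty (ℕ ↪ s) := ⟨Infinite.natEmbedding s⟩
    exact ⟨⟨fun i => f i, fun a b h => Fin.ext (f.injective h)⟩⟩
  set A := Algebra.adjoin ℚ (Set.range ((↑) : s → ℂ)) with hA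
  have halg : Algebra.IsAlgebraic A ℂ := hs.isAlgebraic
  let E : MvPolynomial s ℚ ≃ₐ[ℚ] A := hs.1.aevalEquiv
  -- formally etale
  let _ : Algebra (FractionRing A) ℂ := FractionRing.liftAlgebra A ℂ
  have : IsScalarTower A (FractionRing A) ℂ := FractionRing.isScalarTower_liftAlgebra A ℂ
  have : Algebra.IsAlgebraic (FractionRing A) ℂ := 
    Algebra.IsAlgebraic.extendScalars (R := A) (IsFractionRing.injective A (FractionRing A))
  have : Algebra.FormallyEtale A (FractionRing A) :=
    Algebra.FormallyEtale.of_isLocalization (nonZeroDivisors A)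
  have : CharZero (FractionRing A) := by
    have : CharZero A := inferInstance
    exact charZero_of_injective_algebraMap (IsFractionRing.injective A (FractionRing A))
  have : Algebra.FormallyEtale (FractionRing A) ℂ :=
    Algebra.FormallyEtale.of_isSeparable _ _
  have : Algebra.FormallyEtale A ℂ := Algebra.FormallyEtale.comp A (FractionRing A) ℂ
  -- derivation on A
  let d : s → Derivation ℚ A ℂ := fun i =>
    { toFun := fun a => ((E (pderiv i (E.symm a)) : A) : ℂ)
      map_add' := by
        intro a b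
        simp
      map_smul' := by
        intro c a
        simp
      map_one_eq_zero' := by
        simp
      leibniz' := by
        intro a b
        simp [Derivation.leibniz, Algebra.smul_def]
        }
  have hd : ∀ i j : s, ∀ a : A, (a : ℂ) = (j : ℂ) → d i a = if i = j then 1 else 0 := by
    intro i j a ha
    have ha' : E (X j) = a := by
      apply Subtype.ext
      rw [ha]
      have := hs.1.algebraMap_aevalEquiv (X j)
      rw [aeval_X] at this
      exact this
    change ((E (pderiv i (E.symm a)) : A) : ℂ) = _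
    rw [← ha', AlgEquiv.symm_apply_apply, pderiv_X]
    by_cases hij : i = j
    · subst hij; simp
    · simp [hij, Ne.symm hij]
  let δ : s → Derivation ℚ ℂ ℂ := fun i =>
    ((LinearMap.liftBaseChange ℂ (d i).liftKaehlerDifferential).comp
      (KaehlerDifferential.tensorKaehlerEquivOfFormallyEtale ℚ A ℂ).symm.toLinearMap).compDer
      (KaehlerDifferential.D ℚ ℂ)
  have hδ : ∀ i, ∀ a : A, δ i (a : ℂ) = d i a := by
    intro i a
    have h1 := KaehlerDifferential.tensorKaehlerEquivOfFormallyEtale_symm_D_algebraMap ℚ A ℂ a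
    change (LinearMap.liftBaseChange ℂ (d i).liftKaehlerDifferential)
      ((KaehlerDifferential.tensorKaehlerEquivOfFormallyEtale ℚ A ℂ).symm
        ((KaehlerDifferential.D ℚ ℂ) (algebraMap A ℂ a))) = _
    rw [h1, LinearMap.liftBaseChange_tmul, one_smul, Derivation.liftKaehlerDifferential_comp_D]
  refine ⟨fun j => (e j : ℂ), fun i => δ (e i), ?_⟩
  intro i j
  have hmem : ((e j : s) : ℂ) ∈ A := Algebra.subset_adjoin ⟨e j, rfl⟩
  have h1 := hδ (e i) ⟨((e j : s) : ℂ), hmem⟩
  have h2 := hd (e i) (e j) ⟨((e j : s) : ℂ), hmem⟩ rfl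
  rw [h2] at h1
  change δ (e i) ((e j : s) : ℂ) = _
  rw [h1]
  simp [e.injective.eq_iff]

end Pool.Agent.Work.MP_4329d7_ag
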