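import Mathlib
import Pool.Agent.Work.MP_4329d7_ag.FF.RatExt

/-!
A nonzero regular tensor form on `K` gives one on `K(t)`.
-/

namespace Pool.Agent.Work.MP_4329d7_ag.FF

theorem exists_ratFunc {K : Type} [Field K] [Algebra ℂ K] {n : ℕ} (htr : Algebra.trdeg ℂ K = n)
    {m : ℕ} {T : TensorForm K m} (hT : IsRegular T) (hT0 : T ≠ 0) :
    ∃ T' : TensorForm (RatFunc K) m, IsRegular T' ∧ T' ≠ 0 := by
  classical
  obtain ⟨s, hs⟩ := exists_isTranscendenceBasis ℂ K
  have hcard : Cardinal.mk s = n := by rw [← htr]; exact hs.cardinalMk_eq_trdeg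
  have hfin : Finite s := by
    rw [← Cardinal.lt_aleph0_iff_finite, hcard]
    exact Cardinal.natCast_lt_aleph0
  have := Fintype.ofFinite s
  obtain ⟨Fr, -⟩ := ratExt_exists_frame (fun i : s => (i : K)) hs
  exact exists_regular_ratFunc Fr ⟨T, hT, hT0⟩

end Pool.Agent.Work.MP_4329d7_ag.FF
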