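import Pool.Agent.Work.MP_4329d7_ag.Ext
import Pool.Agent.Work.MP_4329d7_ag.FDefs
import Pool.Agent.Work.MP_4329d7_ag.RDer

/-!
Passing from `K` to the rational function field `K(t)` (product with the projective line).
-/

namespace Pool.Agent.Work.MP_4329d7_ag.FF

theorem essFinite_ratFunc {K : Type} [Field K] [Algebra ℂ K] (h : Algebra.EssFiniteType ℂ K) :
    Algebra.EssFiniteType ℂ (RatFunc K) := by
  have h2 : Algebra.EssFiniteType (Polynomial K) (RatFunc K) :=
    Algebra.EssFiniteType.of_isLocalization _ (nonZeroDivisors (Polynomial K))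
  have h3 : Algebra.EssFiniteType K (RatFunc K) :=
    Algebra.EssFiniteType.comp K (Polynomial K) (RatFunc K)
  exact Algebra.EssFiniteType.comp ℂ K (RatFunc K)

theorem trdeg_ratFunc {K : Type} [Field K] [Algebra ℂ K] {n : ℕ} (h : Algebra.trdeg ℂ K = n) :
    Algebra.trdeg ℂ (RatFunc K) = (n + 1 : ℕ) := by
  obtain ⟨s, hs⟩ := exists_isTranscendenceBasis ℂ K
  have h1 := R.transcendenceBasis_ratFunc hs
  have h2 := h1.cardinalMk_eq_trdeg
  have h3 := hs.cardinalMk_eq_trdeg
  rw [← h2, Cardinal.mk_sum, h3, h]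
  simp [add_comm]

/-- rational connectedness descends from `K(t)` to `K`. -/
theorem rc_of_ratFunc {K : Type} [Field K] [Algebra ℂ K] (h : RationallyConnected (RatFunc K)) :
    RationallyConnected K := by
  obtain ⟨E, _, _, φ, ψ, hE, h1, hinj⟩ := h
  refine ⟨E, _, _, φ.comp (IsScalarTower.toAlgHom ℂ K (RatFunc K)), ψ, hE, h1, ?_⟩
  set ι : K →ₐ[ℂ] RatFunc K := IsScalarTower.toAlgHom ℂ K (RatFunc K) with hι
  have hιi : Function.Injective ι := ι.toRingHom.injective
  intro r a b ha hab
  have h2 : LinearIndependent ℂ (fun i => ι (a i)) :=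
    ha.map' ι.toLinearMap (LinearMap.ker_eq_bot.2 hιi)
  have h3 := hinj r (fun i => ι (a i)) (fun i => ι (b i)) h2 hab
  funext i
  apply hιi
  have h4 := congrFun h3 i
  simpa using h4

end Pool.Agent.Work.MP_4329d7_ag.FF
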