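import Pool.Agent.Work.MP_4329d7_ag.RUni
import Pool.Agent.Work.MP_4329d7_ag.FDefs

/-!
A field carrying the canonical Brieskorn-Pham data is not rationally connected.
-/

namespace Pool.Agent.Work.MP_4329d7_ag.R

open FF

theorem not_rationallyConnected {K : Type} [Field K] [Algebra ℂ K] {n : ℕ} (hn : 0 < n)
    (y : Ix n → K) (hy1 : y none = 1) (hys : ∑ i, y i = 0)
    (hind : AlgebraicIndependent ℂ (fun b : Fin n => y (some (some b))))
    (N : Ix n → ℕ) (hN : 0 < ∑ i, N i) (L : Set (Ix n → ℤ))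
    (hdeg : ∀ ρ ∈ L, ∑ i, ρ i * N i = 0) (hcan : Canonical N L)
    (P : ℕ) (hP : 0 < P) (x : K) (hx : x ^ (∑ i, N i) = ∏ i, y i ^ (P * N i))
    (hL : ∀ ρ ∈ L, ∃ w : K, w ^ (∑ i, N i) = ∏ i, y i ^ (ρ i * N i)) :
    ¬ RationallyConnected K := by
  rintro ⟨E, iE, iA, φ, ψ, hE, ⟨_, hψ⟩, hinj⟩
  have hE' : Algebra.EssFiniteType ℂ E := hE
  obtain ⟨c, hc⟩ := not_uniruled y hy1 hys hind N hN L hdeg hcan P hP x hx hL φ ⟨0, hn⟩
  set z := y (some (some ⟨0, hn⟩)) with hz
  have hzc : ∀ c : ℂ, z ≠ algebraMap ℂ K c := by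
    intro c h
    have h1 := hind.transcendental (⟨0, hn⟩ : Fin n)
    apply h1
    change IsAlgebraic ℂ z
    rw [h]
    exact isAlgebraic_algebraMap c
  have hli : LinearIndependent ℂ ![(1 : K), z] := by
    rw [LinearIndependent.pair_iff]
    intro s t hst
    by_cases ht : t = 0
    · subst ht
      rw [zero_smul, add_zero, Algebra.smul_def, mul_one] at hst
      exact ⟨(map_eq_zero_iff _ (algebraMap ℂ K).injective).1 hst, rfl⟩
    · exfalso
      apply hzc (-s / t)
      have h1 : algebraMap ℂ K t ≠ 0 := (map_ne_zero_iff _ (algebraMap ℂ K).injective).2 ht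
      rw [map_div₀, map_neg, eq_div_iff h1]
      rw [Algebra.smul_def, Algebra.smul_def, mul_one] at hst
      linear_combination hst
  have h1 := hinj 2 ![(1 : K), z] ![z, -1] hli (by
    rw [Fin.sum_univ_two]
    simp only [Matrix.cons_val_zero, Matrix.cons_val_one]
    rw [hc, map_one, map_one, one_mul, hψ, map_neg, map_neg, map_one, map_one]
    ring)
  have h2 := congrFun h1 1
  simp at h2

end Pool.Agent.Work.MP_4329d7_ag.R
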