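import Pool.Agent.Work.MP_4329d7_ag.Sylv

/-!
Weights of a generator of the group of the Sylvester example.
-/

namespace Pool.Agent.Work.MP_4329d7_ag.R

theorem coprime_of_lt {i j : ℕ} (h : i < j) : IsCoprime (ss i : ℤ) (ss j : ℤ) := by
  obtain ⟨q, hq⟩ := ss_dvd_PP h
  have h2 : (PP j : ℤ) = ss i * q := by exact_mod_cast hq
  refine ⟨-q, 1, ?_⟩
  have h1 : (ss j : ℤ) = PP j + 1 := by simp [ss]
  rw [h1, h2]
  ring

theorem coprime_ss {i j : ℕ} (h : i ≠ j) : IsCoprime (ss i : ℤ) (ss j : ℤ) := by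
  rcases lt_or_gt_of_ne h with h | h
  · exact coprime_of_lt h
  · exact (coprime_of_lt h).symm

theorem coprime_div {j : ℕ} (k : ℕ) (h : j < k) :
    IsCoprime ((PP k / ss j : ℕ) : ℤ) (ss j : ℤ) := by
  induction k with
  | zero => omega
  | succ k ih =>
    rcases Nat.lt_succ_iff_lt_or_eq.1 h with h | rfl
    · have h1 : PP (k + 1) / ss j = PP k / ss j * ss k := by
        rw [PP_succ, Nat.div_mul_right_comm (ss_dvd_PP h)]
      rw [h1]
      push_cast
      exact IsCoprime.mul_left (ih h) (coprime_of_lt h).symm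
    · have h2 : PP (j + 1) / ss j = PP j := by
        rw [PP_succ, Nat.mul_div_cancel _ (ss_pos j)]
      rw [h2]
      refine ⟨-1, 1, ?_⟩
      simp [ss]

theorem dvd_div {i j k : ℕ} (hi : i < k) (hj : j < k) (h : i ≠ j) :
    (ss i : ℤ) ∣ ((PP k / ss j : ℕ) : ℤ) := by
  have h1 : (PP k / ss j) * ss j = PP k := Nat.div_mul_cancel (ss_dvd_PP hj)
  have h2 : (ss i : ℤ) ∣ ((PP k / ss j : ℕ) : ℤ) * ss j := by
    have : (ss i : ℤ) ∣ (PP k : ℤ) := by exact_mod_cast ss_dvd_PP hi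
    rw [← h1] at this
    exact_mod_cast this
  exact (coprime_ss h).dvd_of_dvd_mul_right h2

/-- weights of a generator -/
theorem exists_weight (k : ℕ) : ∃ h : Co k → ℤ,
    (∀ c, (PP k : ℤ) ∣ ((3 * PP k / NN k c : ℕ) : ℤ) * h c) ∧
    (PP k : ℤ) ∣ ∑ c, h c - 1 ∧ ∀ ρ ∈ LL k, (PP k : ℤ) ∣ ∑ c, ρ c * h c := by
  classical
  have hex : ∀ j : Fin k, ∃ e : ℤ, (ss j : ℤ) ∣ ((PP k / ss j : ℕ) : ℤ) * e - 1 := by
    intro j
    obtain ⟨a, b, hab⟩ := coprime_div k j.2
    exact ⟨a, ⟨-b, by linear_combination hab⟩⟩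
  choose e he using hex
  have hPe : ∀ j : Fin k, (ss j : ℤ) * ((PP k / ss j : ℕ) : ℤ) = PP k := by
    intro j
    have h1 : (PP k / ss j) * ss j = PP k := Nat.div_mul_cancel (ss_dvd_PP j.2)
    rw [mul_comm]
    exact_mod_cast h1
  let sg : Fin 3 → ℤ := fun t => if t = 1 then -1 else 1
  let h : Co k → ℤ := fun c => match c.2 with
    | none => 0
    | some j => sg c.1 * (((PP k / ss j : ℕ) : ℤ) * e j)
  have hh0 : ∀ t, h (t, none) = 0 := fun t => rfl
  have hh1 : ∀ t j, h (t, some j) = sg t * (((PP k / ss j : ℕ) : ℤ) * e j) := fun t j => rfl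
  refine ⟨h, ?_, ?_, ?_⟩
  · rintro ⟨t, _ | j⟩
    · rw [hh0 t, mul_zero]; exact dvd_zero _
    · have h3 : (3 * PP k) / NN k (t, some j) = 3 * ss j := by
        change (3 * PP k) / (PP k / ss j) = 3 * ss j
        have h4 : (PP k / ss j) * ss j = PP k := Nat.div_mul_cancel (ss_dvd_PP j.2)
        have h5 : 0 < PP k / ss j := by
          rcases Nat.eq_zero_or_pos (PP k / ss j) with h6 | h6
          · rw [h6, zero_mul] at h4
            have := PP_pos k
            omega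
          · exact h6
        refine Nat.div_eq_of_eq_mul_left h5 ?_
        rw [mul_assoc, mul_comm (ss j), h4]
      rw [h3, hh1]
      refine ⟨3 * (sg t * e j), ?_⟩
      rw [← hPe j, Nat.cast_mul, Nat.cast_ofNat]
      ring
  · refine PP_dvd k _ fun j => ?_
    have h6 : ∑ c, h c - 1 = ∑ j' : Fin k, ((PP k / ss j' : ℕ) : ℤ) * e j' - 1 := by
      rw [sum_Co]
      simp only [hh0, hh1]
      congr 1
      rw [add_zero, add_zero, zero_add]
      refine Finset.sum_congr rfl fun j' _ => ?_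
      simp [sg]
    rw [h6, ← Finset.add_sum_erase _ _ (Finset.mem_univ j)]
    have h7 : (ss j : ℤ) ∣ ∑ j' ∈ Finset.univ.erase j, ((PP k / ss j' : ℕ) : ℤ) * e j' := by
      refine Finset.dvd_sum fun j' hj' => ?_
      refine Dvd.dvd.mul_right (dvd_div j.2 j'.2 ?_) _
      intro h8
      exact (Finset.ne_of_mem_erase hj') (Fin.ext h8.symm)
    have h8 := dvd_add (he j) h7
    have h12 : ((PP k / ss j : ℕ) : ℤ) * e j +
        ∑ j' ∈ Finset.univ.erase j, ((PP k / ss j' : ℕ) : ℤ) * e j' - 1 =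
        ((PP k / ss j : ℕ) : ℤ) * e j - 1 +
        ∑ j' ∈ Finset.univ.erase j, ((PP k / ss j' : ℕ) : ℤ) * e j' := by ring
    rw [h12]
    exact h8
  · intro ρ hρ
    obtain ⟨_, h9⟩ := mem_LL.1 hρ
    rw [sum_Co]
    simp only [hh0, hh1]
    refine dvd_add (by simp) (Finset.dvd_sum fun j _ => ?_)
    have h10 : ρ (0, some j) * (sg 0 * (((PP k / ss j : ℕ) : ℤ) * e j)) +
        ρ (1, some j) * (sg 1 * (((PP k / ss j : ℕ) : ℤ) * e j)) +
        ρ (2, some j) * (sg 2 * (((PP k / ss j : ℕ) : ℤ) * e j)) =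
        (ρ (0, some j) - ρ (1, some j) + ρ (2, some j)) * (((PP k / ss j : ℕ) : ℤ) * e j) := by
      simp [sg]
      ring
    rw [h10]
    obtain ⟨q, hq⟩ := h9 j
    rw [hq]
    refine ⟨q * e j, ?_⟩
    have h11 := hPe j
    linear_combination (q * e j) * h11

end Pool.Agent.Work.MP_4329d7_ag.R
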