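import Pool.Agent.Work.MP_4329d7_ag.PartC
import Pool.Agent.Work.MP_4329d7_ag.SylvH
import Pool.Agent.Work.MP_4329d7_ag.LemY1
import Pool.Agent.Work.MP_4329d7_ag.LemYV
import Pool.Agent.Work.MP_4329d7_ag.ExRat
import Pool.Agent.Work.MP_4329d7_ag.RRC

/-!
Final assembly: doubly exponential lower bound for the exponents.
-/

namespace Pool.Agent.Work.MP_4329d7_ag.FF

open R

/-- a bijection with two prescribed values. -/
lemma exists_equiv {α β : Type} [Fintype α] [Fintype β] [DecidableEq β]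
    (h : Fintype.card α = Fintype.card β) (a b : α) (hab : a ≠ b) (c d : β) (hcd : c ≠ d) :
    ∃ e : α ≃ β, e a = c ∧ e b = d := by
  let e0 : α ≃ β := Fintype.equivOfCardEq h
  let e1 : α ≃ β := e0.trans (Equiv.swap (e0 a) c)
  have h1 : e1 a = c := by simp [e1]
  have h1b : e1 b ≠ c := fun h => hab (e1.injective (h1.trans h.symm))
  refine ⟨e1.trans (Equiv.swap (e1 b) d), ?_, ?_⟩
  · rw [Equiv.trans_apply, h1]
    exact Equiv.swap_apply_of_ne_of_ne h1b.symm hcd
  · simp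

theorem exists_field (k : ℕ) (hk : 1 ≤ k) :
    ∃ (K : Type) (_ : Field K) (_ : Algebra ℂ K), Algebra.EssFiniteType ℂ K ∧
      Algebra.trdeg ℂ K = (3 * k + 1 : ℕ) ∧ ¬ RationallyConnected K ∧
      (∀ m : ℕ, ¬ (3 * k + 1) * PP k ∣ m → ∀ T : TensorForm K m, IsRegular T → T = 0) ∧
      ∀ m : ℕ, (3 * k + 1) * PP k ∣ m → ∃ T : TensorForm K m, IsRegular T ∧ T ≠ 0 := by
  classical
  set n := 3 * k + 1 with hn
  have hcard : Fintype.card (Co k) = Fintype.card (Ix n) := by
    simp only [Fintype.card_prod, Fintype.card_option, Fintype.card_fin]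
    omega
  obtain ⟨e, he1, he2⟩ := exists_equiv hcard (0, none) (0, some ⟨0, hk⟩) (by simp)
    (none : Ix n) (some none) (by simp)
  set N : Ix n → ℕ := fun i => NN k (e.symm i) with hN
  have hsumN : ∑ i, N i = 3 * PP k := by
    rw [hN, ← sum_NN k]
    exact Equiv.sum_comp e.symm (NN k)
  -- positivity and divisibility
  have hPPpos : ∀ j, 0 < PP j := by
    intro j
    induction j with
    | zero => exact Nat.one_pos
    | succ j ih => exact Nat.mul_pos ih (Nat.succ_pos _)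
  have hssdvd : ∀ (k : ℕ) (j : ℕ), j < k → ss j ∣ PP k := by
    intro k
    induction k with
    | zero => intro j hj; omega
    | succ k ih =>
      intro j hj
      rcases Nat.lt_succ_iff_lt_or_eq.1 hj with h | h
      · exact (ih j h).mul_right _
      · subst h; exact Dvd.intro_left _ rfl
  have hss : ∀ j, 2 ≤ ss j := fun j => by have := hPPpos j; unfold ss; omega
  have hNpos : ∀ c, 0 < NN k c := by
    rintro ⟨t, _ | j⟩
    · exact Nat.one_pos
    · exact Nat.div_pos (Nat.le_of_dvd (hPPpos k) (hssdvd k j j.2)) (by have := hss j; omega)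
  have hNdvd : ∀ c, NN k c ∣ 3 * PP k := by
    rintro ⟨t, _ | j⟩
    · exact one_dvd _
    · exact (Nat.div_dvd_of_dvd (hssdvd k j j.2)).mul_left _
  have hNle : ∀ c, NN k c ≤ NN k (0, some ⟨0, hk⟩) := by
    have h2 : NN k (0, some ⟨0, hk⟩) = PP k / 2 := rfl
    rintro ⟨t, _ | j⟩
    · rw [h2]
      change 1 ≤ PP k / 2
      have : 2 ∣ PP k := hssdvd k 0 (by omega)
      obtain ⟨q, hq⟩ := this
      have := hPPpos k
      omega
    · rw [h2]
      exact Nat.div_le_div_left (hss j) (by norm_num)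
  -- the lattice
  let L : AddSubgroup (Ix n → ℤ) := (LL k).comap
    { toFun := fun ρ => ρ ∘ e, map_zero' := rfl, map_add' := fun _ _ => rfl }
  have hLmem : ∀ ρ : Ix n → ℤ, ρ ∈ L ↔ ρ ∘ e ∈ LL k := fun ρ => Iff.rfl
  have hLmem' : ∀ ρ : Co k → ℤ, ρ ∈ LL k → ρ ∘ e.symm ∈ L := by
    intro ρ hρ
    rw [hLmem]
    have : (ρ ∘ e.symm) ∘ e = ρ := by funext c; simp
    rwa [this]
  have hsum : ∀ (f : Ix n → ℤ), ∑ c, f (e c) = ∑ i, f i := fun f => Equiv.sum_comp e f
  have hNe : ∀ c, N (e c) = NN k c := fun c => by simp [hN]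
  have hdeg : ∀ ρ ∈ L, ∑ i, ρ i * N i = 0 := by
    intro ρ hρ
    have h1 : ∑ c, (ρ ∘ e) c * NN k c = 0 := ((hLmem ρ).1 hρ).1
    rw [← hsum (fun i => ρ i * N i)]
    rw [← h1]
    exact Finset.sum_congr rfl (fun c _ => by simp only [hNe]; rfl)
  obtain ⟨h, hh1, hh2, hh3⟩ := exists_weight k
  have hN2 : 2 * NN k (0, some ⟨0, hk⟩) ≤ 3 * PP k := by
    have h2 : NN k (0, some ⟨0, hk⟩) = PP k / 2 := rfl
    rw [h2]; omega
  have hcan : Canonical N (L : Set (Ix n → ℤ)) := by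
    intro κ _ h1 h2
    rw [hsumN]
    have h3 := canonical k (κ ∘ e) (by
      obtain ⟨i, hi⟩ := h1
      exact ⟨e.symm i, by simpa using hi⟩) (by
      intro ρ hρ
      have h4 := h2 (ρ ∘ e.symm) (hLmem' ρ hρ)
      rw [hsumN, ← hsum (fun i => (ρ ∘ e.symm) i * N i * κ i)] at h4
      convert! h4 using 1
      refine Finset.sum_congr rfl (fun c _ => ?_)
      simp [hNe])
    refine h3.trans (le_of_eq ?_)
    rw [← Equiv.sum_comp e (fun i => N i * κ i)]
    exact Finset.sum_congr rfl (fun c _ => by simp [hNe])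
  obtain ⟨K, iK, iA, y, hK1, hK2, hy1, hys, hind, hw, hvan, hex⟩ := partC (by omega) N
    (fun i => hNpos _) (fun i => by rw [hsumN]; exact hNdvd _)
    (fun i => by rw [hsumN]; exact (Nat.mul_le_mul_left 2 (hNle _)).trans hN2)
    (fun i => by
      have h3 : N (some none) = NN k (0, some ⟨0, hk⟩) := by rw [hN, ← he2]; simp
      rw [h3]; exact hNle _)
    (PP k) (hPPpos k) (fun i => h (e.symm i)) (fun i => by rw [hsumN]; exact hh1 (e.symm i))
    (by rw [Equiv.sum_comp e.symm h]; exact hh2) L hdeg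
    (fun ρ hρ => by
      have h4 := hh3 _ ((hLmem ρ).1 hρ)
      rw [← hsum (fun i => ρ i * h (e.symm i))]
      simpa using h4) hcan
  refine ⟨K, iK, iA, hK1, hK2, ?_, ?_, hex⟩
  · -- not rationally connected
    have hP0 : (0 : ℕ) < PP k := hPPpos k
    -- the vector (P, ..., P) - 3 P * P e_none
    set ρP : Co k → ℤ := fun c => (PP k : ℤ) - (if c = (0, none) then (3 * PP k * PP k : ℤ) else (0 : ℤ)) with hρP
    have hρPmem : ρP ∈ LL k := by
      refine ⟨?_, ?_⟩
      · simp only [hρP, sub_mul, Finset.sum_sub_distrib, ite_mul, zero_mul,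
          Finset.sum_ite_eq', Finset.mem_univ, if_true]
        rw [← Finset.mul_sum]
        have h5 : (∑ c, (NN k c : ℤ)) = 3 * PP k := by
          rw [← Nat.cast_sum, sum_NN]; push_cast; ring
        rw [h5]
        change (PP k : ℤ) * (3 * PP k) - 3 * PP k * PP k * ((1 : ℕ) : ℤ) = 0
        push_cast; ring
      · intro j
        have h6 : (ss j : ℤ) ∣ PP k := by exact_mod_cast hssdvd k j j.2
        simp only [hρP, Prod.mk.injEq, reduceCtorEq, and_false, if_false, sub_zero]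
        rw [sub_self, zero_add]
        exact h6
    obtain ⟨x, hx⟩ := hw (ρP ∘ e.symm) (hLmem' _ hρPmem)
    refine not_rationallyConnected (by omega) y hy1 hys hind N (by rw [hsumN]; omega) L hdeg hcan
      (PP k) hP0 x ?_ hw
    rw [hx]
    refine Finset.prod_congr rfl (fun i _ => ?_)
    by_cases hi : i = none
    · rw [hi, hy1, one_zpow, one_pow]
    · have h7 : e.symm i ≠ (0, none) := by
        intro h; apply hi; rw [← he1, ← h]; simp
      rw [Function.comp_apply]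
      simp only [hρP, if_neg h7, sub_zero]
      rw [← zpow_natCast]
      push_cast
      rfl
  · intro m hm T hT
    by_contra hne
    exact hm (hvan m T hT hne)

theorem exists_field_dim (k : ℕ) (hk : 1 ≤ k) (r : ℕ) :
    ∃ (K : Type) (_ : Field K) (_ : Algebra ℂ K), Algebra.EssFiniteType ℂ K ∧
      Algebra.trdeg ℂ K = (3 * k + 1 + r : ℕ) ∧ ¬ RationallyConnected K ∧
      (∀ m : ℕ, ¬ (3 * k + 1) * PP k ∣ m → ∀ T : TensorForm K m, IsRegular T → T = 0) ∧
      ∀ m : ℕ, (3 * k + 1) * PP k ∣ m → ∃ T : TensorForm K m, IsRegular T ∧ T ≠ 0 := by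
  induction r with
  | zero => exact exists_field k hk
  | succ r ih =>
    obtain ⟨K, iK, iA, h1, h2, h3, h4, h5⟩ := ih
    refine ⟨RatFunc K, inferInstance, inferInstance, essFinite_ratFunc h1, ?_,
      fun h => h3 (rc_of_ratFunc h), fun m hm => vanish_ratFunc' h2 (h4 m hm), fun m hm => ?_⟩
    rotate_left
    · obtain ⟨T, hT, hT0⟩ := h5 m hm
      exact exists_ratFunc h2 hT hT0
    rw [trdeg_ratFunc h2]
    rfl

theorem exists_example (k D : ℕ) (hk : 1 ≤ k) (hD : 3 * k + 1 ≤ D) :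
    ∃ (K : Type) (_ : Field K) (_ : Algebra ℂ K), Algebra.EssFiniteType ℂ K ∧
      Algebra.trdeg ℂ K = D ∧ ¬ RationallyConnected K ∧
      ∀ m : ℕ, (∃ T : TensorForm K m, IsRegular T ∧ T ≠ 0) ↔ (3 * k + 1) * PP k ∣ m := by
  obtain ⟨K, iK, iA, h1, h2, h3, h4, h5⟩ := exists_field_dim k hk (D - (3 * k + 1))
  refine ⟨K, iK, iA, h1, ?_, h3, fun m => ⟨fun ⟨T, hT, hT0⟩ => ?_, h5 m⟩⟩
  · rw [h2]
    congr 1
    omega
  · by_contra hm
    exact hT0 (h4 m hm T hT)

theorem main' (D : ℕ) (M : Set ℕ)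
    (hM : ∀ (K : Type) [Field K] [Algebra ℂ K], Algebra.EssFiniteType ℂ K →
      Algebra.trdeg ℂ K = D →
      (∀ m ∈ M, 0 < m → ∀ T : TensorForm K m, IsRegular T → T = 0) →
      RationallyConnected K ∨ ∀ m, 0 < m → ∀ T : TensorForm K m, IsRegular T → T = 0)
    (k : ℕ) (hk : 1 ≤ k) (hkD : 3 * k + 1 ≤ D) :
    ∃ m ∈ M, 0 < m ∧ (3 * k + 1) * PP k ∣ m := by
  by_contra hcon
  push Not at hcon
  obtain ⟨K, iK, iA, h1, h2, h3, h4⟩ := exists_example k D hk hkD
  rcases hM K h1 h2 (fun m hm hm0 T hT => by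
    by_contra hT0
    exact hcon m hm hm0 ((h4 m).1 ⟨T, hT, hT0⟩)) with h | h
  · exact h3 h
  · obtain ⟨T, hT, hT0⟩ := (h4 ((3 * k + 1) * PP k)).2 dvd_rfl
    exact hT0 (h _ (Nat.mul_pos (by omega) (PP_pos k)) T hT)

end Pool.Agent.Work.MP_4329d7_ag.FF
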