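import Pool.Agent.Work.MP_4329d7_ag.PartC
import Pool.Agent.Work.MP_4329d7_ag.LemY1
import Pool.Agent.Work.MP_4329d7_ag.LemYV
import Pool.Agent.Work.MP_4329d7_ag.ExRat
import Pool.Agent.Work.MP_4329d7_ag.RRC

/-!
The field attached to arbitrary numerical data with the canonical property.
-/

namespace Pool.Agent.Work.MP_4329d7_ag.FF

open R

/-- a bijection with two prescribed values. -/
lemma exists_equiv' {α β : Type} [Fintype α] [Fintype β] [DecidableEq β]
    (h : Fintype.card α = Fintype.card β) (a b : α) (hab : a ≠ b) (c d : β) (hcd : c ≠ d) :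
    ∃ e : α ≃ β, e a = c ∧ e b = d := by
  let e0 : α ≃ β := Fintype.equivOfCardEq h
  let e1 : α ≃ β := e0.trans (Equiv.swap (e0 a) c)
  have h1 : e1 a = c := by simp [e1]
  have h1b : e1 b ≠ c := fun h => hab (e1.injective (h1.trans h.symm))
  refine ⟨e1.trans (Equiv.swap (e1 b) d), ?_, ?_⟩
  · rw [Equiv.trans_apply, h1]
    exact Equiv.swap_apply_of_ne_of_ne h1b.symm hcd
  · simp

/-- exponent vectors of degree zero and weight zero modulo `Q`. -/
def LG {C : Type} [Fintype C] (N : C → ℕ) (Q : ℕ) (h : C → ℤ) : AddSubgroup (C → ℤ) where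
  carrier := {ρ | ∑ c, ρ c * N c = 0 ∧ (Q : ℤ) ∣ ∑ c, ρ c * h c}
  add_mem' := by
    rintro a b ⟨ha1, ha2⟩ ⟨hb1, hb2⟩
    refine ⟨?_, ?_⟩
    · simp only [Pi.add_apply, add_mul, Finset.sum_add_distrib, ha1, hb1, add_zero]
    · simp only [Pi.add_apply, add_mul, Finset.sum_add_distrib]
      exact dvd_add ha2 hb2
  zero_mem' := by
    refine ⟨?_, ?_⟩ <;> simp
  neg_mem' := by
    rintro a ⟨ha1, ha2⟩
    refine ⟨?_, ?_⟩
    · simp only [Pi.neg_apply, neg_mul, Finset.sum_neg_distrib, ha1, neg_zero]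
    · simp only [Pi.neg_apply, neg_mul, Finset.sum_neg_distrib]
      exact (dvd_neg).2 ha2

theorem mem_LG {C : Type} [Fintype C] {N : C → ℕ} {Q : ℕ} {h : C → ℤ} {ρ : C → ℤ} :
    ρ ∈ LG N Q h ↔ ∑ c, ρ c * N c = 0 ∧ (Q : ℤ) ∣ ∑ c, ρ c * h c := Iff.rfl

theorem exists_field_gen {C : Type} [Fintype C] [DecidableEq C] (n : ℕ) (hn : 0 < n)
    (hcard : Fintype.card C = n + 2) (N : C → ℕ) (hNpos : ∀ c, 0 < N c)
    (hNdvd : ∀ c, N c ∣ ∑ c, N c) (hlt : ∀ c, 2 * N c ≤ ∑ c, N c) (Q : ℕ) (hQ : 0 < Q)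
    (h : C → ℤ) (hh1 : ∀ c, (Q : ℤ) ∣ (((∑ c, N c) / N c : ℕ) : ℤ) * h c)
    (hh2 : (Q : ℤ) ∣ ∑ c, h c - 1)
    (hcanon : ∀ κ : C → ℕ, (∃ c, κ c = 0) → (∃ c, κ c ≠ 0) →
      (∀ ρ ∈ LG N Q h, ((∑ c, N c : ℕ) : ℤ) ∣ ∑ c, ρ c * N c * κ c) →
      ∑ c, N c ≤ ∑ c, N c * κ c) :
    ∃ (K : Type) (_ : Field K) (_ : Algebra ℂ K), Algebra.EssFiniteType ℂ K ∧
      Algebra.trdeg ℂ K = n ∧ ¬ RationallyConnected K ∧
      (∀ m : ℕ, ¬ n * Q ∣ m → ∀ T : TensorForm K m, IsRegular T → T = 0) ∧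
      ∀ m : ℕ, n * Q ∣ m → ∃ T : TensorForm K m, IsRegular T ∧ T ≠ 0 := by
  classical
  have hcard' : Fintype.card C = Fintype.card (Ix n) := by
    rw [hcard]
    simp only [Fintype.card_option, Fintype.card_fin]
  have hne : Nonempty C := Fintype.card_pos_iff.1 (by omega)
  obtain ⟨cp, -, hcp⟩ := Finset.exists_max_image Finset.univ N ⟨hne.some, Finset.mem_univ _⟩
  obtain ⟨c0, hc0⟩ : ∃ c0, c0 ≠ cp := Fintype.exists_ne_of_one_lt_card (by omega) cp
  obtain ⟨e, he1, he2⟩ := exists_equiv' hcard' c0 cp hc0 (none : Ix n) (some none) (by simp)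
  set A := ∑ c, N c with hA
  set N' : Ix n → ℕ := fun i => N (e.symm i) with hN'
  have hsumN : ∑ i, N' i = A := Equiv.sum_comp e.symm N
  let L : AddSubgroup (Ix n → ℤ) := (LG N Q h).comap
    { toFun := fun ρ => ρ ∘ e, map_zero' := rfl, map_add' := fun _ _ => rfl }
  have hLmem : ∀ ρ : Ix n → ℤ, ρ ∈ L ↔ ρ ∘ e ∈ LG N Q h := fun ρ => Iff.rfl
  have hLmem' : ∀ ρ : C → ℤ, ρ ∈ LG N Q h → ρ ∘ e.symm ∈ L := by
    intro ρ hρ
    rw [hLmem]
    have : (ρ ∘ e.symm) ∘ e = ρ := by funext c; simp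
    rwa [this]
  have hsum : ∀ (f : Ix n → ℤ), ∑ c, f (e c) = ∑ i, f i := fun f => Equiv.sum_comp e f
  have hNe : ∀ c, N' (e c) = N c := fun c => by simp [hN']
  have hdeg : ∀ ρ ∈ L, ∑ i, ρ i * N' i = 0 := by
    intro ρ hρ
    have h1 : ∑ c, (ρ ∘ e) c * N c = 0 := ((hLmem ρ).1 hρ).1
    rw [← hsum (fun i => ρ i * N' i)]
    rw [← h1]
    exact Finset.sum_congr rfl (fun c _ => by simp only [hNe]; rfl)
  have hcan : Canonical N' (L : Set (Ix n → ℤ)) := by
    intro κ h0 h1 h2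
    rw [hsumN]
    have h3 := hcanon (κ ∘ e) (by
      obtain ⟨i, hi⟩ := h0
      exact ⟨e.symm i, by simpa using hi⟩) (by
      obtain ⟨i, hi⟩ := h1
      exact ⟨e.symm i, by simpa using hi⟩) (by
      intro ρ hρ
      have h4 := h2 (ρ ∘ e.symm) (hLmem' ρ hρ)
      rw [hsumN, ← hsum (fun i => (ρ ∘ e.symm) i * N' i * κ i)] at h4
      have h5 : ∑ c, ρ c * (N c : ℤ) * ((κ ∘ e) c : ℤ) =
          ∑ c, (ρ ∘ e.symm) (e c) * (N' (e c) : ℤ) * (κ (e c) : ℤ) :=
        Finset.sum_congr rfl (fun c _ => by simp [hNe])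
      rw [h5]
      exact h4)
    refine h3.trans (le_of_eq ?_)
    rw [← Equiv.sum_comp e (fun i => N' i * κ i)]
    exact Finset.sum_congr rfl (fun c _ => by simp [hNe])
  obtain ⟨K, iK, iA, y, hK1, hK2, hy1, hys, hind, hw, hvan, hex⟩ := partC hn N'
    (fun i => hNpos _) (fun i => by rw [hsumN]; exact hNdvd _)
    (fun i => by rw [hsumN]; exact hlt _)
    (fun i => by
      have h3 : N' (some none) = N cp := by rw [hN', ← he2]; simp
      rw [h3]; exact hcp _ (Finset.mem_univ _))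
    Q hQ (fun i => h (e.symm i)) (fun i => by rw [hsumN]; exact hh1 (e.symm i))
    (by rw [Equiv.sum_comp e.symm h]; exact hh2) L hdeg
    (fun ρ hρ => by
      have h4 := ((hLmem ρ).1 hρ).2
      rw [← hsum (fun i => ρ i * h (e.symm i))]
      simpa using h4) hcan
  refine ⟨K, iK, iA, hK1, hK2, ?_, ?_, hex⟩
  · -- not rationally connected
    set r : ℤ := ((Q : ℤ) * ((A / N c0 : ℕ) : ℤ)) with hr
    set ρP : C → ℤ := fun c => (Q : ℤ) - (if c = c0 then r else (0 : ℤ)) with hρP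
    have hρPmem : ρP ∈ LG N Q h := by
      refine ⟨?_, ?_⟩
      · simp only [hρP, sub_mul, Finset.sum_sub_distrib, ite_mul, zero_mul,
          Finset.sum_ite_eq', Finset.mem_univ, if_true]
        rw [← Finset.mul_sum]
        have h5 : (∑ c, (N c : ℤ)) = A := by
          rw [hA]; push_cast; rfl
        have h6 : (((A / N c0 : ℕ) : ℤ)) * N c0 = A := by
          exact_mod_cast Nat.div_mul_cancel (hNdvd c0)
        rw [h5, hr, mul_assoc, h6, sub_self]
      · refine Finset.dvd_sum fun c _ => ?_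
        refine Dvd.dvd.mul_right ?_ _
        simp only [hρP]
        refine dvd_sub dvd_rfl ?_
        split_ifs
        · exact ⟨_, hr⟩
        · exact dvd_zero _
    obtain ⟨x, hx⟩ := hw (ρP ∘ e.symm) (hLmem' _ hρPmem)
    have hApos : 0 < A := lt_of_lt_of_le (hNpos c0)
      (Finset.single_le_sum (fun _ _ => Nat.zero_le _) (Finset.mem_univ c0))
    refine not_rationallyConnected hn y hy1 hys hind N' (by rw [hsumN]; exact hApos) L hdeg hcan
      Q hQ x ?_ hw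
    rw [hx]
    refine Finset.prod_congr rfl (fun i _ => ?_)
    by_cases hi : i = none
    · rw [hi, hy1, one_zpow, one_pow]
    · have h7 : e.symm i ≠ c0 := by
        intro h; apply hi; rw [← he1, ← h]; simp
      rw [Function.comp_apply]
      simp only [hρP, if_neg h7, sub_zero]
      rw [← zpow_natCast]
      push_cast
      rfl
  · intro m hm T hT
    by_contra hne
    exact hm (hvan m T hT hne)

end Pool.Agent.Work.MP_4329d7_ag.FF
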