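import Pool.Agent.Work.MP_4329d7_ag.RPsi

/-!
The Sylvester example: numerical part.
-/

namespace Pool.Agent.Work.MP_4329d7_ag.R

/-- partial products of the Sylvester sequence: 1, 2, 6, 42, 1806, ... -/
def PP : ℕ → ℕ
  | 0 => 1
  | k + 1 => PP k * (PP k + 1)

/-- the Sylvester sequence: 2, 3, 7, 43, ... -/
def ss (j : ℕ) : ℕ := PP j + 1

/-- coordinates: three copies of `j < k` (exponent `3 * ss j`) and three of `none` (exponent
`3 * PP k`). -/
abbrev Co (k : ℕ) : Type := Fin 3 × Option (Fin k)

/-- the numbers `N i = A / a i` where `A = 3 * PP k` is the least common multiple of the exponents. -/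
def NN (k : ℕ) (c : Co k) : ℕ :=
  match c.2 with
  | none => 1
  | some j => PP k / ss j

@[simp] theorem NN_none (k : ℕ) (t : Fin 3) : NN k (t, none) = 1 := rfl
@[simp] theorem NN_some (k : ℕ) (t : Fin 3) (j : Fin k) : NN k (t, some j) = PP k / ss j := rfl

/-- the group of exponent vectors: degree zero and invariant under the torus action. -/
def LL (k : ℕ) : AddSubgroup (Co k → ℤ) where
  carrier := {ρ | ∑ c, ρ c * NN k c = 0 ∧
    ∀ j : Fin k, (ss j : ℤ) ∣ ρ (0, some j) - ρ (1, some j) + ρ (2, some j)}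
  add_mem' := by
    rintro a b ⟨ha1, ha2⟩ ⟨hb1, hb2⟩
    refine ⟨?_, fun j => ?_⟩
    · simp only [Pi.add_apply, add_mul, Finset.sum_add_distrib, ha1, hb1, add_zero]
    · have h := dvd_add (ha2 j) (hb2 j)
      have e : (a + b) (0, some j) - (a + b) (1, some j) + (a + b) (2, some j) =
          a (0, some j) - a (1, some j) + a (2, some j) +
            (b (0, some j) - b (1, some j) + b (2, some j)) := by
        simp only [Pi.add_apply]
        ring
      rw [e]
      exact h
  zero_mem' := by
    refine ⟨?_, fun j => ?_⟩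
    · simp
    · simp
  neg_mem' := by
    rintro a ⟨ha1, ha2⟩
    refine ⟨?_, fun j => ?_⟩
    · simp only [Pi.neg_apply, neg_mul, Finset.sum_neg_distrib, ha1, neg_zero]
    · have h := (dvd_neg (a := (ss j : ℤ))).2 (ha2 j)
      have e : (-a) (0, some j) - (-a) (1, some j) + (-a) (2, some j) =
          -(a (0, some j) - a (1, some j) + a (2, some j)) := by
        simp only [Pi.neg_apply]
        ring
      rw [e]
      exact h

theorem mem_LL {k : ℕ} {ρ : Co k → ℤ} : ρ ∈ LL k ↔ ∑ c, ρ c * NN k c = 0 ∧
    ∀ j : Fin k, (ss j : ℤ) ∣ ρ (0, some j) - ρ (1, some j) + ρ (2, some j) := Iff.rfl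

theorem PP_pos (k : ℕ) : 0 < PP k := by
  induction k with
  | zero => simp [PP]
  | succ k ih => simp only [PP]; positivity

theorem ss_pos (j : ℕ) : 0 < ss j := Nat.succ_pos _

theorem PP_succ (k : ℕ) : PP (k + 1) = PP k * ss k := rfl

theorem ss_dvd_PP {j k : ℕ} (h : j < k) : ss j ∣ PP k := by
  induction k with
  | zero => omega
  | succ k ih =>
    rw [PP_succ]
    rcases Nat.lt_succ_iff_lt_or_eq.1 h with h | rfl
    · exact (ih h).mul_right _
    · exact dvd_mul_left _ _

theorem sum_div (k : ℕ) : ∑ j : Fin k, PP k / ss j + 1 = PP k := by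
  induction k with
  | zero => simp [PP]
  | succ k ih =>
    rw [Fin.sum_univ_castSucc]
    simp only [Fin.val_castSucc, Fin.val_last]
    have h1 : ∀ j : Fin k, PP (k + 1) / ss j = PP k / ss j * ss k := fun j => by
      rw [PP_succ, Nat.div_mul_right_comm (ss_dvd_PP j.2)]
    have h2 : PP (k + 1) / ss k = PP k := by
      rw [PP_succ, Nat.mul_div_cancel _ (ss_pos k)]
    rw [Finset.sum_congr rfl (fun j _ => h1 j), ← Finset.sum_mul, h2, PP_succ, ss]
    nlinarith [ih]

theorem sum_Co {M : Type*} [AddCommMonoid M] (k : ℕ) (f : Co k → M) :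
    ∑ c, f c = (f (0, none) + f (1, none) + f (2, none)) +
      ∑ j : Fin k, (f (0, some j) + f (1, some j) + f (2, some j)) := by
  rw [Fintype.sum_prod_type]
  simp only [Fintype.sum_option, Fin.sum_univ_three, Finset.sum_add_distrib]

theorem sum_NN (k : ℕ) : ∑ c, NN k c = 3 * PP k := by
  rw [sum_Co]
  simp only [NN_none, NN_some]
  rw [Finset.sum_add_distrib, Finset.sum_add_distrib]
  have := sum_div k
  omega

theorem growth (k : ℕ) (hk : 1 ≤ k) : 2 ^ (2 ^ (k - 1)) ≤ PP k := by
  induction k with
  | zero => omega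
  | succ k ih =>
    rcases Nat.eq_zero_or_pos k with rfl | h0
    · simp [PP]
    · have h := ih h0
      rw [PP_succ]
      have e : 2 ^ (2 ^ (k + 1 - 1)) = 2 ^ (2 ^ (k - 1)) * 2 ^ (2 ^ (k - 1)) := by
        rw [← pow_add]
        congr 1
        obtain ⟨m, rfl⟩ : ∃ m, k = m + 1 := ⟨k - 1, by omega⟩
        simp only [Nat.add_sub_cancel]
        rw [pow_succ]; ring
      rw [e]
      exact Nat.mul_le_mul h (h.trans (Nat.le_succ _))

/-- if all `ss j`, `j < k`, divide `m` then `PP k` divides `m`. -/
theorem PP_dvd (k : ℕ) (m : ℤ) (h : ∀ j : Fin k, (ss j : ℤ) ∣ m) : (PP k : ℤ) ∣ m := by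
  induction k with
  | zero => simp [PP]
  | succ k ih =>
    have h1 : (PP k : ℤ) ∣ m := ih (fun j => by simpa using h j.castSucc)
    have h2 : (ss k : ℤ) ∣ m := by simpa using h (Fin.last k)
    rw [PP_succ]
    push_cast
    refine IsCoprime.mul_dvd ?_ h1 h2
    rw [ss]
    exact ⟨-1, 1, by push_cast; ring⟩

/-- the exponent vector with entries `1` at the two coordinates `a`, `b` over `j`. -/
theorem mem_pair {k : ℕ} (j : Fin k) (a : Fin 3) (ha : a = 0 ∨ a = 2) :
    (Pi.single (a, some j) 1 + Pi.single (1, some j) 1 -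
      Pi.single (0, none) (2 * ((PP k / ss j : ℕ) : ℤ)) : Co k → ℤ) ∈ LL k := by
  classical
  rw [mem_LL]
  constructor
  · simp only [Pi.sub_apply, Pi.add_apply, sub_mul, add_mul, Finset.sum_sub_distrib,
      Finset.sum_add_distrib]
    simp only [Pi.single_apply, ite_mul, zero_mul, Finset.sum_ite_eq', Finset.mem_univ, if_true,
      NN_some, NN_none]
    push_cast
    ring
  · intro i
    rcases ha with rfl | rfl
    · simp [Pi.single_apply]
    · simp [Pi.single_apply]

theorem mem_none {k : ℕ} (a b : Fin 3) :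
    (Pi.single (a, none) 1 - Pi.single (b, none) 1 : Co k → ℤ) ∈ LL k := by
  classical
  rw [mem_LL]
  constructor
  · simp only [Pi.sub_apply, sub_mul, Finset.sum_sub_distrib]
    simp only [Pi.single_apply, ite_mul, zero_mul, Finset.sum_ite_eq', Finset.mem_univ, if_true,
      NN_some, NN_none]
    simp
  · intro i
    simp [Pi.single_apply]

theorem mem_full {k : ℕ} (j : Fin k) (a : Fin 3) :
    (Pi.single (a, some j) (ss j : ℤ) - Pi.single (0, none) (PP k : ℤ) : Co k → ℤ) ∈ LL k := by
  classical
  rw [mem_LL]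
  constructor
  · simp only [Pi.sub_apply, sub_mul, Finset.sum_sub_distrib]
    simp only [Pi.single_apply, ite_mul, zero_mul, Finset.sum_ite_eq', Finset.mem_univ, if_true,
      NN_some, NN_none]
    have := Nat.mul_div_cancel' (ss_dvd_PP j.2)
    have h2 : (ss j : ℤ) * ((PP k / ss j : ℕ) : ℤ) = PP k := by exact_mod_cast this
    rw [h2]; simp
  · intro i
    by_cases h : i = j
    · subst h
      fin_cases a <;> simp [Pi.single_apply]
    · fin_cases a <;> simp [Pi.single_apply, h]

/-- no reflections: every coordinate has an exponent vector in `LL` with entry `1` there. -/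
theorem noRefl (k : ℕ) (c : Co k) : ∃ ρ ∈ LL k, ρ c = 1 := by
  classical
  obtain ⟨a, o⟩ := c
  cases o with
  | none =>
    fin_cases a
    · exact ⟨_, mem_none 0 1, by simp [Pi.single_apply]⟩
    · exact ⟨_, mem_none 1 0, by simp [Pi.single_apply]⟩
    · exact ⟨_, mem_none 2 0, by simp [Pi.single_apply]⟩
  | some j =>
    fin_cases a
    · exact ⟨_, mem_pair j 0 (Or.inl rfl), by simp [Pi.single_apply]⟩
    · exact ⟨_, mem_pair j 0 (Or.inl rfl), by simp [Pi.single_apply]⟩
    · exact ⟨_, mem_pair j 2 (Or.inr rfl), by simp [Pi.single_apply]⟩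


theorem sum_pair {k : ℕ} (κ : Co k → ℕ) (j : Fin k) (a : Fin 3) :
    ∑ c, (Pi.single (a, some j) 1 + Pi.single (1, some j) 1 -
      Pi.single (0, none) (2 * ((PP k / ss j : ℕ) : ℤ)) : Co k → ℤ) c * NN k c * κ c =
    ((PP k / ss j : ℕ) : ℤ) * (κ (a, some j) + κ (1, some j) - 2 * κ (0, none)) := by
  classical
  simp only [Pi.sub_apply, Pi.add_apply, sub_mul, add_mul, Finset.sum_sub_distrib,
      Finset.sum_add_distrib]
  simp only [Pi.single_apply, ite_mul, zero_mul, Finset.sum_ite_eq', Finset.mem_univ, if_true,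
      NN_some, NN_none]
  push_cast
  ring

theorem sum_nn {k : ℕ} (κ : Co k → ℕ) (a b : Fin 3) :
    ∑ c, (Pi.single (a, none) 1 - Pi.single (b, none) 1 : Co k → ℤ) c * NN k c * κ c =
    (κ (a, none) : ℤ) - κ (b, none) := by
  classical
  simp only [Pi.sub_apply, sub_mul, Finset.sum_sub_distrib]
  simp only [Pi.single_apply, ite_mul, zero_mul, Finset.sum_ite_eq', Finset.mem_univ, if_true,
      NN_none]
  simp

theorem sum_full {k : ℕ} (κ : Co k → ℕ) (j : Fin k) (a : Fin 3) :
    ∑ c, (Pi.single (a, some j) (ss j : ℤ) - Pi.single (0, none) (PP k : ℤ) : Co k → ℤ) c *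
      NN k c * κ c = (PP k : ℤ) * (κ (a, some j) - κ (0, none)) := by
  classical
  simp only [Pi.sub_apply, sub_mul, Finset.sum_sub_distrib]
  simp only [Pi.single_apply, ite_mul, zero_mul, Finset.sum_ite_eq', Finset.mem_univ, if_true,
      NN_some, NN_none]
  have := Nat.mul_div_cancel' (ss_dvd_PP j.2)
  have h2 : (ss j : ℤ) * ((PP k / ss j : ℕ) : ℤ) = PP k := by exact_mod_cast this
  rw [h2]
  push_cast
  ring

/-- the Reid-Tai inequality. -/
theorem canonical (k : ℕ) (κ : Co k → ℕ) (h1 : ∃ c, κ c ≠ 0)
    (h2 : ∀ ρ ∈ LL k, ((3 * PP k : ℕ) : ℤ) ∣ ∑ c, ρ c * NN k c * κ c) :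
    3 * PP k ≤ ∑ c, NN k c * κ c := by
  classical
  have hP : 0 < PP k := PP_pos k
  have hPz : (PP k : ℤ) ≠ 0 := by exact_mod_cast hP.ne'
  -- congruences
  have hn : ∀ a : Fin 3, (3 * PP k : ℤ) ∣ (κ (a, none) : ℤ) - κ (0, none) := fun a => by
    have := h2 _ (mem_none a 0)
    rw [sum_nn] at this
    exact_mod_cast this
  have hp : ∀ (j : Fin k) (a : Fin 3), (a = 0 ∨ a = 2) →
      (3 * ss j : ℤ) ∣ (κ (a, some j) : ℤ) + κ (1, some j) - 2 * κ (0, none) := fun j a ha => by
    have h := h2 _ (mem_pair j a ha)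
    rw [sum_pair] at h
    have hd := Nat.div_mul_cancel (ss_dvd_PP j.2)
    have hq : 0 < PP k / ss j := Nat.div_pos (Nat.le_of_dvd hP (ss_dvd_PP j.2)) (ss_pos j)
    have e : ((3 * PP k : ℕ) : ℤ) = ((PP k / ss j : ℕ) : ℤ) * (3 * ss j) := by
      have h7 : (((PP k / ss j * ss j : ℕ)) : ℤ) = PP k := by exact_mod_cast hd
      push_cast at h7 ⊢
      linarith
    rw [e] at h
    exact (mul_dvd_mul_iff_left (by exact_mod_cast hq.ne')).1 h
  have hf : ∀ (j : Fin k) (a : Fin 3), (3 : ℤ) ∣ (κ (a, some j) : ℤ) - κ (0, none) := fun j a => by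
    have h := h2 _ (mem_full j a)
    rw [sum_full] at h
    have e : ((3 * PP k : ℕ) : ℤ) = (PP k : ℤ) * 3 := by push_cast; ring
    rw [e] at h
    exact (mul_dvd_mul_iff_left hPz).1 h
  by_cases h3 : (3 : ℤ) ∣ κ (0, none)
  · -- all are divisible by three
    have h3' : ∀ c, 3 ∣ κ c := by
      rintro ⟨a, o⟩
      cases o with
      | none =>
        have := hn a
        have h4 : (3 : ℤ) ∣ (κ (a, none) : ℤ) - κ (0, none) := (dvd_mul_right _ _).trans this
        omega
      | some j =>
        have := hf j a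
        omega
    choose κ1 hκ1 using h3'
    have hs : ∑ c, NN k c * κ c = 3 * ∑ c, NN k c * κ1 c := by
      rw [Finset.mul_sum]
      exact Finset.sum_congr rfl (fun c _ => by rw [hκ1 c]; ring)
    rw [hs]
    refine Nat.mul_le_mul_left 3 ?_
    set c1 := κ1 (0, none) with hc1
    have hn1 : ∀ a : Fin 3, (PP k : ℤ) ∣ (κ1 (a, none) : ℤ) - c1 := fun a => by
      have := hn a
      rw [hκ1 (a, none), hκ1 (0, none)] at this
      push_cast at this
      rw [← mul_sub] at this
      exact (mul_dvd_mul_iff_left (by norm_num)).1 this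
    have hp1 : ∀ (j : Fin k) (a : Fin 3), (a = 0 ∨ a = 2) →
        (ss j : ℤ) ∣ (κ1 (a, some j) : ℤ) + κ1 (1, some j) - 2 * c1 := fun j a ha => by
      have := hp j a ha
      rw [hκ1 (a, some j), hκ1 (1, some j), hκ1 (0, none)] at this
      push_cast at this
      have e : (3 * (κ1 (a, some j) : ℤ) + 3 * κ1 (1, some j) - 2 * (3 * κ1 (0, none))) =
        3 * ((κ1 (a, some j) : ℤ) + κ1 (1, some j) - 2 * c1) := by rw [hc1]; ring
      rw [e] at this
      exact (mul_dvd_mul_iff_left (by norm_num)).1 this
    have hnm : ∀ a : Fin 3, κ1 (a, none) % PP k = c1 % PP k := fun a => by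
      have := hn1 a
      exact (Nat.modEq_iff_dvd.2 (by simpa using (dvd_sub_comm.1 this)) : _ ≡ _ [MOD _])
    have hpm : ∀ (j : Fin k) (a : Fin 3), (a = 0 ∨ a = 2) →
        (κ1 (a, some j) + κ1 (1, some j)) % ss j = (2 * c1) % ss j := fun j a ha => by
      have := hp1 j a ha
      refine (Nat.modEq_iff_dvd.2 ?_ : _ ≡ _ [MOD _])
      push_cast
      exact dvd_sub_comm.1 this
    rw [sum_Co]
    simp only [NN_none, NN_some, one_mul]
    by_cases hc2 : PP k ∣ 2 * c1
    · by_cases hc3 : PP k ∣ c1
      · -- c1 = 0 mod P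
        obtain ⟨⟨a, o⟩, hne⟩ := h1
        have hne1 : κ1 (a, o) ≠ 0 := by
          intro h0; exact hne (by rw [hκ1, h0])
        cases o with
        | none =>
          have h5 : PP k ∣ κ1 (a, none) := by
            have := hnm a
            rw [Nat.mod_eq_zero_of_dvd hc3] at this
            exact Nat.dvd_of_mod_eq_zero this
          have h6 := Nat.le_of_dvd (Nat.pos_of_ne_zero hne1) h5
          have h7 : κ1 (a, none) ≤ κ1 (0, none) + κ1 (1, none) + κ1 (2, none) := by
            fin_cases a <;> simp <;> omega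
          omega
        | some j =>
          have hmain : ∀ b : Fin 3, (b = 0 ∨ b = 2) →
              κ1 (b, some j) + κ1 (1, some j) ≠ 0 →
              PP k ≤ PP k / ss j * (κ1 (b, some j) + κ1 (1, some j)) := by
            intro b hb hne2
            have h5 : ss j ∣ κ1 (b, some j) + κ1 (1, some j) := by
              have := hpm j b hb
              rw [Nat.mod_eq_zero_of_dvd ((ss_dvd_PP j.2).trans hc2)] at this
              exact Nat.dvd_of_mod_eq_zero this
            have h6 := Nat.le_of_dvd (Nat.pos_of_ne_zero hne2) h5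
            calc PP k = PP k / ss j * ss j := (Nat.div_mul_cancel (ss_dvd_PP j.2)).symm
              _ ≤ _ := Nat.mul_le_mul_left _ h6
          have hterm : PP k ≤ PP k / ss j * κ1 (0, some j) + PP k / ss j * κ1 (1, some j) +
              PP k / ss j * κ1 (2, some j) := by
            by_cases h8 : κ1 (0, some j) + κ1 (1, some j) = 0
            · have h9 : κ1 (2, some j) + κ1 (1, some j) ≠ 0 := by
                have : a = 2 := by
                  fin_cases a
                  · simp at hne1; omega
                  · simp at hne1; omega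
                  · rfl
                subst this
                omega
              have := hmain 2 (Or.inr rfl) h9
              rw [mul_add] at this
              omega
            · have := hmain 0 (Or.inl rfl) h8
              rw [mul_add] at this
              omega
          have hle := Finset.single_le_sum (f := fun j : Fin k =>
            PP k / ss j * κ1 (0, some j) + PP k / ss j * κ1 (1, some j) +
              PP k / ss j * κ1 (2, some j)) (fun _ _ => Nat.zero_le _) (Finset.mem_univ j)
          omega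
      · -- c1 = P / 2 mod P
        have h5 : 0 < c1 % PP k := Nat.pos_of_ne_zero (fun h => hc3 (Nat.dvd_of_mod_eq_zero h))
        have h6 : PP k ≤ 2 * (c1 % PP k) := by
          refine Nat.le_of_dvd (by omega) ?_
          have := (Nat.dvd_mod_iff (dvd_refl (PP k))).2 hc2
          rw [Nat.mul_mod] at this
          have h7 : PP k ∣ 2 * c1 - 2 * (PP k * (c1 / PP k)) :=
            Nat.dvd_sub hc2 (((dvd_mul_right _ _)).mul_left 2)
          have h8 := Nat.mod_add_div c1 (PP k)
          have : 2 * c1 - 2 * (PP k * (c1 / PP k)) = 2 * (c1 % PP k) := by omega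
          rwa [this] at h7
        have h7 : ∀ a : Fin 3, c1 % PP k ≤ κ1 (a, none) := fun a => by
          rw [← hnm a]; exact Nat.mod_le _ _
        have := h7 0
        have := h7 1
        have := h7 2
        omega
    · -- the main case
      set r := (2 * c1) % PP k with hr
      have hr0 : 0 < r := Nat.pos_of_ne_zero (fun h => hc2 (Nat.dvd_of_mod_eq_zero h))
      have hA : r ≤ κ1 (0, none) + κ1 (1, none) + κ1 (2, none) := by
        have h7 : ∀ a : Fin 3, c1 % PP k ≤ κ1 (a, none) := fun a => by
          rw [← hnm a]; exact Nat.mod_le _ _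
        have h70 := h7 0
        have h71 := h7 1
        have h8 : r ≤ 2 * (c1 % PP k) := by
          rw [hr, Nat.mul_mod]
          refine (Nat.mod_le _ _).trans ?_
          exact Nat.mul_le_mul_right _ (Nat.mod_le _ _)
        omega
      have hB : ∑ j : Fin k, PP k / ss j * ((2 * c1) % ss j) ≤
          ∑ j : Fin k, (PP k / ss j * κ1 (0, some j) + PP k / ss j * κ1 (1, some j) +
              PP k / ss j * κ1 (2, some j)) := by
        refine Finset.sum_le_sum (fun j _ => ?_)
        rw [← hpm j 0 (Or.inl rfl)]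
        calc PP k / ss j * ((κ1 (0, some j) + κ1 (1, some j)) % ss j)
            ≤ PP k / ss j * (κ1 (0, some j) + κ1 (1, some j)) :=
              Nat.mul_le_mul_left _ (Nat.mod_le _ _)
          _ ≤ _ := by rw [mul_add]; omega
      have hC : PP k ∣ r + ∑ j : Fin k, PP k / ss j * ((2 * c1) % ss j) := by
        have hmod : r + ∑ j : Fin k, PP k / ss j * ((2 * c1) % ss j) ≡
            2 * c1 + ∑ j : Fin k, PP k / ss j * (2 * c1) [MOD PP k] := by
          refine Nat.ModEq.add (Nat.mod_modEq _ _) ?_
          have : ∀ j : Fin k, PP k / ss j * ((2 * c1) % ss j) ≡ PP k / ss j * (2 * c1)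
              [MOD PP k] := fun j => by
            have h9 := Nat.ModEq.mul_left' (PP k / ss j) (Nat.mod_modEq (2 * c1) (ss j))
            rwa [Nat.div_mul_cancel (ss_dvd_PP j.2)] at h9
          exact Nat.ModEq.sum (fun j _ => this j)
        refine (Nat.modEq_zero_iff_dvd).1 (hmod.trans ?_)
        refine (Nat.modEq_zero_iff_dvd).2 ?_
        rw [← Finset.sum_mul]
        have : 2 * c1 + (∑ j : Fin k, PP k / ss j) * (2 * c1) = PP k * (2 * c1) := by
          conv_rhs => rw [← sum_div k]
          ring
        rw [this]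
        exact dvd_mul_right _ _
      have := Nat.le_of_dvd (by omega) hC
      omega
  · -- all are at least one
    have h4 : ∀ c, 1 ≤ κ c := by
      rintro ⟨a, o⟩
      cases o with
      | none =>
        have := hn a
        have h4 : (3 : ℤ) ∣ (κ (a, none) : ℤ) - κ (0, none) := (dvd_mul_right _ _).trans this
        omega
      | some j =>
        have := hf j a
        omega
    rw [← sum_NN]
    exact Finset.sum_le_sum (fun c _ => Nat.le_mul_of_pos_right _ (h4 c))

end Pool.Agent.Work.MP_4329d7_ag.R
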