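import Pool.Agent.Work.MP_4329d7_ag.GNum
import Pool.Agent.Work.MP_4329d7_ag.Sylv

/-!
Orders of regular tensor forms from decompositions of one into unit fractions.
-/

namespace Pool.Agent.Work.MP_4329d7_ag.FF

open R Nat

/-- There is a finitely generated field over `ℂ` of transcendence degree `D` which is not
rationally connected and has a nonzero regular tensor form of order `m` exactly when `r ∣ m`. -/
def OrdersExactly (D r : ℕ) : Prop :=
  ∃ (K : Type) (_ : Field K) (_ : Algebra ℂ K), Algebra.EssFiniteType ℂ K ∧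
    Algebra.trdeg ℂ K = D ∧ ¬ RationallyConnected K ∧
    ∀ m : ℕ, (∃ T : TensorForm K m, IsRegular T ∧ T ≠ 0) ↔ r ∣ m

/-- For the finitely generated fields over `ℂ` of transcendence degree `D`, the vanishing of the
regular tensor forms of all positive orders in `M` implies rational connectedness, or only implies
the vanishing of the regular tensor forms of all positive orders. -/
def Suffices (D : ℕ) (M : Set ℕ) : Prop :=
  ∀ (K : Type) [Field K] [Algebra ℂ K], Algebra.EssFiniteType ℂ K → Algebra.trdeg ℂ K = D →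
    (∀ m ∈ M, 0 < m → ∀ T : TensorForm K m, IsRegular T → T = 0) →
    RationallyConnected K ∨ ∀ m, 0 < m → ∀ T : TensorForm K m, IsRegular T → T = 0

theorem Suffices.exists_dvd {D r : ℕ} {M : Set ℕ} (hM : Suffices D M) (hr : 0 < r)
    (h : OrdersExactly D r) : ∃ m ∈ M, 0 < m ∧ r ∣ m := by
  by_contra hcon
  push Not at hcon
  obtain ⟨K, iK, iA, h1, h2, h3, h4⟩ := h
  rcases hM K h1 h2 (fun m hm hm0 T hT => by
    by_contra hT0
    exact hcon m hm hm0 ((h4 m).1 ⟨T, hT, hT0⟩)) with h | h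
  · exact h3 h
  · obtain ⟨T, hT, hT0⟩ := (h4 r).2 dvd_rfl
    exact hT0 (h _ hr T hT)

theorem OrdersExactly.succ {D r : ℕ} (h : OrdersExactly D r) : OrdersExactly (D + 1) r := by
  obtain ⟨K, iK, iA, h1, h2, h3, h4⟩ := h
  refine ⟨RatFunc K, inferInstance, inferInstance, essFinite_ratFunc h1, ?_,
    fun h => h3 (rc_of_ratFunc h), fun m => ⟨fun ⟨T, hT, hT0⟩ => ?_, fun hm => ?_⟩⟩
  · rw [trdeg_ratFunc h2]
  · by_contra hm
    exact hT0 (vanish_ratFunc' h2 (fun T' hT' => by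
      by_contra hT0'
      exact hm ((h4 m).1 ⟨T', hT', hT0'⟩)) T hT)
  · obtain ⟨T, hT, hT0⟩ := (h4 m).2 hm
    exact exists_ratFunc h2 hT hT0

theorem OrdersExactly.mono {D D' r : ℕ} (hD : D ≤ D') (h : OrdersExactly D r) :
    OrdersExactly D' r := by
  induction D', hD using Nat.le_induction with
  | base => exact h
  | succ n _ ih => exact ih.succ

theorem ordersExactly_unit (J : Type) [Fintype J] (b : J → ℕ) (P Q n D : ℕ)
    (hb : ∀ j, 0 < b j) (hP : 0 < P) (hsum : ∑ j, (1 : ℚ) / b j + 1 / P = 1) (hQP : Q ∣ P)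
    (hn : 2 * Fintype.card J + 1 ≤ n) (hQn : Odd Q ∨ 2 * Fintype.card J + 2 ≤ n) (hD : n ≤ D) :
    OrdersExactly D (n * Q) := by
  classical
  refine OrdersExactly.mono hD ?_
  obtain ⟨s, rfl⟩ : ∃ s, n = 2 * Fintype.card J + 1 + s := ⟨n - (2 * Fintype.card J + 1), by omega⟩
  obtain ⟨f0, hf1, hf2⟩ := exists_f0 J s Q (hQn.imp_right fun h => by omega)
  set p := ∏ j, b j with hp
  have hp0 : 0 < p := Finset.prod_pos fun j _ => hb j
  have hdvd : ∀ j, b j ∣ p * P := fun j => (Finset.dvd_prod_of_mem b (Finset.mem_univ j)).mul_right _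
  set q : J → ℕ := fun j => p * P / b j with hq
  have hqb0 : ∀ j, q j * b j = p * P := fun j => Nat.div_mul_cancel (hdvd j)
  have hpP : p * P = p + ∑ j, q j := by
    have h1 : ((p * P : ℕ) : ℚ) = ((p + ∑ j, q j : ℕ) : ℚ) := by
      have h2 : ∀ j, (q j : ℚ) = (p * P : ℚ) * (1 / b j) := by
        intro j
        have h3 : (q j : ℚ) * b j = p * P := by exact_mod_cast hqb0 j
        have h4 : (b j : ℚ) ≠ 0 := by exact_mod_cast (hb j).ne'
        rw [mul_one_div, eq_div_iff h4, h3]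
      push_cast
      simp only [h2]
      rw [← Finset.mul_sum]
      have h5 : (P : ℚ) ≠ 0 := by exact_mod_cast hP.ne'
      have h6 : (p : ℚ) = (p * P : ℚ) * (1 / P) := by
        field_simp
      calc (p : ℚ) * P = (p * P : ℚ) * (∑ j, (1 : ℚ) / b j + 1 / P) := by rw [hsum, mul_one]
        _ = _ := by
          rw [mul_add, ← h6]; ring
    exact_mod_cast h1
  have hqb : ∀ j, q j * b j = p + ∑ j, q j := fun j => by rw [hqb0, hpP]
  have hq0 : ∀ j, 0 < q j := by
    intro j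
    rcases Nat.eq_zero_or_pos (q j) with h | h
    · have := hqb j
      rw [h, zero_mul] at this
      omega
    · exact h
  have hNpos : ∀ c, 0 < NG s p q c := by
    rintro ((t | j) | (_ | j))
    · exact hp0
    · exact Nat.mul_pos (by omega) (hq0 j)
    · exact Nat.mul_pos (by omega) hp0
    · exact Nat.mul_pos (by omega) (hq0 j)
  -- the quotients `A / N`
  have hquot : ∀ c, ∃ a, a * NG s p q c = ∑ c, NG s p q c ∧ 2 ≤ a ∧ (Q : ℤ) ∣ (a : ℤ) * hG s c := by
    have hQP' : (Q : ℤ) ∣ P := by exact_mod_cast hQP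
    rw [sum_NG]
    rintro ((t | j) | (_ | j))
    · refine ⟨2 * (s + 2) * P, ?_, ?_, ?_⟩
      · change 2 * (s + 2) * P * p = _
        rw [← hpP]; ring
      · nlinarith
      · push_cast
        exact (hQP'.mul_left _).mul_right _
    · refine ⟨2 * b j, ?_, ?_, ?_⟩
      · change 2 * b j * ((s + 2) * q j) = _
        rw [← hqb j]; ring
      · have := hb j; omega
      · simp [hG]
    · refine ⟨2 * P, ?_, by omega, ?_⟩
      · change 2 * P * ((s + 2) * p) = _
        rw [← hpP]; ring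
      · push_cast
        exact (hQP'.mul_left _).mul_right _
    · refine ⟨2 * b j, ?_, ?_, ?_⟩
      · change 2 * b j * ((s + 2) * q j) = _
        rw [← hqb j]; ring
      · have := hb j; omega
      · simp [hG]
  have hQ0 : 0 < Q := Nat.pos_of_dvd_of_pos hQP hP
  have hcard : Fintype.card (CG J s) = (2 * Fintype.card J + 1 + s) + 2 := by
    simp only [Fintype.card_sum, Fintype.card_fin, Fintype.card_option]
    omega
  obtain ⟨K, iK, iA, h1, h2, h3, h4, h5⟩ := exists_field_gen (2 * Fintype.card J + 1 + s)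
    (by omega) hcard (NG s p q) hNpos
    (fun c => by obtain ⟨a, ha, -⟩ := hquot c; exact Dvd.intro_left a ha)
    (fun c => by
      obtain ⟨a, ha, h2a, -⟩ := hquot c
      rw [← ha]; exact Nat.mul_le_mul_right _ h2a)
    Q hQ0 (hG s)
    (fun c => by
      obtain ⟨a, ha, -, h3⟩ := hquot c
      rw [← ha, Nat.mul_div_cancel _ (hNpos c)]
      exact h3)
    (by rw [sum_hG]; simp)
    (fun κ _ hκ1 hκ => canonicalG hp0 hQP f0 hf1 hf2 hpP hqb κ hκ1 hκ)
  refine ⟨K, iK, iA, h1, h2, h3, fun m => ⟨fun ⟨T, hT, hT0⟩ => ?_, h5 m⟩⟩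
  by_contra hm
  exact hT0 (h4 m hm T hT)

/-- the decomposition of Sylvester -/
theorem ordersExactly_sylvester (k n D : ℕ) (hk : 2 * k + 2 ≤ n) (hD : n ≤ D) :
    OrdersExactly D (n * PP k) := by
  refine ordersExactly_unit (Fin k) (fun j => ss j) (PP k) (PP k) n D (fun j => ss_pos j)
    (PP_pos k) ?_ dvd_rfl (by rw [Fintype.card_fin]; omega) (Or.inr (by simpa using hk)) hD
  have h1 : (PP k : ℚ) ≠ 0 := by exact_mod_cast (PP_pos k).ne'
  have h2 : ∀ j : Fin k, (1 : ℚ) / (ss j : ℕ) = ((PP k / ss j : ℕ) : ℚ) / PP k := by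
    intro j
    have h3 : (ss j : ℚ) ≠ 0 := by exact_mod_cast (ss_pos j).ne'
    rw [Nat.cast_div (ss_dvd_PP j.2) h3]
    field_simp
  simp only [h2]
  rw [← Finset.sum_div, ← add_div, div_eq_one_iff_eq h1]
  exact_mod_cast sum_div k

/-- every `n < (k + 1)!` is a sum of at most `k` divisors of `(k + 1)!`. -/
theorem sum_divisors (k : ℕ) : ∀ n < (k + 1)!, ∃ t ≤ k, ∃ d : Fin t → ℕ,
    (∀ i, d i ∣ (k + 1)!) ∧ ∑ i, d i = n := by
  induction k with
  | zero =>
    intro n hn
    have : n = 0 := by simpa using hn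
    subst this
    exact ⟨0, le_rfl, fun i => i.elim0, fun i => i.elim0, by simp⟩
  | succ k ih =>
    intro n hn
    have hf : (k + 1 + 1)! = (k + 2) * (k + 1)! := Nat.factorial_succ (k + 1)
    rw [hf] at hn ⊢
    obtain ⟨t, ht, d, hd, hs⟩ := ih (n / (k + 2)) (by
      rw [Nat.div_lt_iff_lt_mul (by omega)]; rw [mul_comm]; exact hn)
    have hn' : n = (k + 2) * (n / (k + 2)) + n % (k + 2) := (Nat.div_add_mod n (k + 2)).symm
    rcases Nat.eq_zero_or_pos (n % (k + 2)) with h0 | h0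
    · refine ⟨t, by omega, fun i => (k + 2) * d i, fun i => mul_dvd_mul_left _ (hd i), ?_⟩
      rw [← Finset.mul_sum, hs, hn', h0]
      simp
    · refine ⟨t + 1, by omega, Fin.cons (n % (k + 2)) (fun i => (k + 2) * d i), ?_, ?_⟩
      · intro i
        refine Fin.cases ?_ (fun i => ?_) i
        · rw [Fin.cons_zero]
          refine Dvd.dvd.mul_left ?_ _
          exact Nat.dvd_factorial h0 (Nat.lt_succ_iff.1 (Nat.mod_lt n (by omega)))
        · rw [Fin.cons_succ]
          exact mul_dvd_mul_left _ (hd i)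
      · rw [Fin.sum_univ_succ]
        simp only [Fin.cons_zero, Fin.cons_succ]
        rw [← Finset.mul_sum, hs, add_comm]
        exact hn'.symm

theorem telescope (k : ℕ) :
    ∑ i : Fin k, (1 : ℚ) / (((i : ℕ) + 2) * (i : ℕ)! : ℕ) + 1 / ((k + 1)! : ℕ) = 1 := by
  induction k with
  | zero => simp
  | succ k ih =>
    rw [Fin.sum_univ_castSucc]
    simp only [Fin.val_castSucc, Fin.val_last]
    rw [add_assoc]
    have h : (1 : ℚ) / (((k : ℕ) + 2) * (k : ℕ)! : ℕ) + 1 / ((k + 1 + 1)! : ℕ) =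
        1 / ((k + 1)! : ℕ) := by
      have h1 : ((k ! : ℕ) : ℚ) ≠ 0 := by exact_mod_cast (Nat.factorial_pos k).ne'
      rw [Nat.factorial_succ (k + 1), Nat.factorial_succ k]
      push_cast
      field_simp
      ring
    rw [h, ih]

theorem ordersExactly_factorial (k N n D : ℕ) (hk : 1 ≤ k) (hN : 1 ≤ N) (hNk : N ≤ k !)
    (hn : 4 * k ≤ n + 2) (hD : n ≤ D) : OrdersExactly D (n * N) := by
  obtain ⟨k, rfl⟩ : ∃ k', k = k' + 1 := ⟨k - 1, by omega⟩
  obtain ⟨t, ht, d, hd, hs⟩ := sum_divisors k (N - 1) (by omega)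
  have hf0 : 0 < (k + 1)! := Nat.factorial_pos _
  have hd0 : ∀ i, 0 < d i := fun i => Nat.pos_of_dvd_of_pos (hd i) hf0
  refine ordersExactly_unit (Fin k ⊕ Fin t)
    (Sum.elim (fun i => ((i : ℕ) + 2) * (i : ℕ)!) (fun i => N * ((k + 1)! / d i)))
    (N * (k + 1)!) N n D ?_ (Nat.mul_pos hN hf0) ?_ (Dvd.intro _ rfl) ?_ (Or.inr ?_) hD
  · rintro (i | i)
    · exact Nat.mul_pos (by omega) (Nat.factorial_pos _)
    · exact Nat.mul_pos hN (Nat.div_pos (Nat.le_of_dvd hf0 (hd i)) (hd0 i))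
  · rw [Fintype.sum_sum_type]
    simp only [Sum.elim_inl, Sum.elim_inr]
    have hNq : (N : ℚ) ≠ 0 := by exact_mod_cast (show N ≠ 0 by omega)
    have hfq : (((k + 1)! : ℕ) : ℚ) ≠ 0 := by exact_mod_cast hf0.ne'
    have h1 : ∀ i, (1 : ℚ) / ((N * ((k + 1)! / d i) : ℕ) : ℚ) = (d i : ℚ) / (N * ((k + 1)! : ℕ)) := by
      intro i
      have h2 : (d i : ℚ) ≠ 0 := by exact_mod_cast (hd0 i).ne'
      rw [Nat.cast_mul, Nat.cast_div (hd i) h2]
      field_simp
    simp only [h1]
    rw [← Finset.sum_div, add_assoc]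
    have h3 : (∑ i, (d i : ℚ)) = N - 1 := by
      have h4 : (∑ i, (d i : ℚ)) = ((N - 1 : ℕ) : ℚ) := by rw [← hs]; push_cast; rfl
      rw [h4, Nat.cast_sub hN, Nat.cast_one]
    have h5 : (∑ i, (d i : ℚ)) / (N * ((k + 1)! : ℕ)) + 1 / ((N * (k + 1)! : ℕ) : ℚ) =
        1 / ((k + 1)! : ℕ) := by
      rw [h3]
      push_cast
      field_simp
      ring
    rw [h5]
    exact telescope k
  · rw [Fintype.card_sum, Fintype.card_fin, Fintype.card_fin]
    omega
  · rw [Fintype.card_sum, Fintype.card_fin, Fintype.card_fin]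
    omega

/-- the decomposition for odd dimensions -/
theorem ordersExactly_sylvester_odd (k n D : ℕ) (hk0 : 1 ≤ k) (hk : 2 * k + 3 ≤ n) (hD : n ≤ D) :
    OrdersExactly D (n * (PP k * (PP k + 4) / 4)) := by
  have hmod : PP k % 4 = 2 := by
    induction k, hk0 using Nat.le_induction with
    | base => rfl
    | succ k _ ih =>
      have h1 := ih (by omega)
      rw [PP_succ, ss, Nat.mul_mod, Nat.add_mod, h1]
  obtain ⟨r, hr⟩ : ∃ r, PP k = 4 * r + 2 := ⟨PP k / 4, by omega⟩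
  have hP' : PP k * (PP k + 4) / 4 = (2 * r + 1) * (2 * r + 3) := by
    rw [hr]
    refine Nat.div_eq_of_eq_mul_left (by norm_num) ?_
    ring
  have h1 : (PP k : ℚ) ≠ 0 := by exact_mod_cast (PP_pos k).ne'
  rw [hP']
  refine ordersExactly_unit (Option (Fin k)) (fun j => j.elim (PP k + 4) (fun j => ss j))
    ((2 * r + 1) * (2 * r + 3)) ((2 * r + 1) * (2 * r + 3)) n D ?_ (by positivity) ?_ dvd_rfl
    (by rw [Fintype.card_option, Fintype.card_fin]; omega)
    (Or.inl (Odd.mul ⟨r, rfl⟩ ⟨r + 1, by ring⟩)) hD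
  · rintro (_ | j)
    · exact Nat.succ_pos _
    · exact ss_pos j
  · rw [Fintype.sum_option]
    simp only [Option.elim_none, Option.elim_some]
    have h2 : ∀ j : Fin k, (1 : ℚ) / (ss j : ℕ) = ((PP k / ss j : ℕ) : ℚ) / PP k := by
      intro j
      have h3 : (ss j : ℚ) ≠ 0 := by exact_mod_cast (ss_pos j).ne'
      rw [Nat.cast_div (ss_dvd_PP j.2) h3]
      field_simp
    simp only [h2]
    rw [← Finset.sum_div]
    have h3 : (∑ j : Fin k, ((PP k / ss j : ℕ) : ℚ)) = PP k - 1 := by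
      have h4 : (∑ j : Fin k, ((PP k / ss j : ℕ) : ℚ)) + 1 = PP k := by exact_mod_cast sum_div k
      linarith
    rw [h3, hr]
    push_cast
    have h5 : (4 * (r : ℚ) + 2) ≠ 0 := by positivity
    have h6 : (4 * (r : ℚ) + 2 + 4) ≠ 0 := by positivity
    have h7 : (2 * (r : ℚ) + 1) ≠ 0 := by positivity
    have h8 : (2 * (r : ℚ) + 3) ≠ 0 := by positivity
    field_simp
    ring

theorem growth_odd (k : ℕ) (hk : 1 ≤ k) : 2 ^ (2 ^ k - 1) ≤ PP k * (PP k + 4) / 4 := by
  have h : ∀ k, 3 ≤ k → 4 * 2 ^ (2 ^ k) ≤ PP k * PP k := by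
    intro k hk
    induction k, hk using Nat.le_induction with
    | base => decide
    | succ k hk ih =>
      have h1 : 2 ^ (2 ^ (k + 1)) = 2 ^ (2 ^ k) * 2 ^ (2 ^ k) := by
        rw [← pow_add]
        congr 1
        rw [pow_succ]; ring
      have h2 : PP k * PP k ≤ PP (k + 1) := Nat.mul_le_mul_left _ (Nat.le_succ _)
      have h3 := Nat.mul_le_mul ih ih
      have h4 := Nat.mul_le_mul h2 h2
      rw [h1]
      nlinarith
  rw [Nat.le_div_iff_mul_le (by norm_num)]
  rcases lt_or_ge k 3 with h3 | h3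
  · interval_cases k
    · decide
    · decide
  · have h1 := h k h3
    have h2 : 2 ^ (2 ^ k - 1) ≤ 2 ^ 2 ^ k := Nat.pow_le_pow_right (by norm_num) (Nat.sub_le _ _)
    nlinarith

theorem ordersExactly_large (n D : ℕ) (hn : 3 ≤ n) (hD : n ≤ D) :
    ∃ P, 2 ^ (2 ^ ((n - 3) / 2) - 1) ≤ P ∧ OrdersExactly D (n * P) := by
  rcases Nat.even_or_odd' n with ⟨k, hk | hk⟩
  · obtain ⟨k, rfl⟩ : ∃ k', k = k' + 2 := ⟨k - 2, by omega⟩
    refine ⟨PP (k + 1), ?_, ordersExactly_sylvester (k + 1) n D (by omega) hD⟩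
    have h1 : (n - 3) / 2 = k := by omega
    rw [h1]
    refine le_trans ?_ (growth (k + 1) (by omega))
    rw [Nat.add_sub_cancel]
    exact Nat.pow_le_pow_right (by norm_num) (Nat.sub_le _ _)
  · obtain ⟨k, rfl⟩ : ∃ k', k = k' + 1 := ⟨k - 1, by omega⟩
    have h1 : (n - 3) / 2 = k := by omega
    rw [h1]
    rcases Nat.eq_zero_or_pos k with rfl | h0
    · refine ⟨1, by simp, ?_⟩
      have := ordersExactly_unit (Fin 0) (fun _ => 1) 1 1 n D (fun _ => one_pos) one_pos
        (by simp) dvd_rfl (by simp; omega) (Or.inl odd_one) hD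
      exact this
    · exact ⟨_, growth_odd k h0, ordersExactly_sylvester_odd k n D h0 (by omega) hD⟩

end Pool.Agent.Work.MP_4329d7_ag.FF
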