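import Pool.Agent.Work.MP_4329d7_ag.GField

/-!
The numerical data attached to a decomposition `∑ 1 / b j + 1 / P = 1`.
-/

namespace Pool.Agent.Work.MP_4329d7_ag.FF

open R

/-- the coordinates -/
abbrev CG (J : Type) (s : ℕ) : Type := (Fin (s + 2) ⊕ J) ⊕ Option J

/-- the numbers `N` -/
def NG {J : Type} (s p : ℕ) (q : J → ℕ) : CG J s → ℕ
  | .inl (.inl _) => p
  | .inl (.inr j) => (s + 2) * q j
  | .inr none => (s + 2) * p
  | .inr (some j) => (s + 2) * q j

/-- the weights `h` -/
def hG {J : Type} (s : ℕ) : CG J s → ℤ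
  | .inl (.inl t) => if t = 0 then 1 else if t = 1 then -1 else 0
  | .inl (.inr _) => 0
  | .inr none => 1
  | .inr (some _) => 0

theorem sum_CG {J : Type} [Fintype J] (s : ℕ) {M : Type*} [AddCommMonoid M] (f : CG J s → M) :
    ∑ c, f c = (∑ t, f (.inl (.inl t)) + ∑ j, f (.inl (.inr j))) +
      (f (.inr none) + ∑ j, f (.inr (some j))) := by
  rw [Fintype.sum_sum_type, Fintype.sum_sum_type, Fintype.sum_option]

theorem sum_single' {C : Type} [Fintype C] [DecidableEq C] (i : C) (x : ℤ) (f : C → ℤ) :
    ∑ c, (Pi.single i x : C → ℤ) c * f c = x * f i := by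
  simp [Pi.single_apply, ite_mul]

theorem sum_hG {J : Type} [Fintype J] (s : ℕ) : ∑ c, hG (J := J) s c = 1 := by
  rw [sum_CG]
  simp only [hG, Finset.sum_const_zero, add_zero]
  rw [Fin.sum_univ_succ, Fin.sum_univ_succ]
  have h : ∀ i : Fin s, (if (i.succ.succ : Fin (s + 2)) = 0 then (1 : ℤ) else
      if (i.succ.succ : Fin (s + 2)) = 1 then -1 else 0) = 0 := by
    intro i
    rw [if_neg (Fin.succ_ne_zero _), if_neg]
    intro h
    have := congrArg Fin.val h
    simp at this
  simp only [h, Finset.sum_const_zero]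
  simp

theorem sum_NG {J : Type} [Fintype J] (s p : ℕ) (q : J → ℕ) :
    ∑ c, NG s p q c = 2 * (s + 2) * (p + ∑ j, q j) := by
  rw [sum_CG]
  simp only [NG, Finset.sum_const, Finset.card_univ, Fintype.card_fin, smul_eq_mul]
  rw [← Finset.mul_sum]
  ring

section canonical

variable {J : Type} [Fintype J] [DecidableEq J] {s p P Q : ℕ} {q b : J → ℕ}

theorem pairG {C : Type} [Fintype C] [DecidableEq C] {N : C → ℕ} {h : C → ℤ} {κ : C → ℕ}
    {A : ℤ} (hκ : ∀ ρ ∈ LG N Q h, A ∣ ∑ c, ρ c * N c * κ c) (i i' : C) (x y : ℤ)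
    (h1 : x * N i = y * N i') (h2 : (Q : ℤ) ∣ x * h i - y * h i') :
    A ∣ x * N i * ((κ i : ℤ) - κ i') := by
  have hmem : (Pi.single i x - Pi.single i' y : C → ℤ) ∈ LG N Q h := by
    refine ⟨?_, ?_⟩
    · simp only [Pi.sub_apply, sub_mul, Finset.sum_sub_distrib, sum_single']
      rw [h1, sub_self]
    · simp only [Pi.sub_apply, sub_mul, Finset.sum_sub_distrib, sum_single']
      exact h2
  have h3 := hκ _ hmem
  have h4 : ∑ c, (Pi.single i x - Pi.single i' y : C → ℤ) c * N c * κ c =
      x * N i * ((κ i : ℤ) - κ i') := by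
    simp only [Pi.sub_apply, sub_mul, mul_assoc, Finset.sum_sub_distrib, sum_single']
    rw [← mul_assoc y, ← h1]
    ring
  rwa [h4] at h3

theorem canonicalG (hp : 0 < p) (hQP : Q ∣ P) (f0 : Fin (s + 2) → ℤ)
    (hf1 : ∑ t, f0 t = s + 2) (hf2 : (Q : ℤ) ∣ ∑ t, f0 t * hG (J := J) s (.inl (.inl t)) - 1)
    (hpP : p * P = p + ∑ j, q j) (hqb : ∀ j, q j * b j = p + ∑ j, q j)
    (κ : CG J s → ℕ) (hκ1 : ∃ c, κ c ≠ 0)
    (hκ : ∀ ρ ∈ LG (NG s p q) Q (hG s),
      ((∑ c, NG s p q c : ℕ) : ℤ) ∣ ∑ c, ρ c * NG s p q c * κ c) :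
    ∑ c, NG s p q c ≤ ∑ c, NG s p q c * κ c := by
  set W := p + ∑ j, q j with hW
  have hA : ∑ c, NG s p q c = 2 * (s + 2) * W := sum_NG s p q
  have hW0 : 0 < W := by omega
  have hpP' : (p : ℤ) * P = W := by exact_mod_cast hpP
  have hqb' : ∀ j, (q j : ℤ) * b j = W := fun j => by exact_mod_cast hqb j
  have hQP' : (Q : ℤ) ∣ P := by exact_mod_cast hQP
  have hWZ : (W : ℤ) ≠ 0 := by exact_mod_cast hW0.ne'
  have hsZ : ((s : ℤ) + 2) ≠ 0 := by positivity
  have hAZ : ((∑ c, NG s p q c : ℕ) : ℤ) = 2 * ((s : ℤ) + 2) * W := by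
    rw [hA]; push_cast; ring
  rw [hAZ] at hκ
  -- the base coordinate
  set o : CG J s := .inl (.inl 0) with ho
  have hoN : NG s p q o = p := rfl
  -- all coordinates are congruent modulo two
  have hpar : ∀ c, (2 : ℤ) ∣ (κ c : ℤ) - κ o := by
    have hcase : ∀ c, NG s p q c = p ∨ ∃ x : ℕ, x * NG s p q c = (s + 2) * W ∧
        (Q : ℤ) ∣ x * hG s c := by
      rintro ((t | j) | (_ | j))
      · exact Or.inl rfl
      · refine Or.inr ⟨b j, ?_, ?_⟩
        · change b j * ((s + 2) * q j) = _
          rw [← hqb j]; ring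
        · simp [hG]
      · refine Or.inr ⟨P, ?_, ?_⟩
        · change P * ((s + 2) * p) = _
          rw [← hpP]; ring
        · simpa [hG] using hQP'
      · refine Or.inr ⟨b j, ?_, ?_⟩
        · change b j * ((s + 2) * q j) = _
          rw [← hqb j]; ring
        · simp [hG]
    intro c
    rcases hcase c with h1 | ⟨x, h1, h2⟩
    · have h3 := pairG hκ c o P P (by rw [h1, hoN])
        (dvd_sub (hQP'.mul_right _) (hQP'.mul_right _))
      rw [h1, mul_comm (P : ℤ), hpP'] at h3
      obtain ⟨z, hz⟩ := h3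
      refine ⟨(s + 2) * z, ?_⟩
      apply mul_left_cancel₀ hWZ
      rw [hz]; ring
    · have h1' : (x : ℤ) * NG s p q c = (s + 2) * W := by exact_mod_cast h1
      have h3 := pairG hκ c o x ((s + 2) * P) (by
        rw [h1', hoN, mul_assoc, mul_comm (P : ℤ), hpP'])
        (dvd_sub h2 ((hQP'.mul_left _).mul_right _))
      rw [h1'] at h3
      obtain ⟨z, hz⟩ := h3
      refine ⟨z, ?_⟩
      apply mul_left_cancel₀ (mul_ne_zero hsZ hWZ)
      rw [hz]; ring
  by_cases hodd : (2 : ℤ) ∣ (κ o : ℤ)
  · -- the sum over the first part is a multiple of `A`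
    set ρ1 : CG J s → ℤ := fun c => (match c with | .inl _ => 1 | .inr _ => 0) -
      (Pi.single o (((s : ℤ) + 2) * P) : CG J s → ℤ) c with hρ1
    have hsum1 : ∀ f : CG J s → ℤ, ∑ c, ρ1 c * f c =
        (∑ t, f (.inl (.inl t)) + ∑ j, f (.inl (.inr j))) - (s + 2) * P * f o := by
      intro f
      simp only [hρ1, sub_mul, Finset.sum_sub_distrib, sum_single']
      rw [sum_CG]
      simp
    have hρ1mem : ρ1 ∈ LG (NG s p q) Q (hG s) := by
      refine ⟨?_, ?_⟩
      · rw [hsum1 (fun c => (NG s p q c : ℤ))]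
        simp only [NG, Finset.sum_const, Finset.card_univ, Fintype.card_fin]
        push_cast
        rw [← Finset.mul_sum]
        have h5 : (p : ℤ) + ∑ j, (q j : ℤ) = W := by
          rw [hW]; push_cast; rfl
        simp only [nsmul_eq_mul]
        push_cast
        linear_combination ((s : ℤ) + 2) * h5 - ((s : ℤ) + 2) * hpP'
      · rw [hsum1]
        have h5 := sum_hG (J := J) s
        rw [sum_CG] at h5
        have h6 : hG (J := J) s (.inr none) = 1 := rfl
        have h7 : ∑ j : J, hG (J := J) s (.inr (some j)) = 0 := by simp [hG]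
        rw [h6, h7] at h5
        have h8 : ∑ t, hG (J := J) s (.inl (.inl t)) + ∑ j, hG (J := J) s (.inl (.inr j)) = 0 := by
          linarith
        rw [h8, zero_sub, dvd_neg]
        exact (hQP'.mul_left _).mul_right _
    have h9 := hκ ρ1 hρ1mem
    have h10 : ∑ c, ρ1 c * NG s p q c * κ c = (∑ t, ((NG s p q (.inl (.inl t)) : ℤ) * κ (.inl (.inl t)))
        + ∑ j, ((NG s p q (.inl (.inr j)) : ℤ) * κ (.inl (.inr j)))) -
          (s + 2) * P * (NG s p q o * κ o) := by
      rw [← hsum1 (fun c => (NG s p q c : ℤ) * κ c)]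
      exact Finset.sum_congr rfl fun c _ => by ring
    rw [h10, hoN] at h9
    set S : ℤ := ∑ t, ((NG s p q (.inl (.inl t)) : ℤ) * κ (.inl (.inl t)))
        + ∑ j, ((NG s p q (.inl (.inr j)) : ℤ) * κ (.inl (.inr j))) with hS
    have h11 : 2 * ((s : ℤ) + 2) * W ∣ S := by
      obtain ⟨z, hz⟩ := h9
      obtain ⟨w, hw⟩ := hodd
      refine ⟨z + w, ?_⟩
      rw [hw] at hz
      linear_combination hz + ((s : ℤ) + 2) * 2 * w * hpP'
    have hS0 : 0 ≤ S := by
      rw [hS]; positivity
    have htot : ((∑ c, NG s p q c * κ c : ℕ) : ℤ) = S +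
        (((NG s p q (.inr none) : ℤ) * κ (.inr none)) +
          ∑ j, ((NG s p q (.inr (some j)) : ℤ) * κ (.inr (some j)))) := by
      rw [sum_CG, hS]; push_cast; ring
    have hle : ((∑ c, NG s p q c : ℕ) : ℤ) ≤ ((∑ c, NG s p q c * κ c : ℕ) : ℤ) →
        ∑ c, NG s p q c ≤ ∑ c, NG s p q c * κ c := fun h => by exact_mod_cast h
    apply hle
    rw [hAZ]
    rcases hS0.lt_or_eq with hlt | heq
    · have h12 := Int.le_of_dvd hlt h11
      rw [htot]
      have : 0 ≤ (((NG s p q (.inr none) : ℤ) * κ (.inr none)) +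
          ∑ j, ((NG s p q (.inr (some j)) : ℤ) * κ (.inr (some j)))) := by positivity
      linarith
    · -- everything in the first part vanishes
      have h13 : ∀ t, κ (.inl (.inl t)) = 0 := by
        intro t
        have h14 : (NG s p q (.inl (.inl t)) : ℤ) * κ (.inl (.inl t)) ≤ S := by
          rw [hS]
          have h15 := Finset.single_le_sum
            (f := fun t => (NG s p q (.inl (.inl t)) : ℤ) * κ (.inl (.inl t)))
            (fun i _ => by positivity) (Finset.mem_univ t)
          have h16 : 0 ≤ ∑ j, ((NG s p q (.inl (.inr j)) : ℤ) * κ (.inl (.inr j))) := by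
            positivity
          linarith
        rw [← heq] at h14
        have h17 : (NG s p q (.inl (.inl t)) : ℤ) = p := rfl
        rw [h17] at h14
        by_contra h18
        have h19 : 0 < (p : ℤ) * κ (.inl (.inl t)) := by
          have : 0 < κ (.inl (.inl t)) := Nat.pos_of_ne_zero h18
          positivity
        linarith
      have hq0 : ∀ j, 0 < q j := by
        intro j
        rcases Nat.eq_zero_or_pos (q j) with h | h
        · have := hqb j
          rw [h, zero_mul] at this
          omega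
        · exact h
      have h20 : ∀ j, κ (.inl (.inr j)) = 0 := by
        intro j
        have h14 : (NG s p q (.inl (.inr j)) : ℤ) * κ (.inl (.inr j)) ≤ S := by
          rw [hS]
          have h15 := Finset.single_le_sum
            (f := fun j => (NG s p q (.inl (.inr j)) : ℤ) * κ (.inl (.inr j)))
            (fun i _ => by positivity) (Finset.mem_univ j)
          have h16 : 0 ≤ ∑ t, ((NG s p q (.inl (.inl t)) : ℤ) * κ (.inl (.inl t))) := by
            positivity
          linarith
        rw [← heq] at h14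
        have h17 : (NG s p q (.inl (.inr j)) : ℤ) = (s + 2) * q j := by
          change (((s + 2) * q j : ℕ) : ℤ) = _
          push_cast; ring
        rw [h17] at h14
        by_contra h18
        have h19 : 0 < ((s : ℤ) + 2) * q j * κ (.inl (.inr j)) := by
          have h21 : 0 < κ (.inl (.inr j)) := Nat.pos_of_ne_zero h18
          have h22 := hq0 j
          positivity
        linarith
      -- the second part
      have hT : ∀ j, (2 * (b j : ℤ)) ∣ κ (.inr (some j)) := by
        intro j
        have h3 := pairG hκ (.inr (some j)) (.inl (.inr j)) 1 1 rfl (by simp [hG])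
        rw [h20 j] at h3
        have h17 : (NG s p q (.inr (some j)) : ℤ) = (s + 2) * q j := by
          change (((s + 2) * q j : ℕ) : ℤ) = _
          push_cast; ring
        rw [h17, ← hqb' j] at h3
        obtain ⟨z, hz⟩ := h3
        refine ⟨z, ?_⟩
        have hqZ : ((s : ℤ) + 2) * q j ≠ 0 := by
          have := hq0 j
          positivity
        apply mul_left_cancel₀ hqZ
        push_cast at hz
        linear_combination hz
      have hTn : (2 * (P : ℤ)) ∣ κ (.inr none) := by
        set ρ2 : CG J s → ℤ := fun c => (Pi.single (.inr none) 1 : CG J s → ℤ) c -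
          (match c with | .inl (.inl t) => f0 t | .inl (.inr _) => 0 | .inr _ => 0) with hρ2
        have hsum2 : ∀ f : CG J s → ℤ, ∑ c, ρ2 c * f c =
            f (.inr none) - ∑ t, f0 t * f (.inl (.inl t)) := by
          intro f
          simp only [hρ2, sub_mul, Finset.sum_sub_distrib, sum_single', one_mul]
          congr 1
          rw [sum_CG]
          simp
        have hρ2mem : ρ2 ∈ LG (NG s p q) Q (hG s) := by
          refine ⟨?_, ?_⟩
          · rw [hsum2 (fun c => (NG s p q c : ℤ))]
            have h21 : (NG s p q (.inr none) : ℤ) = (s + 2) * p := by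
              change (((s + 2) * p : ℕ) : ℤ) = _
              push_cast; ring
            have h22 : ∀ t, (NG s p q (.inl (.inl t)) : ℤ) = p := fun t => rfl
            simp only [h22]
            rw [h21, ← Finset.sum_mul, hf1]; ring
          · rw [hsum2]
            have h22 : hG (J := J) s (.inr none) = 1 := rfl
            rw [h22, ← dvd_neg, neg_sub]
            exact hf2
        have h24 := hκ ρ2 hρ2mem
        have h25 : ∑ c, ρ2 c * NG s p q c * κ c = ((NG s p q (.inr none) : ℤ) * κ (.inr none)) := by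
          have h26 := hsum2 (fun c => (NG s p q c : ℤ) * κ c)
          simp only [h13, Nat.cast_zero, mul_zero, Finset.sum_const_zero, sub_zero] at h26
          rw [← h26]
          exact Finset.sum_congr rfl fun c _ => by ring
        rw [h25] at h24
        have h21 : (NG s p q (.inr none) : ℤ) = (s + 2) * p := by
          change (((s + 2) * p : ℕ) : ℤ) = _
          push_cast; ring
        rw [h21, ← hpP'] at h24
        obtain ⟨z, hz⟩ := h24
        refine ⟨z, ?_⟩
        have hpZ : ((s : ℤ) + 2) * p ≠ 0 := by positivity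
        apply mul_left_cancel₀ hpZ
        linear_combination hz
      rw [htot, ← heq, zero_add]
      obtain ⟨c, hc⟩ := hκ1
      have h26 : 0 ≤ ∑ j, ((NG s p q (.inr (some j)) : ℤ) * κ (.inr (some j))) := by positivity
      have h27 : 0 ≤ ((NG s p q (.inr none) : ℤ) * κ (.inr none)) := by positivity
      rcases c with ((t | j) | (_ | j))
      · exact absurd (h13 t) hc
      · exact absurd (h20 j) hc
      · have h28 : 2 * (P : ℤ) ≤ κ (.inr none) :=
          Int.le_of_dvd (by exact_mod_cast Nat.pos_of_ne_zero hc) hTn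
        have h21 : (NG s p q (.inr none) : ℤ) = (s + 2) * p := by
          change (((s + 2) * p : ℕ) : ℤ) = _
          push_cast; ring
        have h29 : ((s : ℤ) + 2) * p * (2 * (P : ℤ)) ≤ (s + 2) * p * κ (.inr none) :=
          mul_le_mul_of_nonneg_left h28 (by positivity)
        rw [h21]
        have h30 : ((s : ℤ) + 2) * p * (2 * (P : ℤ)) = 2 * (s + 2) * W := by rw [← hpP']; ring
        linarith
      · have h28 : 2 * (b j : ℤ) ≤ κ (.inr (some j)) :=
          Int.le_of_dvd (by exact_mod_cast Nat.pos_of_ne_zero hc) (hT j)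
        have h21 : (NG s p q (.inr (some j)) : ℤ) = (s + 2) * q j := by
          change (((s + 2) * q j : ℕ) : ℤ) = _
          push_cast; ring
        have h29 : ((s : ℤ) + 2) * q j * (2 * (b j : ℤ)) ≤ (s + 2) * q j * κ (.inr (some j)) :=
          mul_le_mul_of_nonneg_left h28 (by positivity)
        have h30 : ((s : ℤ) + 2) * q j * (2 * (b j : ℤ)) = 2 * (s + 2) * W := by
          rw [← hqb' j]; ring
        have h31 := Finset.single_le_sum
            (f := fun j => (NG s p q (.inr (some j)) : ℤ) * κ (.inr (some j)))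
            (fun i _ => by positivity) (Finset.mem_univ j)
        rw [h21] at h31
        linarith
  · refine Finset.sum_le_sum fun c _ => ?_
    refine Nat.le_mul_of_pos_right _ (Nat.pos_of_ne_zero fun h0 => hodd ?_)
    have := hpar c
    rw [h0] at this
    simpa using this

end canonical

theorem exists_f0 (J : Type) (s Q : ℕ) (h : Odd Q ∨ 1 ≤ s) : ∃ f0 : Fin (s + 2) → ℤ,
    ∑ t, f0 t = s + 2 ∧ (Q : ℤ) ∣ ∑ t, f0 t * hG (J := J) s (.inl (.inl t)) - 1 := by
  rcases Nat.eq_zero_or_pos s with h0 | h0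
  · subst h0
    obtain ⟨x, hx⟩ : Odd Q := h.resolve_right (by omega)
    refine ⟨![(x : ℤ) + 2, -x], ?_, ?_⟩
    · rw [Fin.sum_univ_two]; simp
    · rw [Fin.sum_univ_two]
      refine ⟨1, ?_⟩
      rw [hx]
      simp [hG]
      ring
  · obtain ⟨s, rfl⟩ : ∃ s', s = s' + 1 := ⟨s - 1, by omega⟩
    refine ⟨Fin.cons 1 (Fin.cons 0 (Fin.cons ((s : ℤ) + 2) (fun _ => 0))), ?_, ?_⟩
    · rw [Fin.sum_univ_succ, Fin.sum_univ_succ, Fin.sum_univ_succ]
      simp only [Fin.cons_zero, Fin.cons_succ, Finset.sum_const_zero]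
      push_cast
      ring
    · rw [Fin.sum_univ_succ, Fin.sum_univ_succ, Fin.sum_univ_succ]
      simp only [Fin.cons_zero, Fin.cons_succ, zero_mul, Finset.sum_const_zero, add_zero, zero_add]
      have h1 : hG (J := J) (s + 1) (.inl (.inl 0)) = 1 := by simp [hG]
      have h2 : hG (J := J) (s + 1) (.inl (.inl (Fin.succ (Fin.succ 0)))) = 0 := by
        simp only [hG]
        rw [if_neg (Fin.succ_ne_zero _), if_neg]
        intro h
        have := congrArg Fin.val h
        simp at this
        rw [Nat.mod_eq_of_lt (by omega)] at this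
        omega
      rw [h1, h2]
      simp

end Pool.Agent.Work.MP_4329d7_ag.FF
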