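import Pool.Agent.Work.MP_4329d7_ag.Basic
import Pool.Agent.Work.MP_4329d7_ag.Curve

/-!
The key vanishing statement: restriction of a tensor differential to a plane section.
-/

open MvPolynomial

namespace Pool.Agent.Work.MP_4329d7_ag

variable {n : ℕ}

/-- a family of points: coordinates `s0` at `i`, `s1` at `k` and `s2 * x` elsewhere. -/
def pt (i k : Fin (n + 2)) (x : Fin (n + 2) → ℂ) (s0 s1 s2 : ℂ) : Fin (n + 2) → ℂ :=
  fun l => if l = i then s0 else if l = k then s1 else s2 * x l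

lemma pt_smul (i k : Fin (n + 2)) (x : Fin (n + 2) → ℂ) (s0 s1 s2 c : ℂ) :
    pt i k x (c * s0) (c * s1) (c * s2) = c • pt i k x s0 s1 s2 := by
  funext l
  unfold pt
  simp only [Pi.smul_apply, smul_eq_mul]
  split_ifs <;> ring

/-- the sum over the other indices -/
def As (i k : Fin (n + 2)) (x : Fin (n + 2) → ℂ) : ℂ :=
  ∑ l ∈ (Finset.univ.erase i).erase k, x l ^ (n + 2)

lemma sum_split {i k : Fin (n + 2)} (hik : i ≠ k) (f : Fin (n + 2) → ℂ) :
    ∑ l, f l = f i + (f k + ∑ l ∈ (Finset.univ.erase i).erase k, f l) := by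
  rw [← Finset.add_sum_erase _ _ (Finset.mem_univ i)]
  congr 1
  rw [← Finset.add_sum_erase _ _ (Finset.mem_erase.2 ⟨hik.symm, Finset.mem_univ k⟩)]

lemma mem_rest {i k l : Fin (n + 2)} (h : l ∈ (Finset.univ.erase i).erase k) : l ≠ i ∧ l ≠ k := by
  rw [Finset.mem_erase, Finset.mem_erase] at h
  exact ⟨h.2.1, h.1⟩

/-- weighted sum for a vector of the shape `pt`. -/
lemma sum_pt {i k : Fin (n + 2)} (hik : i ≠ k) (x : Fin (n + 2) → ℂ) (s0 s1 s2 r0 r1 r2 : ℂ) :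
    ∑ l, pt i k x s0 s1 s2 l ^ (n + 1) * pt i k x r0 r1 r2 l =
      s0 ^ (n + 1) * r0 + s1 ^ (n + 1) * r1 + As i k x * (s2 ^ (n + 1) * r2) := by
  rw [sum_split hik]
  have h1 : ∑ l ∈ (Finset.univ.erase i).erase k,
      pt i k x s0 s1 s2 l ^ (n + 1) * pt i k x r0 r1 r2 l = As i k x * (s2 ^ (n + 1) * r2) := by
    unfold As
    rw [Finset.sum_mul]
    refine Finset.sum_congr rfl (fun l hl => ?_)
    obtain ⟨h1, h2⟩ := mem_rest hl
    simp only [pt, h1, h2, if_false]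
    ring
  rw [h1]
  simp only [pt, if_true, hik.symm, if_false]
  ring

lemma sum_pt_pow {i k : Fin (n + 2)} (hik : i ≠ k) (x : Fin (n + 2) → ℂ) (s0 s1 s2 : ℂ) :
    ∑ l, pt i k x s0 s1 s2 l ^ (n + 2) =
      s0 ^ (n + 2) + s1 ^ (n + 2) + As i k x * s2 ^ (n + 2) := by
  have h := sum_pt hik x s0 s1 s2 s0 s1 s2
  have h' : ∑ l, pt i k x s0 s1 s2 l ^ (n + 2) =
      ∑ l, pt i k x s0 s1 s2 l ^ (n + 1) * pt i k x s0 s1 s2 l :=
    Finset.sum_congr rfl (fun l _ => by ring)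
  rw [h', h]; ring

/-- coordinates of the point as polynomials -/
noncomputable def ptP (i k : Fin (n + 2)) (x : Fin (n + 2) → ℂ)
    (a b c : Polynomial (MvPolynomial (Fin 2) ℂ)) :
    Fin (n + 2) → Polynomial (MvPolynomial (Fin 2) ℂ) :=
  fun l => if l = i then a else if l = k then b else c * Polynomial.C (C (x l))

lemma ev3_ptP (i k : Fin (n + 2)) (x : Fin (n + 2) → ℂ)
    (a b c : Polynomial (MvPolynomial (Fin 2) ℂ)) (s0 s1 s2 : ℂ) (l : Fin (n + 2)) :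
    ev3 s0 s1 s2 (ptP i k x a b c l) =
      pt i k x (ev3 s0 s1 s2 a) (ev3 s0 s1 s2 b) (ev3 s0 s1 s2 c) l := by
  unfold ptP pt
  split_ifs
  · rfl
  · rfl
  · rw [map_mul, ev3_C, eval_C]

lemma ev3_aeval {τ : Type} (f : τ → Polynomial (MvPolynomial (Fin 2) ℂ)) (p : MvPolynomial τ ℂ)
    (s0 s1 s2 : ℂ) :
    ev3 s0 s1 s2 (aeval f p) = eval (fun t => ev3 s0 s1 s2 (f t)) p := by
  induction p using MvPolynomial.induction_on with
  | C a =>
    rw [aeval_C, eval_C]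
    have : (algebraMap ℂ (Polynomial (MvPolynomial (Fin 2) ℂ))) a = Polynomial.C (C a) := rfl
    rw [this, ev3_C, eval_C]
  | add p q hp hq => rw [map_add, map_add, map_add, hp, hq]
  | mul_X p t hp => rw [map_mul, map_mul, map_mul, aeval_X, eval_X, hp]

/-- Key vanishing on plane sections. -/
theorem key {m : ℕ} {T : (Fin (n + 2) → ℂ) → (Fin m → Fin (n + 2) → ℂ) → ℂ}
    (hT : IsTensorDifferential (FI n) m T) {i k : Fin (n + 2)} (hik : i ≠ k)
    {x : Fin (n + 2) → ℂ} (hx : x ∈ Cone (FI n)) (hxi : x i ≠ 0) (hA : As i k x ≠ 0)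
    (S : Finset (Fin m)) (hS : n * S.card < m)
    (v : Fin m → Fin (n + 2) → ℂ)
    (hv : ∀ j, j ∉ S → v j i = 0 ∧ v j k = 0 ∧ ∑ l, x l ^ (n + 1) * v j l = 0) :
    T x (fun j => if j ∈ S then pt i k x 0 (-(As i k x * 1 ^ (n + 1))) (x k ^ (n + 1)) else v j)
      = 0 := by
  classical
  set A := As i k x with hAdef
  set p := S.card with hp
  -- the two vector fields along the curve
  let y : ℂ → ℂ → ℂ → Fin (n + 2) → ℂ := fun s0 s1 s2 => pt i k x s0 s1 s2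
  let V0 : ℂ → ℂ → ℂ → Fin m → Fin (n + 2) → ℂ := fun s0 s1 s2 j =>
    if j ∈ S then pt i k x 0 (-(A * s2 ^ (n + 1))) (s1 ^ (n + 1)) else v j
  let V1 : ℂ → ℂ → ℂ → Fin m → Fin (n + 2) → ℂ := fun s0 s1 s2 j =>
    if j ∈ S then pt i k x (A * s2 ^ (n + 1)) 0 (-(s0 ^ (n + 1))) else v j
  have hycone : ∀ s0 s1 s2 : ℂ, s0 ^ (n + 2) + s1 ^ (n + 2) + A * s2 ^ (n + 2) = 0 →
      y s0 s1 s2 ∈ Cone (FI n) := by
    intro s0 s1 s2 hs
    rw [mem_cone_FI]
    change ∑ l, pt i k x s0 s1 s2 l ^ (n + 2) = 0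
    rw [sum_pt_pow hik, ← hAdef, hs]
  have hvt : ∀ s0 s1 s2 : ℂ, s0 ^ (n + 2) + s1 ^ (n + 2) + A * s2 ^ (n + 2) = 0 →
      ∀ j, j ∉ S → v j ∈ Tangent (FI n) (y s0 s1 s2) := by
    intro s0 s1 s2 hs j hj
    obtain ⟨h1, h2, h3⟩ := hv j hj
    rw [mem_tangent_FI (hycone s0 s1 s2 hs), sum_split hik]
    rw [sum_split hik, h1, h2] at h3
    rw [h1, h2]
    have h4 : ∑ l ∈ (Finset.univ.erase i).erase k, y s0 s1 s2 l ^ (n + 1) * v j l =
        s2 ^ (n + 1) * ∑ l ∈ (Finset.univ.erase i).erase k, x l ^ (n + 1) * v j l := by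
      rw [Finset.mul_sum]
      refine Finset.sum_congr rfl (fun l hl => ?_)
      obtain ⟨e1, e2⟩ := mem_rest hl
      simp only [y, pt, e1, e2, if_false]
      ring
    rw [h4]
    linear_combination s2 ^ (n + 1) * h3
  have hV0 : ∀ s0 s1 s2 : ℂ, s0 ^ (n + 2) + s1 ^ (n + 2) + A * s2 ^ (n + 2) = 0 →
      ∀ j, V0 s0 s1 s2 j ∈ Tangent (FI n) (y s0 s1 s2) := by
    intro s0 s1 s2 hs j
    by_cases hj : j ∈ S
    · simp only [V0, hj, if_true]
      rw [mem_tangent_FI (hycone s0 s1 s2 hs)]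
      change ∑ l, pt i k x s0 s1 s2 l ^ (n + 1) * _ = 0
      rw [sum_pt hik, ← hAdef]
      ring
    · simp only [V0, hj, if_false]
      exact hvt s0 s1 s2 hs j hj
  have hV1 : ∀ s0 s1 s2 : ℂ, s0 ^ (n + 2) + s1 ^ (n + 2) + A * s2 ^ (n + 2) = 0 →
      ∀ j, V1 s0 s1 s2 j ∈ Tangent (FI n) (y s0 s1 s2) := by
    intro s0 s1 s2 hs j
    by_cases hj : j ∈ S
    · simp only [V1, hj, if_true]
      rw [mem_tangent_FI (hycone s0 s1 s2 hs)]
      change ∑ l, pt i k x s0 s1 s2 l ^ (n + 1) * _ = 0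
      rw [sum_pt hik, ← hAdef]
      ring
    · simp only [V1, hj, if_false]
      exact hvt s0 s1 s2 hs j hj
  have hyi : ∀ s0 s1 s2 : ℂ, y s0 s1 s2 i = s0 := by
    intro s0 s1 s2; simp [y, pt]
  have hyk : ∀ s0 s1 s2 : ℂ, y s0 s1 s2 k = s1 := by
    intro s0 s1 s2; simp [y, pt, hik.symm]
  have hy0 : ∀ s0 s1 s2 : ℂ, s0 ≠ 0 → y s0 s1 s2 ≠ 0 := by
    intro s0 s1 s2 h0 h1
    have := congrFun h1 i
    rw [hyi] at this
    exact h0 this
  have hy1 : ∀ s0 s1 s2 : ℂ, s1 ≠ 0 → y s0 s1 s2 ≠ 0 := by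
    intro s0 s1 s2 h0 h1
    have := congrFun h1 k
    rw [hyk] at this
    exact h0 this
  -- comparison of the two vector fields
  have hcomp : ∀ s0 s1 s2 : ℂ, s0 ^ (n + 2) + s1 ^ (n + 2) + A * s2 ^ (n + 2) = 0 →
      s0 ≠ 0 → s1 ≠ 0 →
      s1 ^ p * T (y s0 s1 s2) (V0 s0 s1 s2) = s0 ^ p * T (y s0 s1 s2) (V1 s0 s1 s2) := by
    intro s0 s1 s2 hs h0 h1
    have hyc := hycone s0 s1 s2 hs
    have hyn := hy0 s0 s1 s2 h0
    obtain ⟨Φ, hΦ⟩ := exists_multilinear hT hyc hyn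
    have e0 : s1 ^ p * T (y s0 s1 s2) (V0 s0 s1 s2) =
        T (y s0 s1 s2) (fun j => (if j ∈ S then s1 else 1) • V0 s0 s1 s2 j) := by
      rw [hΦ _ (hV0 s0 s1 s2 hs),
        hΦ _ (fun j => (Tangent (FI n) _).smul_mem _ (hV0 s0 s1 s2 hs j)),
        MultilinearMap.map_smul_univ, smul_eq_mul, Finset.prod_ite_mem, Finset.univ_inter,
        Finset.prod_const]
    have e1 : s0 ^ p * T (y s0 s1 s2) (V1 s0 s1 s2) =
        T (y s0 s1 s2) (fun j => (if j ∈ S then s0 else 1) • V1 s0 s1 s2 j) := by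
      rw [hΦ _ (hV1 s0 s1 s2 hs),
        hΦ _ (fun j => (Tangent (FI n) _).smul_mem _ (hV1 s0 s1 s2 hs j)),
        MultilinearMap.map_smul_univ, smul_eq_mul, Finset.prod_ite_mem, Finset.univ_inter,
        Finset.prod_const]
    rw [e0, e1]
    rw [← radial_shift hT hyc hyn (mem_tangent_self hyc)
      (fun j => (if j ∈ S then s0 else 1) • V1 s0 s1 s2 j)
      (fun j => (Tangent (FI n) _).smul_mem _ (hV1 s0 s1 s2 hs j))
      (fun j => if j ∈ S then -(A * s2 ^ (n + 1)) else 0)]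
    congr 1
    funext j
    by_cases hj : j ∈ S
    · simp only [hj, if_true, V0, V1]
      funext l
      simp only [Pi.add_apply, Pi.smul_apply, smul_eq_mul, y, pt]
      split_ifs
      · ring
      · ring
      · linear_combination (x l) * hs
    · simp only [hj, if_false, V0, V1, one_smul, zero_smul, add_zero]
  -- the function on the curve
  let h : ℂ → ℂ → ℂ → ℂ := fun s0 s1 s2 =>
    if s0 = 0 then T (y s0 s1 s2) (V1 s0 s1 s2) / s1 ^ p
    else T (y s0 s1 s2) (V0 s0 s1 s2) / s0 ^ p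
  have hh0 : ∀ s0 s1 s2 : ℂ, s0 ≠ 0 → s0 ^ p * h s0 s1 s2 = T (y s0 s1 s2) (V0 s0 s1 s2) := by
    intro s0 s1 s2 h0
    simp only [h, h0, if_false]
    field_simp
  have hh1 : ∀ s0 s1 s2 : ℂ, s0 ^ (n + 2) + s1 ^ (n + 2) + A * s2 ^ (n + 2) = 0 → s1 ≠ 0 →
      s1 ^ p * h s0 s1 s2 = T (y s0 s1 s2) (V1 s0 s1 s2) := by
    intro s0 s1 s2 hs h1
    by_cases h0 : s0 = 0
    · simp only [h, h0, if_true]
      field_simp
    · simp only [h, h0, if_false]
      have := hcomp s0 s1 s2 hs h0 h1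
      field_simp
      linear_combination this
  obtain ⟨N0, P0, hP0⟩ := hT.regular i
  obtain ⟨N1, P1, hP1⟩ := hT.regular k
  -- polynomial expressions
  let YP : Fin (n + 2) → Polynomial (MvPolynomial (Fin 2) ℂ) :=
    ptP i k x (Polynomial.C (X 0)) (Polynomial.C (X 1)) Polynomial.X
  let VP0 : Fin m → Fin (n + 2) → Polynomial (MvPolynomial (Fin 2) ℂ) := fun j =>
    if j ∈ S then ptP i k x 0 (-(Polynomial.C (C A) * Polynomial.X ^ (n + 1)))
      (Polynomial.C (X 1) ^ (n + 1)) else fun l => Polynomial.C (C (v j l))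
  let VP1 : Fin m → Fin (n + 2) → Polynomial (MvPolynomial (Fin 2) ℂ) := fun j =>
    if j ∈ S then ptP i k x (Polynomial.C (C A) * Polynomial.X ^ (n + 1)) 0
      (-(Polynomial.C (X 0 : MvPolynomial (Fin 2) ℂ) ^ (n + 1))) else
        fun l => Polynomial.C (C (v j l))
  have hYP : ∀ s0 s1 s2 : ℂ, (fun l => ev3 s0 s1 s2 (YP l)) = y s0 s1 s2 := by
    intro s0 s1 s2
    funext l
    simp only [YP, y]
    rw [ev3_ptP, ev3_C, ev3_C, ev3_X, eval_X, eval_X]
    rfl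
  have hVP0 : ∀ (s0 s1 s2 : ℂ) (j : Fin m) (l : Fin (n + 2)),
      ev3 s0 s1 s2 (VP0 j l) = V0 s0 s1 s2 j l := by
    intro s0 s1 s2 j l
    by_cases hj : j ∈ S
    · simp only [VP0, V0, hj, if_true]
      rw [ev3_ptP]
      simp [ev3_C, ev3_X]
    · simp only [VP0, V0, hj, if_false]
      rw [ev3_C, eval_C]
  have hVP1 : ∀ (s0 s1 s2 : ℂ) (j : Fin m) (l : Fin (n + 2)),
      ev3 s0 s1 s2 (VP1 j l) = V1 s0 s1 s2 j l := by
    intro s0 s1 s2 j l
    by_cases hj : j ∈ S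
    · simp only [VP1, V1, hj, if_true]
      rw [ev3_ptP]
      simp [ev3_C, ev3_X]
    · simp only [VP1, V1, hj, if_false]
      rw [ev3_C, eval_C]
  let Q0 : Polynomial (MvPolynomial (Fin 2) ℂ) :=
    ∑ w : Fin m → Fin (n + 2), aeval YP (P0 w) * ∏ j, VP0 j (w j)
  let Q1 : Polynomial (MvPolynomial (Fin 2) ℂ) :=
    ∑ w : Fin m → Fin (n + 2), aeval YP (P1 w) * ∏ j, VP1 j (w j)
  have hQ0 : ∀ s0 s1 s2 : ℂ, ev3 s0 s1 s2 Q0 =
      ∑ w : Fin m → Fin (n + 2), eval (y s0 s1 s2) (P0 w) * ∏ j, V0 s0 s1 s2 j (w j) := by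
    intro s0 s1 s2
    simp only [Q0, map_sum, map_mul, map_prod, ev3_aeval, hYP, hVP0]
  have hQ1 : ∀ s0 s1 s2 : ℂ, ev3 s0 s1 s2 Q1 =
      ∑ w : Fin m → Fin (n + 2), eval (y s0 s1 s2) (P1 w) * ∏ j, V1 s0 s1 s2 j (w j) := by
    intro s0 s1 s2
    simp only [Q1, map_sum, map_mul, map_prod, ev3_aeval, hYP, hVP1]
  have hcv := curve_vanish (n + 2) (by omega) A hA (p + N0 + N1) (m - n * p) (by omega) h
    (Polynomial.C (X 0 ^ N1) * Q0) (Polynomial.C (X 1 ^ N0) * Q1) ?_ ?_ ?_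
  · -- conclusion
    have hx' := mem_cone_FI.1 hx
    have hs : x i ^ (n + 2) + x k ^ (n + 2) + A * 1 ^ (n + 2) = 0 := by
      rw [sum_split hik] at hx'
      rw [hAdef]; unfold As
      linear_combination hx'
    have hz := hcv (x i) (x k) 1 hs hxi
    have hz2 := hh0 (x i) (x k) 1 hxi
    rw [hz, mul_zero] at hz2
    have hyx : y (x i) (x k) 1 = x := by
      funext l
      simp only [y, pt]
      split_ifs with h1 h2
      · rw [h1]
      · rw [h2]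
      · rw [one_mul]
    rw [hyx] at hz2
    exact hz2.symm
  · intro s0 s1 s2 hs h0
    rw [map_mul, ev3_C, map_pow, eval_X, hQ0]
    have := hP0 (y s0 s1 s2) (hycone s0 s1 s2 hs) (by rw [hyi]; exact h0) _ (hV0 s0 s1 s2 hs)
    rw [hyi] at this
    rw [← this, ← hh0 s0 s1 s2 h0]
    simp only [Matrix.cons_val_zero]
    ring
  · intro s0 s1 s2 hs h1
    rw [map_mul, ev3_C, map_pow, eval_X, hQ1]
    have := hP1 (y s0 s1 s2) (hycone s0 s1 s2 hs) (by rw [hyk]; exact h1) _ (hV1 s0 s1 s2 hs)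
    rw [hyk] at this
    rw [← this, ← hh1 s0 s1 s2 hs h1]
    simp only [Matrix.cons_val_one, Matrix.cons_val_zero]
    ring
  · intro c hc s0 s1 s2 hs h0
    have hcs0 : c * s0 ≠ 0 := mul_ne_zero hc h0
    have hyc := hycone s0 s1 s2 hs
    have hyn := hy0 s0 s1 s2 h0
    have hpt : y (c * s0) (c * s1) (c * s2) = c • y s0 s1 s2 := pt_smul i k x s0 s1 s2 c
    have hVc : V0 (c * s0) (c * s1) (c * s2) =
        fun j => (if j ∈ S then c ^ (n + 1) else 1) • V0 s0 s1 s2 j := by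
      funext j
      by_cases hj : j ∈ S
      · simp only [V0, hj, if_true]
        funext l
        simp only [Pi.smul_apply, smul_eq_mul, pt]
        split_ifs <;> ring
      · simp only [V0, hj, if_false, one_smul]
    have hcyn : c • y s0 s1 s2 ≠ 0 := smul_ne_zero hc hyn
    obtain ⟨Φ, hΦ⟩ := exists_multilinear hT (smul_mem_cone hyc c) hcyn
    have hV0c : ∀ j, V0 s0 s1 s2 j ∈ Tangent (FI n) (c • y s0 s1 s2) :=
      fun j => tangent_smul hyc (hV0 s0 s1 s2 hs j)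
    have e1 : T (y (c * s0) (c * s1) (c * s2)) (V0 (c * s0) (c * s1) (c * s2)) =
        (c ^ (n + 1)) ^ p * T (c • y s0 s1 s2) (V0 s0 s1 s2) := by
      rw [hpt, hVc, hΦ _ (fun j => (Tangent (FI n) _).smul_mem _ (hV0c j)), hΦ _ hV0c,
        MultilinearMap.map_smul_univ, smul_eq_mul, Finset.prod_ite_mem, Finset.univ_inter,
        Finset.prod_const]
    have e2 := scale_point hT hyc hyn hc _ (hV0 s0 s1 s2 hs)
    have e3 := hh0 (c * s0) (c * s1) (c * s2) hcs0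
    have e4 := hh0 s0 s1 s2 h0
    rw [e1] at e3
    rw [← e2] at e4
    have hnp : n * p + (m - n * p) = m := by omega
    have hkey : (c * s0) ^ p * (c ^ (m - n * p) * h (c * s0) (c * s1) (c * s2)) =
        (c * s0) ^ p * h s0 s1 s2 := by
      calc (c * s0) ^ p * (c ^ (m - n * p) * h (c * s0) (c * s1) (c * s2))
          = c ^ (m - n * p) * ((c * s0) ^ p * h (c * s0) (c * s1) (c * s2)) := by ring
        _ = c ^ (m - n * p) * ((c ^ (n + 1)) ^ p * T (c • y s0 s1 s2) (V0 s0 s1 s2)) := by rw [e3]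
        _ = c ^ p * (c ^ (n * p + (m - n * p)) * T (c • y s0 s1 s2) (V0 s0 s1 s2)) := by
            ring
        _ = c ^ p * (s0 ^ p * h s0 s1 s2) := by rw [hnp, e4]
        _ = (c * s0) ^ p * h s0 s1 s2 := by rw [mul_pow]; ring
    exact mul_left_cancel₀ (pow_ne_zero p hcs0) hkey

end Pool.Agent.Work.MP_4329d7_ag
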