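import Pool.Agent.Work.MP_4329d7_ag.Vanish
import Pool.Agent.Work.MP_4329d7_ag.Deriv

/-!
A rational curve on the Fermat hypersurface of degree `n + 2` in `ℙ^{n+1}` through a point with
algebraically independent coordinates is constant.
-/

open Polynomial

namespace Pool.Agent.Work.MP_4329d7_ag

/-- coefficientwise derivation of polynomials. -/
noncomputable def pD (δ : Derivation ℚ ℂ ℂ) : Derivation ℤ (Polynomial ℂ) (Polynomial ℂ) :=
  @Differential.mapCoeffs ℂ _ ⟨δ.restrictScalars ℤ⟩

lemma coeff_pD (δ : Derivation ℚ ℂ ℂ) (p : Polynomial ℂ) (i : ℕ) :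
    (pD δ p).coeff i = δ (p.coeff i) := rfl

lemma natDegree_pD_le (δ : Derivation ℚ ℂ ℂ) (p : Polynomial ℂ) :
    (pD δ p).natDegree ≤ p.natDegree := by
  rw [Polynomial.natDegree_le_iff_coeff_eq_zero]
  intro N hN
  rw [coeff_pD, Polynomial.coeff_eq_zero_of_natDegree_lt hN, map_zero]

lemma eval_zero_pD (δ : Derivation ℚ ℂ ℂ) (p : Polynomial ℂ) :
    (pD δ p).eval 0 = δ (p.eval 0) := by
  rw [← Polynomial.coeff_zero_eq_eval_zero, ← Polynomial.coeff_zero_eq_eval_zero, coeff_pD]

lemma eq_zero_of_wronskian {p q : Polynomial ℂ} (hp : p.eval 0 = 0) (hq : q.eval 0 ≠ 0)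
    (h : derivative p * q = p * derivative q) : p = 0 := by
  by_contra hne
  obtain ⟨r, hr, hnd⟩ := Polynomial.exists_eq_pow_rootMultiplicity_mul_and_not_dvd p hne 0
  set k := p.rootMultiplicity 0 with hk
  have hk0 : k ≠ 0 := by
    rw [hk]
    exact ((Polynomial.rootMultiplicity_pos hne).2 hp).ne'
  obtain ⟨j, hj⟩ := Nat.exists_eq_succ_of_ne_zero hk0
  rw [map_zero, sub_zero] at hr hnd
  rw [hj, Nat.succ_eq_add_one] at hr
  have hr0 : r.eval 0 ≠ 0 := by
    intro h0
    apply hnd
    rw [Polynomial.X_dvd_iff, Polynomial.coeff_zero_eq_eval_zero, h0]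
  have h2 : (X : Polynomial ℂ) ^ j * (((j : Polynomial ℂ) + 1) * r * q +
      X * (derivative r * q - r * derivative q)) = 0 := by
    have h3 : derivative p = ((j : Polynomial ℂ) + 1) * X ^ j * r + X ^ (j + 1) * derivative r := by
      rw [hr, derivative_mul, derivative_X_pow]
      simp
    rw [h3] at h
    conv_rhs at h => rw [hr]
    linear_combination h
  have h3 : ((j : Polynomial ℂ) + 1) * r * q + X * (derivative r * q - r * derivative q) = 0 :=
    (mul_eq_zero.1 h2).resolve_left (pow_ne_zero _ X_ne_zero)
  have h4 := congrArg (Polynomial.eval 0) h3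
  simp only [eval_add, eval_mul, eval_natCast, eval_one, eval_X, zero_mul, add_zero,
    eval_zero] at h4
  have hj1 : ((j : ℂ) + 1) ≠ 0 := by
    exact_mod_cast Nat.succ_ne_zero j
  exact (mul_ne_zero (mul_ne_zero hj1 hr0) hq) h4

lemma natDegree_det_le {r : ℕ} (A : Matrix (Fin r) (Fin r) (Polynomial ℂ)) (B : Fin r → ℕ)
    (h : ∀ i j, (A i j).natDegree ≤ B i) : A.det.natDegree ≤ ∑ i, B i := by
  rw [Matrix.det_apply]
  refine Polynomial.natDegree_sum_le_of_forall_le _ _ (fun s _ => ?_)
  refine le_trans (Polynomial.natDegree_smul_le _ _) ?_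
  refine le_trans (Polynomial.natDegree_prod_le _ _) ?_
  calc ∑ i, (A (s i) i).natDegree ≤ ∑ i, B (s i) := Finset.sum_le_sum (fun i _ => h _ _)
    _ = ∑ i, B i := Equiv.sum_comp s B

variable {n : ℕ}

lemma sum_fin_split_nat (f : Fin (n + 2) → ℕ) :
    ∑ l, f l = f 0 + ((∑ i : Fin n, f (mid i)) + f (Fin.last (n + 1))) := by
  rw [Fin.sum_univ_castSucc, Fin.sum_univ_succ]
  simp only [mid]
  have : f (Fin.castSucc (0 : Fin (n + 1))) = f 0 := rfl
  rw [this]; ring

lemma arith_aux (n e : ℕ) (hn : 1 ≤ n) (he : 1 ≤ e)
    (h : (n + 1) * e ≤ (e - 1) + (((e - 1) + (n - 1) * e) + 0)) : False := by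
  obtain ⟨e', rfl⟩ : ∃ e', e = e' + 1 := ⟨e - 1, by omega⟩
  obtain ⟨n', rfl⟩ : ∃ n', n = n' + 1 := ⟨n - 1, by omega⟩
  simp only [Nat.add_sub_cancel] at h
  nlinarith

theorem curve_constant (hn : 1 ≤ n) (t : Fin n → ℂ) (δ : Fin n → Derivation ℚ ℂ ℂ)
    (hδ : ∀ i j, δ i (t j) = if i = j then 1 else 0)
    (xs : Fin (n + 2) → ℂ) (hxs0 : xs 0 = 1) (hxsm : ∀ i, xs (mid i) = t i)
    (f : Fin (n + 2) → Polynomial ℂ) (hF : ∑ i, f i ^ (n + 2) = 0)
    (hcop : ∃ c : Fin (n + 2) → Polynomial ℂ, ∑ i, c i * f i = 1)
    (h0 : ∀ i, (f i).eval 0 = xs i) :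
    ∀ i, f i = C (xs i) * f 0 := by
  classical
  -- weights
  let g : Fin (n + 2) → Polynomial ℂ := fun i => f i ^ (n + 1)
  have hder : ∀ D : Derivation ℤ (Polynomial ℂ) (Polynomial ℂ), ∑ i, D (f i) * g i = 0 := by
    intro D
    have h1 := congrArg D hF
    rw [map_sum, map_zero] at h1
    have h2 : ∀ i, D (f i ^ (n + 2)) = ((n : Polynomial ℂ) + 2) * (D (f i) * g i) := by
      intro i
      rw [Derivation.leibniz_pow]
      simp only [g, smul_eq_mul, nsmul_eq_mul]
      push_cast
      ring
    rw [Finset.sum_congr rfl (fun i _ => h2 i), ← Finset.mul_sum] at h1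
    have h3 : ((n : Polynomial ℂ) + 2) ≠ 0 := by
      have : ((n + 2 : ℕ) : Polynomial ℂ) ≠ 0 := Nat.cast_ne_zero.2 (by omega)
      push_cast at this; exact this
    exact (mul_eq_zero.1 h1).resolve_left h3
  let f' : Fin (n + 2) → Polynomial ℂ := fun i => derivative (f i)
  let w : Fin n → Fin (n + 2) → Polynomial ℂ := fun j i => pD (δ j) (f i)
  have hgf : ∑ i, f i * g i = 0 := by
    rw [← hF]; exact Finset.sum_congr rfl (fun i _ => by simp only [g]; ring)
  have hgf' : ∑ i, f' i * g i = 0 := 
    hder ((Polynomial.derivative' : Derivation ℂ (Polynomial ℂ) (Polynomial ℂ)).restrictScalars ℤ)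
  have hgw : ∀ j, ∑ i, w j i * g i = 0 := fun j => hder (pD (δ j))
  -- f 0 is nonzero
  have hf00 : f 0 ≠ 0 := by
    intro h
    have := h0 0
    rw [h, eval_zero, hxs0] at this
    exact zero_ne_one this
  have hgne : g ≠ 0 := by
    intro h
    have := congrFun h 0
    simp only [g, Pi.zero_apply] at this
    exact hf00 (pow_eq_zero_iff (by omega) |>.1 this)
  -- determinants of matrices with rows orthogonal to g
  have hdet0 : ∀ M : Matrix (Fin (n + 2)) (Fin (n + 2)) (Polynomial ℂ),
      (∀ r, ∑ i, M r i * g i = 0) → M.det = 0 := by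
    intro M hM
    exact Matrix.exists_mulVec_eq_zero_iff.1 ⟨g, hgne, funext hM⟩
  -- degree
  obtain ⟨a, ha⟩ : ∃ a, ∀ i, (f i).natDegree ≤ (f a).natDegree :=
    Finite.exists_max (fun i => (f i).natDegree)
  set e := (f a).natDegree with he
  by_cases he0 : e = 0
  · intro i
    have hc : ∀ i, f i = C (xs i) := by
      intro i
      have h1 := Polynomial.eq_C_of_natDegree_eq_zero (Nat.le_zero.1 (he0 ▸ ha i))
      rw [h1, Polynomial.coeff_zero_eq_eval_zero, h0]
    rw [hc i, hc 0, hxs0, map_one, mul_one]
  have he1 : 1 ≤ e := Nat.one_le_iff_ne_zero.2 he0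
  have hfa : f a ≠ 0 := by
    intro h
    rw [h, natDegree_zero] at he
    exact he0 he
  -- rows
  let R : (Fin (n + 2) → Polynomial ℂ) → Matrix (Fin (n + 2)) (Fin (n + 2)) (Polynomial ℂ) :=
    fun z => Matrix.of (Fin.snoc (α := fun _ => Fin (n + 2) → Polynomial ℂ)
      (Fin.cons (α := fun _ => Fin (n + 2) → Polynomial ℂ) f w) z)
  have hR0 : ∀ z, R z 0 = f := by
    intro z
    have : (0 : Fin (n + 2)) = Fin.castSucc (0 : Fin (n + 1)) := rfl
    simp only [R]
    rw [this]
    funext c
    change (Fin.snoc (α := fun _ => Fin (n + 2) → Polynomial ℂ)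
      (Fin.cons (α := fun _ => Fin (n + 2) → Polynomial ℂ) f w) z (Fin.castSucc 0)) c = f c
    rw [Fin.snoc_castSucc, Fin.cons_zero]
  have hRm : ∀ z j, R z (mid j) = w j := by
    intro z j
    funext c
    change (Fin.snoc (α := fun _ => Fin (n + 2) → Polynomial ℂ)
      (Fin.cons (α := fun _ => Fin (n + 2) → Polynomial ℂ) f w) z (Fin.castSucc j.succ)) c = w j c
    rw [Fin.snoc_castSucc, Fin.cons_succ]
  have hRl : ∀ z, R z (Fin.last (n + 1)) = z := by
    intro z
    funext c
    change (Fin.snoc (α := fun _ => Fin (n + 2) → Polynomial ℂ)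
      (Fin.cons (α := fun _ => Fin (n + 2) → Polynomial ℂ) f w) z (Fin.last (n + 1))) c = z c
    rw [Fin.snoc_last]
  have hrow : ∀ r : Fin (n + 2), r = 0 ∨ (∃ j : Fin n, r = mid j) ∨ r = Fin.last (n + 1) := by
    intro r
    by_cases h1 : r = 0
    · exact Or.inl h1
    by_cases h2 : r = Fin.last (n + 1)
    · exact Or.inr (Or.inr h2)
    refine Or.inr (Or.inl ?_)
    have h1' : r.val ≠ 0 := fun h => h1 (Fin.ext h)
    have h2' : r.val ≠ n + 1 := fun h => h2 (Fin.ext h)
    have h3 := r.isLt
    refine ⟨⟨r.val - 1, by omega⟩, Fin.ext ?_⟩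
    simp [mid]
    omega
  have hlast0 : Fin.last (n + 1) ≠ (0 : Fin (n + 2)) := by
    intro h
    have := congrArg Fin.val h
    simp at this
  -- claim 1
  have hclaim : ∀ (j0 : Fin n) (z : Fin (n + 2) → Polynomial ℂ),
      ((R z).updateRow (mid j0) f').det = 0 := by
    intro j0 z
    set N := (R 0).updateRow (mid j0) f' with hN
    let L : (Fin (n + 2) → Polynomial ℂ) → Polynomial ℂ := fun z =>
      (N.updateRow (Fin.last (n + 1)) z).det
    have hRN : ∀ z, (R z).updateRow (mid j0) f' = N.updateRow (Fin.last (n + 1)) z := by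
      intro z
      ext r c
      by_cases h1 : r = Fin.last (n + 1)
      · subst h1
        rw [Matrix.updateRow_self, Matrix.updateRow_ne (mid_ne_last j0).symm, hRl]
      · rw [Matrix.updateRow_ne h1, hN]
        by_cases h2 : r = mid j0
        · subst h2
          rw [Matrix.updateRow_self, Matrix.updateRow_self]
        · rw [Matrix.updateRow_ne h2, Matrix.updateRow_ne h2]
          rcases hrow r with h3 | ⟨j, h3⟩ | h3
          · subst h3; rw [hR0, hR0]
          · subst h3; rw [hRm, hRm]
          · exact absurd h3 h1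
    rw [hRN]
    change L z = 0
    have hNrows : ∀ r, r ≠ Fin.last (n + 1) → ∑ i, N r i * g i = 0 := by
      intro r hr
      rw [hN]
      by_cases h2 : r = mid j0
      · subst h2
        rw [Matrix.updateRow_self]; exact hgf'
      · rw [Matrix.updateRow_ne h2]
        rcases hrow r with h3 | ⟨j, h3⟩ | h3
        · subst h3; rw [hR0]; exact hgf
        · subst h3; rw [hRm]; exact hgw j
        · exact absurd h3 hr
    have hLorth : ∀ z, (∑ i, z i * g i = 0) → L z = 0 := by
      intro z hz
      apply hdet0
      intro r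
      by_cases h1 : r = Fin.last (n + 1)
      · subst h1
        rw [Matrix.updateRow_self]; exact hz
      · rw [Matrix.updateRow_ne h1]; exact hNrows r h1
    have hLadd : ∀ z z', L (z + z') = L z + L z' := fun z z' => Matrix.det_updateRow_add _ _ _ _
    have hLsmul : ∀ (s : Polynomial ℂ) z, L (s • z) = s * L z :=
      fun s z => Matrix.det_updateRow_smul _ _ _ _
    let ε : Fin (n + 2) → Fin (n + 2) → Polynomial ℂ := fun b => Pi.single b 1
    have hLab : ∀ b c, g c * L (ε b) = g b * L (ε c) := by
      intro b c
      have h1 : L (g c • ε b + (-g b) • ε c) = 0 := by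
        apply hLorth
        simp only [Pi.add_apply, Pi.smul_apply, smul_eq_mul, ε, Pi.single_apply]
        simp only [add_mul, Finset.sum_add_distrib, mul_ite, mul_one, mul_zero, ite_mul,
          zero_mul, Finset.sum_ite_eq', Finset.mem_univ, if_true]
        ring
      rw [hLadd, hLsmul, hLsmul] at h1
      linear_combination h1
    -- g is a unimodular row
    obtain ⟨c, hc⟩ : ∃ c : Fin (n + 2) → Polynomial ℂ, ∑ i, c i * g i = 1 := by
      obtain ⟨c, hc⟩ := hcop
      have h1 : Ideal.span (Set.range f) = ⊤ := by
        rw [Ideal.eq_top_iff_one, Ideal.mem_span_range_iff_exists_fun]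
        exact ⟨c, hc⟩
      have h2 := Ideal.span_pow_eq_top _ h1 (n + 1)
      have h3 : (fun x : Polynomial ℂ => x ^ (n + 1)) '' Set.range f = Set.range g := by
        rw [← Set.range_comp]; rfl
      rw [h3, Ideal.eq_top_iff_one, Ideal.mem_span_range_iff_exists_fun] at h2
      exact h2
    have hdvd : g a ∣ L (ε a) := by
      refine ⟨∑ i, c i * L (ε i), ?_⟩
      calc L (ε a) = (∑ i, c i * g i) * L (ε a) := by rw [hc, one_mul]
        _ = ∑ i, c i * (g i * L (ε a)) := by
            rw [Finset.sum_mul]; exact Finset.sum_congr rfl (fun i _ => by ring)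
        _ = ∑ i, c i * (g a * L (ε i)) :=
            Finset.sum_congr rfl (fun i _ => by rw [hLab a i])
        _ = g a * ∑ i, c i * L (ε i) := by
            rw [Finset.mul_sum]; exact Finset.sum_congr rfl (fun i _ => by ring)
    -- degree bound
    have hLa : L (ε a) = 0 := by
      by_contra hLne
      set Na := N.updateRow (Fin.last (n + 1)) (ε a) with hNa
      have hNa0 : Na 0 = f := by
        rw [hNa, Matrix.updateRow_ne hlast0.symm, hN, Matrix.updateRow_ne (mid_ne_zero j0).symm,
          hR0]
      have hNaj0 : Na (mid j0) = f' := by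
        rw [hNa, Matrix.updateRow_ne (mid_ne_last j0), hN, Matrix.updateRow_self]
      let ft : Fin (n + 2) → Polynomial ℂ := (e : Polynomial ℂ) • f + (-X : Polynomial ℂ) • f'
      have hdetN : (Na.updateRow 0 ft).det = (e : Polynomial ℂ) * L (ε a) := by
        rw [Matrix.det_updateRow_add, Matrix.det_updateRow_smul, Matrix.det_updateRow_smul]
        have e1 : Na.updateRow 0 f = Na := by
          rw [← hNa0, Matrix.updateRow_eq_self]
        have e2 : (Na.updateRow 0 f').det = 0 := by
          apply Matrix.det_zero_of_row_eq (i := 0) (j := mid j0) (mid_ne_zero j0).symm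
          rw [Matrix.updateRow_self, Matrix.updateRow_ne (mid_ne_zero j0), hNaj0]
        rw [e1, e2, mul_zero, add_zero]
      let B : Fin (n + 2) → ℕ := fun r =>
        if r = 0 then e - 1 else if r = mid j0 then e - 1 else if r = Fin.last (n + 1) then 0 else e
      have hBound : ∀ r c, ((Na.updateRow 0 ft) r c).natDegree ≤ B r := by
        intro r c
        by_cases h1 : r = 0
        · subst h1
          rw [Matrix.updateRow_self]
          simp only [B, if_true]
          rw [Polynomial.natDegree_le_iff_coeff_eq_zero]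
          intro k hk
          simp only [ft, Pi.add_apply, Pi.smul_apply, smul_eq_mul, f', neg_mul]
          obtain ⟨k', rfl⟩ := Nat.exists_eq_succ_of_ne_zero (show k ≠ 0 by omega)
          rw [Nat.succ_eq_add_one, coeff_add, coeff_neg, coeff_X_mul, coeff_derivative,
            ← Polynomial.C_eq_natCast, coeff_C_mul]
          by_cases hke : k' + 1 = e
          · rw [← hke]; push_cast; ring
          · have hlt : (f c).natDegree < k' + 1 := by
              have := ha c
              omega
            rw [coeff_eq_zero_of_natDegree_lt hlt]; ring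
        · rw [Matrix.updateRow_ne h1]
          by_cases h2 : r = mid j0
          · subst h2
            rw [hNaj0]
            simp only [B, h1, if_false, if_true]
            refine le_trans (Polynomial.natDegree_derivative_le _) ?_
            exact Nat.sub_le_sub_right (ha c) 1
          · rcases hrow r with h3 | ⟨j, h3⟩ | h3
            · exact absurd h3 h1
            · subst h3
              rw [hNa, Matrix.updateRow_ne (mid_ne_last j), hN, Matrix.updateRow_ne h2, hRm]
              simp only [B, h1, h2, mid_ne_last j, if_false]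
              exact le_trans (natDegree_pD_le _ _) (ha c)
            · subst h3
              rw [hNa, Matrix.updateRow_self]
              simp only [ε, Pi.single_apply]
              split_ifs <;> simp
      have hdeg1 := natDegree_det_le _ B hBound
      have hBsum : ∑ r, B r = (e - 1) + (((e - 1) + (n - 1) * e) + 0) := by
        rw [sum_fin_split_nat]
        have b0 : B 0 = e - 1 := by simp [B]
        have bl : B (Fin.last (n + 1)) = 0 := by
          simp only [B]
          rw [if_neg hlast0, if_neg (mid_ne_last j0).symm]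
          simp
        have bm : ∑ j : Fin n, B (mid j) = (e - 1) + (n - 1) * e := by
          rw [← Finset.add_sum_erase _ _ (Finset.mem_univ j0)]
          congr 1
          · simp only [B]
            rw [if_neg (mid_ne_zero j0)]
            simp
          · rw [Finset.sum_congr rfl (g := fun _ => e)]
            · rw [Finset.sum_const, Finset.card_erase_of_mem (Finset.mem_univ _),
                Finset.card_univ, Fintype.card_fin, smul_eq_mul]
            · intro j hj
              have hj' : mid j ≠ mid j0 := fun h => (Finset.mem_erase.1 hj).1 (mid_injective h)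
              simp only [B]
              rw [if_neg (mid_ne_zero j), if_neg hj', if_neg (mid_ne_last j)]
        rw [b0, bl, bm]
      rw [hBsum, hdetN] at hdeg1
      have hene : (e : Polynomial ℂ) ≠ 0 := Nat.cast_ne_zero.2 he0
      rw [Polynomial.natDegree_mul hene hLne, Polynomial.natDegree_natCast, zero_add] at hdeg1
      have hdeg2 := Polynomial.natDegree_le_of_dvd hdvd hLne
      have hdeg3 : (g a).natDegree = (n + 1) * e := by
        simp only [g]; rw [Polynomial.natDegree_pow]
      rw [hdeg3] at hdeg2
      exact arith_aux n e hn he1 (hdeg2.trans hdeg1)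
    have hga : g a ≠ 0 := pow_ne_zero _ hfa
    have hLall : ∀ b, L (ε b) = 0 := by
      intro b
      have := hLab a b
      rw [hLa, mul_zero] at this
      exact (mul_eq_zero.1 this.symm).resolve_left hga
    have hz : z = ∑ b, z b • ε b := by
      funext i
      rw [Finset.sum_apply]
      simp [ε, Pi.single_apply]
    have hL0 : L 0 = 0 := by
      have := hLsmul 0 0
      rwa [zero_smul, zero_mul] at this
    have hLsum : ∀ s : Finset (Fin (n + 2)), L (∑ b ∈ s, z b • ε b) = 0 := by
      intro s
      induction s using Finset.induction_on with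
      | empty => rw [Finset.sum_empty]; exact hL0
      | insert b s hb ih =>
        rw [Finset.sum_insert hb, hLadd, hLsmul, hLall, mul_zero, zero_add, ih]
    rw [hz]
    exact hLsum _
  -- the base matrix
  set M := R (Pi.single (Fin.last (n + 1)) 1) with hM
  have hMdet : M.det ≠ 0 := by
    intro h
    have h1 := congrArg (Polynomial.evalRingHom (0 : ℂ)) h
    rw [RingHom.map_det, map_zero] at h1
    have h2 : ((Polynomial.evalRingHom (0 : ℂ)).mapMatrix M).BlockTriangular id := by
      intro r c hcr
      simp only [id] at hcr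
      rw [RingHom.mapMatrix_apply, Matrix.map_apply]
      rcases hrow r with h3 | ⟨j, h3⟩ | h3
      · subst h3
        exact absurd hcr (Fin.not_lt_zero c)
      · subst h3
        rw [hM, hRm]
        change (pD (δ j) (f c)).eval 0 = 0
        rw [eval_zero_pD, h0]
        rcases hrow c with h4 | ⟨j', h4⟩ | h4
        · rw [h4, hxs0]
          exact (δ j).map_one_eq_zero
        · subst h4
          rw [hxsm, hδ, if_neg]
          rintro rfl
          exact lt_irrefl _ hcr
        · subst h4
          exact absurd hcr (not_lt.2 (Fin.le_last _))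
      · subst h3
        rw [hM, hRl, Pi.single_apply, if_neg (ne_of_lt hcr)]
        simp
    rw [Matrix.det_of_isUpperTriangular h2] at h1
    have h3 : ∀ r, ((Polynomial.evalRingHom (0 : ℂ)).mapMatrix M) r r = 1 := by
      intro r
      rw [RingHom.mapMatrix_apply, Matrix.map_apply]
      rcases hrow r with h4 | ⟨j, h4⟩ | h4
      · subst h4
        rw [hM, hR0]
        change (f 0).eval 0 = 1
        rw [h0, hxs0]
      · subst h4
        rw [hM, hRm]
        change (pD (δ j) (f (mid j))).eval 0 = 1
        rw [eval_zero_pD, h0, hxsm, hδ, if_pos rfl]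
      · subst h4
        rw [hM, hRl, Pi.single_eq_same]
        simp
    rw [Finset.prod_congr rfl (fun r _ => h3 r), Finset.prod_const_one] at h1
    exact one_ne_zero h1
  -- Cramer
  have hcr : ∀ k, f k * (M.updateRow 0 f').det = M.det * f' k := by
    intro k
    have h1 := congrFun (Matrix.mulVec_cramer M.transpose f') k
    rw [Matrix.det_transpose, Pi.smul_apply, smul_eq_mul] at h1
    rw [← h1]
    simp only [Matrix.mulVec, dotProduct]
    rw [Finset.sum_eq_single 0]
    · rw [Matrix.cramer_transpose_apply, Matrix.transpose_apply, hM, hR0]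
    · intro r _ hr
      rw [Matrix.cramer_transpose_apply]
      rcases hrow r with h4 | ⟨j, h4⟩ | h4
      · exact absurd h4 hr
      · subst h4
        rw [hM, hclaim, mul_zero]
      · subst h4
        have : (M.updateRow (Fin.last (n + 1)) f').det = 0 := by
          apply hdet0
          intro r
          by_cases h5 : r = Fin.last (n + 1)
          · subst h5
            rw [Matrix.updateRow_self]; exact hgf'
          · rw [Matrix.updateRow_ne h5, hM]
            rcases hrow r with h6 | ⟨j, h6⟩ | h6
            · subst h6; rw [hR0]; exact hgf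
            · subst h6; rw [hRm]; exact hgw j
            · exact absurd h6 h5
        rw [this, mul_zero]
    · intro h; exact absurd (Finset.mem_univ _) h
  have hwr : ∀ k, f' k * f 0 = f k * f' 0 := by
    intro k
    have h1 := hcr k
    have h2 := hcr 0
    have h3 : M.det * (f' k * f 0 - f k * f' 0) = 0 := by
      linear_combination (-(f 0)) * h1 + (f k) * h2
    have := (mul_eq_zero.1 h3).resolve_left hMdet
    linear_combination this
  intro i
  have h1 : f i - C (xs i) * f 0 = 0 := by
    apply eq_zero_of_wronskian (q := f 0)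
    · rw [eval_sub, eval_mul, eval_C, h0, h0, hxs0, mul_one, sub_self]
    · rw [h0, hxs0]; exact one_ne_zero
    · rw [derivative_sub, derivative_mul, derivative_C, zero_mul, zero_add]
      have := hwr i
      simp only [f'] at this
      linear_combination this
  exact sub_eq_zero.1 h1

end Pool.Agent.Work.MP_4329d7_ag
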