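import Pool.Agent.Work.MP_4329d7_ag.VanishSI
import Pool.Agent.Work.MP_4329d7_ag.Deriv
import Pool.Agent.Work.MP_4329d7_ag.RatCurve

/-!
The product of the Fermat hypersurface of degree `n + 2` with `ℙ^k` is not rationally connected.
-/

open MvPolynomial

namespace Pool.Agent.Work.MP_4329d7_ag

variable {n k : ℕ}

theorem not_rationallyConnected_SI (hn : 1 ≤ n) : ¬ RationallyConnected (SI n k) := by
  classical
  intro hRC
  obtain ⟨t, δ, hδ⟩ := exists_derivations n
  obtain ⟨c, hc⟩ : ∃ c : ℂ, c ^ (n + 2) = -(1 + ∑ i, t i ^ (n + 2)) :=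
    IsAlgClosed.exists_pow_nat_eq _ (by omega)
  let xs : Fin (n + 2) → ℂ := Fin.snoc (α := fun _ => ℂ) (Fin.cons (α := fun _ => ℂ) 1 t) c
  have hxs0 : xs 0 = 1 := by
    have : (0 : Fin (n + 2)) = Fin.castSucc (0 : Fin (n + 1)) := rfl
    rw [this]
    simp only [xs, Fin.snoc_castSucc, Fin.cons_zero]
  have hxsm : ∀ i, xs (mid i) = t i := by
    intro i
    simp only [xs, mid, Fin.snoc_castSucc, Fin.cons_succ]
  have hxsl : xs (Fin.last (n + 1)) = c := by
    simp only [xs, Fin.snoc_last]
  have hxsc : xs ∈ Cone (FI n) := by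
    rw [mem_cone_FI, sum_fin_split, hxs0, hxsl, hc]
    simp only [hxsm]
    ring
  have hxsn : xs ≠ 0 := by
    intro h
    have := congrFun h 0
    rw [hxs0] at this
    exact one_ne_zero this
  let a : Fin (n + 2) := mid ⟨0, by omega⟩
  obtain ⟨x1, hx1c, hx1a, _, hx1z⟩ := exists_point (n := n) (a := a) (b := Fin.last (n + 1))
    (mid_ne_last _)
  have hx10 : x1 0 = 0 := by
    apply hx1z
    · exact (mid_ne_zero _).symm
    · intro h
      have := congrArg Fin.val h
      simp at this
  have hx1n : x1 ≠ 0 := by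
    intro h
    rw [h] at hx1a
    exact zero_ne_one hx1a
  let y : Fin (k + 1) → ℂ := fun j => if j = 0 then 1 else 0
  have hy0 : y 0 = 1 := by simp [y]
  have hyn : y ≠ 0 := by
    intro h
    have := congrFun h 0
    rw [hy0] at this
    exact one_ne_zero this
  obtain ⟨e, f, _, hf, ⟨p0, _, c0, hc0, h0⟩, ⟨p1, _, c1, hc1, h1⟩⟩ :=
    hRC (sp xs y) (sp_mem_cone hxsc y) (sp_ne_zero hxsn hyn)
      (sp x1 y) (sp_mem_cone hx1c y) (sp_ne_zero hx1n hyn)
  -- the polynomial identity
  have hid : ∑ i, f (i, 0) ^ (n + 2) = 0 := by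
    have h2 : (X 0 : MvPolynomial (Fin 2) ℂ) * ∑ i, f (i, 0) ^ (n + 2) = 0 := by
      apply MvPolynomial.funext
      intro p
      rw [map_mul, eval_X, map_zero]
      by_cases hp : p = 0
      · rw [hp]; simp
      · have h3 := (hf p hp).2 _ (column_mem 0)
        simp only [map_sum, map_pow, eval_X] at h3
        rw [map_sum]
        simp only [map_pow]
        rw [h3, mul_zero]
    exact (mul_eq_zero.1 h2).resolve_left (X_ne_zero _)
  let L : Fin 2 → Polynomial ℂ := fun j =>
    Polynomial.C (p0 j) + Polynomial.X * Polynomial.C (p1 j - p0 j)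
  let φ : Fin (n + 2) → Polynomial ℂ := fun i => aeval L (f (i, 0))
  have hLev : ∀ (s : ℂ) (q : MvPolynomial (Fin 2) ℂ),
      (aeval L q).eval s = eval (fun j => p0 j + s * (p1 j - p0 j)) q := by
    intro s q
    induction q using MvPolynomial.induction_on with
    | C a =>
      rw [aeval_C, eval_C]
      exact Polynomial.eval_C
    | add p q hp hq => rw [map_add, Polynomial.eval_add, hp, hq, map_add]
    | mul_X p i hp =>
      rw [map_mul, Polynomial.eval_mul, hp, aeval_X, map_mul, eval_X]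
      simp [L]
  have hφ0 : ∀ i, (φ i).eval 0 = c0 * xs i := by
    intro i
    simp only [φ]
    rw [hLev]
    have h2 := congrFun h0 (i, 0)
    simp only [Pi.smul_apply, sp, smul_eq_mul, hy0, mul_one] at h2
    simp only [zero_mul, add_zero]
    exact h2
  have hφ1 : ∀ i, (φ i).eval 1 = c1 * x1 i := by
    intro i
    simp only [φ]
    rw [hLev]
    have h2 := congrFun h1 (i, 0)
    simp only [Pi.smul_apply, sp, smul_eq_mul, hy0, mul_one] at h2
    simp only [one_mul, add_sub_cancel]
    exact h2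
  have hφF : ∑ i, φ i ^ (n + 2) = 0 := by
    have h2 := congrArg (aeval L) hid
    rw [map_sum, map_zero] at h2
    rw [← h2]
    exact Finset.sum_congr rfl (fun i _ => (map_pow _ _ _).symm)
  -- the gcd
  obtain ⟨g, hg⟩ := (IsPrincipalIdealRing.principal (Ideal.span (Set.range φ))).principal
  have hgd : ∀ i, ∃ ψ, φ i = g * ψ := by
    intro i
    have h2 : φ i ∈ Ideal.span (Set.range φ) := Ideal.subset_span ⟨i, rfl⟩
    rw [hg] at h2
    exact Ideal.mem_span_singleton.1 h2
  choose ψ hψ using hgd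
  obtain ⟨b, hb⟩ : ∃ b : Fin (n + 2) → Polynomial ℂ, ∑ i, b i * φ i = g := by
    have h2 : g ∈ Ideal.span (Set.range φ) := by
      rw [hg]; exact Ideal.mem_span_singleton_self g
    exact Ideal.mem_span_range_iff_exists_fun.1 h2
  have hg0 : g.eval 0 ≠ 0 := by
    intro h
    have h2 := hφ0 0
    rw [hψ, Polynomial.eval_mul, h, zero_mul, hxs0, mul_one] at h2
    exact hc0 h2.symm
  have hgne : g ≠ 0 := by
    rintro rfl
    simp at hg0
  have hbψ : ∑ i, b i * ψ i = 1 := by
    have h2 : g * ∑ i, b i * ψ i = g * 1 := by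
      rw [Finset.mul_sum, mul_one]
      conv_rhs => rw [← hb]
      refine Finset.sum_congr rfl (fun i _ => ?_)
      rw [hψ i]; ring
    exact mul_left_cancel₀ hgne h2
  have hψF : ∑ i, ψ i ^ (n + 2) = 0 := by
    have h2 : g ^ (n + 2) * ∑ i, ψ i ^ (n + 2) = 0 := by
      rw [Finset.mul_sum, ← hφF]
      refine Finset.sum_congr rfl (fun i _ => ?_)
      rw [hψ i, mul_pow]
    exact (mul_eq_zero.1 h2).resolve_left (pow_ne_zero _ hgne)
  let r : ℂ := g.eval 0 / c0
  have hr : r ≠ 0 := div_ne_zero hg0 hc0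
  have hcc := curve_constant hn t δ hδ xs hxs0 hxsm (fun i => Polynomial.C r * ψ i)
    (by
      simp only [mul_pow]
      rw [← Finset.mul_sum, hψF, mul_zero])
    ⟨fun i => b i * Polynomial.C r⁻¹, by
      rw [← hbψ]
      refine Finset.sum_congr rfl (fun i _ => ?_)
      have h2 : Polynomial.C r⁻¹ * Polynomial.C r = 1 := by
        rw [← Polynomial.C_mul, inv_mul_cancel₀ hr, Polynomial.C_1]
      calc b i * Polynomial.C r⁻¹ * (Polynomial.C r * ψ i)
          = (Polynomial.C r⁻¹ * Polynomial.C r) * (b i * ψ i) := by ring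
        _ = b i * ψ i := by rw [h2, one_mul]⟩
    (by
      intro i
      have h2 := hφ0 i
      rw [hψ, Polynomial.eval_mul] at h2
      simp only [Polynomial.eval_mul, Polynomial.eval_C, r]
      field_simp
      linear_combination h2)
  have hval : ∀ i, g.eval 1 * (Polynomial.C r * ψ i).eval 1 = r * (c1 * x1 i) := by
    intro i
    rw [← hφ1, hψ, Polynomial.eval_mul, Polynomial.eval_mul, Polynomial.eval_C]
    ring
  have hv0 := hval 0
  rw [hx10, mul_zero, mul_zero] at hv0
  have hva := hval a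
  have h3 : (Polynomial.C r * ψ a).eval 1 = xs a * (Polynomial.C r * ψ 0).eval 1 := by
    have h4 := congrArg (Polynomial.eval 1) (hcc a)
    simp only [Polynomial.eval_mul, Polynomial.eval_C] at h4 ⊢
    exact h4
  rw [h3, hx1a, mul_one] at hva
  have h5 : r * c1 = 0 := by
    rw [← hva]
    linear_combination (xs a) * hv0
  exact mul_ne_zero hr hc1 h5

end Pool.Agent.Work.MP_4329d7_ag
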