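import Pool.Agent.Work.MP_4329d7_ag.RLocal

/-!
Local regularity of the pluricanonical form attached to a Brieskorn-Pham quotient.
-/

namespace Pool.Agent.Work.MP_4329d7_ag.R

open WithZero

variable {F : Type} [Field F] [Algebra ℂ F] {n : ℕ}

/-- The numerical condition (Reid-Tai): every nonzero vector `κ` of nonnegative integers with a
zero entry, pairing integrally with all exponent vectors of `L`, has weight at least one. -/
def Canonical (N : Ix n → ℕ) (L : Set (Ix n → ℤ)) : Prop :=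
  ∀ κ : Ix n → ℕ, (∃ i, κ i = 0) → (∃ i, κ i ≠ 0) →
    (∀ ρ ∈ L, ((∑ i, N i : ℕ) : ℤ) ∣ ∑ i, ρ i * N i * κ i) → ∑ i, N i ≤ ∑ i, N i * κ i

theorem psi_local (v : Valuation F ℤᵐ⁰) {ϖ : F} (hϖ : v ϖ = exp (-1))
    (D : Fin n → Derivation ℂ F F) (hD : ∀ a f, v f ≤ 1 → v (D a f) ≤ 1)
    (N : Ix n → ℕ) (hN : 0 < ∑ i, N i) (L : Set (Ix n → ℤ))
    (hdeg : ∀ ρ ∈ L, ∑ i, ρ i * N i = 0) (hcan : Canonical N L)
    (y : Ix n → F) (hy0 : ∀ i, y i ≠ 0) (hys : ∑ i, y i = 0)
    (P : ℕ) (x : F) (hx : x ^ (∑ i, N i) = ∏ i, y i ^ (P * N i))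
    (hL : ∀ ρ ∈ L, ∃ w : F, w ^ (∑ i, N i) = ∏ i, y i ^ (ρ i * N i)) (f₀ : Ix n) :
    v (x * (Mat D f₀ y).det ^ P / (∏ i, y i) ^ P) ≤ 1 := by
  classical
  set A := ∑ i, N i with hA
  have hϖ0 : ϖ ≠ 0 := by
    rintro rfl
    rw [map_zero] at hϖ
    exact exp_ne_zero hϖ.symm
  have hv0 : ∀ i, v (y i) ≠ 0 := fun i => (Valuation.ne_zero_iff v).2 (hy0 i)
  set ν : Ix n → ℤ := fun i => -log (v (y i)) with hν
  have hvy : ∀ i, v (y i) = exp (-ν i) := fun i => by
    rw [hν]; simp only [neg_neg]; rw [exp_log (hv0 i)]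
  obtain ⟨f, hf⟩ := Finite.exists_min ν
  set κ : Ix n → ℕ := fun i => (ν i - ν f).toNat with hκ
  have hκν : ∀ i, (κ i : ℤ) = ν i - ν f := fun i => by
    rw [hκ]; simp only; rw [Int.toNat_of_nonneg (by have := hf i; omega)]
  have hκf : κ f = 0 := by
    have := hκν f; omega
  have hvz : ∀ k : ℤ, v (ϖ ^ k) = exp (-k) := by
    intro k
    rw [map_zpow₀, hϖ, ← exp_zsmul]
    simp
  have hvn : ∀ k : ℕ, v (ϖ ^ k) = exp (-(k : ℤ)) := by
    intro k
    have := hvz k
    rwa [zpow_natCast] at this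
  set g : F := ϖ ^ (ν f) with hg
  have hg0 : g ≠ 0 := zpow_ne_zero _ hϖ0
  set u : Ix n → F := fun i => y i / (g * ϖ ^ κ i) with hu
  have hyu : ∀ i, y i = g * (ϖ ^ κ i * u i) := fun i => by
    rw [hu]
    simp only
    have : ϖ ^ κ i ≠ 0 := pow_ne_zero _ hϖ0
    field_simp
  have hu1 : ∀ i, v (u i) = 1 := by
    intro i
    rw [hu]
    simp only
    rw [map_div₀, map_mul, hvy, hg, hvz, hvn, ← exp_add, hκν, ← exp_sub]
    rw [show -ν i - (-ν f + -(ν i - ν f)) = 0 by ring, exp_zero]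
  have hys' : ∑ i, ϖ ^ κ i * u i = 0 := by
    have : g * ∑ i, ϖ ^ κ i * u i = 0 := by
      rw [Finset.mul_sum, ← hys]
      exact Finset.sum_congr rfl (fun i _ => (hyu i).symm)
    exact (mul_eq_zero.1 this).resolve_left hg0
  -- the determinant
  have hdet : v (Mat D f₀ y).det = exp (-((n + 1 : ℤ) * ν f)) *
      v (Mat D f (fun i => ϖ ^ κ i * u i)).det := by
    have h1 : (Mat D f₀ y).det = (Mat D f y).det := det_indep D f₀ f y hys
    have h2 : y = fun i => g * (ϖ ^ κ i * u i) := funext hyu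
    rw [h1]
    conv_lhs => rw [h2]
    rw [det_smul D f _ hg0, map_mul, map_pow, hg, hvz, ← exp_nsmul]
    congr 2
    push_cast
    rw [nsmul_eq_mul]
    push_cast
    ring
  -- integrality
  have hint : ∀ ρ ∈ L, (A : ℤ) ∣ ∑ i, ρ i * N i * κ i := by
    intro ρ hρ
    obtain ⟨w, hw⟩ := hL ρ hρ
    have hw0 : w ≠ 0 := by
      rintro rfl
      rw [zero_pow hN.ne'] at hw
      exact Finset.prod_ne_zero_iff.2 (fun i _ => zpow_ne_zero _ (hy0 i)) hw.symm
    have hvw : v w ≠ 0 := (Valuation.ne_zero_iff v).2 hw0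
    have h1 := congrArg v hw
    rw [map_pow, map_prod] at h1
    have h2 : ∏ i, v (y i ^ (ρ i * N i)) = exp (-∑ i, ρ i * N i * ν i) := by
      rw [← Finset.sum_neg_distrib]
      have : ∀ s : Finset (Ix n), ∏ i ∈ s, v (y i ^ (ρ i * (N i : ℤ))) =
          exp (∑ i ∈ s, -(ρ i * N i * ν i)) := by
        intro s
        induction s using Finset.induction_on with
        | empty => simp
        | insert a s ha ih =>
          rw [Finset.prod_insert ha, Finset.sum_insert ha, ih, exp_add, map_zpow₀, hvy,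
            ← exp_zsmul]
          congr 2
          rw [smul_eq_mul]; ring
      exact this Finset.univ
    rw [h2, ← exp_log hvw, ← exp_nsmul] at h1
    have h3 := exp_injective h1
    rw [nsmul_eq_mul] at h3
    have h4 : ∑ i, ρ i * N i * κ i = ∑ i, ρ i * N i * ν i - (∑ i, ρ i * N i) * ν f := by
      rw [Finset.sum_mul, ← Finset.sum_sub_distrib]
      refine Finset.sum_congr rfl (fun i _ => ?_)
      rw [hκν]; ring
    rw [h4, hdeg ρ hρ, zero_mul, sub_zero]
    refine ⟨-log (v w), ?_⟩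
    linear_combination h3
  -- bound of the determinant
  have hbound : v (Mat D f (fun i => ϖ ^ κ i * u i)).det ^ A ≤
      exp (∑ i, (N i : ℤ) * κ i - A * ∑ i, (κ i : ℤ)) := by
    by_cases h0 : ∃ i, κ i ≠ 0
    · have h1 := hcan κ ⟨f, hκf⟩ h0 hint
      have h2 := det_local v hϖ D hD f κ u (fun i => (hu1 i).le) hκf
      calc v (Mat D f (fun i => ϖ ^ κ i * u i)).det ^ A
          ≤ exp (1 - ∑ i, (κ i : ℤ)) ^ A := pow_le_pow_left' h2 A
        _ = exp ((A : ℤ) * (1 - ∑ i, (κ i : ℤ))) := by rw [← exp_nsmul, nsmul_eq_mul]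
        _ ≤ _ := by
            refine exp_le_exp.2 ?_
            have h3 : (A : ℤ) ≤ ∑ i, (N i : ℤ) * κ i := by
              have : ((A : ℕ) : ℤ) ≤ ((∑ i, N i * κ i : ℕ) : ℤ) := by exact_mod_cast h1
              push_cast at this
              push_cast
              exact this
            linarith
    · push Not at h0
      have h2 : v (Mat D f (fun i => ϖ ^ κ i * u i)).det ≤ 1 := by
        refine det_local_zero v D hD f _ (fun i => ?_)
        rw [h0 i, pow_zero, one_mul]
        exact (hu1 i).le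
      have h3 : (∑ i, (N i : ℤ) * κ i - A * ∑ i, (κ i : ℤ)) = 0 := by
        simp [h0]
      rw [h3, exp_zero]
      exact pow_le_one' h2 A
  -- conclusion
  have hvx : v x ^ A = exp (-∑ i, (P : ℤ) * N i * ν i) := by
    rw [← map_pow, hx, map_prod, ← Finset.sum_neg_distrib]
    have : ∀ s : Finset (Ix n), ∏ i ∈ s, v (y i ^ (P * N i)) =
        exp (∑ i ∈ s, -((P : ℤ) * N i * ν i)) := by
      intro s
      induction s using Finset.induction_on with
      | empty => simp
      | insert a s ha ih =>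
        rw [Finset.prod_insert ha, Finset.sum_insert ha, ih, exp_add, map_pow, hvy,
          ← exp_nsmul]
        congr 2
        rw [nsmul_eq_mul]; push_cast; ring
    exact this Finset.univ
  have hvprod : v (∏ i, y i) = exp (-∑ i, ν i) := by
    rw [map_prod, ← Finset.sum_neg_distrib]
    have : ∀ s : Finset (Ix n), ∏ i ∈ s, v (y i) = exp (∑ i ∈ s, -(ν i)) := by
      intro s
      induction s using Finset.induction_on with
      | empty => simp
      | insert a s ha ih => rw [Finset.prod_insert ha, Finset.sum_insert ha, ih, exp_add, hvy]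
    exact this Finset.univ
  have hfin : v (x * (Mat D f₀ y).det ^ P / (∏ i, y i) ^ P) ^ A ≤ 1 := by
    rw [map_div₀, map_mul, map_pow, map_pow, div_pow, mul_pow, hvx, hdet, mul_pow, hvprod]
    have e1 : (exp (-((n + 1 : ℤ) * ν f)) ^ P * v (Mat D f (fun i => ϖ ^ κ i * u i)).det ^ P) ^ A =
        exp (-((P : ℤ) * A * (n + 1) * ν f)) *
          (v (Mat D f (fun i => ϖ ^ κ i * u i)).det ^ A) ^ P := by
      rw [mul_pow, ← pow_mul, ← pow_mul, ← pow_mul, mul_comm P A]
      congr 1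
      rw [← exp_nsmul, nsmul_eq_mul]
      congr 1
      push_cast
      ring
    have e2 : (exp (-∑ i, ν i) ^ P) ^ A = exp (-((P : ℤ) * A * ∑ i, ν i)) := by
      rw [← pow_mul, ← exp_nsmul, nsmul_eq_mul]
      congr 1
      push_cast
      ring
    rw [e1, e2]
    have e3 : (v (Mat D f (fun i => ϖ ^ κ i * u i)).det ^ A) ^ P ≤
        exp ((P : ℤ) * (∑ i, (N i : ℤ) * κ i - A * ∑ i, (κ i : ℤ))) := by
      refine (pow_le_pow_left' hbound P).trans (le_of_eq ?_)
      rw [← exp_nsmul, nsmul_eq_mul]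
    refine (div_le_div_of_nonneg_right (mul_le_mul_right (mul_le_mul_right e3 _) _)
      zero_le).trans ?_
    rw [← exp_add, ← exp_add, ← exp_sub, ← exp_zero]
    refine exp_le_exp.2 (le_of_eq ?_)
    have hs1 : ∑ i, (κ i : ℤ) = ∑ i, ν i - (n + 2) * ν f := by
      rw [Finset.sum_congr rfl (fun i _ => hκν i), Finset.sum_sub_distrib, Finset.sum_const,
        Finset.card_univ, Fintype.card_option, Fintype.card_option, Fintype.card_fin]
      rw [nsmul_eq_mul]; push_cast; ring
    have hs2 : ∑ i, (N i : ℤ) * κ i = ∑ i, (N i : ℤ) * ν i - A * ν f := by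
      rw [Finset.sum_congr rfl (fun i _ => by rw [hκν i]), hA]
      push_cast
      rw [Finset.sum_mul, ← Finset.sum_sub_distrib]
      refine Finset.sum_congr rfl (fun i _ => by ring)
    have hs3 : ∑ i, (P : ℤ) * N i * ν i = P * ∑ i, (N i : ℤ) * ν i := by
      rw [Finset.mul_sum]
      exact Finset.sum_congr rfl (fun i _ => by ring)
    rw [hs1, hs2, hs3]
    ring
  exact (pow_le_one_iff hN.ne').1 hfin

end Pool.Agent.Work.MP_4329d7_ag.R
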