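import Pool.Agent.Work.MP_4329d7_ag.FF.Vanish
import Pool.Agent.Work.MP_4329d7_ag.FF.KField
import Pool.Agent.Work.MP_4329d7_ag.FF.Theta
import Pool.Agent.Work.MP_4329d7_ag.RPsi

/-!
Bridge: from the vanishing theorem for Kummer covers to the field of the Sylvester example.
-/

namespace Pool.Agent.Work.MP_4329d7_ag.R

open FF

lemma prod_zpow_const' {G : Type*} [Field G] {a : G} (ha : a ≠ 0) {ι : Type*} (s : Finset ι)
    (f : ι → ℤ) : ∏ i ∈ s, a ^ f i = a ^ ∑ i ∈ s, f i := by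
  classical
  induction s using Finset.induction_on with
  | empty => simp
  | insert i s hi ih => rw [Finset.prod_insert hi, Finset.sum_insert hi, ih, zpow_add₀ ha]

theorem partC {n : ℕ} (hn : 0 < n) (N : Ix n → ℕ) (hN : ∀ i, 0 < N i)
    (hdvd : ∀ i, N i ∣ ∑ i, N i) (hlt : ∀ i, 2 * N i ≤ ∑ i, N i)
    (hpiv : ∀ i, N i ≤ N (some none)) (Q : ℕ) (hQ : 0 < Q) (h : Ix n → ℤ)
    (h1 : ∀ i, (Q : ℤ) ∣ (((∑ i, N i) / N i : ℕ) : ℤ) * h i) (h2 : (Q : ℤ) ∣ ∑ i, h i - 1)
    (L : AddSubgroup (Ix n → ℤ)) (hdeg : ∀ ρ ∈ L, ∑ i, ρ i * N i = 0)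
    (hL : ∀ ρ ∈ L, (Q : ℤ) ∣ ∑ i, ρ i * h i) (hcan : Canonical N (L : Set (Ix n → ℤ))) :
    ∃ (K : Type) (_ : Field K) (_ : Algebra ℂ K) (y : Ix n → K),
      Algebra.EssFiniteType ℂ K ∧ Algebra.trdeg ℂ K = n ∧
      y none = 1 ∧ ∑ i, y i = 0 ∧ AlgebraicIndependent ℂ (fun b : Fin n => y (some (some b))) ∧
      (∀ ρ ∈ L, ∃ w : K, w ^ (∑ i, N i) = ∏ i, y i ^ (ρ i * N i)) ∧
      (∀ (m : ℕ) (T : TensorForm K m), IsRegular T → T ≠ 0 → n * Q ∣ m) ∧
      ∀ m : ℕ, n * Q ∣ m → ∃ T : TensorForm K m, IsRegular T ∧ T ≠ 0 := by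
  classical
  set A : ℕ := ∑ i, N i with hA
  have hA0 : 0 < A := lt_of_lt_of_le (hN none) (Finset.single_le_sum (fun _ _ => Nat.zero_le _)
    (Finset.mem_univ (none : Ix n)))
  have haN : ∀ i, (A / N i) * N i = A := fun i => Nat.div_mul_cancel (hdvd i)
  have haq : ∀ i, (1 : ℚ) / ((A / N i : ℕ) : ℚ) = N i / A := by
    intro i
    have h3 : ((A / N i : ℕ) : ℚ) * N i = A := by exact_mod_cast haN i
    have h4 : (N i : ℚ) ≠ 0 := by exact_mod_cast (hN i).ne'
    have h5 : (A : ℚ) ≠ 0 := by exact_mod_cast hA0.ne'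
    have h6 : ((A / N i : ℕ) : ℚ) ≠ 0 := by
      intro h0; rw [h0, zero_mul] at h3; exact h5 h3.symm
    rw [div_eq_div_iff h6 h5, one_mul, mul_comm, h3]
  let B : BP (Ix n) :=
    { a := fun i => A / N i
      two_le := fun i => by
        rw [Nat.le_div_iff_mul_le (hN i)]; exact hlt i
      sum_inv := by
        simp only [haq]
        rw [← Finset.sum_div, ← Nat.cast_sum, div_self]
        exact_mod_cast hA0.ne'
      N := Q
      N_pos := hQ
      h := h
      dvd := h1
      sum_h := h2 }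
  obtain ⟨F, iF, iAC, iAP, iT, ⟨D⟩⟩ := kum_exists (κ := Option (Fin n)) B.a
    (fun j => lt_of_lt_of_le two_pos (B.two_le j))
  have hAdm : ∀ ρ ∈ L, B.Adm ρ := by
    intro ρ hρ
    refine ⟨?_, hL ρ hρ⟩
    have h3 : ∀ i, (ρ i : ℚ) / (B.a i : ℕ) = ρ i * N i / A := by
      intro i
      have := haq i
      change (ρ i : ℚ) / ((A / N i : ℕ) : ℚ) = _
      rw [div_eq_mul_one_div, this]; ring
    simp only [h3]
    rw [← Finset.sum_div]
    have h4 : ∑ i, (ρ i : ℚ) * N i = 0 := by exact_mod_cast hdeg ρ hρ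
    rw [h4, zero_div]
  have hu0 : ∀ j, (pu j : P (Option (Fin n))) ≠ 0 := fun j => pu_ne_zero j
  obtain ⟨Fr, hFr⟩ := exists_frame B D (none : Option (Fin n))
  have hKfg := K_fg B D
  have hzc : ∀ j, ((zK B D j : B.K D) : F) = algebraMap (P (Option (Fin n))) F (pu j / pu none) :=
    fun j => rfl
  have hCZ : B.CanZ := by
    intro c hc0 hc1 hc2
    have h3 := hcan c hc0 hc1 (fun ρ hρ => by
      obtain ⟨z, hz⟩ := hc2 ρ (hAdm ρ hρ)
      refine ⟨z, ?_⟩
      have h5 : (A : ℚ) ≠ 0 := by exact_mod_cast hA0.ne'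
      have h4 : ∀ j, (ρ j : ℚ) * c j / (B.a j : ℕ) = ρ j * N j * c j / A := by
        intro j
        have := haq j
        change (ρ j : ℚ) * c j / ((A / N j : ℕ) : ℚ) = _
        rw [div_eq_mul_one_div, this]; ring
      simp only [h4] at hz
      rw [← Finset.sum_div, div_eq_iff h5] at hz
      have h6 : ((∑ i, ρ i * (N i : ℤ) * (c i : ℤ) : ℤ) : ℚ) = ((A : ℤ) * z : ℤ) := by
        push_cast
        rw [hz]; ring
      exact_mod_cast h6)
    have h5 : (0 : ℚ) < A := by exact_mod_cast hA0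
    have h4 : ∀ j, (c j : ℚ) / (B.a j : ℕ) = N j * c j / A := by
      intro j
      have := haq j
      change (c j : ℚ) / ((A / N j : ℕ) : ℚ) = _
      rw [div_eq_mul_one_div, this]; ring
    simp only [h4]
    rw [← Finset.sum_div, le_div_iff₀ h5, one_mul]
    exact_mod_cast h3
  refine ⟨B.K D, inferInstance, inferInstance, zK B D, ?_, ?_, ?_, ?_, ?_, ?_, ?_, ?_⟩
  · exact IntermediateField.fg_top_iff.1 hKfg
  · have h5 := K_trdeg B D (none : Option (Fin n))
    rw [h5]
    simp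
  · apply Subtype.ext
    rw [hzc, div_self (hu0 none), map_one]
    rfl
  · apply Subtype.ext
    have h6 : ((∑ i, zK B D i : B.K D) : F) = ∑ i, ((zK B D i : B.K D) : F) := by
      push_cast; rfl
    rw [h6]
    simp only [hzc]
    rw [← map_sum, ← Finset.sum_div]
    have h7 : ∑ i : Ix n, (pu i : P (Option (Fin n))) = 0 := by
      rw [Fintype.sum_option, pu_none_eq]; simp
    rw [h7, zero_div, map_zero]
    rfl
  · have h8 := zK_indep B D (none : Option (Fin n))
    let f : Fin n → {k : Option (Fin n) // k ≠ none} := fun b => ⟨some b, by simp⟩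
    have hf : Function.Injective f := by
      intro a b hab
      have := congrArg Subtype.val hab
      simpa [f] using this
    exact h8.comp f hf
  · intro ρ hρ
    refine ⟨⟨_, mon_mem B D ρ (hAdm ρ hρ)⟩, ?_⟩
    apply Subtype.ext
    have h9 : ((∏ i, zK B D i ^ (ρ i * N i) : B.K D) : F) =
        ∏ i, ((zK B D i : B.K D) : F) ^ (ρ i * N i) := by
      push_cast; rfl
    rw [h9]
    change (∏ j, D.x j ^ ρ j) ^ A = _
    simp only [hzc]
    have hx : ∀ i, D.x i ^ A = algebraMap (P (Option (Fin n))) F (pu i) ^ N i := by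
      intro i
      have := D.pow i
      rw [← haN i, pow_mul]
      rw [show (A / N i) = B.a i from rfl, this]
    have h10 : (∏ j, D.x j ^ ρ j) ^ A =
        ∏ i, (algebraMap (P (Option (Fin n))) F (pu i)) ^ (ρ i * N i) := by
      rw [← Finset.prod_pow]
      refine Finset.prod_congr rfl fun i _ => ?_
      rw [← zpow_natCast, ← zpow_mul, mul_comm, zpow_mul, zpow_natCast, hx, ← zpow_natCast,
        ← zpow_mul, mul_comm]
    rw [h10]
    have h11 : ∀ i, algebraMap (P (Option (Fin n))) F (pu i / pu none) ^ (ρ i * N i) =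
        algebraMap (P (Option (Fin n))) F (pu i) ^ (ρ i * N i) *
        (algebraMap (P (Option (Fin n))) F (pu none))⁻¹ ^ (ρ i * N i) := by
      intro i
      rw [map_div₀, div_eq_mul_inv, mul_zpow]
    simp only [h11]
    rw [Finset.prod_mul_distrib]
    have h12 : ∏ i, ((algebraMap (P (Option (Fin n))) F (pu none))⁻¹) ^ (ρ i * (N i : ℤ)) = 1 := by
      have h13 : (algebraMap (P (Option (Fin n))) F (pu none))⁻¹ ≠ 0 := by
        rw [Ne, inv_eq_zero, map_eq_zero]
        exact hu0 none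
      rw [prod_zpow_const' h13, hdeg ρ hρ, zpow_zero]
    rw [h12, mul_one]
  · intro m T hT hne
    have h14 := vanish B (by simp; omega) D none (fun j => by
      change A / N (some none) ≤ A / N j
      exact Nat.div_le_div_left (hpiv j) (hN j)) Fr (fun i => by rw [hFr]; rfl) T hT hne
    simpa using h14
  · intro m hm
    exact exists_theta B hCZ D none (by simp; omega) m (by simpa using hm)

end Pool.Agent.Work.MP_4329d7_ag.R
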