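import Pool.Agent.Work.MP_4329d7_ag.Defs

/-!
Tensor powers of tensor differentials.
-/

open MvPolynomial

namespace Pool.Agent.Work.MP_4329d7_ag

variable {σ : Type} [Fintype σ]

/-- the tensor power. -/
def tpow (q m : ℕ) (T : (σ → ℂ) → (Fin m → σ → ℂ) → ℂ) :
    (σ → ℂ) → (Fin (q * m) → σ → ℂ) → ℂ :=
  fun x v => ∏ b : Fin q, T x (fun j => v (finProdFinEquiv (b, j)))

lemma tpow_isTensorDifferential {I : Ideal (MvPolynomial σ ℂ)} {m : ℕ} (q : ℕ) (hq : 0 < q)
    {T : (σ → ℂ) → (Fin m → σ → ℂ) → ℂ} (hT : IsTensorDifferential I m T) :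
    IsTensorDifferential I (q * m) (tpow q m T) where
  regular := by
    classical
    intro a
    obtain ⟨N, P, hP⟩ := hT.regular a
    refine ⟨N * q, fun w => ∏ b : Fin q, P (fun j => w (finProdFinEquiv (b, j))), ?_⟩
    intro x hx hxa v hv
    have h1 : x a ^ (N * q) * tpow q m T x v =
        ∏ b : Fin q, (x a ^ N * T x (fun j => v (finProdFinEquiv (b, j)))) := by
      rw [Finset.prod_mul_distrib, Finset.prod_const, Finset.card_univ, Fintype.card_fin, pow_mul]
      rfl
    rw [h1]
    have h2 : ∀ b : Fin q, x a ^ N * T x (fun j => v (finProdFinEquiv (b, j))) =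
        ∑ w : Fin m → σ, eval x (P w) * ∏ j, v (finProdFinEquiv (b, j)) (w j) :=
      fun b => hP x hx hxa _ (fun j => hv _)
    rw [Finset.prod_congr rfl (fun b _ => h2 b), Finset.prod_univ_sum, Fintype.piFinset_univ]
    let E : (Fin (q * m) → σ) ≃ (Fin q → Fin m → σ) :=
      (Equiv.arrowCongr finProdFinEquiv.symm (Equiv.refl σ)).trans (Equiv.curry _ _ _)
    rw [← E.sum_comp]
    refine Finset.sum_congr rfl (fun w _ => ?_)
    have hE : ∀ b j, E w b j = w (finProdFinEquiv (b, j)) := fun b j => rfl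
    rw [Finset.prod_mul_distrib, map_prod]
    congr 1
    rw [← finProdFinEquiv.prod_comp, Fintype.prod_prod_type]
    simp only [hE]
  scaling := by
    intro x hx hx0 v hv c hc
    unfold tpow
    exact Finset.prod_congr rfl (fun b _ => hT.scaling x hx hx0 _ (fun j => hv _) c hc)
  radial := by
    intro x hx hx0 v hv hj
    obtain ⟨j, hj⟩ := hj
    obtain ⟨⟨b, i⟩, rfl⟩ := finProdFinEquiv.surjective j
    unfold tpow
    exact Finset.prod_eq_zero (Finset.mem_univ b)
      (hT.radial x hx hx0 _ (fun j => hv _) ⟨i, hj⟩)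

lemma noTensorDifferentials_of_mul {I : Ideal (MvPolynomial σ ℂ)} {q m : ℕ} (hq : 0 < q)
    (h : NoTensorDifferentials I (q * m)) : NoTensorDifferentials I m := by
  intro T hT x hx hx0 v hv
  have h1 := h _ (tpow_isTensorDifferential q hq hT) x hx hx0
    (fun l => v (finProdFinEquiv.symm l).2) (fun l => hv _)
  unfold tpow at h1
  simp only [Equiv.symm_apply_apply] at h1
  rw [Finset.prod_const] at h1
  exact pow_eq_zero_iff (by rw [Finset.card_univ, Fintype.card_fin]; exact hq.ne') |>.1 h1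

theorem suffices_iff (D : ℕ) (M : Set ℕ) (hM : ∀ m ∈ M, 0 < m)
    (h : ∀ n, 1 ≤ n → ∃ m ∈ M, n ∣ m) : Suffices D M ↔ Suffices D {m | 0 < m} := by
  constructor
  · intro hS σ _ I hI hv
    exact hS σ I hI (fun m hm => hv m (hM m hm))
  · intro hS σ _ I hI hv
    refine hS σ I hI (fun m hm => ?_)
    obtain ⟨m', hm', q, hq⟩ := h m hm
    have hq0 : 0 < q := by
      rcases Nat.eq_zero_or_pos q with rfl | h0
      · rw [mul_zero] at hq
        exact absurd (hM m' hm') (by omega)
      · exact h0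
    apply noTensorDifferentials_of_mul hq0
    have := hv m' hm'
    rwa [hq, mul_comm] at this

end Pool.Agent.Work.MP_4329d7_ag
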