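import Mathlib

/-!
Local computation: order of the determinant attached to a point of the hyperplane
`∑ Y = 0` and derivations preserving a discrete valuation ring.
-/

namespace Pool.Agent.Work.MP_4329d7_ag.R

open WithZero

set_option linter.unusedSectionVars false

variable {F : Type} [Field F] [Algebra ℂ F] {n : ℕ}

/-- index set of the coordinates. -/
abbrev Ix (n : ℕ) : Type := Option (Option (Fin n))

/-- the square matrix with rows: unit vector at `f`, the point `Y`, the derivatives of `Y`. -/
def Mat (D : Fin n → Derivation ℂ F F) (f : Ix n) (Y : Ix n → F) : Matrix (Ix n) (Ix n) F :=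
  fun r i => match r with
    | none => if i = f then 1 else 0
    | some none => Y i
    | some (some a) => D a (Y i)

lemma Mat_none (D : Fin n → Derivation ℂ F F) (f : Ix n) (Y : Ix n → F) (i : Ix n) :
    Mat D f Y none i = if i = f then 1 else 0 := rfl

lemma Mat_some_none (D : Fin n → Derivation ℂ F F) (f : Ix n) (Y : Ix n → F) (i : Ix n) :
    Mat D f Y (some none) i = Y i := rfl

lemma Mat_some_some (D : Fin n → Derivation ℂ F F) (f : Ix n) (Y : Ix n → F) (a : Fin n)
    (i : Ix n) : Mat D f Y (some (some a)) i = D a (Y i) := rfl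

/-- the determinant does not depend on `f`. -/
theorem det_indep (D : Fin n → Derivation ℂ F F) (f g : Ix n) (Y : Ix n → F)
    (hY : ∑ i, Y i = 0) : (Mat D f Y).det = (Mat D g Y).det := by
  classical
  have h1 : Mat D f Y = (Mat D g Y).updateRow none (fun i => if i = f then 1 else 0) := by
    ext r i
    rcases r with _ | r
    · rw [Matrix.updateRow_self]; rfl
    · rw [Matrix.updateRow_ne (Option.some_ne_none r)]
      rcases r with _ | r <;> rfl
  have h2 : (fun i : Ix n => if i = f then (1 : F) else 0) =
      (fun i => if i = g then (1 : F) else 0) +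
        (fun i => (if i = f then (1 : F) else 0) - if i = g then (1 : F) else 0) := by
    funext i; simp
  have h3 : (Mat D g Y).updateRow none (fun i => if i = g then (1 : F) else 0) = Mat D g Y := by
    ext r i
    rcases r with _ | r
    · rw [Matrix.updateRow_self]; rfl
    · rw [Matrix.updateRow_ne (Option.some_ne_none r)]
  rw [h1, h2, Matrix.det_updateRow_add, h3]
  have h4 : ((Mat D g Y).updateRow none
      (fun i => (if i = f then (1 : F) else 0) - if i = g then (1 : F) else 0)).det = 0 := by
    rw [← Matrix.exists_mulVec_eq_zero_iff]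
    refine ⟨fun _ => 1, ?_, ?_⟩
    · intro h
      exact one_ne_zero (congrFun h none)
    · funext r
      simp only [Matrix.mulVec, dotProduct, mul_one, Pi.zero_apply]
      rcases r with _ | r
      · simp only [Matrix.updateRow_self, Finset.sum_sub_distrib, Finset.sum_ite_eq',
          Finset.mem_univ, if_true, sub_self]
      · simp only [Matrix.updateRow_ne (Option.some_ne_none r)]
        rcases r with _ | a
        · exact hY
        · change ∑ i, D a (Y i) = 0
          rw [← map_sum, hY, map_zero]
  rw [h4, add_zero]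

/-- scaling of the point. -/
theorem det_smul (D : Fin n → Derivation ℂ F F) (f : Ix n) (Y : Ix n → F) {g : F} (hg : g ≠ 0) :
    (Mat D f (fun i => g * Y i)).det = g ^ (n + 1) * (Mat D f Y).det := by
  classical
  set s : Ix n → F := fun r => if r = none then 1 else g with hs
  have h1 : (Mat D f (fun i => g * Y i)).det =
      (Matrix.of fun r i => s r * Mat D f Y r i).det := by
    refine Matrix.det_eq_of_forall_row_eq_smul_add_const
      (fun r => match r with
        | none => 0
        | some none => 0
        | some (some a) => D a g / g) (some none) rfl ?_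
    intro r i
    rcases r with _ | _ | a
    · simp [Matrix.of_apply, hs, Mat_none]
    · simp [Matrix.of_apply, hs, Mat_some_none]
    · simp only [Matrix.of_apply, hs, Mat_some_some, Mat_some_none, Derivation.leibniz,
        smul_eq_mul]
      have : (some (some a) : Ix n) ≠ none := Option.some_ne_none _
      rw [if_neg this, if_neg (Option.some_ne_none _)]
      field_simp
  rw [h1, Matrix.det_mul_column]
  congr 1
  rw [Fintype.prod_option]
  have h0 : s none = 1 := by simp [hs]
  have h2 : ∀ i : Option (Fin n), s (some i) = g := fun i => by simp [hs]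
  rw [h0, one_mul, Finset.prod_congr rfl (fun i _ => h2 i), Finset.prod_const, Finset.card_univ,
    Fintype.card_option, Fintype.card_fin]

/-- a general bound for determinants. -/
theorem det_bound {ι : Type} [Fintype ι] [DecidableEq ι] (v : Valuation F ℤᵐ⁰)
    (A : Matrix ι ι F) (δ κ : ι → ℤ) (h : ∀ r i, v (A r i) ≤ exp (δ r - κ i)) :
    v A.det ≤ exp (∑ r, δ r - ∑ i, κ i) := by
  rw [Matrix.det_apply]
  refine Valuation.map_sum_le v (fun σ _ => ?_)
  have h1 : v ((Equiv.Perm.sign σ : ℤˣ) • ∏ i, A (σ i) i) = v (∏ i, A (σ i) i) := by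
    rcases Int.units_eq_one_or (Equiv.Perm.sign σ) with h | h
    · rw [h, one_smul]
    · rw [h, Units.neg_smul, one_smul, Valuation.map_neg]
  rw [h1, map_prod]
  calc ∏ i, v (A (σ i) i) ≤ ∏ i, exp (δ (σ i) - κ i) :=
        Finset.prod_le_prod' (fun i _ => h (σ i) i)
    _ = exp (∑ i, (δ (σ i) - κ i)) := by
        classical
        have : ∀ s : Finset ι, ∏ i ∈ s, exp (δ (σ i) - κ i) = exp (∑ i ∈ s, (δ (σ i) - κ i)) := by
          intro s
          induction s using Finset.induction_on with
          | empty => simp
          | insert a s ha ih => rw [Finset.prod_insert ha, Finset.sum_insert ha, ih, exp_add]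
        exact this Finset.univ
    _ = exp (∑ r, δ r - ∑ i, κ i) := by
        rw [Finset.sum_sub_distrib, Equiv.sum_comp σ δ]

/-- the derivative of `ϖ ^ k * u`. -/
lemma deriv_pow_mul (d : Derivation ℂ F F) {ϖ : F} (hϖ : ϖ ≠ 0) (k : ℕ) (u : F) :
    d (ϖ ^ k * u) = ϖ ^ k * d u + (k : F) * (ϖ ^ k / ϖ) * u * d ϖ := by
  rw [Derivation.leibniz, Derivation.leibniz_pow, smul_eq_mul, smul_eq_mul]
  rcases Nat.eq_zero_or_pos k with hk | hk
  · subst hk; simp
  · obtain ⟨k, rfl⟩ : ∃ j, k = j + 1 := ⟨k - 1, by omega⟩
    rw [Nat.add_sub_cancel, pow_succ]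
    simp only [nsmul_eq_mul, smul_eq_mul]
    field_simp

/-- The main local bound. -/
theorem det_local (v : Valuation F ℤᵐ⁰) {ϖ : F} (hϖ : v ϖ = exp (-1))
    (D : Fin n → Derivation ℂ F F) (hD : ∀ a f, v f ≤ 1 → v (D a f) ≤ 1)
    (f : Ix n) (κ : Ix n → ℕ) (u : Ix n → F) (hu : ∀ i, v (u i) ≤ 1) (hf : κ f = 0) :
    v (Mat D f (fun i => ϖ ^ κ i * u i)).det ≤ exp (1 - ∑ i, (κ i : ℤ)) := by
  classical
  have hϖ0 : ϖ ≠ 0 := by
    rintro rfl
    rw [map_zero] at hϖ
    exact exp_ne_zero hϖ.symm
  have hpow : ∀ k : ℕ, v (ϖ ^ k) = exp (-(k : ℤ)) := by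
    intro k
    rw [map_pow, hϖ, ← exp_nsmul]
    simp
  have hnat : ∀ k : ℕ, v (k : F) ≤ 1 := fun k => by
    induction k with
    | zero => simp
    | succ k ih =>
      rw [Nat.cast_succ]
      exact (v.map_add _ _).trans (max_le ih (by simp))
  have hdϖ : ∀ a, v (D a ϖ) ≤ 1 := fun a => hD a _ (by
    rw [hϖ, ← exp_zero]; exact exp_le_exp.2 (by norm_num))
  set Y : Ix n → F := fun i => ϖ ^ κ i * u i with hY
  -- basic bounds
  have hYb : ∀ i, v (Y i) ≤ exp (-(κ i : ℤ)) := by
    intro i
    rw [hY, map_mul, hpow]
    exact (mul_le_of_le_one_right' (hu i))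
  have hnone : ∀ i, v (Mat D f Y none i) ≤ exp (-(κ i : ℤ)) := by
    intro i
    rw [Mat_none]
    split_ifs with h
    · rw [h, hf, map_one]; simp
    · rw [map_zero]; exact zero_le
  -- derivative of an entry
  have hder : ∀ (d : Derivation ℂ F F), (∀ f, v f ≤ 1 → v (d f) ≤ 1) → ∀ i,
      v (d (Y i) - (κ i : F) * (ϖ ^ κ i / ϖ) * u i * d ϖ) ≤ exp (-(κ i : ℤ)) := by
    intro d hd i
    have : d (Y i) - (κ i : F) * (ϖ ^ κ i / ϖ) * u i * d ϖ = ϖ ^ κ i * d (u i) := by
      rw [hY]
      simp only
      rw [deriv_pow_mul d hϖ0]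
      ring
    rw [this, map_mul, hpow]
    exact mul_le_of_le_one_right' (hd _ (hu i))
  have hterm : ∀ i, v ((κ i : F) * (ϖ ^ κ i / ϖ) * u i) ≤ exp (1 - (κ i : ℤ)) := by
    intro i
    rw [map_mul, map_mul, map_div₀, hpow, hϖ]
    have h1 : exp (-(κ i : ℤ)) / exp (-1) = exp (1 - (κ i : ℤ)) := by
      rw [← exp_sub]; congr 1; ring
    rw [h1]
    calc v (κ i : F) * exp (1 - (κ i : ℤ)) * v (u i) ≤ 1 * exp (1 - (κ i : ℤ)) * 1 := by
          gcongr
          · exact hnat _
          · exact hu i
      _ = exp (1 - (κ i : ℤ)) := by rw [one_mul, mul_one]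
  by_cases hc : ∃ a, v (D a ϖ) = 1
  · obtain ⟨a₀, ha₀⟩ := hc
    have hne : D a₀ ϖ ≠ 0 := by
      intro h; rw [h, map_zero] at ha₀; exact zero_ne_one ha₀
    -- row operation
    set c : Fin n → F := fun a => if a = a₀ then 0 else D a ϖ / D a₀ ϖ with hcdef
    have hcb : ∀ a, v (c a) ≤ 1 := by
      intro a
      simp only [hcdef]
      split_ifs
      · simp
      · rw [map_div₀, ha₀, div_one]; exact hdϖ a
    set B : Matrix (Ix n) (Ix n) F := fun r i => match r with
      | none => Mat D f Y none i
      | some none => Mat D f Y (some none) i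
      | some (some a) => D a (Y i) - c a * D a₀ (Y i) with hB
    have hdet : (Mat D f Y).det = B.det := by
      refine Matrix.det_eq_of_forall_row_eq_smul_add_const
        (fun r => match r with
          | none => 0
          | some none => 0
          | some (some a) => c a) (some (some a₀)) (by simp [hcdef]) ?_
      intro r i
      rcases r with _ | _ | a
      · simp [hB]
      · simp [hB]
      · have h0 : c a₀ = 0 := by simp [hcdef]
        simp only [hB, Mat_some_some, h0, zero_mul, sub_zero]
        ring
    rw [hdet]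
    have hbound := det_bound v B
      (fun r => if r = some (some a₀) then 1 else 0) (fun i => (κ i : ℤ)) (by
        intro r i
        rcases r with _ | _ | a
        · simpa [hB] using hnone i
        · simpa [hB, Mat_some_none] using hYb i
        · by_cases ha : a = a₀
          · subst ha
            have h0 : c a = 0 := by simp [hcdef]
            simp only [hB, h0, zero_mul, sub_zero, if_true]
            have h1 : D a (Y i) = (D a (Y i) - (κ i : F) * (ϖ ^ κ i / ϖ) * u i * D a ϖ) +
                (κ i : F) * (ϖ ^ κ i / ϖ) * u i * D a ϖ := by ring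
            rw [h1]
            refine (v.map_add _ _).trans (max_le ?_ ?_)
            · exact (hder (D a) (hD a) i).trans (exp_le_exp.2 (by omega))
            · rw [map_mul]
              calc v ((κ i : F) * (ϖ ^ κ i / ϖ) * u i) * v (D a ϖ)
                  ≤ exp (1 - (κ i : ℤ)) * 1 := by
                    gcongr
                    · exact hterm i
                    · exact hdϖ a
                _ = exp (1 - (κ i : ℤ)) := mul_one _
          · have hr : (some (some a) : Ix n) ≠ some (some a₀) := by
              intro h; apply ha; simpa using h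
            rw [if_neg hr]
            simp only [hB]
            have hca : c a = D a ϖ / D a₀ ϖ := by simp [hcdef, ha]
            have h1 : D a (Y i) - c a * D a₀ (Y i) =
                (D a (Y i) - (κ i : F) * (ϖ ^ κ i / ϖ) * u i * D a ϖ) -
                c a * (D a₀ (Y i) - (κ i : F) * (ϖ ^ κ i / ϖ) * u i * D a₀ ϖ) := by
              rw [hca]; field_simp; ring
            rw [h1]
            refine (v.map_sub _ _).trans (max_le ?_ ?_)
            · simpa using hder (D a) (hD a) i
            · rw [map_mul]
              calc v (c a) * v (D a₀ (Y i) - (κ i : F) * (ϖ ^ κ i / ϖ) * u i * D a₀ ϖ)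
                  ≤ 1 * exp (-(κ i : ℤ)) := by
                    gcongr
                    · exact hcb a
                    · exact hder (D a₀) (hD a₀) i
                _ = exp (0 - (κ i : ℤ)) := by rw [one_mul, zero_sub])
    simpa using hbound
  · push Not at hc
    have hlt : ∀ a, v (D a ϖ) ≤ exp (-1) := by
      intro a
      have h1 : v (D a ϖ) < 1 := lt_of_le_of_ne (hdϖ a) (hc a)
      by_cases h0 : v (D a ϖ) = 0
      · rw [h0]; exact zero_le
      · rw [← exp_log h0] at h1 ⊢
        rw [← exp_zero] at h1
        have := exp_lt_exp.1 h1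
        exact exp_le_exp.2 (by omega)
    have hbound := det_bound v (Mat D f Y) (fun _ => 0) (fun i => (κ i : ℤ)) (by
      intro r i
      rw [zero_sub]
      rcases r with _ | _ | a
      · exact hnone i
      · exact hYb i
      · rw [Mat_some_some]
        have h1 : D a (Y i) = (D a (Y i) - (κ i : F) * (ϖ ^ κ i / ϖ) * u i * D a ϖ) +
            (κ i : F) * (ϖ ^ κ i / ϖ) * u i * D a ϖ := by ring
        rw [h1]
        refine (v.map_add _ _).trans (max_le ?_ ?_)
        · exact hder (D a) (hD a) i
        · rw [map_mul]
          calc v ((κ i : F) * (ϖ ^ κ i / ϖ) * u i) * v (D a ϖ)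
              ≤ exp (1 - (κ i : ℤ)) * exp (-1) := by
                gcongr
                · exact hterm i
                · exact hlt a
            _ = exp (-(κ i : ℤ)) := by rw [← exp_add]; congr 1; ring)
    rw [Finset.sum_const_zero] at hbound
    refine hbound.trans (exp_le_exp.2 ?_)
    omega

/-- the trivial local bound. -/
theorem det_local_zero (v : Valuation F ℤᵐ⁰)
    (D : Fin n → Derivation ℂ F F) (hD : ∀ a f, v f ≤ 1 → v (D a f) ≤ 1)
    (f : Ix n) (Y : Ix n → F) (hY : ∀ i, v (Y i) ≤ 1) :
    v (Mat D f Y).det ≤ 1 := by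
  have h := det_bound v (Mat D f Y) (fun _ => 0) (fun _ => 0) (by
    intro r i
    simp only [sub_zero, exp_zero]
    rcases r with _ | _ | a
    · rw [Mat_none]
      split_ifs
      · simp
      · simp
    · exact hY i
    · exact hD a _ (hY i))
  simpa using h

end Pool.Agent.Work.MP_4329d7_ag.R
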