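import Pool.Agent.Work.MP_4329d7_ag.Vanish

/-!
The Segre embedding of the product of the Fermat hypersurface of degree `n + 2` in `ℙ^{n+1}`
with `ℙ^k`.
-/

open MvPolynomial

namespace Pool.Agent.Work.MP_4329d7_ag

section dual

variable {σ : Type} [Fintype σ]

/-- evaluation at a point of the dual numbers. -/
noncomputable def dEv (x v : σ → ℂ) : MvPolynomial σ ℂ →ₐ[ℂ] DualNumber ℂ :=
  aeval (fun i => (TrivSqZeroExt.inl (x i) + TrivSqZeroExt.inr (v i) : DualNumber ℂ))

lemma fst_dEv (x v : σ → ℂ) (p : MvPolynomial σ ℂ) : (dEv x v p).fst = eval x p := by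
  unfold dEv
  induction p using MvPolynomial.induction_on with
  | C a => rw [aeval_C, eval_C]; rfl
  | add p q hp hq => rw [map_add, TrivSqZeroExt.fst_add, hp, hq, map_add]
  | mul_X p i hp =>
    rw [map_mul, TrivSqZeroExt.fst_mul, hp, aeval_X, map_mul, eval_X]
    simp

lemma snd_dEv (x v : σ → ℂ) (p : MvPolynomial σ ℂ) :
    (dEv x v p).snd = ∑ i, eval x (pderiv i p) * v i := by
  classical
  induction p using MvPolynomial.induction_on with
  | C a =>
    unfold dEv
    rw [aeval_C]
    simp only [pderiv_C, map_zero, zero_mul, Finset.sum_const_zero]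
    rfl
  | add p q hp hq =>
    rw [map_add, TrivSqZeroExt.snd_add, hp, hq, ← Finset.sum_add_distrib]
    exact Finset.sum_congr rfl (fun i _ => by rw [map_add, map_add]; ring)
  | mul_X p i hp =>
    rw [map_mul, TrivSqZeroExt.snd_mul, hp, fst_dEv]
    have h1 : dEv x v (X i) = TrivSqZeroExt.inl (x i) + TrivSqZeroExt.inr (v i) := by
      unfold dEv; rw [aeval_X]
    have h2 : ∀ l, eval x (pderiv l (p * X i)) * v l =
        eval x p * (if l = i then v l else 0) + x i * (eval x (pderiv l p) * v l) := by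
      intro l
      rw [Derivation.leibniz, smul_eq_mul, smul_eq_mul, map_add, map_mul, map_mul, eval_X]
      by_cases hl : l = i
      · subst hl
        rw [pderiv_X_self, map_one, if_pos rfl]
        ring
      · rw [pderiv_X_of_ne (Ne.symm hl), map_zero, if_neg hl]
        ring
    rw [Finset.sum_congr rfl (fun l _ => h2 l), Finset.sum_add_distrib, ← Finset.mul_sum,
      ← Finset.mul_sum, Finset.sum_ite_eq' Finset.univ i]
    rw [h1]
    simp
    ring

lemma mem_tangent_iff {I : Ideal (MvPolynomial σ ℂ)} {x v : σ → ℂ} :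
    v ∈ Tangent I x ↔ ∀ p ∈ I, (dEv x v p).snd = 0 := by
  constructor
  · intro h p hp
    rw [snd_dEv]; exact h p hp
  · intro h p hp
    rw [← snd_dEv]; exact h p hp

end dual

variable (n k : ℕ)

/-- homogeneous coordinate ring of the Fermat hypersurface. -/
abbrev FA : Type := MvPolynomial (Fin (n + 2)) ℂ ⧸ FI n

/-- index type of the Segre coordinates. -/
abbrev SIdx : Type := Fin (n + 2) × Fin (k + 1)

/-- the Segre homomorphism. -/
noncomputable def segre : MvPolynomial (SIdx n k) ℂ →ₐ[ℂ] MvPolynomial (Fin (k + 1)) (FA n) :=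
  aeval (fun ij => C (Ideal.Quotient.mk (FI n) (X ij.1)) * X ij.2)

/-- the ideal of the product in the Segre embedding. -/
noncomputable def SI : Ideal (MvPolynomial (SIdx n k) ℂ) := RingHom.ker (segre n k)

variable {n k}

lemma prime_SI (hn : 1 ≤ n) : (SI n k).IsPrime := by
  have := prime_FI hn
  have : IsDomain (FA n) := Ideal.Quotient.isDomain (FI n)
  exact RingHom.ker_isPrime _

lemma segre_homogeneous {p : MvPolynomial (SIdx n k) ℂ} {N : ℕ} (hp : p.IsHomogeneous N) :
    (segre n k p).IsHomogeneous N := by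
  have h := hp.aeval (n := 1)
    (fun ij : SIdx n k => (C (Ideal.Quotient.mk (FI n) (X ij.1)) * X ij.2 :
      MvPolynomial (Fin (k + 1)) (FA n)))
    (fun ij => by
      have := (isHomogeneous_C (Fin (k + 1)) (Ideal.Quotient.mk (FI n) (X ij.1))).mul
        (isHomogeneous_X (FA n) ij.2)
      simpa using this)
  simpa [segre] using h

lemma homogeneous_SI (p : MvPolynomial (SIdx n k) ℂ) (hp : p ∈ SI n k) (N : ℕ) :
    homogeneousComponent N p ∈ SI n k := by
  have h0 : segre n k p = 0 := hp
  have h1 : segre n k p = ∑ i ∈ Finset.range (p.totalDegree + 1),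
      segre n k (homogeneousComponent i p) := by
    conv_lhs => rw [← sum_homogeneousComponent p]
    rw [map_sum]
  have h2 : ∀ i, homogeneousComponent N (segre n k (homogeneousComponent i p)) =
      if i = N then segre n k (homogeneousComponent i p) else 0 := by
    intro i
    have hmem : segre n k (homogeneousComponent i p) ∈ homogeneousSubmodule (Fin (k + 1)) (FA n) i :=
      (mem_homogeneousSubmodule _ _).2 (segre_homogeneous (homogeneousComponent_isHomogeneous i p))
    rw [homogeneousComponent_of_mem hmem]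
    by_cases h : i = N
    · subst h; simp
    · rw [if_neg h, if_neg (Ne.symm h)]
  have h3 := congrArg (homogeneousComponent N) h1
  rw [h0, map_zero, map_sum, Finset.sum_congr rfl (fun i _ => h2 i), Finset.sum_ite_eq'] at h3
  change segre n k (homogeneousComponent N p) = 0
  by_cases hN : N ∈ Finset.range (p.totalDegree + 1)
  · rw [if_pos hN] at h3
    exact h3.symm
  · rw [Finset.mem_range, not_lt] at hN
    rw [homogeneousComponent_eq_zero N p (by omega), map_zero]

/-- Segre point -/
def sp (x : Fin (n + 2) → ℂ) (y : Fin (k + 1) → ℂ) : SIdx n k → ℂ := fun ij => x ij.1 * y ij.2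

lemma minor_mem (i i' : Fin (n + 2)) (j j' : Fin (k + 1)) :
    (X (i, j) * X (i', j') - X (i, j') * X (i', j) : MvPolynomial (SIdx n k) ℂ) ∈ SI n k := by
  change segre n k _ = 0
  simp only [segre, map_sub, map_mul, aeval_X]
  ring

lemma column_mem (j : Fin (k + 1)) :
    (∑ i, X (i, j) ^ (n + 2) : MvPolynomial (SIdx n k) ℂ) ∈ SI n k := by
  change segre n k _ = 0
  simp only [segre, map_sum, map_pow, aeval_X, mul_pow]
  have : (Ideal.Quotient.mk (FI n)) (∑ i, X i ^ (n + 2)) = 0 := by
    rw [Ideal.Quotient.eq_zero_iff_mem]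
    exact Ideal.subset_span rfl
  rw [← Finset.sum_mul]
  have h2 : (∑ i, (C ((Ideal.Quotient.mk (FI n)) (X i)) : MvPolynomial (Fin (k + 1)) (FA n)) ^ (n + 2)) =
      C ((Ideal.Quotient.mk (FI n)) (∑ i, X i ^ (n + 2))) := by
    simp only [map_sum, map_pow]
  rw [h2, this, map_zero, zero_mul]

/-- evaluation of elements of the ideal at dual number valued Segre points. -/
lemma dEv_segre {x u : Fin (n + 2) → ℂ} (hx : x ∈ Cone (FI n)) (hu : u ∈ Tangent (FI n) x)
    (y w : Fin (k + 1) → ℂ) {p : MvPolynomial (SIdx n k) ℂ} (hp : p ∈ SI n k) :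
    dEv (sp x y) (fun ij => u ij.1 * y ij.2 + x ij.1 * w ij.2) p = 0 := by
  -- ring homomorphism on the coordinate ring
  have h0 : ∀ a ∈ FI n, (dEv x u).toRingHom a = 0 := by
    intro a ha
    apply TrivSqZeroExt.ext
    · change (dEv x u a).fst = 0
      rw [fst_dEv]; exact hx a ha
    · change (dEv x u a).snd = 0
      rw [snd_dEv]; exact hu a ha
  let ψ0 : FA n →+* DualNumber ℂ := Ideal.Quotient.lift (FI n) (dEv x u).toRingHom h0
  let ψ : MvPolynomial (Fin (k + 1)) (FA n) →+* DualNumber ℂ :=
    eval₂Hom ψ0 (fun j => (TrivSqZeroExt.inl (y j) + TrivSqZeroExt.inr (w j) : DualNumber ℂ))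
  have hcomp : ∀ q : MvPolynomial (SIdx n k) ℂ, ψ (segre n k q) =
      dEv (sp x y) (fun ij => u ij.1 * y ij.2 + x ij.1 * w ij.2) q := by
    intro q
    induction q using MvPolynomial.induction_on with
    | C a =>
      have e1 : segre n k (C a) = C (Ideal.Quotient.mk (FI n) (C a)) := by
        unfold segre; rw [aeval_C]; rfl
      rw [e1]
      change ψ (C _) = _
      simp only [ψ, eval₂Hom_C, ψ0, Ideal.Quotient.lift_mk]
      change dEv x u (C a) = _
      unfold dEv
      rw [aeval_C, aeval_C]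
    | add p q hp hq => rw [map_add, map_add, map_add, hp, hq]
    | mul_X p ij hp =>
      rw [map_mul, map_mul, map_mul, hp]
      congr 1
      have e1 : segre n k (X ij) = C (Ideal.Quotient.mk (FI n) (X ij.1)) * X ij.2 := by
        unfold segre; rw [aeval_X]
      rw [e1, map_mul]
      have e2 : ψ (C (Ideal.Quotient.mk (FI n) (X ij.1))) =
          TrivSqZeroExt.inl (x ij.1) + TrivSqZeroExt.inr (u ij.1) := by
        simp only [ψ, eval₂Hom_C, ψ0, Ideal.Quotient.lift_mk]
        change dEv x u (X ij.1) = _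
        unfold dEv; rw [aeval_X]
      have e3 : ψ (X ij.2) = TrivSqZeroExt.inl (y ij.2) + TrivSqZeroExt.inr (w ij.2) := by
        simp only [ψ, eval₂Hom_X']
      rw [e2, e3]
      unfold dEv
      rw [aeval_X]
      apply TrivSqZeroExt.ext
      · simp [sp]
      · simp [sp]
        ring
  rw [← hcomp]
  have : segre n k p = 0 := hp
  rw [this, map_zero]

lemma sp_mem_cone {x : Fin (n + 2) → ℂ} (hx : x ∈ Cone (FI n)) (y : Fin (k + 1) → ℂ) :
    sp x y ∈ Cone (SI n k) := by
  intro p hp
  have := dEv_segre hx (Submodule.zero_mem _) y 0 hp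
  have h2 := congrArg TrivSqZeroExt.fst this
  rw [fst_dEv] at h2
  exact h2

lemma sp_tangent {x u : Fin (n + 2) → ℂ} (hx : x ∈ Cone (FI n)) (hu : u ∈ Tangent (FI n) x)
    (y w : Fin (k + 1) → ℂ) :
    (fun ij : SIdx n k => u ij.1 * y ij.2 + x ij.1 * w ij.2) ∈ Tangent (SI n k) (sp x y) := by
  rw [mem_tangent_iff]
  intro p hp
  rw [dEv_segre hx hu y w hp]
  rfl

lemma cone_SI {z : SIdx n k → ℂ} (hz : z ∈ Cone (SI n k)) (hz0 : z ≠ 0) :
    ∃ x ∈ Cone (FI n), x ≠ 0 ∧ ∃ y : Fin (k + 1) → ℂ, y ≠ 0 ∧ z = sp x y := by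
  obtain ⟨⟨i0, j0⟩, h0⟩ : ∃ ij, z ij ≠ 0 := by
    by_contra h
    push Not at h
    exact hz0 (funext h)
  refine ⟨fun i => z (i, j0) / z (i0, j0), ?_, ?_, fun j => z (i0, j), ?_, ?_⟩
  · rw [mem_cone_FI]
    have := hz _ (column_mem j0)
    simp only [map_sum, map_pow, eval_X] at this
    simp only [div_pow]
    rw [← Finset.sum_div, this, zero_div]
  · intro h
    have := congrFun h i0
    simp only [Pi.zero_apply] at this
    rw [div_self h0] at this
    exact one_ne_zero this
  · intro h
    exact h0 (congrFun h j0)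
  · funext ij
    obtain ⟨i, j⟩ := ij
    have := hz _ (minor_mem i i0 j j0)
    simp only [map_sub, map_mul, eval_X] at this
    simp only [sp]
    field_simp
    linear_combination this

lemma tangent_SI {x : Fin (n + 2) → ℂ} (hx : x ∈ Cone (FI n)) (hx0 : x ≠ 0)
    {y : Fin (k + 1) → ℂ} (hy0 : y ≠ 0) {v : SIdx n k → ℂ}
    (hv : v ∈ Tangent (SI n k) (sp x y)) :
    ∃ u ∈ Tangent (FI n) x, ∃ w : Fin (k + 1) → ℂ,
      v = fun ij => u ij.1 * y ij.2 + x ij.1 * w ij.2 := by
  obtain ⟨i0, hi0⟩ : ∃ i, x i ≠ 0 := by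
    by_contra h
    push Not at h
    exact hx0 (funext h)
  obtain ⟨j0, hj0⟩ : ∃ j, y j ≠ 0 := by
    by_contra h
    push Not at h
    exact hy0 (funext h)
  rw [mem_tangent_iff] at hv
  have hX : ∀ ij, dEv (sp x y) v (X ij) =
      TrivSqZeroExt.inl (x ij.1 * y ij.2) + TrivSqZeroExt.inr (v ij) := by
    intro ij
    unfold dEv; rw [aeval_X]; rfl
  refine ⟨fun i => v (i, j0) / y j0, ?_,
    fun j => (v (i0, j) - y j * v (i0, j0) / y j0) / x i0, ?_⟩
  · rw [mem_tangent_FI hx]
    have h1 := hv _ (column_mem j0)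
    rw [snd_dEv] at h1
    have h2 : ∀ ij : SIdx n k, eval (sp x y) (pderiv ij
        (∑ i, X (i, j0) ^ (n + 2) : MvPolynomial (SIdx n k) ℂ)) * v ij =
        if ij.2 = j0 then ((n : ℂ) + 2) * ((x ij.1 * y j0) ^ (n + 1) * v (ij.1, j0)) else 0 := by
      classical
      intro ij
      obtain ⟨i, j⟩ := ij
      rw [map_sum, map_sum]
      by_cases hj : j = j0
      · subst hj
        rw [Finset.sum_eq_single i]
        · rw [Derivation.leibniz_pow, pderiv_X_self, smul_eq_mul, mul_one, nsmul_eq_mul]
          simp [sp]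
          ring
        · intro l _ hl
          rw [Derivation.leibniz_pow, pderiv_X_of_ne, smul_zero, smul_zero, map_zero]
          intro h
          exact hl (congrArg Prod.fst h)
        · intro h; exact absurd (Finset.mem_univ i) h
      · rw [if_neg hj, Finset.sum_eq_zero, zero_mul]
        intro l _
        rw [Derivation.leibniz_pow, pderiv_X_of_ne, smul_zero, smul_zero, map_zero]
        intro h
        exact hj (congrArg Prod.snd h).symm
    rw [Finset.sum_congr rfl (fun ij _ => h2 ij), Fintype.sum_prod_type] at h1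
    simp only [Finset.sum_ite_eq', Finset.mem_univ, if_true] at h1
    rw [← Finset.mul_sum] at h1
    have hn2 : ((n : ℂ) + 2) ≠ 0 := by
      have : ((n + 2 : ℕ) : ℂ) ≠ 0 := Nat.cast_ne_zero.2 (by omega)
      push_cast at this; exact this
    have h3 := (mul_eq_zero.1 h1).resolve_left hn2
    have h4 : ∑ i, x i ^ (n + 1) * (v (i, j0) / y j0) =
        (∑ i, (x i * y j0) ^ (n + 1) * v (i, j0)) / y j0 ^ (n + 2) := by
      rw [Finset.sum_div]
      refine Finset.sum_congr rfl (fun i _ => ?_)
      rw [mul_pow]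
      field_simp
      try ring
    rw [h4, h3, zero_div]
  · funext ij
    obtain ⟨i, j⟩ := ij
    have h1 := hv _ (minor_mem i i0 j j0)
    rw [map_sub, map_mul, map_mul, hX, hX, hX, hX] at h1
    simp at h1
    field_simp
    linear_combination h1

lemma finrank_tangent_FI {x : Fin (n + 2) → ℂ} (hx : x ∈ Cone (FI n)) (hx0 : x ≠ 0) :
    Module.finrank ℂ (Tangent (FI n) x) = n + 1 := by
  classical
  obtain ⟨i0, hi0⟩ : ∃ i, x i ≠ 0 := by
    by_contra h
    push Not at h
    exact hx0 (funext h)
  let F : Module.Dual ℂ (Fin (n + 2) → ℂ) :=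
    ∑ i, (x i ^ (n + 1)) • (LinearMap.proj i : (Fin (n + 2) → ℂ) →ₗ[ℂ] ℂ)
  have hF : ∀ v, F v = ∑ i, x i ^ (n + 1) * v i := by
    intro v
    simp [F]
  have hker : Tangent (FI n) x = LinearMap.ker F := by
    ext v
    rw [mem_tangent_FI hx, LinearMap.mem_ker, hF]
  have hFne : F ≠ 0 := by
    intro h
    have := hF (Pi.single i0 1)
    rw [h] at this
    simp [Pi.single_apply] at this
    exact hi0 ((pow_eq_zero_iff (by omega)).1 this.symm)
  have h1 := Module.Dual.finrank_ker_add_one_of_ne_zero hFne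
  rw [hker]
  have h2 : Module.finrank ℂ (Fin (n + 2) → ℂ) = n + 2 := by simp
  omega

lemma finrank_tangent_SI {x : Fin (n + 2) → ℂ} (hx : x ∈ Cone (FI n)) (hx0 : x ≠ 0)
    {y : Fin (k + 1) → ℂ} (hy0 : y ≠ 0) :
    Module.finrank ℂ (Tangent (SI n k) (sp x y)) = n + k + 1 := by
  classical
  obtain ⟨i0, hi0⟩ : ∃ i, x i ≠ 0 := by
    by_contra h
    push Not at h
    exact hx0 (funext h)
  obtain ⟨j0, hj0⟩ : ∃ j, y j ≠ 0 := by
    by_contra h
    push Not at h
    exact hy0 (funext h)
  let L : (Tangent (FI n) x × (Fin (k + 1) → ℂ)) →ₗ[ℂ] (SIdx n k → ℂ) :=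
    { toFun := fun uw => fun ij => (uw.1 : Fin (n + 2) → ℂ) ij.1 * y ij.2 + x ij.1 * uw.2 ij.2
      map_add' := by
        intro a b
        funext ij
        simp only [Prod.fst_add, Prod.snd_add, Submodule.coe_add, Pi.add_apply]
        ring
      map_smul' := by
        intro c a
        funext ij
        simp only [Prod.smul_fst, Prod.smul_snd, Submodule.coe_smul, Pi.smul_apply, smul_eq_mul,
          RingHom.id_apply]
        ring }
  have hrange : LinearMap.range L = Tangent (SI n k) (sp x y) := by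
    ext v
    constructor
    · rintro ⟨⟨u, w⟩, rfl⟩
      exact sp_tangent hx u.2 y w
    · intro hv
      obtain ⟨u, hu, w, rfl⟩ := tangent_SI hx hx0 hy0 hv
      exact ⟨(⟨u, hu⟩, w), rfl⟩
  have hker : LinearMap.ker L = Submodule.span ℂ {((⟨x, mem_tangent_self hx⟩ : Tangent (FI n) x), -y)} := by
    ext ⟨u, w⟩
    rw [LinearMap.mem_ker, Submodule.mem_span_singleton]
    constructor
    · intro h
      have h1 : ∀ i j, (u : Fin (n + 2) → ℂ) i * y j + x i * w j = 0 := fun i j =>
        congrFun h (i, j)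
      refine ⟨-(w j0) / y j0, ?_⟩
      have hu : ∀ i, (u : Fin (n + 2) → ℂ) i = -(w j0) / y j0 * x i := by
        intro i
        have := h1 i j0
        field_simp
        linear_combination this
      have hw : ∀ j, w j = -(-(w j0) / y j0 * y j) := by
        intro j
        have h2 := h1 i0 j
        rw [hu i0] at h2
        have h3 : x i0 * (w j + -(w j0) / y j0 * y j) = 0 := by linear_combination h2
        have h4 := (mul_eq_zero.1 h3).resolve_left hi0
        linear_combination h4
      apply Prod.ext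
      · apply Subtype.ext
        funext i
        simp only [Prod.smul_fst, Submodule.coe_smul, Pi.smul_apply, smul_eq_mul]
        rw [hu i]
      · funext j
        simp only [Prod.smul_snd, Pi.smul_apply, smul_eq_mul, Pi.neg_apply]
        rw [hw j]
        ring
    · rintro ⟨c, hc⟩
      have hu : u = c • (⟨x, mem_tangent_self hx⟩ : Tangent (FI n) x) := (congrArg Prod.fst hc).symm
      have hw : w = c • (-y) := (congrArg Prod.snd hc).symm
      funext ij
      simp only [L, LinearMap.coe_mk, AddHom.coe_mk, hu, hw, Submodule.coe_smul, Pi.smul_apply,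
        smul_eq_mul, Pi.neg_apply, Pi.zero_apply]
      ring
  have h1 := LinearMap.finrank_range_add_finrank_ker L
  rw [hrange, hker, finrank_span_singleton] at h1
  · have h2 : Module.finrank ℂ (Tangent (FI n) x × (Fin (k + 1) → ℂ)) = (n + 1) + (k + 1) := by
      rw [Module.finrank_prod, finrank_tangent_FI hx hx0]; simp
    omega
  · intro h
    have := congrArg Prod.snd h
    simp only [Prod.snd_zero] at this
    exact hy0 (neg_eq_zero.1 this)

theorem isSmoothProjective_SI (hn : 1 ≤ n) : IsSmoothProjective (SI n k) (n + k) where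
  prime := prime_SI hn
  homogeneous := fun p hp N => homogeneous_SI p hp N
  nonempty := by
    obtain ⟨z, hz⟩ : ∃ z : ℂ, z ^ (n + 2) = -1 := IsAlgClosed.exists_pow_nat_eq (-1) (by omega)
    have h01 : (0 : Fin (n + 2)) ≠ Fin.last (n + 1) := by
      intro h
      have := congrArg Fin.val h
      simp at this
    have hx : (fun l => if l = 0 then (1 : ℂ) else if l = Fin.last (n + 1) then z else 0) ∈
        Cone (FI n) := by
      rw [mem_cone_FI, sum_split h01]
      have h1 : ∑ l ∈ (Finset.univ.erase (0 : Fin (n + 2))).erase (Fin.last (n + 1)),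
          ((if l = 0 then (1 : ℂ) else if l = Fin.last (n + 1) then z else 0) : ℂ) ^ (n + 2) = 0 := by
        refine Finset.sum_eq_zero (fun l hl => ?_)
        obtain ⟨h1, h2⟩ := mem_rest hl
        rw [if_neg h1, if_neg h2, zero_pow (by omega)]
      rw [h1]
      simp [h01.symm, hz]
    refine ⟨sp _ (fun _ => 1), sp_mem_cone hx _, ?_⟩
    intro h
    have := congrFun h (0, 0)
    simp [sp] at this
  smooth := by
    intro z hz hz0
    obtain ⟨x, hx, hx0, y, hy0, rfl⟩ := cone_SI hz hz0
    exact finrank_tangent_SI hx hx0 hy0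

end Pool.Agent.Work.MP_4329d7_ag
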