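import Pool.Agent.Work.MP_4329d7_ag.UTensor

/-!
Transfer of rational curves.
-/

open MvPolynomial Filter

set_option linter.unusedSectionVars false

namespace Pool.Agent.Work.MP_4329d7_ag.Unif.Ultra

variable {K : ℕ → Type} [∀ n, Field (K n)] {σ : Type} [Fintype σ]
variable (L : Ultra K) {I : ∀ n, Ideal (MvPolynomial σ (K n))} {d : ℕ}

lemma joined_of_lim (hd : ∀ n, GeneratedInDegree (I n) d) {e : ℕ} (x y : σ → (∀ n, K n))
    (h : Joined (L.limI I) (L.lm x) (L.lm y) e) :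
    ∀ᶠ n in (L.U : Filter ℕ), Joined (I n) (pt x n) (pt y n) e := by
  classical
  obtain ⟨f, hf, hcone, ⟨p, hp, c, hc, hpx⟩, ⟨q, hq, b, hb, hqy⟩⟩ := h
  choose F hF hFs using fun i => L.exists_lift (f i)
  let g : (Fin 2 → (∀ n, K n)) → σ → (∀ n, K n) := fun p i => eval p (F i)
  have hg : ∀ p : Fin 2 → (∀ n, K n), L.lm (g p) = fun i => eval (L.lm p) (f i) := by
    intro p
    funext i
    change L.π (eval p (F i)) = _
    rw [← eval_lm, hF]
  have hgn : ∀ (p : Fin 2 → (∀ n, K n)) (n : ℕ),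
      pt (g p) n = fun i => eval (pt p n) (at' n (F i)) := by
    intro p n
    funext i
    rw [eval_pt]
    rfl
  obtain ⟨p, rfl⟩ := L.lm_surj p
  obtain ⟨q, rfl⟩ := L.lm_surj q
  obtain ⟨c, rfl⟩ := L.surj c
  obtain ⟨b, rfl⟩ := L.surj b
  rw [← hg, ← lm_smul, lm_eq_iff] at hpx hqy
  rw [lm_ne_zero_iff] at hp hq
  rw [π_ne_zero_iff] at hc hb
  -- the curve lies on the variety
  have hC : ∀ᶠ n in (L.U : Filter ℕ), ∀ p : Fin 2 → K n, p ≠ 0 →
      (fun i => eval p (at' n (F i))) ≠ 0 ∧ (fun i => eval p (at' n (F i))) ∈ Cone (I n) := by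
    by_contra hcon
    rw [← Ultrafilter.eventually_not] at hcon
    have hch : ∀ n, ∃ p : Fin 2 → K n,
        (¬ ∀ p : Fin 2 → K n, p ≠ 0 →
          (fun i => eval p (at' n (F i))) ≠ 0 ∧ (fun i => eval p (at' n (F i))) ∈ Cone (I n)) →
        (p ≠ 0 ∧ ¬ ((fun i => eval p (at' n (F i))) ≠ 0 ∧
          (fun i => eval p (at' n (F i))) ∈ Cone (I n))) := by
      intro n
      by_cases hn : ∀ p : Fin 2 → K n, p ≠ 0 →
          (fun i => eval p (at' n (F i))) ≠ 0 ∧ (fun i => eval p (at' n (F i))) ∈ Cone (I n)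
      · exact ⟨0, fun h => absurd hn h⟩
      · have hn' := hn
        rw [not_forall] at hn
        obtain ⟨r, hr⟩ := hn
        rw [Classical.not_imp] at hr
        exact ⟨r, fun _ => hr⟩
    choose r hr using hch
    let rr : Fin 2 → (∀ n, K n) := fun i n => r n i
    have hall : ∀ᶠ n in (L.U : Filter ℕ), (r n ≠ 0 ∧ ¬ ((fun i => eval (r n) (at' n (F i))) ≠ 0 ∧
          (fun i => eval (r n) (at' n (F i))) ∈ Cone (I n))) := by
      filter_upwards [hcon] with n hn using hr n hn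
    have h1 : L.lm rr ≠ 0 := (L.lm_ne_zero_iff rr).2 (hall.mono (fun n h => h.1))
    obtain ⟨h2, h3⟩ := hcone _ h1
    rw [← hg, lm_ne_zero_iff] at h2
    rw [← hg, L.cone_iff hd] at h3
    obtain ⟨n, hn1, hn2, hn3⟩ := (h2.and (h3.and hall)).exists
    apply hn3.2
    rw [hgn] at hn1 hn2
    exact ⟨hn1, hn2⟩
  filter_upwards [hC, hpx, hqy, hp, hq, hc, hb] with n h1 h2 h3 h4 h5 h6 h7
  refine ⟨fun i => at' n (F i), fun i => isHomogeneous_at' n (hFs i) (hf i), h1,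
    ⟨pt p n, h4, c n, h6, ?_⟩, ⟨pt q n, h5, b n, h7, ?_⟩⟩
  · rw [← hgn, h2, pt_smul]
  · rw [← hgn, h3, pt_smul]

end Pool.Agent.Work.MP_4329d7_ag.Unif.Ultra
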