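import Mathlib

/-!
Smooth projective varieties over a field `K` in the classical language, with bounds on the
complexity: homogeneous prime ideals, affine cones, tangent spaces, tensor differentials and
rational curves.
-/

open MvPolynomial

namespace Pool.Agent.Work.MP_4329d7_ag.Unif

variable {K : Type} [Field K] {σ : Type} [Fintype σ]

/-- The affine cone over the projective variety with homogeneous ideal `I`:
all `x ∈ K^σ` at which every polynomial of `I` vanishes. -/
def Cone (I : Ideal (MvPolynomial σ K)) : Set (σ → K) :=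
  {x | ∀ p ∈ I, eval x p = 0}

/-- The Zariski tangent space at `x` of the affine cone of `I`: all `v` with
`∑ i, (∂p/∂X_i)(x) * v_i = 0` for every `p ∈ I`. -/
def Tangent (I : Ideal (MvPolynomial σ K)) (x : σ → K) : Submodule K (σ → K) where
  carrier := {v | ∀ p ∈ I, ∑ i, eval x (pderiv i p) * v i = 0}
  add_mem' := by
    intro a b ha hb p hp
    have h1 := ha p hp
    have h2 := hb p hp
    simp only [Pi.add_apply, mul_add, Finset.sum_add_distrib, h1, h2, add_zero]
  zero_mem' := by
    intro p _
    simp
  smul_mem' := by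
    intro c v hv p hp
    have h := hv p hp
    simp only [Pi.smul_apply, smul_eq_mul]
    calc ∑ i, eval x (pderiv i p) * (c * v i)
        = c * ∑ i, eval x (pderiv i p) * v i := by
          rw [Finset.mul_sum]; exact Finset.sum_congr rfl (fun i _ => by ring)
      _ = 0 := by rw [h, mul_zero]

/-- `I` is the homogeneous prime ideal of a (nonempty) smooth projective variety of
dimension `D` in the projective space with homogeneous coordinates indexed by `σ`:
at every nonzero point of the affine cone the Zariski tangent space of the cone has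
dimension `D + 1`. -/
structure IsSmoothProjective (I : Ideal (MvPolynomial σ K)) (D : ℕ) : Prop where
  prime : I.IsPrime
  homogeneous : ∀ p ∈ I, ∀ n : ℕ, homogeneousComponent n p ∈ I
  nonempty : ∃ x ∈ Cone I, x ≠ 0
  smooth : ∀ x ∈ Cone I, x ≠ 0 → Module.finrank K (Tangent I x) = D + 1

/-- The ideal `I` is generated by its polynomials of degree at most `d`. -/
def GeneratedInDegree (I : Ideal (MvPolynomial σ K)) (d : ℕ) : Prop :=
  Ideal.span {p : MvPolynomial σ K | p ∈ I ∧ p.totalDegree ≤ d} = I

/-- `T` is (the pullback to the punctured affine cone of) a global section of the `m`-th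
tensor power of the cotangent bundle of the projective variety `X` of `I`, seen as a function
of a point `x` of the cone and `m` tangent vectors at `x`:
* over each standard affine chart `x_a ≠ 0` it is given by an expression, multilinear
  in the tangent vectors, with coefficients that are polynomials of degree at most `B`, divided
  by a power of `x_a` with exponent at most `B`;
* it is invariant under scaling of `x` and of the tangent vectors;
* it vanishes if one of the vectors is the radial vector `x`. -/
structure IsTensorDifferential (I : Ideal (MvPolynomial σ K)) (m B : ℕ)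
    (T : (σ → K) → (Fin m → σ → K) → K) : Prop where
  regular : ∀ a : σ, ∃ (N : ℕ) (P : (Fin m → σ) → MvPolynomial σ K),
    N ≤ B ∧ (∀ w, (P w).totalDegree ≤ B) ∧
    ∀ x ∈ Cone I, x a ≠ 0 → ∀ v : Fin m → σ → K, (∀ j, v j ∈ Tangent I x) →
      x a ^ N * T x v = ∑ w : Fin m → σ, eval x (P w) * ∏ j, v j (w j)
  scaling : ∀ x ∈ Cone I, x ≠ 0 → ∀ v : Fin m → σ → K, (∀ j, v j ∈ Tangent I x) →
    ∀ c : K, c ≠ 0 → T (c • x) (fun j => c • v j) = T x v
  radial : ∀ x ∈ Cone I, x ≠ 0 → ∀ v : Fin m → σ → K, (∀ j, v j ∈ Tangent I x) →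
    (∃ j, v j = x) → T x v = 0

/-- The variety of `I` has a nonzero tensor differential of order `m` and complexity at
most `B`. -/
def HasTensorDifferential (I : Ideal (MvPolynomial σ K)) (m B : ℕ) : Prop :=
  ∃ T : (σ → K) → (Fin m → σ → K) → K, IsTensorDifferential I m B T ∧
    ∃ x ∈ Cone I, x ≠ 0 ∧ ∃ v : Fin m → σ → K, (∀ j, v j ∈ Tangent I x) ∧ T x v ≠ 0

/-- The points `x` and `y` of the variety of `I` lie on the image of a morphism `ℙ¹ → X`, given
by binary forms `f i` of degree `e` without common zero. -/
def Joined (I : Ideal (MvPolynomial σ K)) (x y : σ → K) (e : ℕ) : Prop :=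
  ∃ f : σ → MvPolynomial (Fin 2) K,
    (∀ i, (f i).IsHomogeneous e) ∧
    (∀ p : Fin 2 → K, p ≠ 0 →
      (fun i => eval p (f i)) ≠ 0 ∧ (fun i => eval p (f i)) ∈ Cone I) ∧
    (∃ p : Fin 2 → K, p ≠ 0 ∧ ∃ c : K, c ≠ 0 ∧ (fun i => eval p (f i)) = c • x) ∧
    (∃ p : Fin 2 → K, p ≠ 0 ∧ ∃ c : K, c ≠ 0 ∧ (fun i => eval p (f i)) = c • y)

/-- The variety of `I` is rationally connected: any two of its points lie on a rational curve. -/
def RationallyConnected (I : Ideal (MvPolynomial σ K)) : Prop :=
  ∀ x ∈ Cone I, x ≠ 0 → ∀ y ∈ Cone I, y ≠ 0 → ∃ e, Joined I x y e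

end Pool.Agent.Work.MP_4329d7_ag.Unif
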