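import Pool.Agent.Work.MP_4329d7_ag.UCurve

/-!
The ultraproduct of algebraically closed fields is isomorphic to `ℂ`.
-/

open Filter Cardinal

namespace Pool.Agent.Work.MP_4329d7_ag.Unif

section

variable (K : ℕ → Type) [∀ n, Field (K n)]

/-- the hyperfilter. -/
noncomputable def HF : Ultrafilter ℕ := hyperfilter ℕ

lemma eventually_ge_HF (m : ℕ) : ∀ᶠ n in (HF : Filter ℕ), m ≤ n := by
  have h : ∀ᶠ n in (cofinite : Filter ℕ), m ≤ n := by
    rw [Nat.cofinite_eq_atTop]
    exact eventually_ge_atTop m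
  exact h.filter_mono hyperfilter_le_cofinite

/-- the ideal of sequences that vanish almost everywhere. -/
def nullIdeal : Ideal (∀ n, K n) where
  carrier := {f | ∀ᶠ n in (HF : Filter ℕ), f n = 0}
  add_mem' := by
    intro a b ha hb
    filter_upwards [ha, hb] with n h1 h2
    simp [h1, h2]
  zero_mem' := Eventually.of_forall (fun _ => rfl)
  smul_mem' := by
    intro c a ha
    filter_upwards [ha] with n h1
    simp [h1]

lemma mem_nullIdeal (f : ∀ n, K n) : f ∈ nullIdeal K ↔ ∀ᶠ n in (HF : Filter ℕ), f n = 0 :=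
  Iff.rfl

instance : (nullIdeal K).IsMaximal := by
  classical
  rw [Ideal.isMaximal_iff]
  refine ⟨?_, ?_⟩
  · intro h
    obtain ⟨n, hn⟩ := Filter.Eventually.exists h
    exact one_ne_zero hn
  · intro J x hJ hx hxJ
    have h1 : ∀ᶠ n in (HF : Filter ℕ), x n ≠ 0 := by
      rw [Ultrafilter.eventually_not]; exact hx
    have h2 : (1 : ∀ n, K n) - (fun n => (x n)⁻¹) * x ∈ nullIdeal K := by
      rw [mem_nullIdeal]
      filter_upwards [h1] with n hn
      simp [inv_mul_cancel₀ hn]
    have h3 := hJ h2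
    have h4 := J.mul_mem_left (fun n => (x n)⁻¹) hxJ
    have h5 := J.add_mem h3 h4
    rwa [sub_add_cancel] at h5

/-- the ultraproduct. -/
abbrev UP : Type := (∀ n, K n) ⧸ nullIdeal K

noncomputable instance : Field (UP K) := Ideal.Quotient.field (nullIdeal K)

lemma mk_eq_zero_iff (f : ∀ n, K n) :
    (Ideal.Quotient.mk (nullIdeal K) f = 0) ↔ ∀ᶠ n in (HF : Filter ℕ), f n = 0 := by
  rw [Ideal.Quotient.eq_zero_iff_mem, mem_nullIdeal]

lemma charZero_UP (hchar : ∀ n, ∀ p : ℕ, p.Prime → (p : K n) = 0 → n < p) : CharZero (UP K) := by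
  obtain ⟨p, hp⟩ := CharP.exists (UP K)
  rcases CharP.char_is_prime_or_zero (UP K) p with h | h
  · exfalso
    have h1 : ((p : ℕ) : UP K) = 0 := CharP.cast_eq_zero (UP K) p
    have h2 : Ideal.Quotient.mk (nullIdeal K) (p : ∀ n, K n) = 0 := by
      rw [map_natCast]; exact h1
    rw [mk_eq_zero_iff] at h2
    obtain ⟨n, hn1, hn2⟩ := (h2.and (eventually_ge_HF p)).exists
    have := hchar n p h (by simpa using hn1)
    omega
  · subst h
    exact CharP.charP_to_charZero (UP K)

lemma isAlgClosed_UP [∀ n, IsAlgClosed (K n)] : IsAlgClosed (UP K) := by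
  classical
  refine IsAlgClosed.of_exists_root (UP K) (fun P hP hirr => ?_)
  have hdeg : 0 < P.natDegree := hirr.natDegree_pos
  choose a ha using fun i : ℕ => Ideal.Quotient.mk_surjective (I := nullIdeal K) (P.coeff i)
  have hroot : ∀ n, ∃ r : K n, r ^ P.natDegree +
      ∑ i ∈ Finset.range P.natDegree, a i n * r ^ i = 0 := by
    intro n
    let Q : Polynomial (K n) := Polynomial.X ^ P.natDegree +
      ∑ i ∈ Finset.range P.natDegree, Polynomial.C (a i n) * Polynomial.X ^ i
    have hQd : (∑ i ∈ Finset.range P.natDegree, Polynomial.C (a i n) * Polynomial.X ^ i).degree <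
        (P.natDegree : WithBot ℕ) := by
      refine (Polynomial.degree_sum_le _ _).trans_lt ?_
      rw [Finset.sup_lt_iff (by exact WithBot.bot_lt_coe _)]
      intro i hi
      exact (Polynomial.degree_C_mul_X_pow_le _ _).trans_lt
        (by exact_mod_cast Finset.mem_range.1 hi)
    have hQ : Q.degree = P.natDegree := by
      have := Polynomial.degree_add_eq_left_of_degree_lt
        (p := (Polynomial.X ^ P.natDegree : Polynomial (K n)))
        (q := ∑ i ∈ Finset.range P.natDegree, Polynomial.C (a i n) * Polynomial.X ^ i)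
        (by rw [Polynomial.degree_X_pow]; exact hQd)
      rw [this, Polynomial.degree_X_pow]
    obtain ⟨r, hr⟩ := IsAlgClosed.exists_root Q (by
      rw [hQ]
      exact_mod_cast hdeg.ne')
    refine ⟨r, ?_⟩
    have := hr.eq_zero
    simp only [Q, Polynomial.eval_add, Polynomial.eval_pow, Polynomial.eval_X,
      Polynomial.eval_finsetSum, Polynomial.eval_mul, Polynomial.eval_C] at this
    exact this
  choose r hr using hroot
  refine ⟨Ideal.Quotient.mk (nullIdeal K) r, ?_⟩
  rw [hP.as_sum]
  simp only [Polynomial.eval_add, Polynomial.eval_pow, Polynomial.eval_X,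
      Polynomial.eval_finsetSum, Polynomial.eval_mul, Polynomial.eval_C, ← ha]
  simp only [← map_pow, ← map_mul, ← map_sum, ← map_add]
  rw [mk_eq_zero_iff]
  refine Eventually.of_forall (fun n => ?_)
  have := hr n
  simpa using this

lemma card_UP_le (hcard : ∀ n, #(K n) ≤ 𝔠) : #(UP K) ≤ 𝔠 := by
  refine (mk_le_of_surjective (Ideal.Quotient.mk_surjective (I := nullIdeal K))).trans ?_
  rw [mk_pi]
  refine (prod_le_prod _ _ hcard).trans ?_
  rw [prod_const]
  simp

lemma card_UP_ge [∀ n, Infinite (K n)] : 𝔠 ≤ #(UP K) := by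
  classical
  have hb : ∀ n, ∃ c : (ℕ → Bool) → K n, ∀ f g, c f = c g → ∀ i < n, f i = g i := by
    intro n
    have : Nonempty ((Fin n → Bool) ↪ K n) := by
      have h1 : #(Fin n → Bool) ≤ #(K n) :=
        ((lt_aleph0_of_finite _).le).trans (aleph0_le_mk (K n))
      exact h1
    obtain ⟨e⟩ := this
    refine ⟨fun f => e (fun i => f i), fun f g h i hi => ?_⟩
    have := congrFun (e.injective h) ⟨i, hi⟩
    exact this
  choose c hc using hb
  have hinj : Function.Injective
      (fun f : ℕ → Bool => Ideal.Quotient.mk (nullIdeal K) (fun n => c n f)) := by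
    intro f g h
    have h0 : Ideal.Quotient.mk (nullIdeal K) ((fun n => c n f) - (fun n => c n g)) = 0 := by
      rw [map_sub, sub_eq_zero]; exact h
    rw [mk_eq_zero_iff] at h0
    funext i
    obtain ⟨n, hn1, hn2⟩ := (h0.and (eventually_ge_HF (i + 1))).exists
    refine hc n f g ?_ i (by omega)
    have : c n f - c n g = 0 := hn1
    exact sub_eq_zero.1 this
  have := mk_le_of_injective hinj
  refine le_trans ?_ this
  simp

theorem exists_ultra [∀ n, IsAlgClosed (K n)] (hcard : ∀ n, #(K n) ≤ 𝔠)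
    (hchar : ∀ n, ∀ p : ℕ, p.Prime → (p : K n) = 0 → n < p) :
    ∃ L : Ultra K, ∀ m, ∀ᶠ n in (L.U : Filter ℕ), m ≤ n := by
  have : ∀ n, Infinite (K n) := fun n => IsAlgClosed.instInfinite
  have := charZero_UP K hchar
  have := isAlgClosed_UP K
  have hc : #(UP K) = 𝔠 := le_antisymm (card_UP_le K hcard) (card_UP_ge K)
  have h1 : ℵ₀ < #(UP K) := by rw [hc]; exact aleph0_lt_continuum
  have h2 : Nonempty (UP K ≃ ℂ) := by
    rw [← Cardinal.eq, hc, mk_complex]
  obtain ⟨e⟩ := IsAlgClosed.ringEquiv_of_equiv_of_charZero h1 h2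
  refine ⟨⟨HF, (e : UP K →+* ℂ).comp (Ideal.Quotient.mk (nullIdeal K)), ?_, ?_⟩,
    fun m => eventually_ge_HF m⟩
  · exact e.surjective.comp Ideal.Quotient.mk_surjective
  · intro f
    rw [RingHom.comp_apply]
    change e _ = 0 ↔ _
    rw [map_eq_zero_iff e e.injective, mk_eq_zero_iff]

end

end Pool.Agent.Work.MP_4329d7_ag.Unif
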