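import Pool.Agent.Work.MP_4329d7_ag.ULos

/-!
The limit of a sequence of varieties of bounded degree.
-/

open MvPolynomial Filter

set_option linter.unusedSectionVars false

namespace Pool.Agent.Work.MP_4329d7_ag.Unif

section single

variable {k : Type} [Field k] {σ : Type} [Fintype σ]

lemma exists_not_cone {I : Ideal (MvPolynomial σ k)} {d : ℕ} (hI : GeneratedInDegree I d)
    {x : σ → k} (hx : x ∉ Cone I) : ∃ p ∈ I, p.totalDegree ≤ d ∧ eval x p ≠ 0 := by
  by_contra hcon
  push Not at hcon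
  apply hx
  intro p hp
  have hp' : p ∈ Ideal.span {p : MvPolynomial σ k | p ∈ I ∧ p.totalDegree ≤ d} := by
    rw [hI]; exact hp
  refine Submodule.span_induction (p := fun q _ => eval x q = 0) ?_ ?_ ?_ ?_ hp'
  · intro q hq
    exact hcon q hq.1 hq.2
  · exact map_zero _
  · intro q r _ _ hq hr
    rw [map_add, hq, hr, add_zero]
  · intro a q _ hq
    rw [smul_eq_mul, map_mul, hq, mul_zero]

lemma exists_not_tangent {I : Ideal (MvPolynomial σ k)} {d : ℕ} (hI : GeneratedInDegree I d)
    {x v : σ → k} (hx : x ∈ Cone I) (hv : v ∉ Tangent I x) :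
    ∃ p ∈ I, p.totalDegree ≤ d ∧ ∑ i, eval x (pderiv i p) * v i ≠ 0 := by
  by_contra hcon
  push Not at hcon
  apply hv
  intro p hp
  have hp' : p ∈ Ideal.span {p : MvPolynomial σ k | p ∈ I ∧ p.totalDegree ≤ d} := by
    rw [hI]; exact hp
  have key : p ∈ I ∧ ∑ i, eval x (pderiv i p) * v i = 0 := by
    refine Submodule.span_induction
      (p := fun q _ => q ∈ I ∧ ∑ i, eval x (pderiv i q) * v i = 0) ?_ ?_ ?_ ?_ hp'
    · intro q hq
      exact ⟨hq.1, hcon q hq.1 hq.2⟩
    · exact ⟨I.zero_mem, by simp⟩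
    · intro q r _ _ hq hr
      refine ⟨I.add_mem hq.1 hr.1, ?_⟩
      simp only [map_add, add_mul, Finset.sum_add_distrib, hq.2, hr.2, add_zero]
    · intro a q _ hq
      refine ⟨I.mul_mem_left a hq.1, ?_⟩
      have h0 : eval x q = 0 := hx q hq.1
      calc ∑ i, eval x (pderiv i (a • q)) * v i
          = ∑ i, eval x a * (eval x (pderiv i q) * v i) := by
            refine Finset.sum_congr rfl (fun i _ => ?_)
            rw [smul_eq_mul, Derivation.leibniz]
            simp only [smul_eq_mul, map_add, map_mul, h0, zero_mul, add_zero]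
            ring
        _ = 0 := by rw [← Finset.mul_sum, hq.2, mul_zero]
  exact key.2

lemma finrank_eq_iff {W : Submodule k (σ → k)} {r : ℕ} :
    Module.finrank k W = r ↔ ∃ b : Fin r → σ → k, LinearIndependent k b ∧
      ∀ v, v ∈ W ↔ ∃ c : Fin r → k, v = ∑ j, c j • b j := by
  constructor
  · intro h
    let B := Module.finBasisOfFinrankEq k W h
    refine ⟨fun j => (B j : σ → k), ?_, ?_⟩
    · exact B.linearIndependent.map' W.subtype (Submodule.ker_subtype W)
    · intro v
      constructor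
      · intro hv
        refine ⟨fun j => B.repr ⟨v, hv⟩ j, ?_⟩
        have := congrArg (fun w : W => (w : σ → k)) (B.sum_repr ⟨v, hv⟩)
        simp only [Submodule.coe_sum, Submodule.coe_smul] at this
        exact this.symm
      · rintro ⟨c, rfl⟩
        exact W.sum_mem (fun j _ => W.smul_mem _ (B j).2)
  · rintro ⟨b, hb, hW⟩
    have hspan : W = Submodule.span k (Set.range b) := by
      ext v
      rw [hW, Submodule.mem_span_range_iff_exists_fun]
      constructor
      · rintro ⟨c, rfl⟩; exact ⟨c, rfl⟩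
      · rintro ⟨c, rfl⟩; exact ⟨c, rfl⟩
    rw [hspan, finrank_span_eq_card hb, Fintype.card_fin]

end single

variable {K : ℕ → Type} [∀ n, Field (K n)] {σ : Type} [Fintype σ]

namespace Ultra

variable (L : Ultra K) (I : ∀ n, Ideal (MvPolynomial σ (K n)))

/-- the limit ideal. -/
noncomputable def limI : Ideal (MvPolynomial σ ℂ) where
  carrier := {Q | ∃ P : MvPolynomial σ (∀ n, K n), L.lim P = Q ∧
    ∀ᶠ n in (L.U : Filter ℕ), at' n P ∈ I n}
  add_mem' := by
    rintro _ _ ⟨P, rfl, hP⟩ ⟨Q, rfl, hQ⟩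
    refine ⟨P + Q, by unfold lim; rw [map_add], ?_⟩
    filter_upwards [hP, hQ] with n h1 h2
    have : at' n (P + Q) = at' n P + at' n Q := by unfold at'; rw [map_add]
    rw [this]
    exact (I n).add_mem h1 h2
  zero_mem' := ⟨0, by unfold lim; rw [map_zero], Eventually.of_forall (fun n => by
    unfold at'; rw [map_zero]; exact (I n).zero_mem)⟩
  smul_mem' := by
    rintro a _ ⟨P, rfl, hP⟩
    obtain ⟨Q, rfl, -⟩ := L.exists_lift a
    refine ⟨Q * P, by unfold lim; rw [map_mul]; rfl, ?_⟩
    filter_upwards [hP] with n h1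
    have : at' n (Q * P) = at' n Q * at' n P := by unfold at'; rw [map_mul]
    rw [this]
    exact (I n).mul_mem_left _ h1

variable {I}

lemma lim_mem_iff (P : MvPolynomial σ (∀ n, K n)) :
    L.lim P ∈ L.limI I ↔ ∀ᶠ n in (L.U : Filter ℕ), at' n P ∈ I n := by
  constructor
  · rintro ⟨Q, hQ, hQI⟩
    have h := (L.lim_eq_iff Q P).1 hQ
    filter_upwards [h, hQI] with n h1 h2
    rwa [← h1]
  · intro h
    exact ⟨P, rfl, h⟩

lemma at'_mul (n : ℕ) (P Q : MvPolynomial σ (∀ n, K n)) : at' n (P * Q) = at' n P * at' n Q := by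
  unfold at'; rw [map_mul]

lemma lim_mul (P Q : MvPolynomial σ (∀ n, K n)) : L.lim (P * Q) = L.lim P * L.lim Q := by
  unfold lim; rw [map_mul]

lemma limI_prime (hI : ∀ n, (I n).IsPrime) : (L.limI I).IsPrime := by
  refine ⟨?_, ?_⟩
  · intro h
    have h1 : L.lim (1 : MvPolynomial σ (∀ n, K n)) ∈ L.limI I := by rw [h]; trivial
    rw [lim_mem_iff] at h1
    obtain ⟨n, hn⟩ := h1.exists
    have : at' n (1 : MvPolynomial σ (∀ n, K n)) = 1 := by unfold at'; rw [map_one]
    rw [this] at hn
    exact (hI n).ne_top ((Ideal.eq_top_iff_one _).2 hn)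
  · intro a b hab
    obtain ⟨P, rfl, -⟩ := L.exists_lift a
    obtain ⟨Q, rfl, -⟩ := L.exists_lift b
    rw [← lim_mul, lim_mem_iff] at hab
    rw [lim_mem_iff, lim_mem_iff, ← Ultrafilter.eventually_or]
    filter_upwards [hab] with n hn
    rw [at'_mul] at hn
    exact (hI n).mem_or_mem hn

lemma homogeneousComponent_map' {R S : Type} [CommSemiring R] [CommSemiring S] (f : R →+* S)
    (k : ℕ) (P : MvPolynomial σ R) :
    homogeneousComponent k (map f P) = map f (homogeneousComponent k P) := by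
  ext s
  rw [coeff_homogeneousComponent, coeff_map, coeff_map, coeff_homogeneousComponent]
  split_ifs <;> simp

lemma limI_homogeneous (hI : ∀ n, ∀ p ∈ I n, ∀ k : ℕ, homogeneousComponent k p ∈ I n) :
    ∀ p ∈ L.limI I, ∀ k : ℕ, homogeneousComponent k p ∈ L.limI I := by
  rintro _ ⟨P, rfl, hP⟩ k
  refine ⟨homogeneousComponent k P, ?_, ?_⟩
  · unfold lim; rw [homogeneousComponent_map']
  · filter_upwards [hP] with n hn
    unfold at' at hn ⊢
    rw [← homogeneousComponent_map']
    exact hI n _ hn k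

section transfer

variable {d : ℕ}

lemma cone_iff (hd : ∀ n, GeneratedInDegree (I n) d) (x : σ → (∀ n, K n)) :
    L.lm x ∈ Cone (L.limI I) ↔ ∀ᶠ n in (L.U : Filter ℕ), pt x n ∈ Cone (I n) := by
  constructor
  · intro h
    by_contra hcon
    rw [← Ultrafilter.eventually_not] at hcon
    have hch : ∀ n, ∃ p : MvPolynomial σ (K n), p.totalDegree ≤ d ∧ p ∈ I n ∧
        (pt x n ∉ Cone (I n) → eval (pt x n) p ≠ 0) := by
      intro n
      by_cases hn : pt x n ∈ Cone (I n)
      · exact ⟨0, by simp, (I n).zero_mem, fun h => absurd hn h⟩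
      · obtain ⟨p, hp, hpd, hpx⟩ := exists_not_cone (hd n) hn
        exact ⟨p, hpd, hp, fun _ => hpx⟩
    choose p hpd hpI hpx using hch
    obtain ⟨P, hP⟩ := exists_assemble d p hpd
    have h1 : L.lim P ∈ L.limI I := by
      rw [lim_mem_iff]
      exact Eventually.of_forall (fun n => by rw [hP]; exact hpI n)
    have h2 := h _ h1
    rw [eval_lm, L.ker] at h2
    obtain ⟨n, hn1, hn2⟩ := (h2.and hcon).exists
    rw [← eval_pt, hP] at hn1
    exact hpx n hn2 hn1
  · rintro h _ ⟨P, rfl, hP⟩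
    rw [eval_lm, L.ker]
    filter_upwards [h, hP] with n h1 h2
    rw [← eval_pt]
    exact h1 _ h2

lemma pair_pt (n : ℕ) (x v : σ → (∀ n, K n)) (P : MvPolynomial σ (∀ n, K n)) :
    ∑ i, eval (pt x n) (pderiv i (at' n P)) * pt v n i =
      (∑ i, eval x (pderiv i P) * v i) n := by
  rw [Finset.sum_apply]
  refine Finset.sum_congr rfl (fun i _ => ?_)
  have : pderiv i (at' n P) = at' n (pderiv i P) := by unfold at'; rw [pderiv_map]
  rw [this, eval_pt]
  rfl

lemma pair_lm (x v : σ → (∀ n, K n)) (P : MvPolynomial σ (∀ n, K n)) :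
    ∑ i, eval (L.lm x) (pderiv i (L.lim P)) * L.lm v i =
      L.π (∑ i, eval x (pderiv i P) * v i) := by
  rw [map_sum]
  refine Finset.sum_congr rfl (fun i _ => ?_)
  have : pderiv i (L.lim P) = L.lim (pderiv i P) := by unfold lim; rw [pderiv_map]
  rw [this, eval_lm, map_mul]
  rfl

lemma tangent_iff (hd : ∀ n, GeneratedInDegree (I n) d) (x v : σ → (∀ n, K n))
    (hx : ∀ᶠ n in (L.U : Filter ℕ), pt x n ∈ Cone (I n)) :
    L.lm v ∈ Tangent (L.limI I) (L.lm x) ↔
      ∀ᶠ n in (L.U : Filter ℕ), pt v n ∈ Tangent (I n) (pt x n) := by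
  constructor
  · intro h
    by_contra hcon
    rw [← Ultrafilter.eventually_not] at hcon
    have hch : ∀ n, ∃ p : MvPolynomial σ (K n), p.totalDegree ≤ d ∧ p ∈ I n ∧
        (pt x n ∈ Cone (I n) → pt v n ∉ Tangent (I n) (pt x n) →
          ∑ i, eval (pt x n) (pderiv i p) * pt v n i ≠ 0) := by
      intro n
      by_cases hn : pt x n ∈ Cone (I n)
      · by_cases hv : pt v n ∈ Tangent (I n) (pt x n)
        · exact ⟨0, by simp, (I n).zero_mem, fun _ h => absurd hv h⟩
        · obtain ⟨p, hp, hpd, hpx⟩ := exists_not_tangent (hd n) hn hv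
          exact ⟨p, hpd, hp, fun _ _ => hpx⟩
      · exact ⟨0, by simp, (I n).zero_mem, fun h => absurd h hn⟩
    choose p hpd hpI hpx using hch
    obtain ⟨P, hP⟩ := exists_assemble d p hpd
    have h1 : L.lim P ∈ L.limI I := by
      rw [lim_mem_iff]
      exact Eventually.of_forall (fun n => by rw [hP]; exact hpI n)
    have h2 := h _ h1
    rw [pair_lm, L.ker] at h2
    obtain ⟨n, hn1, hn2, hn3⟩ := (h2.and (hcon.and hx)).exists
    rw [← pair_pt, hP] at hn1
    exact hpx n hn3 hn2 hn1
  · rintro h _ ⟨P, rfl, hP⟩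
    rw [pair_lm, L.ker]
    filter_upwards [h, hP] with n h1 h2
    rw [← pair_pt]
    exact h1 _ h2

lemma finrank_lim (hd : ∀ n, GeneratedInDegree (I n) d) (x : σ → (∀ n, K n))
    (hx : ∀ᶠ n in (L.U : Filter ℕ), pt x n ∈ Cone (I n)) (r : ℕ)
    (hr : ∀ᶠ n in (L.U : Filter ℕ), Module.finrank (K n) (Tangent (I n) (pt x n)) = r) :
    Module.finrank ℂ (Tangent (L.limI I) (L.lm x)) = r := by
  have hch : ∀ n, ∃ b : Fin r → σ → K n,
      Module.finrank (K n) (Tangent (I n) (pt x n)) = r → LinearIndependent (K n) b ∧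
      ∀ v, v ∈ Tangent (I n) (pt x n) ↔ ∃ c : Fin r → K n, v = ∑ j, c j • b j := by
    intro n
    by_cases hn : Module.finrank (K n) (Tangent (I n) (pt x n)) = r
    · obtain ⟨b, hb⟩ := finrank_eq_iff.1 hn
      exact ⟨b, fun _ => hb⟩
    · exact ⟨0, fun h => absurd h hn⟩
  choose b hb using hch
  let bb : Fin r → σ → (∀ n, K n) := fun j i n => b n j i
  have hbb : ∀ j n, pt (bb j) n = b n j := fun j n => rfl
  -- linear combinations
  have hcomb : ∀ c : Fin r → (∀ n, K n),
      (∑ j, L.lm c j • L.lm (bb j)) = L.lm (fun i => ∑ j, c j * bb j i) := by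
    intro c
    funext i
    unfold lm
    rw [Finset.sum_apply, map_sum]
    exact Finset.sum_congr rfl (fun j _ => by simp [map_mul])
  have hcombn : ∀ (c : Fin r → (∀ n, K n)) (n : ℕ),
      pt (fun i => ∑ j, c j * bb j i) n = ∑ j, pt c n j • b n j := by
    intro c n
    funext i
    change (∑ j, c j * bb j i) n = (∑ j, c j n • b n j) i
    rw [Finset.sum_apply, Finset.sum_apply]
    exact Finset.sum_congr rfl (fun j _ => by simp [bb])
  rw [finrank_eq_iff]
  refine ⟨fun j => L.lm (bb j), ?_, ?_⟩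
  · rw [Fintype.linearIndependent_iff]
    intro g hg
    obtain ⟨c, rfl⟩ := L.lm_surj g
    rw [hcomb, lm_eq_zero_iff] at hg
    have : ∀ᶠ n in (L.U : Filter ℕ), pt c n = 0 := by
      filter_upwards [hg, hr] with n h1 h2
      rw [hcombn] at h1
      exact funext ((Fintype.linearIndependent_iff.1 (hb n h2).1) _ h1)
    rw [← lm_eq_zero_iff] at this
    intro i
    rw [this]; rfl
  · intro w
    obtain ⟨v, rfl⟩ := L.lm_surj w
    rw [L.tangent_iff hd x v hx]
    constructor
    · intro h
      have hch : ∀ n, ∃ c : Fin r → K n,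
          (Module.finrank (K n) (Tangent (I n) (pt x n)) = r ∧
            pt v n ∈ Tangent (I n) (pt x n)) → pt v n = ∑ j, c j • b n j := by
        intro n
        by_cases hn : Module.finrank (K n) (Tangent (I n) (pt x n)) = r ∧
            pt v n ∈ Tangent (I n) (pt x n)
        · obtain ⟨c, hc⟩ := ((hb n hn.1).2 _).1 hn.2
          exact ⟨c, fun _ => hc⟩
        · exact ⟨0, fun h => absurd h hn⟩
      choose c hc using hch
      let cc : Fin r → (∀ n, K n) := fun j n => c n j
      refine ⟨L.lm cc, ?_⟩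
      rw [hcomb, lm_eq_iff]
      filter_upwards [h, hr] with n h1 h2
      rw [hcombn]
      exact hc n ⟨h2, h1⟩
    · rintro ⟨g, hg⟩
      obtain ⟨c, rfl⟩ := L.lm_surj g
      rw [hcomb, lm_eq_iff] at hg
      filter_upwards [hg, hr] with n h1 h2
      rw [((hb n h2).2 _)]
      exact ⟨_, by rw [h1, hcombn]⟩

/-- the limit of smooth projective varieties of bounded degree is one. -/
lemma isSmoothProjective_lim (hd : ∀ n, GeneratedInDegree (I n) d) {D : ℕ}
    (hI : ∀ n, IsSmoothProjective (I n) D) : IsSmoothProjective (L.limI I) D where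
  prime := L.limI_prime (fun n => (hI n).prime)
  homogeneous := L.limI_homogeneous (fun n => (hI n).homogeneous)
  nonempty := by
    choose x hx hx0 using fun n => (hI n).nonempty
    let xx : σ → (∀ n, K n) := fun i n => x n i
    refine ⟨L.lm xx, ?_, ?_⟩
    · rw [L.cone_iff hd]
      exact Eventually.of_forall hx
    · rw [lm_ne_zero_iff]
      exact Eventually.of_forall hx0
  smooth := by
    intro w hw hw0
    obtain ⟨x, rfl⟩ := L.lm_surj w
    rw [L.cone_iff hd] at hw
    rw [lm_ne_zero_iff] at hw0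
    refine L.finrank_lim hd x hw _ ?_
    filter_upwards [hw, hw0] with n h1 h2
    exact (hI n).smooth _ h1 h2

end transfer

end Ultra

end Pool.Agent.Work.MP_4329d7_ag.Unif
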