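import Pool.Agent.Work.MP_4329d7_ag.UDefs

/-!
Transfer between a sequence of varieties over fields `K n` and the limit variety over `ℂ`,
where `ℂ` is identified with the ultraproduct of the `K n` by a ring homomorphism `π`.
-/

open MvPolynomial Filter

namespace Pool.Agent.Work.MP_4329d7_ag.Unif

variable {K : ℕ → Type} [∀ n, Field (K n)] {σ : Type} [Fintype σ]

/-- The data of an identification of `ℂ` with the ultraproduct. -/
structure Ultra (K : ℕ → Type) [∀ n, Field (K n)] where
  U : Ultrafilter ℕ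
  π : (∀ n, K n) →+* ℂ
  surj : Function.Surjective π
  ker : ∀ f : ∀ n, K n, π f = 0 ↔ ∀ᶠ n in (U : Filter ℕ), f n = 0

namespace Ultra

variable (L : Ultra K)

/-- the `n`-th member of a polynomial over the product. -/
noncomputable def at' (n : ℕ) (P : MvPolynomial σ (∀ n, K n)) : MvPolynomial σ (K n) :=
  map (Pi.evalRingHom K n) P

/-- the limit of a polynomial over the product. -/
noncomputable def lim (P : MvPolynomial σ (∀ n, K n)) : MvPolynomial σ ℂ := map L.π P

/-- the `n`-th member of a point over the product. -/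
def pt {τ : Type} (x : τ → (∀ n, K n)) (n : ℕ) : τ → K n := fun i => x i n

/-- the limit of a point over the product. -/
def lm {τ : Type} (x : τ → (∀ n, K n)) : τ → ℂ := fun i => L.π (x i)

lemma eval_pt {τ : Type} (x : τ → (∀ n, K n)) (P : MvPolynomial τ (∀ n, K n)) (n : ℕ) :
    eval (pt x n) (at' n P) = (eval x P) n := by
  unfold at' pt
  rw [eval_map]
  have := eval₂_comp_left (Pi.evalRingHom K n) (RingHom.id _) x P
  rw [RingHom.comp_id] at this
  exact this.symm

lemma eval_lm {τ : Type} (x : τ → (∀ n, K n)) (P : MvPolynomial τ (∀ n, K n)) :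
    eval (L.lm x) (L.lim P) = L.π (eval x P) := by
  unfold lim lm
  rw [eval_map]
  have := eval₂_comp_left L.π (RingHom.id _) x P
  rw [RingHom.comp_id] at this
  exact this.symm

lemma π_eq_iff (f g : ∀ n, K n) : L.π f = L.π g ↔ ∀ᶠ n in (L.U : Filter ℕ), f n = g n := by
  rw [← sub_eq_zero, ← map_sub, L.ker]
  simp only [Pi.sub_apply, sub_eq_zero]

lemma π_ne_zero_iff (f : ∀ n, K n) : L.π f ≠ 0 ↔ ∀ᶠ n in (L.U : Filter ℕ), f n ≠ 0 := by
  rw [Ne, L.ker, ← Ultrafilter.eventually_not]

lemma lm_eq_iff {τ : Type} [Finite τ] (x y : τ → (∀ n, K n)) :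
    L.lm x = L.lm y ↔ ∀ᶠ n in (L.U : Filter ℕ), pt x n = pt y n := by
  unfold lm pt
  simp only [funext_iff, L.π_eq_iff, eventually_all]

lemma lm_eq_zero_iff {τ : Type} [Finite τ] (x : τ → (∀ n, K n)) :
    L.lm x = 0 ↔ ∀ᶠ n in (L.U : Filter ℕ), pt x n = 0 := by
  unfold lm pt
  simp only [funext_iff, Pi.zero_apply, L.ker, eventually_all]

lemma lm_ne_zero_iff {τ : Type} [Finite τ] (x : τ → (∀ n, K n)) :
    L.lm x ≠ 0 ↔ ∀ᶠ n in (L.U : Filter ℕ), pt x n ≠ 0 := by
  rw [Ne, L.lm_eq_zero_iff, ← Ultrafilter.eventually_not]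

lemma lm_surj {τ : Type} (z : τ → ℂ) : ∃ x : τ → (∀ n, K n), L.lm x = z := by
  choose x hx using fun i => L.surj (z i)
  exact ⟨x, funext hx⟩

lemma coeff_at' {τ : Type} (n : ℕ) (P : MvPolynomial τ (∀ n, K n)) (s : τ →₀ ℕ) :
    coeff s (at' n P) = coeff s P n := by
  unfold at'
  rw [coeff_map]; rfl

lemma coeff_lim {τ : Type} (P : MvPolynomial τ (∀ n, K n)) (s : τ →₀ ℕ) :
    coeff s (L.lim P) = L.π (coeff s P) := by
  unfold lim
  rw [coeff_map]

lemma lim_eq_zero_iff {τ : Type} (P : MvPolynomial τ (∀ n, K n)) :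
    L.lim P = 0 ↔ ∀ᶠ n in (L.U : Filter ℕ), at' n P = 0 := by
  constructor
  · intro h
    have h1 : ∀ s ∈ P.support, ∀ᶠ n in (L.U : Filter ℕ), coeff s P n = 0 := by
      intro s _
      rw [← L.ker, ← L.coeff_lim, h, coeff_zero]
    have h2 := (Filter.eventually_all_finset P.support).2 h1
    filter_upwards [h2] with n hn
    ext s
    rw [coeff_at', coeff_zero]
    by_cases hs : s ∈ P.support
    · exact hn s hs
    · rw [notMem_support_iff.1 hs]; rfl
  · intro h
    ext s
    rw [coeff_lim, coeff_zero, L.ker]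
    filter_upwards [h] with n hn
    rw [← coeff_at', hn, coeff_zero]

lemma lim_eq_iff {τ : Type} (P Q : MvPolynomial τ (∀ n, K n)) :
    L.lim P = L.lim Q ↔ ∀ᶠ n in (L.U : Filter ℕ), at' n P = at' n Q := by
  have h := L.lim_eq_zero_iff (P - Q)
  have h1 : L.lim (P - Q) = L.lim P - L.lim Q := by unfold lim; rw [map_sub]
  have h2 : ∀ n, at' n (P - Q) = at' n P - at' n Q := by intro n; unfold at'; rw [map_sub]
  rw [h1, sub_eq_zero] at h
  rw [h]
  simp only [h2, sub_eq_zero]

/-- assembling a sequence of polynomials of bounded degree. -/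
lemma exists_assemble {τ : Type} [Fintype τ] (d : ℕ) (p : ∀ n, MvPolynomial τ (K n))
    (hp : ∀ n, (p n).totalDegree ≤ d) :
    ∃ P : MvPolynomial τ (∀ n, K n), ∀ n, at' n P = p n := by
  classical
  let c : τ →₀ ℕ := Finsupp.equivFunOnFinite.symm (fun _ => d)
  refine ⟨∑ s ∈ Finset.Iic c, monomial s (fun n => coeff s (p n)), fun n => ?_⟩
  ext s
  rw [coeff_at', coeff_sum]
  simp only [coeff_monomial]
  rw [Finset.sum_ite_eq' (Finset.Iic c) s]
  by_cases hs : s ∈ Finset.Iic c
  · rw [if_pos hs]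
  · rw [if_neg hs]
    have : s ∉ (p n).support := by
      intro hmem
      apply hs
      rw [Finset.mem_Iic]
      intro i
      have h1 : s i ≤ s.sum (fun _ e => e) := by
        rw [Finsupp.sum_fintype _ _ (fun _ => rfl)]
        exact Finset.single_le_sum (f := fun i => s i) (fun _ _ => Nat.zero_le _)
          (Finset.mem_univ i)
      exact h1.trans ((le_totalDegree hmem).trans (hp n))
    rw [notMem_support_iff.1 this]; rfl

/-- lifting a polynomial over `ℂ`, keeping the support. -/
lemma exists_lift {τ : Type} (Q : MvPolynomial τ ℂ) :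
    ∃ P : MvPolynomial τ (∀ n, K n), L.lim P = Q ∧ P.support ⊆ Q.support := by
  classical
  choose s hs using L.surj
  have hc : ∀ t, coeff t (∑ u ∈ Q.support, monomial u (s (coeff u Q)) :
      MvPolynomial τ (∀ n, K n)) = if t ∈ Q.support then s (coeff t Q) else 0 := by
    intro t
    rw [coeff_sum]
    simp only [coeff_monomial]
    rw [Finset.sum_ite_eq' Q.support t]
  refine ⟨∑ u ∈ Q.support, monomial u (s (coeff u Q)), ?_, ?_⟩
  · ext t
    rw [coeff_lim, hc]
    by_cases ht : t ∈ Q.support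
    · rw [if_pos ht, hs]
    · rw [if_neg ht, map_zero, notMem_support_iff.1 ht]
  · intro t ht
    by_contra h
    rw [mem_support_iff, hc, if_neg h] at ht
    exact ht rfl

lemma support_at'_subset {τ : Type} (n : ℕ) (P : MvPolynomial τ (∀ n, K n)) :
    (at' n P).support ⊆ P.support := by
  unfold at'
  exact support_map_subset _ _

lemma totalDegree_at'_le {τ : Type} (n : ℕ) {P : MvPolynomial τ (∀ n, K n)}
    {Q : MvPolynomial τ ℂ} (h : P.support ⊆ Q.support) :
    (at' n P).totalDegree ≤ Q.totalDegree :=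
  Finset.sup_mono ((support_at'_subset n P).trans h)

lemma isHomogeneous_at' {τ : Type} (n : ℕ) {P : MvPolynomial τ (∀ n, K n)}
    {Q : MvPolynomial τ ℂ} (h : P.support ⊆ Q.support) {e : ℕ} (hQ : Q.IsHomogeneous e) :
    (at' n P).IsHomogeneous e := by
  intro s hs
  exact hQ (mem_support_iff.1 (h (support_at'_subset n P (mem_support_iff.2 hs))))

end Ultra

end Pool.Agent.Work.MP_4329d7_ag.Unif
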