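import Pool.Agent.Work.MP_4329d7_ag.UField

/-!
The uniform form of Mumford's conjecture.
-/

open MvPolynomial Filter Cardinal

namespace Pool.Agent.Work.MP_4329d7_ag.Unif

section power

variable {k : Type} [Field k] {σ : Type} [Fintype σ]

/-- the tensor power. -/
def tpow (q m : ℕ) (T : (σ → k) → (Fin m → σ → k) → k) :
    (σ → k) → (Fin (q * m) → σ → k) → k :=
  fun x v => ∏ b : Fin q, T x (fun j => v (finProdFinEquiv (b, j)))

lemma tpow_isTensorDifferential {I : Ideal (MvPolynomial σ k)} {m B : ℕ} (q : ℕ)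
    {T : (σ → k) → (Fin m → σ → k) → k} (hT : IsTensorDifferential I m B T) :
    IsTensorDifferential I (q * m) (B * q) (tpow q m T) where
  regular := by
    classical
    intro a
    obtain ⟨N, P, hN, hPd, hP⟩ := hT.regular a
    refine ⟨N * q, fun w => ∏ b : Fin q, P (fun j => w (finProdFinEquiv (b, j))),
      Nat.mul_le_mul_right q hN, fun w => ?_, ?_⟩
    · refine (totalDegree_finsetProd _ _).trans ?_
      refine (Finset.sum_le_sum (fun b _ => hPd _)).trans ?_
      rw [Finset.sum_const, Finset.card_univ, Fintype.card_fin, smul_eq_mul, mul_comm]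
    intro x hx hxa v hv
    have h1 : x a ^ (N * q) * tpow q m T x v =
        ∏ b : Fin q, (x a ^ N * T x (fun j => v (finProdFinEquiv (b, j)))) := by
      rw [Finset.prod_mul_distrib, Finset.prod_const, Finset.card_univ, Fintype.card_fin, pow_mul]
      rfl
    rw [h1]
    have h2 : ∀ b : Fin q, x a ^ N * T x (fun j => v (finProdFinEquiv (b, j))) =
        ∑ w : Fin m → σ, eval x (P w) * ∏ j, v (finProdFinEquiv (b, j)) (w j) :=
      fun b => hP x hx hxa _ (fun j => hv _)
    rw [Finset.prod_congr rfl (fun b _ => h2 b), Finset.prod_univ_sum, Fintype.piFinset_univ]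
    let E : (Fin (q * m) → σ) ≃ (Fin q → Fin m → σ) :=
      (Equiv.arrowCongr finProdFinEquiv.symm (Equiv.refl σ)).trans (Equiv.curry _ _ _)
    rw [← E.sum_comp]
    refine Finset.sum_congr rfl (fun w _ => ?_)
    have hE : ∀ b j, E w b j = w (finProdFinEquiv (b, j)) := fun b j => rfl
    rw [Finset.prod_mul_distrib, map_prod]
    congr 1
    rw [← finProdFinEquiv.prod_comp, Fintype.prod_prod_type]
    simp only [hE]
  scaling := by
    intro x hx hx0 v hv c hc
    unfold tpow
    exact Finset.prod_congr rfl (fun b _ => hT.scaling x hx hx0 _ (fun j => hv _) c hc)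
  radial := by
    intro x hx hx0 v hv hj
    obtain ⟨j, hj⟩ := hj
    obtain ⟨⟨b, i⟩, rfl⟩ := finProdFinEquiv.surjective j
    unfold tpow
    exact Finset.prod_eq_zero (Finset.mem_univ b)
      (hT.radial x hx hx0 _ (fun j => hv _) ⟨i, hj⟩)

lemma hasTensorDifferential_mul {I : Ideal (MvPolynomial σ k)} {m B : ℕ} (q : ℕ)
    (h : HasTensorDifferential I m B) : HasTensorDifferential I (q * m) (B * q) := by
  obtain ⟨T, hT, x, hx, hx0, v, hv, hTv⟩ := h
  refine ⟨_, tpow_isTensorDifferential q hT, x, hx, hx0,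
    (fun l => v (finProdFinEquiv.symm l).2), fun l => hv _, ?_⟩
  unfold tpow
  simp only [Equiv.symm_apply_apply]
  exact Finset.prod_ne_zero_iff.2 (fun _ _ => hTv)

lemma exists_generatedInDegree (I : Ideal (MvPolynomial σ k)) :
    ∃ d, GeneratedInDegree I d := by
  obtain ⟨S, hS⟩ := IsNoetherian.noetherian I
  refine ⟨S.sup totalDegree, ?_⟩
  unfold GeneratedInDegree
  apply le_antisymm
  · rw [Ideal.span_le]
    intro p hp
    exact hp.1
  · conv_lhs => rw [← hS]
    apply Ideal.span_mono
    intro p hp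
    refine ⟨?_, Finset.le_sup (f := totalDegree) hp⟩
    rw [← hS]
    exact Ideal.subset_span hp

lemma HasTensorDifferential.mono {I : Ideal (MvPolynomial σ k)} {m B B' : ℕ}
    (h : HasTensorDifferential I m B) (hB : B ≤ B') : HasTensorDifferential I m B' := by
  obtain ⟨T, hT, hx⟩ := h
  refine ⟨T, ⟨fun a => ?_, hT.scaling, hT.radial⟩, hx⟩
  obtain ⟨N, P, hN, hPd, hP⟩ := hT.regular a
  exact ⟨N, P, hN.trans hB, fun w => (hPd w).trans hB, hP⟩

end power

/-- Mumford's conjecture in dimension `D`. -/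
def MumfordConjecture (D : ℕ) : Prop :=
  ∀ (σ : Type) [Fintype σ] (I : Ideal (MvPolynomial σ ℂ)), IsSmoothProjective I D →
    (∀ m, 0 < m → ∀ B, ¬ HasTensorDifferential I m B) → RationallyConnected I

/-- One exponent suffices on every bounded family. -/
def OneExponent (D : ℕ) : Prop :=
  ∀ (σ : Type) [Fintype σ] (d : ℕ), ∃ m, 0 < m ∧
    ∀ I : Ideal (MvPolynomial σ ℂ), IsSmoothProjective I D → GeneratedInDegree I d →
      (∀ B, ¬ HasTensorDifferential I m B) → RationallyConnected I

/-- The effective form over all algebraically closed fields of characteristic zero or large. -/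
def Effective (D : ℕ) : Prop :=
  ∀ (σ : Type) [Fintype σ] (d : ℕ), ∃ B : ℕ,
    ∀ (K : Type) [Field K] [IsAlgClosed K], #K ≤ 𝔠 →
      (∀ p : ℕ, p.Prime → (p : K) = 0 → B < p) →
      ∀ I : Ideal (MvPolynomial σ K), IsSmoothProjective I D → GeneratedInDegree I d →
        (∃ m, 0 < m ∧ m ≤ B ∧ HasTensorDifferential I m B) ∨
        (∀ x ∈ Cone I, x ≠ 0 → ∀ y ∈ Cone I, y ≠ 0 → ∃ e, e ≤ B ∧ Joined I x y e)

theorem effective_of_mumford {D : ℕ} (h : MumfordConjecture D) : Effective D := by
  intro σ _ d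
  by_contra hcon
  push Not at hcon
  choose K hF hA hcard hchar I hI hd hno x hx hx0 y hy hy0 hj using hcon
  obtain ⟨L, hL⟩ := exists_ultra K hcard hchar
  have hd' : ∀ n, GeneratedInDegree (I n) d := hd
  have hsm := L.isSmoothProjective_lim hd' hI
  have hrc := h σ (L.limI I) hsm (by
    intro m hm B hB
    have h1 := L.hasTensorDifferential_of_lim hd' (fun n => (hI n).homogeneous) hB
    obtain ⟨n, hn1, hn2⟩ := (h1.and (hL (max m B))).exists
    exact hno n m hm ((le_max_left m B).trans hn2) (hn1.mono ((le_max_right m B).trans hn2)))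
  let xx : σ → (∀ n, K n) := fun i n => x n i
  let yy : σ → (∀ n, K n) := fun i n => y n i
  obtain ⟨e, he⟩ := hrc (L.lm xx)
    ((L.cone_iff hd' xx).2 (Eventually.of_forall hx))
    ((L.lm_ne_zero_iff xx).2 (Eventually.of_forall hx0))
    (L.lm yy)
    ((L.cone_iff hd' yy).2 (Eventually.of_forall hy))
    ((L.lm_ne_zero_iff yy).2 (Eventually.of_forall hy0))
  have h2 := L.joined_of_lim hd' xx yy he
  obtain ⟨n, hn1, hn2⟩ := (h2.and (hL e)).exists
  exact hj n e hn2 hn1

theorem oneExponent_of_effective {D : ℕ} (h : Effective D) : OneExponent D := by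
  intro σ _ d
  obtain ⟨B, hB⟩ := h σ d
  refine ⟨B.factorial, B.factorial_pos, fun I hI hd hno => ?_⟩
  rcases hB ℂ (by rw [mk_complex]) (fun p hp h0 => by
    exact absurd (Nat.cast_eq_zero.1 h0) hp.ne_zero) I hI hd with ⟨m, hm, hmB, hT⟩ | hJ
  · obtain ⟨q, hq⟩ := Nat.dvd_factorial hm hmB
    have := hasTensorDifferential_mul q hT
    rw [mul_comm q m, ← hq] at this
    exact absurd this (hno _)
  · intro x hx hx0 y hy hy0
    obtain ⟨e, _, he⟩ := hJ x hx hx0 y hy hy0
    exact ⟨e, he⟩

theorem mumford_of_oneExponent {D : ℕ} (h : OneExponent D) : MumfordConjecture D := by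
  intro σ _ I hI hno
  obtain ⟨d, hd⟩ := exists_generatedInDegree I
  obtain ⟨m, hm, H⟩ := h σ d
  exact H I hI hd (fun B => hno m hm B)

theorem main (D : ℕ) : List.TFAE [MumfordConjecture D, OneExponent D, Effective D] := by
  tfae_have 1 → 3 := effective_of_mumford
  tfae_have 3 → 2 := oneExponent_of_effective
  tfae_have 2 → 1 := mumford_of_oneExponent
  tfae_finish

end Pool.Agent.Work.MP_4329d7_ag.Unif
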