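import Pool.Agent.Work.MP_4329d7_ag.ULimit

/-!
Transfer of tensor differentials and of rational curves.
-/

open MvPolynomial Filter

set_option linter.unusedSectionVars false

namespace Pool.Agent.Work.MP_4329d7_ag.Unif

section single

variable {k : Type} [Field k] {σ : Type} [Fintype σ]

lemma pderiv_isHomogeneous' {p : MvPolynomial σ k} {e : ℕ} (hp : p.IsHomogeneous (e + 1)) (i : σ) :
    (pderiv i p).IsHomogeneous e := by
  have := hp.pderiv (i := i)
  simpa using this

lemma eval_smul_homogeneous {p : MvPolynomial σ k} {n : ℕ} (hp : p.IsHomogeneous n) (c : k)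
    (x : σ → k) : eval (c • x) p = c ^ n * eval x p := by
  rw [eval_eq, eval_eq, Finset.mul_sum]
  refine Finset.sum_congr rfl (fun s hs => ?_)
  have hdeg := hp (mem_support_iff.1 hs)
  simp only [Pi.smul_apply, smul_eq_mul, mul_pow, Finset.prod_mul_distrib]
  have : ∏ i ∈ s.support, c ^ s i = c ^ n := by
    rw [Finset.prod_pow_eq_pow_sum]
    congr 1
    rw [← hdeg, Finsupp.weight_apply]
    simp [Finsupp.sum]
  rw [this]
  ring

/-- the cone is invariant under scaling. -/
lemma smul_mem_cone' {I : Ideal (MvPolynomial σ k)}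
    (hI : ∀ p ∈ I, ∀ n : ℕ, homogeneousComponent n p ∈ I) {x : σ → k} (hx : x ∈ Cone I) (c : k) :
    c • x ∈ Cone I := by
  intro p hp
  rw [← sum_homogeneousComponent p, map_sum]
  refine Finset.sum_eq_zero (fun n _ => ?_)
  rw [eval_smul_homogeneous (homogeneousComponent_isHomogeneous n p), hx _ (hI p hp n), mul_zero]

lemma tangent_smul' {I : Ideal (MvPolynomial σ k)}
    (hI : ∀ p ∈ I, ∀ n : ℕ, homogeneousComponent n p ∈ I) {x v : σ → k}
    (hv : v ∈ Tangent I x) (c : k) : c • v ∈ Tangent I (c • x) := by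
  intro p hp
  have hlin : ∀ n : ℕ, ∑ i, eval (c • x) (pderiv i (homogeneousComponent n p)) * (c • v) i = 0 := by
    intro n
    have h1 := hv _ (hI p hp n)
    have h2 := homogeneousComponent_isHomogeneous n p
    have h3 : ∀ i, eval (c • x) (pderiv i (homogeneousComponent n p)) * (c • v) i =
        c ^ n * (eval x (pderiv i (homogeneousComponent n p)) * v i) := by
      intro i
      rcases n with _ | e
      · have h4 : pderiv i (homogeneousComponent 0 p) = 0 := by
          rw [homogeneousComponent_zero, pderiv_C]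
        rw [h4]; simp
      · rw [eval_smul_homogeneous (pderiv_isHomogeneous' h2 i)]
        simp only [Pi.smul_apply, smul_eq_mul]
        ring
    simp only [h3]
    rw [← Finset.mul_sum, h1, mul_zero]
  have hsum : ∀ i, eval (c • x) (pderiv i p) * (c • v) i =
      ∑ n ∈ Finset.range (p.totalDegree + 1),
        eval (c • x) (pderiv i (homogeneousComponent n p)) * (c • v) i := by
    intro i
    rw [← Finset.sum_mul, ← map_sum, ← map_sum, sum_homogeneousComponent]
  simp only [hsum]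
  rw [Finset.sum_comm]
  exact Finset.sum_eq_zero (fun n _ => hlin n)

/-- the local expression of a tensor differential. -/
noncomputable def expr {m : ℕ} (P : (Fin m → σ) → MvPolynomial σ k) (x : σ → k) (v : Fin m → σ → k) : k :=
  ∑ w : Fin m → σ, eval x (P w) * ∏ j, v j (w j)

end single

variable {K : ℕ → Type} [∀ n, Field (K n)] {σ : Type} [Fintype σ]

namespace Ultra

variable (L : Ultra K) {I : ∀ n, Ideal (MvPolynomial σ (K n))}

lemma expr_pt {m : ℕ} (P : (Fin m → σ) → MvPolynomial σ (∀ n, K n)) (x : σ → (∀ n, K n))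
    (v : Fin m → σ → (∀ n, K n)) (n : ℕ) :
    expr (fun w => at' n (P w)) (pt x n) (fun j => pt (v j) n) =
      (∑ w : Fin m → σ, eval x (P w) * ∏ j, v j (w j)) n := by
  unfold expr
  rw [Finset.sum_apply]
  refine Finset.sum_congr rfl (fun w _ => ?_)
  rw [eval_pt, Pi.mul_apply, Finset.prod_apply]
  rfl

lemma expr_lm {m : ℕ} (P : (Fin m → σ) → MvPolynomial σ (∀ n, K n)) (x : σ → (∀ n, K n))
    (v : Fin m → σ → (∀ n, K n)) :
    expr (fun w => L.lim (P w)) (L.lm x) (fun j => L.lm (v j)) =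
      L.π (∑ w : Fin m → σ, eval x (P w) * ∏ j, v j (w j)) := by
  unfold expr
  rw [map_sum]
  refine Finset.sum_congr rfl (fun w _ => ?_)
  rw [eval_lm, map_mul, map_prod]
  rfl

lemma lm_smul (c : ∀ n, K n) {τ : Type} (x : τ → (∀ n, K n)) : L.lm (c • x) = L.π c • L.lm x := by
  funext i
  simp [lm]

lemma pt_smul (c : ∀ n, K n) {τ : Type} (x : τ → (∀ n, K n)) (n : ℕ) :
    pt (c • x) n = c n • pt x n := by
  funext i
  simp [pt]

variable {d : ℕ}

/-- Transfer of nonzero tensor differentials. -/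
lemma hasTensorDifferential_of_lim (hd : ∀ n, GeneratedInDegree (I n) d)
    (hom : ∀ n, ∀ p ∈ I n, ∀ k : ℕ, homogeneousComponent k p ∈ I n) {m B : ℕ}
    (h : HasTensorDifferential (L.limI I) m B) :
    ∀ᶠ n in (L.U : Filter ℕ), HasTensorDifferential (I n) m B := by
  classical
  obtain ⟨T, hT, x0, hx0, hx00, v0, hv0, hTx0⟩ := h
  choose N Q hN hQ hreg using hT.regular
  choose P hPQ hPs using fun a w => L.exists_lift (Q a w)
  -- the local expressions for the members of the sequence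
  let S : ∀ n, σ → (σ → K n) → (Fin m → σ → K n) → K n :=
    fun n a x v => expr (fun w => at' n (P a w)) x v
  -- value over ℂ
  have hval : ∀ (a : σ) (x : σ → (∀ n, K n)) (v : Fin m → σ → (∀ n, K n)),
      L.lm x ∈ Cone (L.limI I) → L.lm x a ≠ 0 →
      (∀ j, L.lm (v j) ∈ Tangent (L.limI I) (L.lm x)) →
      L.lm x a ^ N a * T (L.lm x) (fun j => L.lm (v j)) =
        L.π (∑ w : Fin m → σ, eval x (P a w) * ∏ j, v j (w j)) := by
    intro a x v hx hxa hv
    rw [← expr_lm, hreg a _ hx hxa _ hv]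
    unfold expr
    simp only [hPQ]
  have hom' := L.limI_homogeneous hom
  -- compatibility of the charts
  have hcompat : ∀ a b : σ, ∀ᶠ n in (L.U : Filter ℕ), ∀ x ∈ Cone (I n), x a ≠ 0 → x b ≠ 0 →
      ∀ v : Fin m → σ → K n, (∀ j, v j ∈ Tangent (I n) x) →
      x b ^ N b * S n a x v = x a ^ N a * S n b x v := by
    intro a b
    by_contra hcon
    rw [← Ultrafilter.eventually_not] at hcon
    have hch : ∀ n, ∃ (x : σ → K n) (v : Fin m → σ → K n),
        (¬ ∀ x ∈ Cone (I n), x a ≠ 0 → x b ≠ 0 →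
          ∀ v : Fin m → σ → K n, (∀ j, v j ∈ Tangent (I n) x) →
          x b ^ N b * S n a x v = x a ^ N a * S n b x v) →
        (x ∈ Cone (I n) ∧ x a ≠ 0 ∧ x b ≠ 0 ∧ (∀ j, v j ∈ Tangent (I n) x) ∧
          x b ^ N b * S n a x v ≠ x a ^ N a * S n b x v) := by
      intro n
      by_cases hn : ∀ x ∈ Cone (I n), x a ≠ 0 → x b ≠ 0 →
          ∀ v : Fin m → σ → K n, (∀ j, v j ∈ Tangent (I n) x) →
          x b ^ N b * S n a x v = x a ^ N a * S n b x v
      · exact ⟨0, 0, fun h => absurd hn h⟩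
      · have hn' := hn
        push Not at hn
        obtain ⟨x, hx, h1, h2, v, hv, h3⟩ := hn
        exact ⟨x, v, fun _ => ⟨hx, h1, h2, hv, h3⟩⟩
    choose x v hxv using hch
    let xx : σ → (∀ n, K n) := fun i n => x n i
    let vv : Fin m → σ → (∀ n, K n) := fun j i n => v n j i
    have hall : ∀ᶠ n in (L.U : Filter ℕ), (x n ∈ Cone (I n) ∧ x n a ≠ 0 ∧ x n b ≠ 0 ∧
        (∀ j, v n j ∈ Tangent (I n) (x n)) ∧
          x n b ^ N b * S n a (x n) (v n) ≠ x n a ^ N a * S n b (x n) (v n)) := by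
      filter_upwards [hcon] with n hn using hxv n hn
    have c1 : ∀ᶠ n in (L.U : Filter ℕ), pt xx n ∈ Cone (I n) := hall.mono (fun n h => h.1)
    have c1' := (L.cone_iff hd xx).2 c1
    have c2 : L.lm xx a ≠ 0 := (L.π_ne_zero_iff _).2 (hall.mono (fun n h => h.2.1))
    have c3 : L.lm xx b ≠ 0 := (L.π_ne_zero_iff _).2 (hall.mono (fun n h => h.2.2.1))
    have c4 : ∀ j, L.lm (vv j) ∈ Tangent (L.limI I) (L.lm xx) := fun j =>
      (L.tangent_iff hd xx (vv j) c1).2 (hall.mono (fun n h => h.2.2.2.1 j))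
    have e1 := hval a xx vv c1' c2 c4
    have e2 := hval b xx vv c1' c3 c4
    have e3 : L.lm xx b ^ N b * L.π (∑ w : Fin m → σ, eval xx (P a w) * ∏ j, vv j (w j)) =
        L.lm xx a ^ N a * L.π (∑ w : Fin m → σ, eval xx (P b w) * ∏ j, vv j (w j)) := by
      rw [← e1, ← e2]; ring
    have e4 : L.π (xx b ^ N b * ∑ w : Fin m → σ, eval xx (P a w) * ∏ j, vv j (w j)) =
        L.π (xx a ^ N a * ∑ w : Fin m → σ, eval xx (P b w) * ∏ j, vv j (w j)) := by
      rw [map_mul, map_mul, map_pow, map_pow]; exact e3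
    rw [L.π_eq_iff] at e4
    obtain ⟨n, hn1, hn2⟩ := (e4.and hall).exists
    apply hn2.2.2.2.2
    rw [Pi.mul_apply, Pi.mul_apply, ← expr_pt, ← expr_pt, Pi.pow_apply, Pi.pow_apply] at hn1
    exact hn1
  -- scaling
  have hscale : ∀ a : σ, ∀ᶠ n in (L.U : Filter ℕ), ∀ x ∈ Cone (I n), x a ≠ 0 →
      ∀ v : Fin m → σ → K n, (∀ j, v j ∈ Tangent (I n) x) → ∀ c : K n, c ≠ 0 →
      x a ^ N a * S n a (c • x) (fun j => c • v j) = (c * x a) ^ N a * S n a x v := by
    intro a
    by_contra hcon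
    rw [← Ultrafilter.eventually_not] at hcon
    have hch : ∀ n, ∃ (x : σ → K n) (v : Fin m → σ → K n) (c : K n),
        (¬ ∀ x ∈ Cone (I n), x a ≠ 0 →
          ∀ v : Fin m → σ → K n, (∀ j, v j ∈ Tangent (I n) x) → ∀ c : K n, c ≠ 0 →
          x a ^ N a * S n a (c • x) (fun j => c • v j) = (c * x a) ^ N a * S n a x v) →
        (x ∈ Cone (I n) ∧ x a ≠ 0 ∧ (∀ j, v j ∈ Tangent (I n) x) ∧ c ≠ 0 ∧
          x a ^ N a * S n a (c • x) (fun j => c • v j) ≠ (c * x a) ^ N a * S n a x v) := by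
      intro n
      by_cases hn : ∀ x ∈ Cone (I n), x a ≠ 0 →
          ∀ v : Fin m → σ → K n, (∀ j, v j ∈ Tangent (I n) x) → ∀ c : K n, c ≠ 0 →
          x a ^ N a * S n a (c • x) (fun j => c • v j) = (c * x a) ^ N a * S n a x v
      · exact ⟨0, 0, 0, fun h => absurd hn h⟩
      · have hn' := hn
        push Not at hn
        obtain ⟨x, hx, h1, v, hv, c, hc, h3⟩ := hn
        exact ⟨x, v, c, fun _ => ⟨hx, h1, hv, hc, h3⟩⟩
    choose x v c hxv using hch
    let xx : σ → (∀ n, K n) := fun i n => x n i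
    let vv : Fin m → σ → (∀ n, K n) := fun j i n => v n j i
    have hall : ∀ᶠ n in (L.U : Filter ℕ), (x n ∈ Cone (I n) ∧ x n a ≠ 0 ∧
        (∀ j, v n j ∈ Tangent (I n) (x n)) ∧ c n ≠ 0 ∧
          x n a ^ N a * S n a (c n • x n) (fun j => c n • v n j) ≠
            (c n * x n a) ^ N a * S n a (x n) (v n)) := by
      filter_upwards [hcon] with n hn using hxv n hn
    have c1 : ∀ᶠ n in (L.U : Filter ℕ), pt xx n ∈ Cone (I n) := hall.mono (fun n h => h.1)
    have c1' := (L.cone_iff hd xx).2 c1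
    have c2 : L.lm xx a ≠ 0 := (L.π_ne_zero_iff _).2 (hall.mono (fun n h => h.2.1))
    have c3 : L.π c ≠ 0 := (L.π_ne_zero_iff _).2 (hall.mono (fun n h => h.2.2.2.1))
    have c4 : ∀ j, L.lm (vv j) ∈ Tangent (L.limI I) (L.lm xx) := fun j =>
      (L.tangent_iff hd xx (vv j) c1).2 (hall.mono (fun n h => h.2.2.1 j))
    have c5 : L.lm (c • xx) ∈ Cone (L.limI I) := by
      rw [lm_smul]; exact smul_mem_cone' hom' c1' _
    have c6 : ∀ j, L.lm (c • vv j) ∈ Tangent (L.limI I) (L.lm (c • xx)) := by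
      intro j
      rw [lm_smul, lm_smul]
      exact tangent_smul' hom' (c4 j) _
    have c7 : L.lm (c • xx) a ≠ 0 := by
      rw [lm_smul]
      exact mul_ne_zero c3 c2
    have hxx0 : L.lm xx ≠ 0 := fun h => c2 (by rw [h]; rfl)
    have e1 := hval a xx vv c1' c2 c4
    have e2 := hval a (c • xx) (fun j => c • vv j) c5 c7 c6
    have e3 := hT.scaling _ c1' hxx0 _ c4 (L.π c) c3
    have e5 : (fun j => L.lm (c • vv j)) = fun j => L.π c • L.lm (vv j) := by
      funext j; rw [lm_smul]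
    rw [e5, lm_smul, e3] at e2
    have e6 : (L.π c • L.lm xx) a = L.π c * L.lm xx a := rfl
    rw [e6] at e2
    have e4 : L.π (xx a ^ N a * ∑ w : Fin m → σ, eval (c • xx) (P a w) *
          ∏ j, (c • vv j) (w j)) =
        L.π ((c * xx a) ^ N a * ∑ w : Fin m → σ, eval xx (P a w) * ∏ j, vv j (w j)) := by
      rw [map_mul, map_mul, map_pow, map_pow, map_mul, ← e1, ← e2]
      change L.lm xx a ^ N a * _ = (L.π c * L.lm xx a) ^ N a * _
      ring
    rw [L.π_eq_iff] at e4
    obtain ⟨n, hn1, hn2⟩ := (e4.and hall).exists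
    apply hn2.2.2.2.2
    have f1 := expr_pt (P a) (c • xx) (fun j => c • vv j) n
    have f2 := expr_pt (P a) xx vv n
    rw [Pi.mul_apply, Pi.mul_apply, ← f2, Pi.pow_apply, Pi.pow_apply, Pi.mul_apply] at hn1
    have f3 : (∑ w : Fin m → σ, eval (c • xx) (P a w) * ∏ j, (c • vv j) (w j)) n =
        S n a (c n • x n) (fun j => c n • v n j) := by
      rw [← f1]
      simp only [pt_smul]
      rfl
    rw [f3] at hn1
    exact hn1
  -- radial
  have hradial : ∀ a : σ, ∀ᶠ n in (L.U : Filter ℕ), ∀ x ∈ Cone (I n), x a ≠ 0 →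
      ∀ v : Fin m → σ → K n, (∀ j, v j ∈ Tangent (I n) x) → (∃ j, v j = x) →
      S n a x v = 0 := by
    intro a
    by_contra hcon
    rw [← Ultrafilter.eventually_not] at hcon
    have hch : ∀ n, ∃ (x : σ → K n) (v : Fin m → σ → K n),
        (¬ ∀ x ∈ Cone (I n), x a ≠ 0 →
          ∀ v : Fin m → σ → K n, (∀ j, v j ∈ Tangent (I n) x) → (∃ j, v j = x) →
          S n a x v = 0) →
        (x ∈ Cone (I n) ∧ x a ≠ 0 ∧ (∀ j, v j ∈ Tangent (I n) x) ∧ (∃ j, v j = x) ∧
          S n a x v ≠ 0) := by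
      intro n
      by_cases hn : ∀ x ∈ Cone (I n), x a ≠ 0 →
          ∀ v : Fin m → σ → K n, (∀ j, v j ∈ Tangent (I n) x) → (∃ j, v j = x) →
          S n a x v = 0
      · exact ⟨0, 0, fun h => absurd hn h⟩
      · have hn' := hn
        push Not at hn
        obtain ⟨x, hx, h1, v, hv, hj, h3⟩ := hn
        exact ⟨x, v, fun _ => ⟨hx, h1, hv, hj, h3⟩⟩
    choose x v hxv using hch
    let xx : σ → (∀ n, K n) := fun i n => x n i
    let vv : Fin m → σ → (∀ n, K n) := fun j i n => v n j i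
    have hall : ∀ᶠ n in (L.U : Filter ℕ), (x n ∈ Cone (I n) ∧ x n a ≠ 0 ∧
        (∀ j, v n j ∈ Tangent (I n) (x n)) ∧ (∃ j, v n j = x n) ∧
          S n a (x n) (v n) ≠ 0) := by
      filter_upwards [hcon] with n hn using hxv n hn
    have c1 : ∀ᶠ n in (L.U : Filter ℕ), pt xx n ∈ Cone (I n) := hall.mono (fun n h => h.1)
    have c1' := (L.cone_iff hd xx).2 c1
    have c2 : L.lm xx a ≠ 0 := (L.π_ne_zero_iff _).2 (hall.mono (fun n h => h.2.1))
    have c4 : ∀ j, L.lm (vv j) ∈ Tangent (L.limI I) (L.lm xx) := fun j =>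
      (L.tangent_iff hd xx (vv j) c1).2 (hall.mono (fun n h => h.2.2.1 j))
    have hxx0 : L.lm xx ≠ 0 := fun h => c2 (by rw [h]; rfl)
    have c5 : ∃ j, L.lm (vv j) = L.lm xx := by
      by_contra hj
      push Not at hj
      have h1 : ∀ j, ∀ᶠ n in (L.U : Filter ℕ), v n j ≠ x n := by
        intro j
        have := hj j
        rw [Ne, L.lm_eq_iff, ← Ultrafilter.eventually_not] at this
        exact this
      have h2 := (eventually_all.2 h1).and (hall.mono (fun n h => h.2.2.2.1))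
      obtain ⟨n, hn1, j, hn2⟩ := h2.exists
      exact hn1 j hn2
    have e1 := hval a xx vv c1' c2 c4
    rw [hT.radial _ c1' hxx0 _ c4 c5, mul_zero] at e1
    rw [eq_comm, L.ker] at e1
    obtain ⟨n, hn1, hn2⟩ := (e1.and hall).exists
    apply hn2.2.2.2.2
    rw [← expr_pt] at hn1
    exact hn1
  -- nonvanishing
  obtain ⟨x, rfl⟩ := L.lm_surj x0
  choose v hv using fun j => L.lm_surj (v0 j)
  obtain rfl : (fun j => L.lm (v j)) = v0 := funext hv
  obtain ⟨a0, ha0⟩ : ∃ a, L.lm x a ≠ 0 := by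
    by_contra h
    push Not at h
    exact hx00 (funext h)
  have hne : ∀ᶠ n in (L.U : Filter ℕ), S n a0 (pt x n) (fun j => pt (v j) n) ≠ 0 := by
    have e1 := hval a0 x v hx0 ha0 hv0
    have e2 : L.π (∑ w : Fin m → σ, eval x (P a0 w) * ∏ j, v j (w j)) ≠ 0 := by
      rw [← e1]
      exact mul_ne_zero (pow_ne_zero _ ha0) hTx0
    rw [π_ne_zero_iff] at e2
    filter_upwards [e2] with n hn
    rw [← expr_pt] at hn
    exact hn
  have hxC : ∀ᶠ n in (L.U : Filter ℕ), pt x n ∈ Cone (I n) := (L.cone_iff hd x).1 hx0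
  have hxa : ∀ᶠ n in (L.U : Filter ℕ), pt x n a0 ≠ 0 := (L.π_ne_zero_iff _).1 ha0
  have hvT : ∀ᶠ n in (L.U : Filter ℕ), ∀ j, pt (v j) n ∈ Tangent (I n) (pt x n) := by
    rw [eventually_all]
    intro j
    exact (L.tangent_iff hd x (v j) hxC).1 (hv0 j)
  have hcompat' := eventually_all.2 (fun a => eventually_all.2 (hcompat a))
  have hscale' := eventually_all.2 hscale
  have hradial' := eventually_all.2 hradial
  filter_upwards [hne, hxC, hxa, hvT, hcompat', hscale', hradial'] with n h1 h2 h3 h4 h5 h6 h7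
  -- the tensor differential on the n-th variety
  let Tn : (σ → K n) → (Fin m → σ → K n) → K n := fun x v =>
    if h : ∃ a, x a ≠ 0 then (x h.choose ^ N h.choose)⁻¹ * S n h.choose x v else 0
  have hTn : ∀ x ∈ Cone (I n), ∀ a, x a ≠ 0 → ∀ v : Fin m → σ → K n,
      (∀ j, v j ∈ Tangent (I n) x) → x a ^ N a * Tn x v = S n a x v := by
    intro x hx a ha v hv
    have h : ∃ a, x a ≠ 0 := ⟨a, ha⟩
    simp only [Tn]
    rw [dif_pos h]
    have hb := h.choose_spec
    have := h5 a h.choose x hx ha hb v hv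
    rw [← mul_assoc, mul_comm (x a ^ N a), mul_assoc, ← this, ← mul_assoc,
      inv_mul_cancel₀ (pow_ne_zero _ hb), one_mul]
  have hTne : ∀ x ∈ Cone (I n), x ≠ 0 → ∃ a, x a ≠ 0 := by
    intro x _ hx0
    by_contra h
    push Not at h
    exact hx0 (funext h)
  refine ⟨Tn, ⟨?_, ?_, ?_⟩, pt x n, h2, fun h => h3 (by rw [h]; rfl), fun j => pt (v j) n, h4, ?_⟩
  · intro a
    refine ⟨N a, fun w => at' n (P a w), hN a, fun w => ?_, ?_⟩
    · exact (totalDegree_at'_le n (hPs a w)).trans (hQ a w)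
    · intro x hx hxa v hv
      exact hTn x hx a hxa v hv
  · intro x hx hx0 v hv c hc
    obtain ⟨a, ha⟩ := hTne x hx hx0
    have hcx : (c • x) a ≠ 0 := mul_ne_zero hc ha
    have g1 := hTn x hx a ha v hv
    have g2 := hTn (c • x) (smul_mem_cone' (hom n) hx c) a hcx (fun j => c • v j)
      (fun j => tangent_smul' (hom n) (hv j) c)
    have g3 := h6 a x hx ha v hv c hc
    have g4 : (c • x) a = c * x a := rfl
    rw [g4] at g2
    rw [← g1, ← g2] at g3
    have hne1 : x a ^ N a ≠ 0 := pow_ne_zero _ ha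
    have hne2 : (c * x a) ^ N a ≠ 0 := pow_ne_zero _ (mul_ne_zero hc ha)
    have g5 : (x a ^ N a * (c * x a) ^ N a) * Tn (c • x) (fun j => c • v j) =
        (x a ^ N a * (c * x a) ^ N a) * Tn x v := by
      calc _ = x a ^ N a * ((c * x a) ^ N a * Tn (c • x) (fun j => c • v j)) := by ring
        _ = (c * x a) ^ N a * (x a ^ N a * Tn x v) := g3
        _ = _ := by ring
    exact mul_left_cancel₀ (mul_ne_zero hne1 hne2) g5
  · intro x hx hx0 v hv hj
    obtain ⟨a, ha⟩ := hTne x hx hx0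
    have g1 := hTn x hx a ha v hv
    rw [h7 a x hx ha v hv hj] at g1
    exact (mul_eq_zero.1 g1).resolve_left (pow_ne_zero _ ha)
  · intro h0
    have g1 := hTn (pt x n) h2 a0 h3 (fun j => pt (v j) n) h4
    rw [h0, mul_zero] at g1
    exact h1 g1.symm

end Ultra

end Pool.Agent.Work.MP_4329d7_ag.Unif
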