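import Pool.Agent.Work.MP_4329d7_ag.Key

/-!
Vanishing of tensor differentials of order `m` on the Fermat hypersurface of degree `n + 2` in
`ℙ^{n+1}` when `n` does not divide `m`.
-/

open MvPolynomial

namespace Pool.Agent.Work.MP_4329d7_ag

variable {n : ℕ}

/-- `key` for arbitrary vectors of the plane in the slots `S`. -/
theorem key1 {m : ℕ} {T : (Fin (n + 2) → ℂ) → (Fin m → Fin (n + 2) → ℂ) → ℂ}
    (hT : IsTensorDifferential (FI n) m T) {i k : Fin (n + 2)} (hik : i ≠ k)
    {x : Fin (n + 2) → ℂ} (hx : x ∈ Cone (FI n)) (hxi : x i ≠ 0) (hA : As i k x ≠ 0)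
    (S : Finset (Fin m)) (hS : n * S.card < m)
    (v : Fin m → Fin (n + 2) → ℂ) (hvt : ∀ j, v j ∈ Tangent (FI n) x)
    (hv : ∀ j, j ∉ S → v j i = 0 ∧ v j k = 0)
    (hvS : ∀ j, j ∈ S → ∃ a b c : ℂ, v j = pt i k x a b c) :
    T x v = 0 := by
  classical
  have hx0 : x ≠ 0 := fun h => hxi (by rw [h]; rfl)
  have hxt := mem_tangent_self hx
  set A := As i k x with hAdef
  have hx' := mem_cone_FI.1 hx
  have hs : x i ^ (n + 2) + x k ^ (n + 2) + A = 0 := by
    rw [sum_split hik] at hx'
    rw [hAdef]; unfold As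
    linear_combination hx'
  have hk := key hT hik hx hxi hA S hS v
    (fun j hj => ⟨(hv j hj).1, (hv j hj).2, (mem_tangent_FI hx).1 (hvt j)⟩)
  set u : Fin m → Fin (n + 2) → ℂ := fun j =>
    if j ∈ S then pt i k x 0 (-(As i k x * 1 ^ (n + 1))) (x k ^ (n + 1)) else v j with hu
  have hut : ∀ j, u j ∈ Tangent (FI n) x := by
    intro j
    by_cases hj : j ∈ S
    · simp only [hu, hj, if_true]
      rw [mem_tangent_FI hx]
      have hxpt : x = pt i k x (x i) (x k) 1 := by
        funext l
        simp only [pt]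
        split_ifs with h1 h2
        · rw [h1]
        · rw [h2]
        · rw [one_mul]
      have h3 := sum_pt hik x (x i) (x k) 1 0 (-(As i k x * 1 ^ (n + 1))) (x k ^ (n + 1))
      rw [← hxpt] at h3
      rw [h3]
      ring
    · simp only [hu, hj, if_false]
      exact hvt j
  choose! a b c habc using hvS
  -- v j = α_j • u j + β_j • x on S
  have hdec : ∀ j, j ∈ S → v j = (((a j / x i) * x k - b j) / A) • u j + (a j / x i) • x := by
    intro j hj
    have hvj := habc j hj
    have htj := (mem_tangent_FI hx).1 (hvt j)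
    have hxpt : x = pt i k x (x i) (x k) 1 := by
      funext l
      simp only [pt]
      split_ifs with h1 h2
      · rw [h1]
      · rw [h2]
      · rw [one_mul]
    have h3 := sum_pt hik x (x i) (x k) 1 (a j) (b j) (c j)
    rw [← hxpt, ← hvj, htj, ← hAdef] at h3
    funext l
    rw [Pi.add_apply, Pi.smul_apply, Pi.smul_apply, smul_eq_mul, smul_eq_mul]
    simp only [hu, hj, if_true]
    conv_lhs => rw [hvj]
    by_cases h1 : l = i
    · subst h1
      simp only [pt, if_true]
      field_simp
      ring
    · by_cases h2 : l = k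
      · subst h2
        simp only [pt, if_true, h1, if_false]
        rw [← hAdef]
        field_simp
        ring
      · simp only [pt, h1, h2, if_false]
        field_simp
        linear_combination (-(x i * x l)) * h3 - (x l * a j) * hs
  have hv_eq : v = fun j => ((if j ∈ S then (((a j / x i) * x k - b j) / A) else 1) • u j) +
      (if j ∈ S then (a j / x i) else 0) • x := by
    funext j
    by_cases hj : j ∈ S
    · simp only [hj, if_true]
      exact hdec j hj
    · simp only [hj, if_false, one_smul, zero_smul, add_zero, hu]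
  rw [hv_eq]
  rw [radial_shift hT hx hx0 hxt
    (fun j => (if j ∈ S then (((a j / x i) * x k - b j) / A) else 1) • u j)
    (fun j => (Tangent (FI n) x).smul_mem _ (hut j))
    (fun j => if j ∈ S then (a j / x i) else 0)]
  obtain ⟨Φ, hΦ⟩ := exists_multilinear hT hx hx0
  rw [hΦ _ (fun j => (Tangent (FI n) x).smul_mem _ (hut j)), MultilinearMap.map_smul_univ,
    ← hΦ _ hut, hk, smul_zero]

/-- `key` for arbitrary tangent vectors most of which have vanishing `i` and `k` coordinates. -/
theorem key2 {m : ℕ} {T : (Fin (n + 2) → ℂ) → (Fin m → Fin (n + 2) → ℂ) → ℂ}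
    (hT : IsTensorDifferential (FI n) m T) {i k : Fin (n + 2)} (hik : i ≠ k)
    {x : Fin (n + 2) → ℂ} (hx : x ∈ Cone (FI n)) (hxi : x i ≠ 0) (hA : As i k x ≠ 0)
    (S : Finset (Fin m)) (hS : n * S.card < m)
    (v : Fin m → Fin (n + 2) → ℂ) (hvt : ∀ j, v j ∈ Tangent (FI n) x)
    (hv : ∀ j, j ∉ S → v j i = 0 ∧ v j k = 0) :
    T x v = 0 := by
  classical
  have hx0 : x ≠ 0 := fun h => hxi (by rw [h]; rfl)
  set A := As i k x with hAdef
  obtain ⟨Φ, hΦ⟩ := exists_multilinear hT hx hx0
  have hxpt : x = pt i k x (x i) (x k) 1 := by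
    funext l
    simp only [pt]
    split_ifs with h1 h2
    · rw [h1]
    · rw [h2]
    · rw [one_mul]
  -- decomposition
  let c : Fin m → ℂ := fun j =>
    (∑ l ∈ (Finset.univ.erase i).erase k, x l ^ (n + 1) * v j l) / A
  let z : Fin m → Fin (n + 2) → ℂ := fun j =>
    if j ∈ S then pt i k x (v j i) (v j k) (c j) else 0
  let w : Fin m → Fin (n + 2) → ℂ := fun j => v j - z j
  have hzt : ∀ j, z j ∈ Tangent (FI n) x := by
    intro j
    by_cases hj : j ∈ S
    · simp only [z, hj, if_true]
      rw [mem_tangent_FI hx]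
      have h3 := sum_pt hik x (x i) (x k) 1 (v j i) (v j k) (c j)
      rw [← hxpt] at h3
      rw [h3]
      have h4 := (mem_tangent_FI hx).1 (hvt j)
      rw [sum_split hik] at h4
      simp only [c]
      rw [← hAdef]
      field_simp
      linear_combination h4
    · simp only [z, hj, if_false]
      exact (Tangent (FI n) x).zero_mem
  have hwt : ∀ j, w j ∈ Tangent (FI n) x := fun j => (Tangent (FI n) x).sub_mem (hvt j) (hzt j)
  have hw0 : ∀ j, w j i = 0 ∧ w j k = 0 := by
    intro j
    by_cases hj : j ∈ S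
    · simp only [w, z, hj, if_true, Pi.sub_apply, pt, hik.symm, if_false, sub_self, and_self]
    · simp only [w, z, hj, if_false, sub_zero]
      exact hv j hj
  have hvzw : v = z + w := by
    funext j
    simp only [w, Pi.add_apply]
    abel
  rw [hΦ _ hvt, hvzw, MultilinearMap.map_add_univ]
  refine Finset.sum_eq_zero (fun s _ => ?_)
  have hst : ∀ j, s.piecewise z w j ∈ Tangent (FI n) x := by
    intro j
    by_cases hj : j ∈ s
    · rw [Finset.piecewise_eq_of_mem _ _ _ hj]; exact hzt j
    · rw [Finset.piecewise_eq_of_notMem _ _ _ hj]; exact hwt j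
  by_cases hsS : s ⊆ S
  · rw [← hΦ _ hst]
    refine key1 hT hik hx hxi hA s ?_ _ hst ?_ ?_
    · exact lt_of_le_of_lt (Nat.mul_le_mul_left n (Finset.card_le_card hsS)) hS
    · intro j hj
      rw [Finset.piecewise_eq_of_notMem _ _ _ hj]
      exact hw0 j
    · intro j hj
      rw [Finset.piecewise_eq_of_mem _ _ _ hj]
      have : j ∈ S := hsS hj
      simp only [z, this, if_true]
      exact ⟨_, _, _, rfl⟩
  · obtain ⟨j, hjs, hjS⟩ := Finset.not_subset.1 hsS
    apply Φ.map_coord_zero j
    rw [Finset.piecewise_eq_of_mem _ _ _ hjs]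
    simp only [z, hjS, if_false]

/-- the middle indices `1, …, n` of `Fin (n + 2)`. -/
def mid (i : Fin n) : Fin (n + 2) := i.succ.castSucc

lemma mid_ne_zero (i : Fin n) : mid i ≠ 0 := by
  intro h
  have := congrArg Fin.val h
  simp [mid] at this

lemma mid_ne_last (i : Fin n) : mid i ≠ Fin.last (n + 1) := by
  intro h
  have := congrArg Fin.val h
  simp [mid] at this
  have h2 := i.isLt
  omega

lemma mid_injective : Function.Injective (mid : Fin n → Fin (n + 2)) := by
  intro a b h
  have := congrArg Fin.val h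
  simp [mid] at this
  exact Fin.ext this

/-- frame vectors -/
def fr (x : Fin (n + 2) → ℂ) (i : Fin n) : Fin (n + 2) → ℂ :=
  fun l => if l = mid i then x (Fin.last (n + 1)) ^ (n + 1)
    else if l = Fin.last (n + 1) then -(x (mid i) ^ (n + 1)) else 0

lemma sum_fin_split (f : Fin (n + 2) → ℂ) :
    ∑ l, f l = f 0 + ((∑ i : Fin n, f (mid i)) + f (Fin.last (n + 1))) := by
  rw [Fin.sum_univ_castSucc, Fin.sum_univ_succ]
  simp only [mid]
  have : f (Fin.castSucc (0 : Fin (n + 1))) = f 0 := rfl
  rw [this]; ring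

lemma fr_tangent {x : Fin (n + 2) → ℂ} (hx : x ∈ Cone (FI n)) (i : Fin n) :
    fr x i ∈ Tangent (FI n) x := by
  classical
  rw [mem_tangent_FI hx, sum_fin_split]
  have h0 : fr x i 0 = 0 := by
    simp only [fr]
    rw [if_neg (mid_ne_zero i).symm, if_neg]
    intro h
    have := congrArg Fin.val h
    simp at this
  have h1 : ∑ j : Fin n, x (mid j) ^ (n + 1) * fr x i (mid j) =
      x (mid i) ^ (n + 1) * x (Fin.last (n + 1)) ^ (n + 1) := by
    rw [Finset.sum_eq_single i]
    · simp [fr]
    · intro j _ hj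
      have : mid j ≠ mid i := fun h => hj (mid_injective h)
      simp only [fr]
      rw [if_neg this, if_neg (mid_ne_last j), mul_zero]
    · intro h; exact absurd (Finset.mem_univ i) h
  have h2 : fr x i (Fin.last (n + 1)) = -(x (mid i) ^ (n + 1)) := by
    simp only [fr]
    rw [if_neg (mid_ne_last i).symm]
    simp
  rw [h0, h1, h2]
  ring

/-- pigeonhole -/
lemma exists_few {m : ℕ} (hnm : ¬ n ∣ m) (w : Fin m → Fin n) :
    ∃ i : Fin n, n * (Finset.univ.filter (fun j => w j = i)).card < m := by
  by_contra h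
  push Not at h
  have h1 : ∑ i : Fin n, (Finset.univ.filter (fun j => w j = i)).card = m := by
    have := Finset.card_eq_sum_card_fiberwise (f := w) (s := Finset.univ) (t := Finset.univ)
      (fun _ _ => Finset.mem_coe.2 (Finset.mem_univ _))
    rw [Finset.card_univ, Fintype.card_fin] at this
    exact this.symm
  have h2 : ∑ i : Fin n, n * (Finset.univ.filter (fun j => w j = i)).card = ∑ i : Fin n, m := by
    rw [← Finset.mul_sum, h1, Finset.sum_const, Finset.card_univ, Fintype.card_fin, smul_eq_mul]
  rcases Nat.eq_zero_or_pos n with hn | hn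
  · subst hn
    rcases Nat.eq_zero_or_pos m with hm | hm
    · exact hnm (by rw [hm])
    · exact (w ⟨0, hm⟩).elim0
  · have h3 := (Finset.sum_eq_sum_iff_of_le (fun i _ => h i)).1 h2.symm ⟨0, hn⟩ (Finset.mem_univ _)
    exact hnm ⟨_, h3⟩

/-- vanishing at points with all coordinates nonzero and `x_0^d + x_i^d ≠ 0`. -/
theorem vanish_generic {m : ℕ} (hnm : ¬ n ∣ m)
    {T : (Fin (n + 2) → ℂ) → (Fin m → Fin (n + 2) → ℂ) → ℂ}
    (hT : IsTensorDifferential (FI n) m T)
    {x : Fin (n + 2) → ℂ} (hx : x ∈ Cone (FI n)) (hxn : ∀ l, x l ≠ 0)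
    (hA : ∀ i : Fin n, x 0 ^ (n + 2) + x (mid i) ^ (n + 2) ≠ 0)
    (v : Fin m → Fin (n + 2) → ℂ) (hvt : ∀ j, v j ∈ Tangent (FI n) x) :
    T x v = 0 := by
  classical
  have hx0 : x ≠ 0 := fun h => hxn 0 (by rw [h]; rfl)
  have hxt := mem_tangent_self hx
  obtain ⟨Φ, hΦ⟩ := exists_multilinear hT hx hx0
  set L := Fin.last (n + 1) with hL
  -- frame vectors
  have hfr : ∀ w : Fin m → Fin n, T x (fun j => fr x (w j)) = 0 := by
    intro w
    obtain ⟨i, hi⟩ := exists_few hnm w
    have hA' : As (mid i) 0 x ≠ 0 := by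
      have hx' := mem_cone_FI.1 hx
      rw [sum_split (mid_ne_zero i)] at hx'
      intro h0
      apply hA i
      have : As (mid i) 0 x = ∑ l ∈ (Finset.univ.erase (mid i)).erase 0, x l ^ (n + 2) := rfl
      rw [← this, h0] at hx'
      linear_combination hx'
    refine key2 hT (mid_ne_zero i) hx (hxn _) hA' (Finset.univ.filter (fun j => w j = i)) hi _
      (fun j => fr_tangent hx _) ?_
    intro j hj
    have hj' : w j ≠ i := by
      intro h; apply hj; rw [Finset.mem_filter]; exact ⟨Finset.mem_univ _, h⟩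
    constructor
    · simp only [fr]
      rw [if_neg (fun h => hj' (mid_injective h).symm), if_neg (mid_ne_last i)]
    · simp only [fr]
      rw [if_neg (mid_ne_zero (w j)).symm, if_neg]
      intro h
      have := congrArg Fin.val h
      simp at this
  -- remove the radial component
  let β : Fin m → ℂ := fun j => v j 0 / x 0
  let u : Fin m → Fin (n + 2) → ℂ := fun j => v j - β j • x
  have hut : ∀ j, u j ∈ Tangent (FI n) x := fun j =>
    (Tangent (FI n) x).sub_mem (hvt j) ((Tangent (FI n) x).smul_mem _ hxt)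
  have hu0 : ∀ j, u j 0 = 0 := by
    intro j
    simp only [u, β, Pi.sub_apply, Pi.smul_apply, smul_eq_mul]
    rw [div_mul_cancel₀ _ (hxn 0), sub_self]
  have hvu : v = fun j => u j + β j • x := by
    funext j
    simp only [u, sub_add_cancel]
  rw [hvu, radial_shift hT hx hx0 hxt u hut β]
  -- expansion in the frame
  have hexp : ∀ j, u j = ∑ i : Fin n, (u j (mid i) / x L ^ (n + 1)) • fr x i := by
    intro j
    have ht := (mem_tangent_FI hx).1 (hut j)
    rw [sum_fin_split, hu0, mul_zero, zero_add, ← hL] at ht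
    have hxL : x L ^ (n + 1) ≠ 0 := pow_ne_zero _ (hxn L)
    funext l
    rw [Finset.sum_apply]
    simp only [Pi.smul_apply, smul_eq_mul]
    by_cases hl0 : l = 0
    · subst hl0
      rw [hu0]
      symm
      refine Finset.sum_eq_zero (fun i _ => ?_)
      have : fr x i 0 = 0 := by
        simp only [fr]
        rw [if_neg (mid_ne_zero i).symm, if_neg]
        intro h
        have := congrArg Fin.val h
        simp at this
      rw [this, mul_zero]
    · by_cases hlL : l = L
      · subst hlL
        have : ∀ i : Fin n, (u j (mid i) / x L ^ (n + 1)) * fr x i L =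
            -(x (mid i) ^ (n + 1) * u j (mid i)) / x L ^ (n + 1) := by
          intro i
          simp only [fr]
          rw [if_neg (mid_ne_last i).symm, if_pos rfl]
          ring
        rw [Finset.sum_congr rfl (fun i _ => this i), ← Finset.sum_div, Finset.sum_neg_distrib]
        field_simp
        linear_combination ht
      · obtain ⟨i, rfl⟩ : ∃ i : Fin n, l = mid i := by
          have h1 : l.val ≠ 0 := fun h => hl0 (Fin.ext h)
          have h2 : l.val ≠ n + 1 := fun h => hlL (Fin.ext h)
          have h3 := l.isLt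
          refine ⟨⟨l.val - 1, by omega⟩, Fin.ext ?_⟩
          simp [mid]
          omega
        rw [Finset.sum_eq_single i]
        · simp only [fr, if_true]
          rw [← hL]
          field_simp
        · intro i' _ hi'
          have : mid i ≠ mid i' := fun h => hi' (mid_injective h).symm
          simp only [fr]
          rw [if_neg this, if_neg (mid_ne_last i), mul_zero]
        · intro h; exact absurd (Finset.mem_univ i) h
  have hu_eq : u = fun j => ∑ i : Fin n, (u j (mid i) / x L ^ (n + 1)) • fr x i := funext hexp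
  rw [hΦ _ hut, hu_eq, MultilinearMap.map_sum]
  refine Finset.sum_eq_zero (fun w _ => ?_)
  rw [MultilinearMap.map_smul_univ, ← hΦ _ (fun j => fr_tangent hx _), hfr w, smul_zero]

end Pool.Agent.Work.MP_4329d7_ag
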