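import Pool.Agent.Work.MP_4329d7_ag.Vanish

/-!
Extension of the vanishing from generic points to all points.
-/

open MvPolynomial

namespace Pool.Agent.Work.MP_4329d7_ag

variable {n : ℕ}

/-- a point of the Fermat cone with two nonzero coordinates. -/
lemma exists_point {a b : Fin (n + 2)} (hab : a ≠ b) :
    ∃ x ∈ Cone (FI n), x a = 1 ∧ x b ≠ 0 ∧ ∀ l, l ≠ a → l ≠ b → x l = 0 := by
  classical
  obtain ⟨z, hz⟩ : ∃ z : ℂ, z ^ (n + 2) = -1 := IsAlgClosed.exists_pow_nat_eq (-1) (by omega)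
  have hz0 : z ≠ 0 := by
    rintro rfl
    rw [zero_pow (by omega)] at hz
    norm_num at hz
  refine ⟨fun l => if l = a then 1 else if l = b then z else 0, ?_, by simp, ?_, ?_⟩
  · rw [mem_cone_FI, sum_split hab]
    have h1 : ∑ l ∈ (Finset.univ.erase a).erase b,
        ((if l = a then (1 : ℂ) else if l = b then z else 0) : ℂ) ^ (n + 2) = 0 := by
      refine Finset.sum_eq_zero (fun l hl => ?_)
      obtain ⟨h1, h2⟩ := mem_rest hl
      rw [if_neg h1, if_neg h2, zero_pow (by omega)]
    rw [h1]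
    simp [hab.symm, hz]
  · simp [hab.symm, hz0]
  · intro l h1 h2
    simp [h1, h2]

/-- the polynomial describing the non-generic points. -/
noncomputable def Gpoly (n : ℕ) : MvPolynomial (Fin (n + 2)) ℂ :=
  (∏ l, X l) * ∏ i : Fin n, (X 0 ^ (n + 2) + X (mid i) ^ (n + 2))

lemma Gpoly_notMem (hn : 1 ≤ n) : Gpoly n ∉ FI n := by
  have hp := prime_FI hn
  intro h
  rcases hp.mem_or_mem h with h | h
  · obtain ⟨l, _, hl⟩ := (hp.prod_mem_iff).1 h
    obtain ⟨b, hb⟩ : ∃ b : Fin (n + 2), l ≠ b := by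
      by_cases h0 : l = 0
      · refine ⟨Fin.last (n + 1), ?_⟩
        rw [h0]
        intro h
        have := congrArg Fin.val h
        simp at this
      · exact ⟨0, h0⟩
    obtain ⟨x, hx, h1, _, _⟩ := exists_point hb
    have := hx _ hl
    rw [eval_X, h1] at this
    exact one_ne_zero this
  · obtain ⟨i, _, hi⟩ := (hp.prod_mem_iff).1 h
    have h0 : (0 : Fin (n + 2)) ≠ Fin.last (n + 1) := by
      intro h
      have := congrArg Fin.val h
      simp at this
    obtain ⟨x, hx, h1, _, h2⟩ := exists_point h0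
    have := hx _ hi
    rw [map_add, map_pow, map_pow, eval_X, eval_X, h1, h2 _ (mid_ne_zero i) (mid_ne_last i),
      one_pow, zero_pow (by omega), add_zero] at this
    exact one_ne_zero this

/-- polynomial frame of tangent vector fields. -/
noncomputable def EP (a j l : Fin (n + 2)) : MvPolynomial (Fin (n + 2)) ℂ :=
  (if l = j then X a ^ (n + 1) else 0) - (if l = a then X j ^ (n + 1) else 0)

/-- the corresponding vectors. -/
def ee (a : Fin (n + 2)) (x : Fin (n + 2) → ℂ) (j : Fin (n + 2)) : Fin (n + 2) → ℂ := fun l =>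
  (if l = j then x a ^ (n + 1) else 0) - (if l = a then x j ^ (n + 1) else 0)

lemma eval_EP (a j l : Fin (n + 2)) (x : Fin (n + 2) → ℂ) :
    eval x (EP a j l) = ee a x j l := by
  unfold EP ee
  rw [map_sub]
  split_ifs <;> simp

lemma ee_tangent {x : Fin (n + 2) → ℂ} (hx : x ∈ Cone (FI n)) (a j : Fin (n + 2)) :
    ee a x j ∈ Tangent (FI n) x := by
  rw [mem_tangent_FI hx]
  simp only [ee, mul_sub, Finset.sum_sub_distrib, mul_ite, mul_zero, Finset.sum_ite_eq',
    Finset.mem_univ, if_true]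
  ring

theorem noTensorDifferentials_FI (hn : 1 ≤ n) {m : ℕ} (hnm : ¬ n ∣ m) :
    NoTensorDifferentials (FI n) m := by
  classical
  intro T hT x hx hx0 v hv
  obtain ⟨a, ha⟩ : ∃ a, x a ≠ 0 := by
    by_contra h
    push Not at h
    exact hx0 (funext h)
  obtain ⟨N, P, hP⟩ := hT.regular a
  have hframe : ∀ w : Fin m → Fin (n + 2), T x (fun j => ee a x (w j)) = 0 := by
    intro w
    let Q : MvPolynomial (Fin (n + 2)) ℂ :=
      ∑ u : Fin m → Fin (n + 2), P u * ∏ j, EP a (w j) (u j)
    have hQ : ∀ y : Fin (n + 2) → ℂ, eval y Q =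
        ∑ u : Fin m → Fin (n + 2), eval y (P u) * ∏ j, ee a y (w j) (u j) := by
      intro y
      simp only [Q, map_sum, map_mul, map_prod, eval_EP]
    have hgen : ∀ y ∈ Cone (FI n), eval y (Gpoly n) ≠ 0 → eval y Q = 0 := by
      intro y hy hGy
      have hG1 : (∏ l, y l) * ∏ i : Fin n, (y 0 ^ (n + 2) + y (mid i) ^ (n + 2)) ≠ 0 := by
        have : eval y (Gpoly n) =
            (∏ l, y l) * ∏ i : Fin n, (y 0 ^ (n + 2) + y (mid i) ^ (n + 2)) := by
          simp [Gpoly, map_prod]
        rwa [this] at hGy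
      have hyl : ∀ l, y l ≠ 0 := fun l =>
        (Finset.prod_ne_zero_iff.1 (left_ne_zero_of_mul hG1)) l (Finset.mem_univ l)
      have hyi : ∀ i : Fin n, y 0 ^ (n + 2) + y (mid i) ^ (n + 2) ≠ 0 := fun i =>
        (Finset.prod_ne_zero_iff.1 (right_ne_zero_of_mul hG1)) i (Finset.mem_univ i)
      rw [hQ, ← hP y hy (hyl a) _ (fun j => ee_tangent hy a (w j)),
        vanish_generic hnm hT hy hyl hyi _ (fun j => ee_tangent hy a (w j)), mul_zero]
    have h1 := vanish_of_generic hn Q (Gpoly n) (Gpoly_notMem hn) hgen x hx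
    rw [hQ, ← hP x hx ha _ (fun j => ee_tangent hx a (w j))] at h1
    exact (mul_eq_zero.1 h1).resolve_left (pow_ne_zero _ ha)
  obtain ⟨Φ, hΦ⟩ := exists_multilinear hT hx hx0
  have hexp : ∀ j, v j = ∑ l, (v j l / x a ^ (n + 1)) • ee a x l := by
    intro j
    have ht := (mem_tangent_FI hx).1 (hv j)
    have hxa : x a ^ (n + 1) ≠ 0 := pow_ne_zero _ ha
    funext q
    rw [Finset.sum_apply]
    simp only [Pi.smul_apply, smul_eq_mul, ee, mul_sub, Finset.sum_sub_distrib, mul_ite, mul_zero,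
      Finset.sum_ite_eq, Finset.mem_univ, if_true]
    have h2 : ∑ l, (if q = a then v j l / x a ^ (n + 1) * x l ^ (n + 1) else 0) = 0 := by
      by_cases hq : q = a
      · simp only [hq, if_true]
        have : ∀ l, v j l / x a ^ (n + 1) * x l ^ (n + 1) =
            (x l ^ (n + 1) * v j l) / x a ^ (n + 1) := fun l => by ring
        rw [Finset.sum_congr rfl (fun l _ => this l), ← Finset.sum_div, ht, zero_div]
      · simp only [hq, if_false, Finset.sum_const_zero]
    rw [h2, sub_zero, div_mul_cancel₀ _ hxa]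
  have hv_eq : v = fun j => ∑ l, (v j l / x a ^ (n + 1)) • ee a x l := funext hexp
  rw [hΦ _ hv, hv_eq, MultilinearMap.map_sum]
  refine Finset.sum_eq_zero (fun w _ => ?_)
  rw [MultilinearMap.map_smul_univ, ← hΦ _ (fun j => ee_tangent hx a _), hframe w, smul_zero]

end Pool.Agent.Work.MP_4329d7_ag
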