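import Pool.Agent.Work.MP_4329d7_ag.VanishAll
import Pool.Agent.Work.MP_4329d7_ag.Segre

/-!
Vanishing of tensor differentials on the product of the Fermat hypersurface with `ℙ^k`.
-/

open MvPolynomial

namespace Pool.Agent.Work.MP_4329d7_ag

variable {n k : ℕ}

lemma zero_of_radial {σ : Type} [Fintype σ] {I : Ideal (MvPolynomial σ ℂ)} {m : ℕ}
    {T : (σ → ℂ) → (Fin m → σ → ℂ) → ℂ} (hT : IsTensorDifferential I m T)
    {x : σ → ℂ} (hx : x ∈ Cone I) (hx0 : x ≠ 0) (hxt : x ∈ Tangent I x)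
    (v : Fin m → σ → ℂ) (hv : ∀ j, v j ∈ Tangent I x) (j : Fin m) (c : ℂ)
    (hj : v j = c • x) : T x v = 0 := by
  classical
  obtain ⟨Φ, hΦ⟩ := exists_multilinear hT hx hx0
  have hut : ∀ l, (Function.update v j x) l ∈ Tangent I x := by
    intro l
    by_cases hl : l = j
    · subst hl; simpa using hxt
    · rw [Function.update_of_ne hl]; exact hv l
  have h2 : Φ v = c * Φ (Function.update v j x) := by
    have := Φ.map_update_smul v j c x
    rw [← hj, Function.update_eq_self] at this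
    rw [this, smul_eq_mul]
  rw [hΦ v hv, h2, ← hΦ _ hut, hT.radial x hx hx0 _ hut ⟨j, by simp⟩, mul_zero]

lemma sp_tangent1 {x u : Fin (n + 2) → ℂ} (hx : x ∈ Cone (FI n)) (hu : u ∈ Tangent (FI n) x)
    (y : Fin (k + 1) → ℂ) : sp u y ∈ Tangent (SI n k) (sp x y) := by
  have h := sp_tangent hx hu y 0
  have h2 : (fun ij : SIdx n k => u ij.1 * y ij.2 + x ij.1 * (0 : Fin (k + 1) → ℂ) ij.2) =
      sp u y := by
    funext ij
    simp [sp]
  rw [h2] at h
  exact h

lemma sp_tangent2 {x : Fin (n + 2) → ℂ} (hx : x ∈ Cone (FI n))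
    (y w : Fin (k + 1) → ℂ) : sp x w ∈ Tangent (SI n k) (sp x y) := by
  have h := sp_tangent hx (Submodule.zero_mem (Tangent (FI n) x)) y w
  have h2 : (fun ij : SIdx n k => (0 : Fin (n + 2) → ℂ) ij.1 * y ij.2 + x ij.1 * w ij.2) =
      sp x w := by
    funext ij
    simp [sp]
  rw [h2] at h
  exact h

lemma sp_ne_zero {x : Fin (n + 2) → ℂ} (hx0 : x ≠ 0) {y : Fin (k + 1) → ℂ} (hy0 : y ≠ 0) :
    sp x y ≠ 0 := by
  obtain ⟨i0, hi0⟩ : ∃ i, x i ≠ 0 := by
    by_contra h
    push Not at h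
    exact hx0 (funext h)
  obtain ⟨j0, hj0⟩ : ∃ j, y j ≠ 0 := by
    by_contra h
    push Not at h
    exact hy0 (funext h)
  intro h
  have := congrFun h (i0, j0)
  exact mul_ne_zero hi0 hj0 this

lemma sp_smul_right (x : Fin (n + 2) → ℂ) (c : ℂ) (y : Fin (k + 1) → ℂ) :
    sp x (c • y) = c • sp x y := by
  funext ij
  simp only [sp, Pi.smul_apply, smul_eq_mul]
  ring

lemma sp_smul_left (x : Fin (n + 2) → ℂ) (c : ℂ) (y : Fin (k + 1) → ℂ) :
    sp (c • x) y = c • sp x y := by
  funext ij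
  simp only [sp, Pi.smul_apply, smul_eq_mul]
  ring

/-- Homogeneity in the second factor. -/
lemma mixed_hom {m : ℕ} {T : (SIdx n k → ℂ) → (Fin m → SIdx n k → ℂ) → ℂ}
    (hT : IsTensorDifferential (SI n k) m T) {x : Fin (n + 2) → ℂ} (hx : x ∈ Cone (FI n))
    (hx0 : x ≠ 0) (S : Finset (Fin m)) (u : Fin m → Fin (n + 2) → ℂ)
    (hu : ∀ j, u j ∈ Tangent (FI n) x) (w : Fin m → Fin (k + 1) → ℂ)
    {y : Fin (k + 1) → ℂ} (hy0 : y ≠ 0) {c : ℂ} (hc : c ≠ 0) :
    c ^ S.card * T (sp x (c • y)) (fun j => if j ∈ S then sp x (w j) else sp (u j) (c • y)) =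
      T (sp x y) (fun j => if j ∈ S then sp x (w j) else sp (u j) y) := by
  classical
  have hz : sp x (c • y) ∈ Cone (SI n k) := sp_mem_cone hx _
  have hz0 : sp x (c • y) ≠ 0 := sp_ne_zero hx0 (smul_ne_zero hc hy0)
  have ht : ∀ j, (if j ∈ S then sp x (w j) else sp (u j) (c • y)) ∈
      Tangent (SI n k) (sp x (c • y)) := by
    intro j
    by_cases hj : j ∈ S
    · simp only [hj, if_true]; exact sp_tangent2 hx _ _
    · simp only [hj, if_false]; exact sp_tangent1 hx (hu j) _
  have ht' : ∀ j, (if j ∈ S then sp x (w j) else sp (u j) y) ∈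
      Tangent (SI n k) (sp x y) := by
    intro j
    by_cases hj : j ∈ S
    · simp only [hj, if_true]; exact sp_tangent2 hx _ _
    · simp only [hj, if_false]; exact sp_tangent1 hx (hu j) _
  obtain ⟨Φ, hΦ⟩ := exists_multilinear hT hz hz0
  rw [← hT.scaling (sp x y) (sp_mem_cone hx _) (sp_ne_zero hx0 hy0) _ ht' c hc]
  rw [← sp_smul_right x c y]
  have h1 : (fun j => c • (if j ∈ S then sp x (w j) else sp (u j) y)) =
      fun j => (if j ∈ S then c else 1) • (if j ∈ S then sp x (w j) else sp (u j) (c • y)) := by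
    funext j
    by_cases hj : j ∈ S
    · simp only [hj, if_true]
    · simp only [hj, if_false, one_smul, sp_smul_right]
  rw [h1, hΦ _ ht, hΦ _ (fun j => Submodule.smul_mem _ _ (ht j)), MultilinearMap.map_smul_univ,
    smul_eq_mul, Finset.prod_ite_mem, Finset.univ_inter, Finset.prod_const]

theorem mixed_vanish {m : ℕ} {T : (SIdx n k → ℂ) → (Fin m → SIdx n k → ℂ) → ℂ}
    (hT : IsTensorDifferential (SI n k) m T) {x : Fin (n + 2) → ℂ} (hx : x ∈ Cone (FI n))
    (hx0 : x ≠ 0) (S : Finset (Fin m)) (hS : S.Nonempty) (u : Fin m → Fin (n + 2) → ℂ)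
    (hu : ∀ j, u j ∈ Tangent (FI n) x) (w : Fin m → Fin (k + 1) → ℂ)
    {y : Fin (k + 1) → ℂ} (hy0 : y ≠ 0) :
    T (sp x y) (fun j => if j ∈ S then sp x (w j) else sp (u j) y) = 0 := by
  classical
  obtain ⟨i0, hi0⟩ : ∃ i, x i ≠ 0 := by
    by_contra h
    push Not at h
    exact hx0 (funext h)
  obtain ⟨j0, hj0⟩ : ∃ j, y j ≠ 0 := by
    by_contra h
    push Not at h
    exact hy0 (funext h)
  have htan : ∀ (z : Fin (k + 1) → ℂ) (j : Fin m), (if j ∈ S then sp x (w j) else sp (u j) z) ∈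
      Tangent (SI n k) (sp x z) := by
    intro z j
    by_cases hj : j ∈ S
    · simp only [hj, if_true]; exact sp_tangent2 hx _ _
    · simp only [hj, if_false]; exact sp_tangent1 hx (hu j) _
  by_cases hk : ∃ j1 : Fin (k + 1), j1 ≠ j0
  · obtain ⟨j1, hj1⟩ := hk
    set y' : Fin (k + 1) → ℂ := Function.update y j1 0 with hy'
    have hy'0 : y' j0 = y j0 := by rw [hy', Function.update_of_ne hj1.symm]
    have hy'1 : y' j1 = 0 := by rw [hy', Function.update_self]
    let ys : ℂ → ℂ → Fin (k + 1) → ℂ := fun s t j => s * y' j + (if j = j1 then t else 0)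
    have hys0 : ∀ s t, ys s t j0 = s * y j0 := by
      intro s t
      simp only [ys, hy'0, hj1.symm, if_false, add_zero]
    have hys1 : ∀ s t, ys s t j1 = t := by
      intro s t
      simp only [ys, hy'1, mul_zero, if_true, zero_add]
    have hysy : ys 1 (y j1) = y := by
      funext j
      by_cases hj : j = j1
      · rw [hj, hys1]
      · simp only [ys, hj, if_false, one_mul, add_zero]
        rw [hy', Function.update_of_ne hj]
    have hyss : ∀ c s t, ys (c * s) (c * t) = c • ys s t := by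
      intro c s t
      funext j
      simp only [ys, Pi.smul_apply, smul_eq_mul]
      split_ifs <;> ring
    have hys_ne : ∀ s t, s ≠ 0 → ys s t ≠ 0 := by
      intro s t hs h
      have := congrFun h j0
      rw [hys0] at this
      exact mul_ne_zero hs hj0 this
    let V : ℂ → ℂ → Fin m → SIdx n k → ℂ := fun s t j =>
      if j ∈ S then sp x (w j) else sp (u j) (ys s t)
    let h : ℂ → ℂ → ℂ → ℂ := fun s0 s1 _ => T (sp x (ys s0 s1)) (V s0 s1)
    obtain ⟨N0, P0, hP0⟩ := hT.regular (i0, j0)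
    obtain ⟨N1, P1, hP1⟩ := hT.regular (i0, j1)
    let YP : Fin (k + 1) → MvPolynomial (Fin 2) ℂ := fun j =>
      X 0 * C (y' j) + (if j = j1 then X 1 else 0)
    have hYP : ∀ s0 s1 j, eval ![s0, s1] (YP j) = ys s0 s1 j := by
      intro s0 s1 j
      simp only [YP, ys]
      split_ifs <;> simp
    let ZP : SIdx n k → Polynomial (MvPolynomial (Fin 2) ℂ) := fun ij =>
      Polynomial.C (C (x ij.1) * YP ij.2)
    let VP : Fin m → SIdx n k → Polynomial (MvPolynomial (Fin 2) ℂ) := fun j ij =>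
      if j ∈ S then Polynomial.C (C (sp x (w j) ij)) else Polynomial.C (C (u j ij.1) * YP ij.2)
    have hZP : ∀ s0 s1 s2 : ℂ, (fun ij => ev3 s0 s1 s2 (ZP ij)) = sp x (ys s0 s1) := by
      intro s0 s1 s2
      funext ij
      simp only [ZP, sp]
      rw [ev3_C, map_mul, eval_C, hYP]
    have hVP : ∀ (s0 s1 s2 : ℂ) (j : Fin m) (ij : SIdx n k),
        ev3 s0 s1 s2 (VP j ij) = V s0 s1 j ij := by
      intro s0 s1 s2 j ij
      by_cases hj : j ∈ S
      · simp only [VP, V, hj, if_true]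
        rw [ev3_C, eval_C]
      · simp only [VP, V, hj, if_false]
        rw [ev3_C, map_mul, eval_C, hYP]
        rfl
    let Q0 : Polynomial (MvPolynomial (Fin 2) ℂ) :=
      ∑ w : Fin m → SIdx n k, aeval ZP (P0 w) * ∏ j, VP j (w j)
    let Q1 : Polynomial (MvPolynomial (Fin 2) ℂ) :=
      ∑ w : Fin m → SIdx n k, aeval ZP (P1 w) * ∏ j, VP j (w j)
    have hQ0 : ∀ s0 s1 s2 : ℂ, ev3 s0 s1 s2 Q0 =
        ∑ w : Fin m → SIdx n k, eval (sp x (ys s0 s1)) (P0 w) * ∏ j, V s0 s1 j (w j) := by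
      intro s0 s1 s2
      simp only [Q0, map_sum, map_mul, map_prod, ev3_aeval, hZP, hVP]
    have hQ1 : ∀ s0 s1 s2 : ℂ, ev3 s0 s1 s2 Q1 =
        ∑ w : Fin m → SIdx n k, eval (sp x (ys s0 s1)) (P1 w) * ∏ j, V s0 s1 j (w j) := by
      intro s0 s1 s2
      simp only [Q1, map_sum, map_mul, map_prod, ev3_aeval, hZP, hVP]
    have hcv := curve_vanish 1 (by omega) 1 one_ne_zero (N0 + N1) S.card hS.card_pos h
      (Polynomial.C (C (((x i0 * y j0) ^ N0)⁻¹) * X 0 ^ N1) * Q0)
      (Polynomial.C (C ((x i0 ^ N1)⁻¹) * X 1 ^ N0) * Q1) ?_ ?_ ?_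
    · have hz := hcv 1 (y j1) (-1 - y j1) (by ring) one_ne_zero
      simp only [h, V] at hz
      rw [hysy] at hz
      exact hz
    · intro s0 s1 s2 hs h0
      have hne : sp x (ys s0 s1) (i0, j0) ≠ 0 := by
        simp only [sp]
        rw [hys0]
        exact mul_ne_zero hi0 (mul_ne_zero h0 hj0)
      have := hP0 (sp x (ys s0 s1)) (sp_mem_cone hx _) hne (V s0 s1) (htan (ys s0 s1))
      rw [map_mul, ev3_C, map_mul, map_pow, eval_C, eval_X, hQ0, ← this]
      simp only [sp, h, Matrix.cons_val_zero]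
      rw [hys0]
      have hne2 : x i0 * y j0 ≠ 0 := mul_ne_zero hi0 hj0
      have e1 : (x i0 * (s0 * y j0)) ^ N0 = (x i0 * y j0) ^ N0 * s0 ^ N0 := by
        rw [← mul_pow]; ring
      rw [e1, pow_add]
      field_simp
    · intro s0 s1 s2 hs h1
      have hne : sp x (ys s0 s1) (i0, j1) ≠ 0 := by
        simp only [sp]
        rw [hys1]
        exact mul_ne_zero hi0 h1
      have := hP1 (sp x (ys s0 s1)) (sp_mem_cone hx _) hne (V s0 s1) (htan (ys s0 s1))
      rw [map_mul, ev3_C, map_mul, map_pow, eval_C, eval_X, hQ1, ← this]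
      simp only [sp, h, Matrix.cons_val_one, Matrix.cons_val_zero]
      rw [hys1]
      have e1 : (x i0 * s1) ^ N1 = x i0 ^ N1 * s1 ^ N1 := by
        rw [← mul_pow]
      rw [e1, pow_add]
      field_simp
    · intro c hc s0 s1 s2 hs h0
      simp only [h, V]
      rw [hyss]
      exact mixed_hom hT hx hx0 S u hu w (hys_ne s0 s1 h0) hc
  · push Not at hk
    obtain ⟨j, hj⟩ := hS
    refine zero_of_radial hT (sp_mem_cone hx _) (sp_ne_zero hx0 hy0) (sp_tangent2 hx y y) _
      (htan y) j (w j j0 / y j0) ?_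
    simp only [hj, if_true]
    rw [← sp_smul_right]
    congr 1
    funext l
    rw [hk l, Pi.smul_apply, smul_eq_mul, div_mul_cancel₀ _ hj0]

/-- restriction to a fibre of the second projection. -/
lemma fibre_isTensorDifferential {m : ℕ} {T : (SIdx n k → ℂ) → (Fin m → SIdx n k → ℂ) → ℂ}
    (hT : IsTensorDifferential (SI n k) m T) {y : Fin (k + 1) → ℂ} (hy0 : y ≠ 0) :
    IsTensorDifferential (FI n) m (fun x u => T (sp x y) (fun j => sp (u j) y)) where
  regular := by
    classical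
    intro a
    obtain ⟨j0, hj0⟩ : ∃ j, y j ≠ 0 := by
      by_contra h
      push Not at h
      exact hy0 (funext h)
    obtain ⟨N, P, hP⟩ := hT.regular (a, j0)
    refine ⟨N, fun w => ∑ c : Fin m → Fin (k + 1), C ((y j0 ^ N)⁻¹ * ∏ j, y (c j)) *
      aeval (fun ij : SIdx n k => (X ij.1 * C (y ij.2) : MvPolynomial (Fin (n + 2)) ℂ))
        (P (fun j => (w j, c j))), ?_⟩
    intro x hx hxa v hv
    have h1 := hP (sp x y) (sp_mem_cone hx y) (mul_ne_zero hxa hj0) (fun j => sp (v j) y)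
      (fun j => sp_tangent1 hx (hv j) y)
    have hev : ∀ p : MvPolynomial (SIdx n k) ℂ,
        eval x (aeval (fun ij : SIdx n k => (X ij.1 * C (y ij.2) : MvPolynomial (Fin (n + 2)) ℂ)) p)
          = eval (sp x y) p := by
      intro p
      induction p using MvPolynomial.induction_on with
      | C a => rw [aeval_C, eval_C]; exact eval_C a
      | add p q hp hq => rw [map_add, map_add, map_add, hp, hq]
      | mul_X p t hp =>
        rw [map_mul, map_mul, map_mul, aeval_X, eval_X, hp, map_mul, eval_X, eval_C]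
        rfl
    have h2 : (sp x y (a, j0)) ^ N = x a ^ N * y j0 ^ N := by
      simp only [sp]; rw [mul_pow]
    rw [h2] at h1
    have hyN : y j0 ^ N ≠ 0 := pow_ne_zero _ hj0
    have h3 : x a ^ N * T (sp x y) (fun j => sp (v j) y) = (y j0 ^ N)⁻¹ *
        ∑ w : Fin m → SIdx n k, eval (sp x y) (P w) * ∏ j, sp (v j) y (w j) := by
      rw [← h1]; field_simp
    rw [h3, Finset.mul_sum]
    rw [← (Equiv.arrowProdEquivProdArrow (Fin m) (fun _ => Fin (n + 2))
      (fun _ => Fin (k + 1))).symm.sum_comp, Fintype.sum_prod_type]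
    refine Finset.sum_congr rfl (fun w _ => ?_)
    rw [map_sum, Finset.sum_mul]
    refine Finset.sum_congr rfl (fun c _ => ?_)
    rw [map_mul, eval_C, hev]
    have h4 : ((Equiv.arrowProdEquivProdArrow (Fin m) (fun _ => Fin (n + 2))
      (fun _ => Fin (k + 1))).symm (w, c)) = fun j => (w j, c j) := rfl
    rw [h4]
    simp only [sp]
    rw [Finset.prod_mul_distrib]
    ring
  scaling := by
    intro x hx hx0 v hv c hc
    have := hT.scaling (sp x y) (sp_mem_cone hx y) (sp_ne_zero hx0 hy0) (fun j => sp (v j) y)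
      (fun j => sp_tangent1 hx (hv j) y) c hc
    simp only [sp_smul_left]
    exact this
  radial := by
    intro x hx hx0 v hv hj
    obtain ⟨j, hj⟩ := hj
    exact hT.radial (sp x y) (sp_mem_cone hx y) (sp_ne_zero hx0 hy0) (fun j => sp (v j) y)
      (fun j => sp_tangent1 hx (hv j) y) ⟨j, by rw [hj]⟩

theorem noTensorDifferentials_SI (hn : 1 ≤ n) {m : ℕ} (hnm : ¬ n ∣ m) :
    NoTensorDifferentials (SI n k) m := by
  classical
  intro T hT z hz hz0 v hv
  obtain ⟨x, hx, hx0, y, hy0, rfl⟩ := cone_SI hz hz0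
  have h1 : ∀ j, ∃ u ∈ Tangent (FI n) x, ∃ w : Fin (k + 1) → ℂ, v j = sp x w + sp u y := by
    intro j
    obtain ⟨u, hu, w, hw⟩ := tangent_SI hx hx0 hy0 (hv j)
    refine ⟨u, hu, w, ?_⟩
    rw [hw]
    funext ij
    simp only [Pi.add_apply, sp]
    ring
  choose u hu w hw using h1
  obtain ⟨Φ, hΦ⟩ := exists_multilinear hT hz hz0
  rw [hΦ v hv]
  have h2 : v = (fun j => sp x (w j)) + (fun j => sp (u j) y) := funext hw
  rw [h2, MultilinearMap.map_add_univ]
  refine Finset.sum_eq_zero (fun S _ => ?_)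
  have h3 : (S.piecewise (fun j => sp x (w j)) (fun j => sp (u j) y) : Fin m → SIdx n k → ℂ) =
      fun j => if j ∈ S then sp x (w j) else sp (u j) y := by
    funext j
    simp only [Finset.piecewise]
  rw [h3, ← hΦ]
  · rcases S.eq_empty_or_nonempty with rfl | hS
    · simp only [Finset.notMem_empty, if_false]
      exact noTensorDifferentials_FI hn hnm _ (fibre_isTensorDifferential hT hy0) x hx hx0 u hu
    · exact mixed_vanish hT hx hx0 S hS u hu w hy0
  · intro j
    by_cases hj : j ∈ S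
    · simp only [hj, if_true]; exact sp_tangent2 hx _ _
    · simp only [hj, if_false]; exact sp_tangent1 hx (hu j) _

end Pool.Agent.Work.MP_4329d7_ag
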